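import Pool.Agent.Lib.UR.BlueB

/-! An algebraic element becomes integral after multiplication by a polynomial. -/

open Set Polynomial

noncomputable section

namespace Pool.Agent.Lib.UR

namespace ALG
variable {k L : Type} [Field k] [Field L] [Algebra k L] {τ : Type}

theorem mem_pow (t : τ → L) {x : L} (hx : x ∈ Algebra.adjoin k (range t)) :
    ∃ e : ℕ, x ∈ sys k t ^ e := by
  induction hx using Algebra.adjoin_induction with
  | mem x hx =>
    obtain ⟨j, rfl⟩ := hx
    exact ⟨1, by rw [pow_one]; exact mem_sys t j⟩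
  | algebraMap r =>
    refine ⟨1, ?_⟩
    rw [pow_one, Algebra.algebraMap_eq_smul_one]
    exact Submodule.smul_mem _ _ (one_mem_sys t)
  | add x y _ _ hx hy =>
    obtain ⟨e, he⟩ := hx
    obtain ⟨e', he'⟩ := hy
    exact ⟨max e e', add_mem (pow_mono' (one_mem_sys t) (le_max_left _ _) he)
      (pow_mono' (one_mem_sys t) (le_max_right _ _) he')⟩
  | mul x y _ _ hx hy =>
    obtain ⟨e, he⟩ := hx
    obtain ⟨e', he'⟩ := hy
    exact ⟨e + e', by rw [pow_add]; exact Submodule.mul_mem_mul he he'⟩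

theorem val_le {Γ : Type} [LinearOrderedCommGroupWithZero Γ] (v : Valuation L Γ) (a : ℕ → L)
    (d : ℕ) (y : L) (g : Γ) (ha : ∀ i ≤ d, v (a i) ≤ g)
    (h : ∑ i ∈ Finset.range (d + 1), a i * y ^ i = 0) : v (a d * y) ≤ g := by
  by_contra hc
  push Not at hc
  rw [map_mul] at hc
  have h0 : v (a d) ≠ 0 := by
    intro h0
    rw [h0, zero_mul] at hc
    exact absurd hc (not_lt.2 zero_le)
  have h1 : 1 < v y := by
    have : v (a d) * 1 < v (a d) * v y := by
      rw [mul_one]
      exact (ha d le_rfl).trans_lt hc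
    exact lt_of_mul_lt_mul_left this zero_le
  have h2 : 0 < v y := zero_lt_one.trans h1
  rw [Finset.sum_range_succ] at h
  have h3 : v (∑ i ∈ Finset.range d, a i * y ^ i) < v (a d * y ^ d) := by
    refine v.map_sum_lt ?_ fun i hi => ?_
    · rw [map_mul, map_pow]
      exact mul_ne_zero h0 (pow_ne_zero _ h2.ne')
    · have hi' := Finset.mem_range.1 hi
      rw [map_mul, map_mul, map_pow, map_pow]
      calc v (a i) * v y ^ i ≤ g * v y ^ i := mul_le_mul' (ha i hi'.le) le_rfl
        _ < v (a d) * v y * v y ^ i := mul_lt_mul_of_pos_right hc (pow_pos h2 i)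
        _ = v (a d) * v y ^ (i + 1) := by rw [pow_succ', mul_assoc]
        _ ≤ v (a d) * v y ^ d := mul_le_mul' le_rfl (pow_le_pow_right₀ h1.le hi')
  rw [eq_neg_of_add_eq_zero_left h, Valuation.map_neg] at h3
  exact lt_irrefl _ h3

end ALG

theorem st_ALG : St_ALG := by
  intro k L _ _ _ τ _ t y hy
  obtain ⟨P, hP, h0⟩ := IntermediateField.isAlgebraic_adjoin_iff.1 hy
  choose e he using fun i => ALG.mem_pow t (P.coeff i).2
  let E := (Finset.range (P.natDegree + 1)).sup e
  have hE : ∀ i ≤ P.natDegree, (P.coeff i : L) ∈ sys k t ^ E := fun i hi =>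
    pow_mono' (one_mem_sys t) (Finset.le_sup (Finset.mem_range.2 (Nat.lt_succ_of_le hi))) (he i)
  refine ⟨E, P.coeff P.natDegree, hE _ le_rfl, ?_, fun O hO => ?_⟩
  · intro h
    exact leadingCoeff_ne_zero.2 hP (Subtype.ext h)
  · have := fd_pow (sys k t) E
    obtain ⟨u, hu, h1⟩ := exists_max (sys k t ^ E) O hO
    refine ⟨u, hu, ALG.val_le O.valuation (fun i => (P.coeff i : L)) P.natDegree y _
      (fun i hi => h1 (hE i hi)) ?_⟩
    rw [aeval_eq_sum_range] at h0
    exact h0

end Pool.Agent.Lib.UR
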