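import Pool.Agent.Lib.UR.BlueB

/-! Asymptotics of binomial coefficients. -/

open Filter Topology

namespace Pool.Agent.Lib.UR

namespace ASY

theorem cast_succ (n k : ℕ) :
    (n.choose (k + 1) : ℝ) = n.choose k * ((n : ℝ) - k) / ((k : ℝ) + 1) := by
  rw [eq_div_iff (by positivity)]
  rcases le_or_gt k n with h | h
  · have := congrArg (Nat.cast : ℕ → ℝ) (Nat.choose_succ_right_eq n k)
    push_cast [Nat.cast_sub h] at this
    exact this
  · rw [Nat.choose_eq_zero_of_lt h, Nat.choose_eq_zero_of_lt (h.trans (Nat.lt_succ_self k))]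
    simp

theorem choose_lim {f : ℕ → ℕ} {M : ℝ}
    (hf : Tendsto (fun j : ℕ => (f j : ℝ) / (j : ℝ)) atTop (𝓝 M)) (D : ℕ) :
    Tendsto (fun j : ℕ => ((f j).choose D : ℝ) / (j : ℝ) ^ D) atTop (𝓝 (M ^ D / D.factorial)) := by
  induction D with
  | zero => simp
  | succ D ih =>
    have h1 := (ih.mul (hf.sub (tendsto_const_div_atTop_nhds_zero_nat (D : ℝ)))).div_const
      ((D : ℝ) + 1)
    have h2 : M ^ D / D.factorial * (M - 0) / ((D : ℝ) + 1) =
        M ^ (D + 1) / (D + 1).factorial := by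
      rw [Nat.factorial_succ]
      push_cast
      field_simp
      ring
    rw [h2] at h1
    refine h1.congr fun j => ?_
    rw [cast_succ, pow_succ]
    simp only [div_eq_mul_inv, mul_inv]
    ring

theorem ratio_lim {f : ℕ → ℕ} {M c : ℕ} (h1 : ∀ j, f j ≤ j * M + c) (h2 : ∀ j, j * M ≤ f j + c) :
    Tendsto (fun j : ℕ => (f j : ℝ) / (j : ℝ)) atTop (𝓝 M) := by
  have h0 := tendsto_const_div_atTop_nhds_zero_nat (c : ℝ)
  have h3 := (tendsto_const_nhds (x := (M : ℝ))).sub h0
  have h4 := (tendsto_const_nhds (x := (M : ℝ))).add h0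
  rw [sub_zero] at h3
  rw [add_zero] at h4
  refine tendsto_of_tendsto_of_tendsto_of_le_of_le' h3 h4 ?_ ?_
  · filter_upwards [eventually_gt_atTop 0] with j hj
    have hj' : (0 : ℝ) < j := by exact_mod_cast hj
    have : (j : ℝ) * M ≤ f j + c := by exact_mod_cast h2 j
    rw [sub_le_iff_le_add, ← add_div, le_div_iff₀ hj']
    linarith
  · filter_upwards [eventually_gt_atTop 0] with j hj
    have hj' : (0 : ℝ) < j := by exact_mod_cast hj
    have : (f j : ℝ) ≤ j * M + c := by exact_mod_cast h1 j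
    rw [← sub_le_iff_le_add, ← sub_div, div_le_iff₀ hj']
    linarith

end ASY

theorem st_ASY : St_ASY := fun D M e =>
  ⟨ASY.choose_lim (f := fun j => j * M + e)
      (ASY.ratio_lim (c := e) (fun _ => le_rfl) fun _ => by omega) D,
    ASY.choose_lim (f := fun j => j * M - e + D)
      (ASY.ratio_lim (c := e + D) (fun _ => by omega) fun _ => by omega) D⟩

end Pool.Agent.Lib.UR
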