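import Pool.Agent.Lib.UR.BlueB

/-! Existence of generic cuts. -/

open Set

noncomputable section

namespace Pool.Agent.Lib.UR

namespace EXC

theorem adjoin_X (L Z : Type) [Field L] :
    IntermediateField.adjoin L (range fun z : Z =>
      algebraMap (MvPolynomial Z L) (FractionRing (MvPolynomial Z L)) (MvPolynomial.X z)) = ⊤ := by
  set T := IntermediateField.adjoin L (range fun z : Z =>
    algebraMap (MvPolynomial Z L) (FractionRing (MvPolynomial Z L)) (MvPolynomial.X z)) with hT
  have h1 : ∀ p : MvPolynomial Z L,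
      algebraMap (MvPolynomial Z L) (FractionRing (MvPolynomial Z L)) p ∈ T := by
    intro p
    induction p using MvPolynomial.induction_on with
    | C c =>
      rw [← MvPolynomial.algebraMap_eq, ← IsScalarTower.algebraMap_apply]
      exact T.algebraMap_mem c
    | add p q hp hq =>
      rw [map_add]
      exact add_mem hp hq
    | mul_X p z hp =>
      rw [map_mul]
      exact mul_mem hp (IntermediateField.subset_adjoin _ _ ⟨z, rfl⟩)
  refine eq_top_iff.2 fun x _ => ?_
  obtain ⟨p, q, _, rfl⟩ := IsFractionRing.div_surjective (A := MvPolynomial Z L) x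
  exact div_mem (h1 p) (h1 q)

theorem adjoin_val {k E : Type} [Field k] [Field E] [Algebra k E] (S : Set E)
    (S' : Set (IntermediateField.adjoin k S)) (h : S ⊆ Subtype.val '' S') :
    IntermediateField.adjoin k S' = ⊤ := by
  apply IntermediateField.map_injective (IntermediateField.adjoin k S).val
  rw [IntermediateField.adjoin_map, ← AlgHom.fieldRange_eq_map, IntermediateField.fieldRange_val]
  refine le_antisymm (IntermediateField.adjoin_le_iff.2 ?_) (IntermediateField.adjoin.mono _ _ _ h)
  rintro _ ⟨x, _, rfl⟩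
  exact x.2

end EXC

theorem st_EXC : St_EXC := by
  intro k L _ _ _ A Z _ W
  let s0 : Z → FractionRing (MvPolynomial Z L) := fun z =>
    algebraMap (MvPolynomial Z L) (FractionRing (MvPolynomial Z L)) (MvPolynomial.X z)
  let t0 : A → FractionRing (MvPolynomial Z L) := fun a =>
    ∑ z, s0 z * algebraMap L (FractionRing (MvPolynomial Z L)) (W a z)
  let K := IntermediateField.adjoin k (range s0 ∪ range t0)
  let s : Z → K := fun z => ⟨s0 z, IntermediateField.subset_adjoin _ _ (Or.inl ⟨z, rfl⟩)⟩
  let t : A → K := fun a => ⟨t0 a, IntermediateField.subset_adjoin _ _ (Or.inr ⟨a, rfl⟩)⟩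
  refine ⟨{
    k' := K
    L' := FractionRing (MvPolynomial Z L)
    s := s
    t := t
    ind := ?_
    genL := EXC.adjoin_X L Z
    genk := EXC.adjoin_val _ _ ?_
    eq := fun a => rfl }⟩
  · exact (MvPolynomial.algebraicIndependent_X Z L).map'
      (f := IsScalarTower.toAlgHom L (MvPolynomial Z L) (FractionRing (MvPolynomial Z L)))
      (IsFractionRing.injective _ _)
  · rintro _ (⟨z, rfl⟩ | ⟨a, rfl⟩)
    · exact ⟨s z, Or.inl ⟨z, rfl⟩, rfl⟩
    · exact ⟨t a, Or.inr ⟨a, rfl⟩, rfl⟩

end Pool.Agent.Lib.UR
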