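import Pool.Agent.Lib.UR.BlueB
import Pool.Agent.Lib.MP_7fcda1_ag.Gauss

open scoped IntermediateField
open Module Set

noncomputable section

namespace Pool.Agent.Lib.UR

open Pool.Agent.Lib.MP_7fcda1_ag

namespace GPO

theorem resInd_sub {k E σ : Type} [Field k] [Field E] [Algebra k E] {V : ValuationSubring E}
    {s e : σ → E} (hs : ResInd k V s) (he : ∀ i, V.valuation (e i) < 1) :
    ResInd k V fun i => s i - e i := by
  obtain ⟨Ω, _, _, P, rfl, hP⟩ := Gauss_exists_res k V hs.const
  obtain ⟨r, hr⟩ := Gauss_exists_fun P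
  have h1 : ∀ i, P.To (s i) (r (s i)) := fun i => hr _ (Gauss_resInd_mem hs i)
  refine (Gauss_resInd_iff hP (z' := fun i => r (s i)) fun i => ?_).2
    ((Gauss_resInd_iff hP h1).1 hs)
  simpa using (h1 i).sub (Plc.to_zero_iff.2 (he i))

end GPO

theorem st_GPO : St_GPO := by
  classical
  intro k L _ _ _ τ _ w n ⟨x, hx⟩ C O hO j
  by_contra hcon
  push Not at hcon
  obtain ⟨j0, -, hj0⟩ := Finset.exists_max_image Finset.univ
    (fun i => O.valuation (C.map w i)) ⟨j, Finset.mem_univ j⟩
  have h1 : 1 < O.valuation (C.map w j0) := hcon.1.trans_le (hj0 j (Finset.mem_univ j))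
  have h2 : ∀ a, O.valuation (C.tt a) < O.valuation (C.map w j0) := fun a =>
    (hcon.2 a).trans_le (hj0 j (Finset.mem_univ j))
  have h0 : 0 < O.valuation (C.map w j0) := zero_lt_one.trans h1
  have hw : C.map w j0 ≠ 0 := fun e => by simp [e] at h0
  have hV : O.comap (algebraMap L C.L') ≠ ⊤ := fun e => by
    have h3 : w j0 ∈ O.comap (algebraMap L C.L') := e ▸ ValuationSubring.mem_top _
    exact absurd ((O.valuation_le_one_iff _).2 (ValuationSubring.mem_comap.1 h3)) (not_le.2 h1)
  rcases n with _ | ν
  · have : Algebra.IsAlgebraic k L := hx.isEmpty_iff_isAlgebraic.1 inferInstance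
    refine hV (eq_top_of_algebraic (F := k) fun c => ?_)
    rw [ValuationSubring.mem_comap, ← IsScalarTower.algebraMap_apply]
    exact hO _ (C.ks.algebraMap_mem c)
  have hF : rk k (Set.univ : Set L) ≤ ν + 1 := by
    have := hx.isAlgebraic_field
    refine (rk_le_of_alg (T := range x) fun s _ => Algebra.IsAlgebraic.isAlgebraic s).trans ?_
    simpa using rk_range_le (k := k) x
  have hs : ResInd k O C.ss := resInd_of_mem (C.ind.restrictScalars (algebraMap k L).injective) hO
  let z : Option (Fin (ν + 1) × {i // i ≠ j0}) → C.L' := fun o => o.elim 0 fun p => C.ss (p.1, p.2)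
  have hf := GPO.resInd_sub hs (e := fun p => if p.2 = j0 then C.tt p.1 / C.map w j0 else 0)
    fun p => by
      split_ifs
      · rw [map_div₀]
        exact (div_lt_one₀ h0).2 (h2 _)
      · simp
  have h4 := (gauss (F := L) (z := z) (C := range fun i => w i / w j0) hF hV (fun o => ?_) hf ?_
    ?_ fun p => ?_).1 (MvPolynomial.X none) (fun m => ?_) ⟨Finsupp.single none 1, by simp⟩
  · simp [z] at h4
  · cases o
    · exact zero_mem _
    · exact Gauss_resInd_mem hs _
  · have h5 := Fintype.card_congr (Equiv.optionSubtypeNe j0)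
    rw [Fintype.card_option] at h5
    rw [Fintype.card_option, Fintype.card_prod, Fintype.card_prod, ← h5, Fintype.card_fin]
    exact le_of_eq (by ring)
  · rintro _ ⟨i, rfl⟩
    rw [← O.valuation_le_one_iff, map_div₀, map_div₀]
    exact (div_le_one₀ h0).2 (hj0 i (Finset.mem_univ i))
  · obtain ⟨a, i⟩ := p
    by_cases hi : i = j0
    · subst hi
      have e : C.ss (a, i) - C.tt a / C.map w i =
          -∑ l ∈ Finset.univ.erase i, C.ss (a, l) * algebraMap L C.L' (w l / w i) := by
        rw [C.tt_eq, ← Finset.add_sum_erase _ _ (Finset.mem_univ i), add_div,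
          mul_div_cancel_right₀ _ hw, Finset.sum_div, sub_add_cancel_left]
        exact congrArg Neg.neg (Finset.sum_congr rfl fun l _ => by
          rw [map_div₀, mul_div_assoc]
          rfl)
      simp only [if_true]
      rw [e]
      exact neg_mem (sum_mem fun l hl => mul_mem
        (Algebra.subset_adjoin (Or.inr ⟨some (a, ⟨l, Finset.ne_of_mem_erase hl⟩), rfl⟩))
        (Algebra.subset_adjoin (Or.inl ⟨_, ⟨l, rfl⟩, rfl⟩)))
    · simp only [if_neg hi, sub_zero]
      exact Algebra.subset_adjoin (Or.inr ⟨some (a, ⟨i, hi⟩), rfl⟩)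
  · rw [MvPolynomial.coeff_X]
    split_ifs
    · rw [map_one]
      exact one_mem _
    · rw [map_zero]
      exact zero_mem _

end Pool.Agent.Lib.UR
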