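import Pool.Agent.Lib.UR.BlueB

open Module Set

noncomputable section

namespace Pool.Agent.Lib.UR

namespace Hsu

theorem map_cl {k K L L' : Type} [Field k] [Field K] [Field L] [Field L'] [Algebra k L]
    [Algebra k K] [Algebra K L'] [Algebra k L'] [IsScalarTower k K L'] (f : L →ₐ[k] L')
    {U : Submodule k L} {U' : Submodule K L'} [FiniteDimensional K U']
    (h : ∀ x ∈ U, f x ∈ cl U') (j : ℕ) {x : L} (hx : x ∈ cl (U ^ j)) : f x ∈ cl (U' ^ j) := by
  intro O hO
  obtain ⟨u, hu, hm⟩ := exists_max U' O hO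
  have hO' : ∀ c : k, algebraMap k L' c ∈ O := fun c => by
    rw [IsScalarTower.algebraMap_apply k K L']; exact hO _
  have h1 : U.map f.toLinearMap ≤ ball O hO' (O.valuation u) := by
    rintro _ ⟨y, hy, rfl⟩
    exact cl_le_ball hm (h y hy)
  obtain ⟨y, hy, h2⟩ := hx (O.comap f.toRingHom) fun c => by
    rw [ValuationSubring.mem_comap]
    exact (f.commutes c).symm ▸ hO' c
  have h3 := ball_pow h1 j (Submodule.map_pow U f j ▸ Submodule.mem_map_of_mem hy)
  have h4 : O.valuation (f y) ≤ O.valuation (u ^ j) := by rw [map_pow]; exact h3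
  refine ⟨u ^ j, Submodule.pow_mem_pow _ hu j, le_trans ?_ h4⟩
  obtain ⟨a, ha⟩ := (ValuationSubring.valuation_le_iff _ _ _).1 h2
  exact (ValuationSubring.valuation_le_iff _ _ _).2 ⟨⟨f a, a.2⟩, by
    rw [← ha, map_mul]⟩

end Hsu

theorem st_HSU (hGPO : St_GPO) (hSET : St_SET) (hNOE : St_NOE) : St_HSU := by
  intro k L _ _ _ _ τ _ w n hw hd C
  obtain ⟨h1, h2, h3, -, h5⟩ := hSET k L τ w n hw hd C
  have : CharZero C.ks := charZero_of_injective_algebraMap (algebraMap k C.ks).injective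
  obtain ⟨e, he⟩ := hNOE C.ks C.L' n C.tt h1 h2
  refine ⟨e, fun j => ?_⟩
  obtain ⟨hf, hb⟩ := he j
  rw [h3] at hb
  have h6 : ∀ x ∈ sys k w, IsScalarTower.toAlgHom k L C.L' x ∈ cl (sys C.ks C.tt) :=
    sys_le (U := ((cl (sys C.ks C.tt)).restrictScalars k).comap
      (IsScalarTower.toAlgHom k L C.L').toLinearMap)
      (show IsScalarTower.toAlgHom k L C.L' 1 ∈ cl (sys C.ks C.tt) by
        rw [map_one]; exact le_cl _ (one_mem_sys _))
      fun i O hO => by
        rcases hGPO k L τ w n hd C O (fun c hc => hO ⟨c, hc⟩) i with h | ⟨a, h⟩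
        · exact ⟨1, one_mem_sys _, (map_one O.valuation).symm ▸ h⟩
        · exact ⟨_, mem_sys _ a, h⟩
  have h7 : Module.rank k ↥(cl (sys k w ^ j)) ≤ (C.deg * (j + e + n).choose n : ℕ) :=
    rank_le fun s hs => by
      have h8 := h5 s _ (hs.map' (Submodule.subtype _) (Submodule.ker_subtype _))
      have h9 : LinearIndependent C.ks fun i : s =>
          (⟨_, Hsu.map_cl _ h6 j i.1.2⟩ : cl (sys C.ks C.tt ^ j)) :=
        LinearIndependent.of_comp (Submodule.subtype _) h8
      exact (Fintype.card_coe s).symm.trans_le (h9.fintype_card_le_finrank.trans hb)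
  exact ⟨Module.rank_lt_aleph0_iff.1 (h7.trans_lt (Cardinal.natCast_lt_aleph0)),
    finrank_le_of_rank_le h7⟩

end Pool.Agent.Lib.UR
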