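import Pool.Agent.Lib.UR.BlueB

/-! The dimension of the space of polynomials of bounded degree. -/

open Module Set MvPolynomial

noncomputable section

namespace Pool.Agent.Lib.UR

theorem st_MON : St_MON := by
  intro k L _ _ _ n t ht j
  let S := (Finset.univ : Finset (Option (Fin n))).finsuppAntidiag j
  have hS : ∀ d : Option (Fin n) →₀ ℕ, d ∈ S ↔ d none + ∑ i, d (some i) = j := fun d => by
    simp [S, Finset.mem_finsuppAntidiag]
  let v : S → L := fun d => aeval t (monomial d.1.some (1 : k))
  have hv : ∀ d : Option (Fin n) →₀ ℕ,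
      aeval (opt t) (monomial d (1 : k)) = aeval t (monomial d.some (1 : k)) := fun d => by
    simp [aeval_monomial, Finsupp.prod_fintype, opt]
  have h1 : LinearIndependent k v := by
    refine ((basisMonomials (Fin n) k).linearIndependent.comp (fun d : S => d.1.some)
      fun d e h => ?_).map' (aeval t).toLinearMap (LinearMap.ker_eq_bot.2 ht)
    have h2 : ∀ i, d.1 (some i) = e.1 (some i) := fun i => DFunLike.congr_fun h i
    have h3 := (hS _).1 d.2
    have h4 := (hS _).1 e.2
    simp only [h2] at h3
    refine Subtype.ext (Finsupp.ext fun o => ?_)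
    cases o with
    | none => omega
    | some i => exact h2 i
  have h2 : sys k t = (homogeneousSubmodule (Option (Fin n)) k 1).map
      (aeval (opt t) : MvPolynomial _ k →ₐ[k] L).toLinearMap := by
    rw [sys_eq, homogeneousSubmodule_one_eq_span_X, Submodule.map_span, ← range_comp]
    simp [Function.comp_def]
  have h3 : sys k t ^ j = Submodule.span k (range v) := by
    rw [h2, ← Submodule.map_pow, homogeneousSubmodule_one_pow,
      homogeneousSubmodule_eq_finsupp_supported, AddMonoidAlgebra.supported_eq_span_single,
      Submodule.map_span, image_image]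
    refine congrArg _ (Set.ext fun x => ⟨?_, ?_⟩)
    · rintro ⟨d, hd, rfl⟩
      exact ⟨⟨d, (hS d).2 (by simpa [Finsupp.degree_eq_sum] using hd)⟩, (hv d).symm⟩
    · rintro ⟨d, rfl⟩
      exact ⟨d.1, by simpa [Finsupp.degree_eq_sum] using (hS _).1 d.2, hv d⟩
  rw [h3, finrank_span_eq_card h1, Fintype.card_coe, Finset.card_finsuppAntidiag_nat_eq_choose,
    Finset.card_univ, Fintype.card_option, Fintype.card_fin,
    show n + 1 + j - 1 = j + n by omega, Nat.choose_symm_add]

end Pool.Agent.Lib.UR
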