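import Pool.Agent.Lib.UR.BlueB

/-! The Hilbert function of a finite extension of a purely transcendental field. -/

open scoped IntermediateField
open Module Set

noncomputable section

namespace Pool.Agent.Lib.UR

namespace NOE

variable {k F L : Type} [Field k] [Field F] [Field L] [Algebra k F] [Algebra F L] [Algebra k L]
  [IsScalarTower k F L]

theorem map_sys {τ : Type} (t' : τ → F) (m : ℕ) :
    (sys k t' ^ m).map (IsScalarTower.toAlgHom k F L).toLinearMap =
      sys k (fun i => algebraMap F L (t' i)) ^ m := by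
  have h : (sys k t').map (IsScalarTower.toAlgHom k F L).toLinearMap =
      sys k (fun i => algebraMap F L (t' i)) := by
    rw [sys, sys, Submodule.map_span, image_insert_eq, ← range_comp]
    simp only [AlgHom.toLinearMap_apply, map_one]
    rfl
  rw [Submodule.map_pow, h]

theorem core [CharZero k] [FiniteDimensional F L] (hTRC : St_TRC) {τ ι : Type} [Finite τ]
    [Fintype ι] (t' : τ → F) (b : Basis ι F L) (p : ι → F) (hp : ∀ i, p i ≠ 0) (e j : ℕ)
    (hc : ∀ i, algebraMap F L (p i) * b i ∈ cl (sys k (fun i => algebraMap F L (t' i)) ^ e))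
    (hpol : cl (sys k t' ^ (j + e)) = sys k t' ^ (j + e)) :
    FiniteDimensional k ↥(cl (sys k (fun i => algebraMap F L (t' i)) ^ j)) ∧
      finrank k ↥(cl (sys k (fun i => algebraMap F L (t' i)) ^ j)) ≤
        Fintype.card ι * finrank k ↥(sys k t' ^ (j + e)) := by
  have : CharZero F := charZero_of_injective_algebraMap (algebraMap k F).injective
  have := fd_pow (sys k t') (j + e)
  let U := cl (sys k (fun i => algebraMap F L (t' i)) ^ j)
  let ψ : ι → U →ₗ[k] F := fun i => (Algebra.trace F L).restrictScalars k ∘ₗ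
    LinearMap.mulRight k (algebraMap F L (p i) * b i) ∘ₗ U.subtype
  have hψ : ∀ i (x : U), ψ i x ∈ sys k t' ^ (j + e) := fun i x => by
    rw [← hpol]
    refine hTRC k F L _ _ ?_
    rw [map_sys, pow_add]
    exact mul_mem_cl x.2 (hc i)
  let φ : U →ₗ[k] ι → ↥(sys k t' ^ (j + e)) := LinearMap.pi fun i =>
    (ψ i).codRestrict _ (hψ i)
  have hφ : Function.Injective φ := by
    rw [injective_iff_map_eq_zero]
    intro x hx
    have h1 : ∀ i, Algebra.trace F L ((x : L) * b i) = 0 := fun i => by
      have h2 : Algebra.trace F L ((x : L) * (algebraMap F L (p i) * b i)) = 0 :=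
        congrArg Subtype.val (congrFun hx i)
      rw [mul_left_comm, ← Algebra.smul_def, map_smul, smul_eq_mul] at h2
      exact (mul_eq_zero.1 h2).resolve_left (hp i)
    have h3 : Algebra.traceForm F L (x : L) = 0 := b.ext fun i => by
      rw [Algebra.traceForm_apply, h1 i, LinearMap.zero_apply]
    exact Subtype.ext ((traceForm_nondegenerate F L).1 (x : L) fun y => by
      rw [h3, LinearMap.zero_apply])
  refine ⟨Module.Finite.of_injective φ hφ, (LinearMap.finrank_le_finrank_of_injective hφ).trans ?_⟩
  rw [Module.finrank_pi_fintype, Finset.sum_const, Finset.card_univ, smul_eq_mul]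

end NOE

theorem st_NOE (hMON : St_MON) (hPOL : St_POL) (hTRC : St_TRC) (hALG : St_ALG) : St_NOE := by
  intro k L _ _ _ _ n t ht hfd
  let F := IntermediateField.adjoin k (range t)
  let t' : Fin n → F := fun i => ⟨t i, IntermediateField.subset_adjoin k _ ⟨i, rfl⟩⟩
  have htt : (fun i => algebraMap F L (t' i)) = t := rfl
  have hind : AlgebraicIndependent k t' :=
    AlgebraicIndependent.of_comp (IsScalarTower.toAlgHom k F L) ht
  have hgen : Gen k t' := by
    apply IntermediateField.map_injective F.val
    rw [IntermediateField.adjoin_map, ← range_comp, ← AlgHom.fieldRange_eq_map,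
      IntermediateField.fieldRange_val]
    rfl
  let b := Module.finBasis F L
  have h1 : ∀ i, ∃ e : ℕ, ∃ p ∈ sys k t ^ e, p ≠ 0 ∧ p * b i ∈ cl (sys k t ^ e) := fun i =>
    hALG k L (Fin n) t (b i) (Algebra.IsAlgebraic.isAlgebraic _)
  choose e p hp hp0 hpb using h1
  have h2 : ∀ i, ∃ q : F, algebraMap F L q = p i := fun i => by
    have h3 := hp i
    rw [← htt, ← NOE.map_sys] at h3
    obtain ⟨q, -, hq⟩ := h3
    exact ⟨q, hq⟩
  choose q hq using h2
  refine ⟨Finset.univ.sup e, fun j => ?_⟩
  have h4 := NOE.core (k := k) hTRC t' b q (fun i h => hp0 i (by rw [← hq, h, map_zero]))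
    (Finset.univ.sup e) j (fun i => by
      rw [hq, htt]
      exact cl_mono (pow_mono' (one_mem_sys t) (Finset.le_sup (Finset.mem_univ i))) (hpb i))
    (hPOL k F n t' hind hgen _)
  rw [htt, hMON k F n t' hind, Fintype.card_fin] at h4
  exact h4

end Pool.Agent.Lib.UR
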