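import Pool.Agent.Lib.UR.BlueB
import Pool.Agent.Lib.MP_7fcda1_ag.Ord2

/-! The space of polynomials of bounded degree is a complete linear system. -/

open scoped WithZero
open Module Set MvPolynomial

noncomputable section

namespace Pool.Agent.Lib.UR

open Pool.Agent.Lib.MP_7fcda1_ag

namespace POL

/-- An element of the fraction field of a factorial ring lying in every valuation subring
containing the ring belongs to the ring. -/
theorem exists_eq {R L : Type} [CommRing R] [IsDomain R] [UniqueFactorizationMonoid R] [Field L]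
    [Algebra R L] [IsFractionRing R L] {x : L}
    (hx : ∀ V : ValuationSubring L, (∀ r, algebraMap R L r ∈ V) → x ∈ V) :
    ∃ p, algebraMap R L p = x := by
  obtain ⟨a, b, hab, rfl⟩ := IsFractionRing.exists_reduced_fraction R x
  have hb0 : (b : R) ≠ 0 := nonZeroDivisors.coe_ne_zero b
  by_cases hb : IsUnit (b : R)
  · obtain ⟨c, hc⟩ := hb.exists_right_inv
    refine ⟨a * c, ?_⟩
    rw [IsLocalization.eq_mk'_iff_mul_eq, ← map_mul, mul_assoc, mul_comm c, hc, mul_one]
  · exfalso
    obtain ⟨π, hπ, hd⟩ := WfDvdMonoid.exists_irreducible_factor hb hb0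
    have hp : Prime π := UniqueFactorizationMonoid.irreducible_iff_prime.1 hπ
    obtain ⟨V, -, -, hV⟩ := exists_disc_prime (L := L) hp
    have h1 := (V.valuation_le_one_iff _).2 (hx V fun r => (hV r).1)
    have h2 : V.valuation (algebraMap R L b) < 1 := (hV b).2.2 hd
    have h3 : V.valuation (algebraMap R L a) < 1 := by
      rw [← IsLocalization.mk'_spec L a b, map_mul]
      exact lt_of_le_of_lt (mul_le_of_le_one_left' h1) h2
    exact hp.not_unit (hab ((hV a).2.1 h3) hd)

open Classical in
/-- The degree valuation on a polynomial ring. -/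
def dv (σ k : Type) [Field k] : Valuation (MvPolynomial σ k) ℤᵐ⁰ where
  toFun := fun p => if p = 0 then 0 else WithZero.exp (p.totalDegree : ℤ)
  map_zero' := by simp
  map_one' := by simp
  map_mul' := by
    intro a b
    by_cases ha : a = 0
    · simp [ha]
    by_cases hb : b = 0
    · simp [hb]
    rw [if_neg (mul_ne_zero ha hb), if_neg ha, if_neg hb, totalDegree_mul_of_isDomain ha hb,
      Nat.cast_add, WithZero.exp_add]
  map_add_le_max' := by
    intro a b
    by_cases ha : a = 0
    · simp [ha]
    by_cases hb : b = 0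
    · simp [hb]
    by_cases hab : a + b = 0
    · simp [hab]
    simp only [if_neg ha, if_neg hb, if_neg hab, le_max_iff, WithZero.exp_le_exp, Nat.cast_le]
    exact le_max_iff.1 (totalDegree_add a b)

theorem dv_apply {σ k : Type} [Field k] {p : MvPolynomial σ k} (hp : p ≠ 0) :
    dv σ k p = WithZero.exp (p.totalDegree : ℤ) := if_neg hp

theorem dv_le {σ k : Type} [Field k] {p : MvPolynomial σ k} {j : ℕ} (h : p.totalDegree ≤ j) :
    dv σ k p ≤ WithZero.exp (j : ℤ) := by
  by_cases hp : p = 0
  · simp [hp]
  · rw [dv_apply hp, WithZero.exp_le_exp]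
    exact_mod_cast h

theorem prod_mem {k L τ : Type} [Field k] [Field L] [Algebra k L] (t : τ → L) (s : Finset τ)
    (α : τ → ℕ) : ∏ i ∈ s, t i ^ α i ∈ sys k t ^ (∑ i ∈ s, α i) := by
  classical
  induction s using Finset.induction_on with
  | empty => simpa using one_mem_pow (one_mem_sys (k := k) t) 0
  | insert a s ha ih =>
    rw [Finset.prod_insert ha, Finset.sum_insert ha, pow_add]
    exact Submodule.mul_mem_mul (Submodule.pow_mem_pow _ (mem_sys t a) _) ih

theorem aeval_mem {k L τ : Type} [Field k] [Field L] [Algebra k L] (t : τ → L)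
    (p : MvPolynomial τ k) {j : ℕ} (h : p.totalDegree ≤ j) : aeval t p ∈ sys k t ^ j := by
  rw [p.as_sum, map_sum]
  refine Submodule.sum_mem _ fun α hα => ?_
  rw [aeval_monomial, ← Algebra.smul_def]
  exact Submodule.smul_mem _ _ (pow_mono' (one_mem_sys t) ((le_totalDegree hα).trans h)
    (prod_mem t α.support α))

end POL

theorem st_POL : St_POL := by
  intro k L _ _ _ n t ht hg j
  refine le_antisymm (fun x hx => ?_) (le_cl _)
  letI : Algebra (MvPolynomial (Fin n) k) L :=
    (aeval t : MvPolynomial (Fin n) k →ₐ[k] L).toRingHom.toAlgebra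
  have ha : ∀ p : MvPolynomial (Fin n) k, algebraMap _ L p = aeval t p := fun _ => rfl
  haveI : FaithfulSMul (MvPolynomial (Fin n) k) L :=
    (faithfulSMul_iff_algebraMap_injective _ _).2 ht
  haveI : IsFractionRing (MvPolynomial (Fin n) k) L := IsFractionRing.of_field _ _ fun z =>
    (IntermediateField.mem_adjoin_range_iff k t z).1 (by
      rw [show IntermediateField.adjoin k (range t) = ⊤ from hg]
      trivial)
  have hC : ∀ c : k, algebraMap k L c = algebraMap (MvPolynomial (Fin n) k) L (C c) :=
    fun c => by rw [ha, aeval_C]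
  have hX : ∀ i, t i = algebraMap (MvPolynomial (Fin n) k) L (X i) :=
    fun i => by rw [ha, aeval_X]
  obtain ⟨p, rfl⟩ : ∃ p, algebraMap (MvPolynomial (Fin n) k) L p = x := by
    refine POL.exists_eq fun V hV => ?_
    have hO : ∀ c : k, algebraMap k L c ∈ V := fun c => hC c ▸ hV _
    have h1 : sys k t ≤ ball V hO 1 := sys_le (le_of_eq (map_one V.valuation)) fun i =>
      (V.valuation_le_one_iff _).2 (hX i ▸ hV _)
    have h2 := cl_le_ball (ball_pow h1 j) hx
    rw [one_pow] at h2
    exact (V.valuation_le_one_iff _).1 h2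
  by_cases hp : p = 0
  · simp [hp]
  refine POL.aeval_mem t p ?_
  have hS : nonZeroDivisors (MvPolynomial (Fin n) k) ≤ (POL.dv (Fin n) k).supp.primeCompl := by
    intro s hs
    change ¬ s ∈ (POL.dv (Fin n) k).supp
    rw [Valuation.mem_supp_iff, POL.dv_apply (nonZeroDivisors.ne_zero hs)]
    exact WithZero.exp_ne_zero
  let v : Valuation L ℤᵐ⁰ := (POL.dv (Fin n) k).extendToLocalization hS L
  have hv : ∀ r, v (algebraMap _ L r) = POL.dv (Fin n) k r := fun r =>
    Valuation.extendToLocalization_apply_map_apply _ hS L r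
  have hk : ∀ c : k, v (algebraMap k L c) ≤ 1 := fun c => by
    rw [hC, hv]
    exact POL.dv_le (j := 0) (totalDegree_C c).le
  let B : ℤ → Submodule k L := fun g =>
    { carrier := {y | v y ≤ WithZero.exp g}
      zero_mem' := by simp
      add_mem' := fun ha hb => v.map_add_le ha hb
      smul_mem' := fun c a ha => by
        change v _ ≤ _
        rw [Algebra.smul_def, map_mul]
        exact (mul_le_of_le_one_left' (hk c)).trans ha }
  have hB : ∀ g y, y ∈ B g ↔ v y ≤ WithZero.exp g := fun _ _ => Iff.rfl
  have h0 : (1 : L) ∈ B 1 := by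
    rw [hB, map_one, ← WithZero.exp_zero, WithZero.exp_le_exp]
    exact zero_le_one
  have h1 : sys k t ≤ B 1 := sys_le h0 fun i => by
    rw [hB, hX, hv]
    exact POL.dv_le (j := 1) (totalDegree_X i).le
  have h2 : ∀ i : ℕ, sys k t ^ i ≤ B i := by
    intro i
    induction i with
    | zero =>
      rw [pow_zero, Submodule.one_eq_span, Submodule.span_le]
      rintro _ rfl
      simp [hB]
    | succ i ih =>
      rw [pow_succ]
      refine Submodule.mul_le.2 fun a ha b hb => ?_
      rw [hB, map_mul, Nat.cast_succ, WithZero.exp_add]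
      exact mul_le_mul' (ih ha) (h1 hb)
  obtain ⟨u, hu, h3⟩ := hx v.valuationSubring hk
  have h4 := ((Valuation.isEquiv_valuation_valuationSubring v) _ _).2 h3
  have h5 := h4.trans (h2 j hu)
  rw [hv, POL.dv_apply hp, WithZero.exp_le_exp] at h5
  exact_mod_cast h5

end Pool.Agent.Lib.UR
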