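import Pool.Agent.Lib.UR.BlueB

/-! Row SET: the tower of fields attached to a full generic cut. -/

open scoped IntermediateField
open Module Set

namespace Pool.Agent.Lib.UR

namespace Set'

variable {k L : Type} [Field k] [Field L] [Algebra k L] {A Z : Type} [Fintype Z]
  {W : A → Z → L} (C : Cut k L W)

theorem indep (h : AlgebraicIndependent k (Sum.elim C.s C.t)) : AlgebraicIndependent C.ks C.tt := by
  have h1 := (h.map' (f := IsScalarTower.toAlgHom k C.k' C.L')
    (algebraMap C.k' C.L').injective).comp Sum.swap Sum.swap_leftInverse.injective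
  have h2 : (IsScalarTower.toAlgHom k C.k' C.L' ∘ Sum.elim C.s C.t) ∘ Sum.swap =
      Sum.elim C.tt C.ss := by
    funext o
    cases o <;> rfl
  rw [h2] at h1
  exact IntermediateField.algebraicIndependent_adjoin_iff.2
    (AlgebraicIndependent.sumElim_iff.1 h1).2

theorem mem_F (x : C.k') :
    algebraMap C.k' C.L' x ∈ IntermediateField.adjoin C.ks (range C.tt) := by
  have hx : x ∈ IntermediateField.adjoin k (range C.s ∪ range C.t) := by
    rw [C.genk]
    trivial
  have h : IntermediateField.adjoin k (range C.s ∪ range C.t) ≤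
      ((IntermediateField.adjoin C.ks (range C.tt)).restrictScalars k).comap
        (IsScalarTower.toAlgHom k C.k' C.L') := by
    refine IntermediateField.adjoin_le_iff.2 (union_subset (range_subset_iff.2 fun z => ?_)
      (range_subset_iff.2 fun a => ?_))
    · exact (IntermediateField.adjoin C.ks (range C.tt)).algebraMap_mem
        ⟨C.ss z, IntermediateField.subset_adjoin k (range C.ss) ⟨z, rfl⟩⟩
    · exact IntermediateField.subset_adjoin C.ks (range C.tt) ⟨a, rfl⟩
  exact h hx

theorem exists_of_mem {y : C.L'} (hy : y ∈ IntermediateField.adjoin C.ks (range C.tt)) :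
    ∃ x : C.k', algebraMap C.k' C.L' x = y := by
  have h1 : C.ks ≤ (IsScalarTower.toAlgHom k C.k' C.L').fieldRange :=
    IntermediateField.adjoin_le_iff.2 (range_subset_iff.2 fun z => ⟨C.s z, rfl⟩)
  have h2 : IntermediateField.adjoin C.ks (range C.tt) ≤
      (algebraMap C.k' C.L').fieldRange.toIntermediateField fun c => h1 c.2 :=
    IntermediateField.adjoin_le_iff.2 (range_subset_iff.2 fun a => ⟨C.t a, rfl⟩)
  exact h2 hy

theorem exists_equiv : ∃ i : C.k' ≃+* IntermediateField.adjoin C.ks (range C.tt),
    ∀ x, (i x : C.L') = algebraMap C.k' C.L' x := by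
  refine ⟨RingEquiv.ofBijective ((algebraMap C.k' C.L').codRestrict
    (IntermediateField.adjoin C.ks (range C.tt)) (mem_F C)) ⟨fun a b h => ?_, fun y => ?_⟩,
    fun _ => rfl⟩
  · exact (algebraMap C.k' C.L').injective (congrArg Subtype.val h)
  · obtain ⟨x, hx⟩ := exists_of_mem C y.2
    exact ⟨x, Subtype.ext hx⟩

theorem gen {τ : Type} {v : τ → C.L'} (hv : Gen C.k' v) :
    Gen (IntermediateField.adjoin C.ks (range C.tt)) v := by
  refine eq_top_iff.2 fun x _ => ?_
  have hx : x ∈ IntermediateField.adjoin C.k' (range v) := by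
    rw [show IntermediateField.adjoin C.k' (range v) = ⊤ from hv]
    trivial
  let T := IntermediateField.adjoin (IntermediateField.adjoin C.ks (range C.tt)) (range v)
  have h : IntermediateField.adjoin C.k' (range v) ≤
      T.toSubfield.toIntermediateField fun c => T.algebraMap_mem ⟨_, mem_F C c⟩ :=
    IntermediateField.adjoin_le_iff.2 (IntermediateField.subset_adjoin _ (range v))
  exact h hx

open scoped IntermediateField.algebraAdjoinAdjoin in
theorem lin {ι : Type} {x : ι → L} (hx : LinearIndependent k x) :
    LinearIndependent C.ks (C.map x) := by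
  rw [← LinearIndependent.iff_fractionRing (Algebra.adjoin k (range C.ss)) C.ks,
    linearIndependent_iff']
  intro s g hg i hi
  have hP : ∀ j, ∃ P : MvPolynomial Z k, MvPolynomial.aeval C.ss P = (g j : C.L') := fun j =>
    (Algebra.adjoin_range_eq_range_aeval k C.ss).le (g j).2
  choose P hP using hP
  have h1 : ∑ j ∈ s, MvPolynomial.C (x j) * MvPolynomial.map (algebraMap k L) (P j) = 0 := by
    apply C.ind
    rw [map_zero, map_sum, ← hg]
    refine Finset.sum_congr rfl fun j _ => ?_
    rw [map_mul, MvPolynomial.aeval_C, MvPolynomial.aeval_map_algebraMap, mul_comm]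
    exact congrArg (· * _) (hP j)
  have h2 : P i = 0 := by
    ext α
    have h3 := congrArg (MvPolynomial.coeff α) h1
    rw [MvPolynomial.coeff_sum, MvPolynomial.coeff_zero] at h3
    refine linearIndependent_iff'.1 hx s (fun j => (P j).coeff α) ?_ i hi
    rw [← h3]
    refine Finset.sum_congr rfl fun j _ => ?_
    rw [MvPolynomial.coeff_C_mul, MvPolynomial.coeff_map, Algebra.smul_def, mul_comm]
  refine Subtype.ext ?_
  rw [← hP i, h2, map_zero]
  rfl

end Set'

theorem st_SET (hDIM : St_DIM) : St_SET := by
  intro k L _ _ _ _ τ _ w n hw hd C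
  obtain ⟨h1, h2⟩ := hDIM k L τ w n 0 hw hd C
  have := h2.finite (C.gen hw)
  obtain ⟨i, hi⟩ := Set'.exists_equiv C
  have hc : (algebraMap (IntermediateField.adjoin C.ks (range C.tt)) C.L').comp i.toRingHom =
      (RingEquiv.refl C.L').toRingHom.comp (algebraMap C.k' C.L') := RingHom.ext hi
  exact ⟨Set'.indep C h1, Module.Finite.of_equiv_equiv i (RingEquiv.refl C.L') hc,
    (Algebra.finrank_eq_of_equiv_equiv i (RingEquiv.refl C.L') hc).symm, Set'.gen C (C.gen hw),
    fun _ _ hx => Set'.lin C hx⟩

end Pool.Agent.Lib.UR
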