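import Pool.Agent.Lib.UR.BlueB
import Pool.Agent.Lib.MP_7fcda1_ag.Ord2

open Module Set

set_option linter.unusedVariables false

noncomputable section

namespace Pool.Agent.Lib.UR

open Pool.Agent.Lib.MP_7fcda1_ag

namespace TRC

lemma val_comap {A B : Type} [Field A] [Field B] (f : A →+* B) (O : ValuationSubring B) (a b : A) :
    (O.comap f).valuation a ≤ (O.comap f).valuation b ↔ O.valuation (f a) ≤ O.valuation (f b) := by
  rw [ValuationSubring.valuation_le_iff, ValuationSubring.valuation_le_iff]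
  refine ⟨fun ⟨c, hc⟩ => ⟨⟨f c, c.2⟩, by rw [← hc, map_mul]⟩, fun ⟨c, hc⟩ => ?_⟩
  by_cases hb : b = 0
  · subst hb
    rw [map_zero, mul_zero, eq_comm, map_eq_zero] at hc
    exact ⟨0, by simp [hc]⟩
  · refine ⟨⟨a / b, ?_⟩, div_mul_cancel₀ _ hb⟩
    rw [ValuationSubring.mem_comap, map_div₀, ← hc,
      mul_div_cancel_right₀ _ ((map_ne_zero f).2 hb)]
    exact c.2

end TRC

open TRC in
theorem st_TRC : St_TRC := by
  intro k F L _ _ _ _ _ _ _ _ _ U x hx O hO
  have : CharZero F := charZero_of_injective_algebraMap (algebraMap k F).injective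
  obtain ⟨V, rfl⟩ := exists_comap_eq (algebraMap F (AlgebraicClosure F)) O
  have h1 : ∀ σ : L →ₐ[F] AlgebraicClosure F, ∃ u ∈ U,
      V.valuation (σ x) ≤ V.valuation (algebraMap F _ u) := fun σ => by
    obtain ⟨_, ⟨u, hu, rfl⟩, h⟩ := hx (V.comap σ.toRingHom) fun c => by
      rw [ValuationSubring.mem_comap, IsScalarTower.algebraMap_apply k F L]
      exact (σ.commutes _).symm ▸ hO c
    refine ⟨u, hu, ?_⟩
    rw [← σ.commutes]
    exact (val_comap _ _ _ _).1 h
  obtain ⟨σ, -, hσ⟩ := Finset.exists_max_image Finset.univ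
    (fun σ : L →ₐ[F] AlgebraicClosure F => V.valuation (σ x)) ⟨IsAlgClosed.lift, Finset.mem_univ _⟩
  obtain ⟨u, hu, h⟩ := h1 σ
  refine ⟨u, hu, (val_comap _ _ _ _).2 ?_⟩
  rw [trace_eq_sum_embeddings]
  exact V.valuation.map_sum_le fun σ' h' => (hσ σ' h').trans h

end Pool.Agent.Lib.UR
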