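import Pool.Agent.Lib.UR.MBlue

/-! Normalisation of the homogeneous coordinates. -/

noncomputable section

namespace Pool.Agent.Lib.UR.M

open Pool.Agent.Lib.MP_7fcda1_ag

namespace NORM

theorem ht_comp {κ F ι ι' : Type} [Field κ] [Field F] [Algebra κ F] {e : ι' → ι}
    (he : Function.Surjective e) (w : ι → F) : ht κ (fun j => w (e j)) = ht κ w := by
  have h : ∀ V : ValuationSubring F, vord V (fun j => w (e j)) = vord V w := fun V => by
    unfold vord
    refine congrArg sSup (Set.ext fun n => ⟨fun h i => ?_, fun h j => h (e j)⟩)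
    obtain ⟨j, rfl⟩ := he i
    exact h j
  unfold ht vdiv
  simp only [h]

theorem ht_mul {κ F ι : Type} [Field κ] [Field F] [Algebra κ F] [IsFF κ F] [Finite ι] {a : F}
    (ha : a ≠ 0) (w : ι → F) : ht κ (fun j => a * w j) = ht κ w :=
  haveI := Fintype.ofFinite ι
  congrArg Neg.neg (degD_vdiv_smul ha w)

theorem gauss_mul {L ι : Type} [Field L] [Algebra ℂ L] {n : ℕ} (d : Fin n → Derivation ℂ L L)
    (y : ι → L) (c : L) (S : Fin (n + 1) → ι) :
    gaussT d (fun j => c * y j) S = c ^ (n + 1) * gaussT d y S := by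
  let A : Matrix (Fin (n + 1)) (Fin (n + 1)) L :=
    Matrix.of (Fin.cons (Fin.cons c fun _ => 0)
      fun a => Fin.cons (d a c) fun b => if a = b then c else 0)
  have hA : A.det = c ^ (n + 1) := by
    rw [Matrix.det_succ_row_zero, Fin.sum_univ_succ]
    have h1 : A.submatrix Fin.succ (Fin.succAbove 0) = Matrix.diagonal fun _ => c := by
      ext a b
      simp [A, Matrix.diagonal_apply]
    rw [h1]
    simp [A, pow_succ']
  have h := congrFun (pl_mul A (Fin.cons y fun a j => d a (y j) : Fin (n + 1) → ι → L)) S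
  rw [hA, Pi.smul_apply, smul_eq_mul] at h
  refine Eq.trans (congrFun (congrArg pl (funext fun s => funext fun j => ?_)) S) h
  refine Fin.cases ?_ (fun a => ?_) s
  · simp [A, Fin.sum_univ_succ]
  · simp [A, Fin.sum_univ_succ, Finset.sum_apply, mul_comm, add_comm]

theorem gauss_comp {L ι ι' : Type} [Field L] [Algebra ℂ L] {n : ℕ}
    (d : Fin n → Derivation ℂ L L) (y : ι → L) (e : ι' → ι) (S : Fin (n + 1) → ι') :
    gaussT d (fun j => y (e j)) S = gaussT d y fun s => e (S s) := by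
  unfold gaussT pl
  refine congrArg Matrix.det (Matrix.ext fun s t => ?_)
  refine Fin.cases ?_ (fun a => ?_) s <;> rfl

theorem chart_eq {L ι ι' : Type} [Field L] [Algebra ℂ L] (y : ι → L) {e : ι' → ι}
    (he : Function.Surjective e) {c : L} (hc : c ≠ 0) (i : ι') :
    GD.chart (fun j => c * y (e j)) i = GD.chart y (e i) := by
  unfold GD.chart
  simp only [mul_div_mul_left _ _ hc]
  rw [← he.range_comp fun j => y j / y (e i)]
  rfl

end NORM

theorem st_norm (h : St_TM0) : St_TM := by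
  intro L ι _ _ _ _ y n hn hy hc
  obtain ⟨M, ⟨e⟩⟩ := Finite.exists_equiv_fin ι
  obtain ⟨N, rfl⟩ : ∃ N, M = N + 1 :=
    Nat.exists_eq_add_one.2 (Fin.pos (e (Classical.arbitrary ι)))
  have he : Function.Surjective e.symm := e.symm.surjective
  have h0 : (y (e.symm 0))⁻¹ ≠ 0 := inv_ne_zero (hy _).1
  refine h L N n (fun j => (y (e.symm 0))⁻¹ * y (e.symm j)) (inv_mul_cancel₀ (hy _).1) hn
    (fun i => ?_) ?_
  · rw [NORM.chart_eq y he h0]
    exact ⟨mul_ne_zero h0 (hy _).1, (hy _).2⟩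
  · obtain ⟨Ω, F, i1, i2, i3, i4, i5, i6, i7, σ, x, d, hd, hlt⟩ := hc
    refine ⟨Ω, F, i1, i2, i3, i4, i5, i6, i7, σ, x, d, hd, ?_⟩
    have s0 : σ (y (e.symm 0))⁻¹ ≠ 0 := (map_ne_zero σ).2 h0
    simp only [NORM.gauss_mul, NORM.gauss_comp d y e.symm, map_mul, map_pow]
    rw [NORM.ht_mul (pow_ne_zero _ s0), NORM.ht_mul s0,
      NORM.ht_comp he fun j => σ (y j),
      NORM.ht_comp (e := fun (S : Fin (n + 1) → Fin (N + 1)) s => e.symm (S s))
        (he.comp_left) fun S => σ (gaussT d y S)]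
    exact hlt

end Pool.Agent.Lib.UR.M
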