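import Pool.Agent.Lib.UR.BlueB
import Pool.Agent.Lib.GD.Base
import Pool.Agent.Lib.MP_7fcda1_ag.Lin

open Set

namespace Pool.Agent.Lib.UR

open Pool.Agent.Lib.MP_7fcda1_ag

namespace JB

variable {L ι τ : Type} [Field L] [Algebra ℂ L] {y : ι → L} {i : ι}

theorem gen (h : IsFractionRing (GD.chart y i) L) {w : τ → L} (hw : ∀ j, y j / y i ∈ range w) :
    Gen ℂ w := by
  have h1 : GD.chart y i ≤ (IntermediateField.adjoin ℂ (range w)).toSubalgebra :=
    Algebra.adjoin_le (range_subset_iff.2 fun j => IntermediateField.subset_adjoin ℂ _ (hw j))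
  refine eq_top_iff.2 fun z _ => ?_
  obtain ⟨a, b, -, rfl⟩ := IsFractionRing.div_surjective (GD.chart y i) z
  exact div_mem (h1 a.2) (h1 b.2)

theorem der_zero (h : IsFractionRing (GD.chart y i) L) (δ : Derivation ℂ L L)
    (hδ : ∀ j, δ (y j / y i) = 0) (z : L) : δ z = 0 := by
  have h1 : ∀ a : GD.chart y i, δ (algebraMap _ L a) = 0 := fun a =>
    Derivation.eqOn_adjoin (D2 := 0) (forall_mem_range.2 hδ) a.2
  obtain ⟨a, b, -, rfl⟩ := IsFractionRing.div_surjective (GD.chart y i) z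
  rw [Derivation.leibniz_div, h1, h1]
  simp

theorem gauss_ne [Finite ι] (h : IsFractionRing (GD.chart y i) L) (h0 : y i ≠ 0) {n : ℕ}
    {x : Fin n → L} {d : Fin n → Derivation ℂ L L}
    (hd : ∀ a b, d a (x b) = if a = b then 1 else 0) : gaussT d y ≠ 0 := by
  refine pl_ne_zero_iff.2 (Fintype.linearIndependent_iff.2 fun g hg => ?_)
  have h1 : ∀ z, (∑ a, g a.succ • d a) z = ∑ a, g a.succ * d a z := fun z =>
    (map_sum ((Pi.evalAddMonoidHom (fun _ => L) z).comp Derivation.coeFnAddMonoidHom) _ _)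
  have h2 : ∀ j, (∑ a, g a.succ • d a) (y j) = -(g 0 * y j) := fun j => by
    have := congrFun hg j
    rw [Fin.sum_univ_succ] at this
    rw [h1, eq_neg_iff_add_eq_zero, add_comm]
    simpa using this
  have h3 := der_zero h (∑ a, g a.succ • d a) fun j => by
    rw [Derivation.leibniz_div, h2, h2]
    simp [mul_left_comm, mul_comm]
  refine Fin.cases ?_ fun b => ?_
  · simpa [h3, h0] using h2 i
  · simpa [h3, hd] using (h1 (x b)).symm

end JB

open JB in
theorem st_JB (hBM : St_BM) (hJPS : St_JPS) (hJDG : St_JDG) : St_B := by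
  intro L ι _ _ _ _ y n hn htr hsm hps
  obtain ⟨n, rfl⟩ : ∃ m, n = m + 1 := ⟨n - 1, by omega⟩
  obtain ⟨s, hs⟩ := exists_isTranscendenceBasis ℂ L
  obtain ⟨e⟩ : Nonempty (s ≃ Fin (n + 1)) :=
    Cardinal.mk_eq_nat_iff.1 (hs.cardinalMk_eq_trdeg.trans htr)
  have hx := hs.comp_equiv e.symm
  obtain ⟨d, hd⟩ := GD.exists_dual hx
  obtain ⟨i⟩ : Nonempty ι := inferInstance
  obtain ⟨h0, hfr, -⟩ := hsm i
  obtain ⟨S, hS⟩ := Function.ne_iff.1 (gauss_ne hfr h0 hd.dual)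
  replace hS : gaussT d y S ≠ 0 := hS
  obtain ⟨N, hN⟩ := hJPS L ι y _ _ d hx hd.dual S i hS h0 hps
  obtain ⟨κ, K, _, _, _, _, _, _, _, σ, h⟩ := hBM ℂ L _ _ (hK d y S i) (qK (n + 1) y i) n 1 N
    (gen hfr fun j => ⟨(S, j), mul_div_mul_left _ _ hS⟩)
    (gen hfr fun j => ⟨Fin.cons j fun _ => i, by
      rw [qK, Fin.prod_univ_succ, pow_succ' (y i)]
      simp only [Fin.cons_zero, Fin.cons_succ, Finset.prod_const, Finset.card_fin]
      exact mul_div_mul_right _ _ (pow_ne_zero _ h0)⟩) ⟨_, hx⟩ hN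
  obtain ⟨h1, h2⟩ := hJDG κ K ι _ (fun j => σ (y j)) (fun T => σ (gaussT d y T)) S i (n + 1)
    ((map_ne_zero σ).2 hS) ((map_ne_zero σ).2 h0)
  have e1 : (fun o => σ (opt (hK d y S i) o)) = opt fun p : (Fin (n + 1 + 1) → ι) × ι =>
      σ (gaussT d y p.1) * σ (y p.2) / (σ (gaussT d y S) * σ (y i)) := by
    funext o
    cases o <;> simp [opt, hK]
  have e2 : (fun o => σ (opt (qK (n + 1) y i) o)) = opt (qK (n + 1) (fun j => σ (y j)) i) := by
    funext o
    cases o <;> simp [opt, qK]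
  rw [e1, e2, h1, h2] at h
  exact ⟨κ, K, _, _, _, _, _, ‹_›, ‹_›, σ, _, d, hd.dual, by push_cast at h ⊢; linarith⟩

end Pool.Agent.Lib.UR
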