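import Pool.Agent.Lib.UR.BlueB
import Pool.Agent.Lib.MP_7fcda1_ag.CT2

/-! The degree of the cut of a curve by a generic member is the degree of the linear system. -/

open Module Set

set_option linter.unusedVariables false

noncomputable section

namespace Pool.Agent.Lib.UR

open Pool.Agent.Lib.MP_7fcda1_ag

namespace CRV

theorem le_of_lin {a b c e : ℤ} (h : ∀ j : ℕ, (j : ℤ) * a - c ≤ b * (j + e)) : a ≤ b := by
  by_contra hab
  push Not at hab
  have h1 := h (c + b * e).toNat.succ
  have h2 : c + b * e ≤ ((c + b * e).toNat : ℤ) := Int.self_le_toNat _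
  have h3 : (0 : ℤ) ≤ ((c + b * e).toNat : ℤ) := Int.natCast_nonneg _
  rw [Nat.cast_succ] at h1
  nlinarith

theorem div_one' {k L : Type} [Field k] [Field L] [Algebra k L] (U : Submodule k L) :
    U / 1 = U := by
  refine le_antisymm (div_le_self' U (Submodule.one_le.1 le_rfl)) ?_
  rw [Submodule.le_div_iff_mul_le, mul_one]

theorem neg_nonneg' {k L : Type} [Field k] [Field L] [Algebra k L] [IsFF k L] {τ : Type}
    [Fintype τ] (w : τ → L) : 0 ≤ -vdiv k (opt w) := by
  intro v
  have h0 : opt w ≠ 0 := fun h => one_ne_zero (congrFun h none)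
  have h1 : Ge v.O (vord v.O (opt w)) (opt w none) := (vge_iff h0).2 le_rfl none
  have h2 : vord v.O (opt w) ≤ ord v.O (1 : L) := (ge_iff one_ne_zero).1 h1
  rw [ord_one] at h2
  simp only [Finsupp.coe_zero, Pi.zero_apply, Finsupp.coe_neg, Pi.neg_apply, vdiv_apply]
  omega

end CRV

theorem st_CRV (hHSU : St_HSU) (hHSL : St_HSL) (hLSC : St_LSC) : St_CRV := by
  intro k L _ _ _ _ τ _ w hw hd C
  have : IsFF k L := Dim.isFF hw hd
  obtain ⟨c, hc⟩ := exists_RR (κ := k) (L := L)
  obtain ⟨e, he⟩ := hHSU k L τ w 1 hw hd C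
  obtain ⟨-, e', he'⟩ := hHSL k L τ w 1 hw hd C
  have hL : ∀ j : ℕ, cl (sys k w ^ j) = Ls (j • -vdiv k (opt w)) := fun j => by
    have h := hLSC k L τ τ w w 0 j
    rw [pow_zero, CRV.div_one', zero_smul, zero_sub, ← smul_neg] at h
    exact h
  have hD : ∀ j : ℕ, degD (j • -vdiv k (opt w)) = (j : ℤ) * dg k (opt w) := fun j => by
    rw [map_nsmul, map_neg, dg, nsmul_eq_mul]
  refine le_antisymm ?_ ?_
  · refine CRV.le_of_lin (c := c) (e := e') fun j => ?_
    have h1 := he' j
    have := (he (j + e')).1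
    have h2 : finrank k ↥(sys k w ^ (j + e')) ≤ finrank k ↥(cl (sys k w ^ (j + e'))) :=
      Submodule.finrank_mono (le_cl _)
    have h3 := (hc ((j + e') • -vdiv k (opt w))).2 (nsmul_nonneg (CRV.neg_nonneg' w) _)
    rw [← hL, hD] at h3
    rw [Nat.choose_one_right] at h1
    have h4 : ((C.deg * (j + 1) : ℕ) : ℤ) ≤ finrank k ↥(cl (sys k w ^ (j + e'))) := by
      exact_mod_cast h1.trans h2
    have h5 : (0 : ℤ) ≤ C.deg := Int.natCast_nonneg _
    push_cast at h3 h4
    nlinarith
  · refine CRV.le_of_lin (c := c) (e := e + 1) fun j => ?_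
    have h1 := (he j).2
    have h3 := (hc (j • -vdiv k (opt w))).1
    rw [← hL, hD] at h3
    rw [Nat.choose_one_right] at h1
    have h4 : (finrank k ↥(cl (sys k w ^ j)) : ℤ) ≤ ((C.deg * (j + e + 1) : ℕ) : ℤ) := by
      exact_mod_cast h1
    push_cast at h4
    nlinarith

end Pool.Agent.Lib.UR
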