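import Pool.Agent.Lib.UR.BlueB
import Pool.Agent.Lib.MP_7fcda1_ag.Rk

open scoped IntermediateField
open Module Set

namespace Pool.Agent.Lib.UR

open Pool.Agent.Lib.MP_7fcda1_ag

namespace DIM

variable {k L : Type} [Field k] [Field L] [Algebra k L]

theorem rk_univ_gen {S : Set L} (h : IntermediateField.adjoin k S = ⊤) :
    rk k (Set.univ : Set L) = rk k S :=
  le_antisymm (rk_le_of_mem fun s _ => by rw [h]; trivial) (rk_mono (subset_univ _))

theorem rk_of_dim {n : ℕ} (h : Dim k L n) : rk k (Set.univ : Set L) = n := by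
  obtain ⟨x, hx⟩ := h
  have h1 : rk k (range x) = n := by rw [rk_range_indep hx.1, Fintype.card_fin]
  exact le_antisymm (h1 ▸ rk_le_of_alg fun s _ => hx.isAlgebraic_field.isAlgebraic s)
    (h1 ▸ rk_mono (subset_univ _))

theorem dim_of_rk {n : ℕ} (h : rk k (Set.univ : Set L) = n) : Dim k L n := by
  obtain ⟨x, -, hx⟩ := exists_indep h.ge
  have h1 : rk k (range x) = n := by rw [rk_range_indep hx, Fintype.card_fin]
  have h2 := alg_of_rk (k := k) (S := Set.univ) (T := range x) (by rw [h1]; exact ENat.natCast_ne_top n)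
    (by rw [univ_union, h, h1])
  exact ⟨x, hx.isTranscendenceBasis_iff_isAlgebraic.2
    ⟨fun s => IntermediateField.isAlgebraic_adjoin_iff.1 (h2 s trivial)⟩⟩

end DIM

open DIM in
theorem st_DIM : St_DIM := by
  intro k L _ _ _ _ τ _ w m n hw hd C
  have : Infinite k := Infinite.of_injective _ (Nat.cast_injective (R := k))
  have hL := rk_of_dim hd
  have hmw : rk k (range (C.map w)) = ((m + n : ℕ) : ℕ∞) := by
    rw [show range (C.map w) = IsScalarTower.toAlgHom k L C.L' '' range w from
      range_comp (algebraMap L C.L') w, rk_image, ← rk_univ_gen hw, hL]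
  have hss : rk L (range C.ss) = Fintype.card (Fin m × τ) := rk_range_indep C.ind
  have hsub : range (algebraMap L C.L') ⊆ IntermediateField.adjoin k (range (C.map w)) := by
    rintro _ ⟨x, rfl⟩
    have hx : x ∈ IntermediateField.adjoin k (range w) := by
      rw [show IntermediateField.adjoin k (range w) = ⊤ from hw]
      trivial
    have h2 : IntermediateField.adjoin k (range w) ≤
        (IntermediateField.adjoin k (range (C.map w))).comap (IsScalarTower.toAlgHom k L C.L') :=
      IntermediateField.adjoin_le_iff.2 (range_subset_iff.2 fun j =>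
        IntermediateField.subset_adjoin k (range (C.map w)) ⟨j, rfl⟩)
    exact h2 hx
  have hz : AlgebraicIndependent (IntermediateField.adjoin k (∅ ∪ range (C.map w))) C.ss := by
    rw [empty_union]
    refine indep_of_rk ?_
    have h1 := rk_mono (k := k) (union_subset_union_left (range C.ss) hsub)
    rw [rk_tower, Rk_adjoin_union, Rk_union_eq, hL, hmw, hss] at h1
    exact (ENat.add_le_add_iff_left (ENat.natCast_ne_top _)).1 h1
  have h0 : rk k (∅ : Set C.L') = 0 := le_antisymm (by simpa using Rk_le_encard (k := k) ∅) bot_le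
  have hg := gp (k := k) (A := Fin m) ∅ (C.map w) C.ss id Function.injective_id hz
    (by rw [h0]; exact ENat.zero_ne_top)
    (by rw [h0, empty_union, hmw, zero_add, Fintype.card_fin]; exact_mod_cast Nat.le_add_right m n)
  have hI : AlgebraicIndependent k (Sum.elim C.s C.t) := by
    refine AlgebraicIndependent.of_comp (IsScalarTower.toAlgHom k C.k' C.L') (indep_of_rk ?_)
    rw [Sum.comp_elim, Sum.elim_range, Fintype.card_sum, Nat.cast_add]
    rw [h0, zero_add, empty_union] at hg
    refine hg.ge.trans (rk_mono (union_subset_union subset_rfl ?_))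
    rintro _ ⟨a, rfl⟩
    exact ⟨a, C.tt_eq a⟩
  refine ⟨hI, dim_of_rk ?_⟩
  have hk : rk k (Set.univ : Set C.k') = ((Fintype.card (Fin m × τ) + m : ℕ) : ℕ∞) := by
    rw [rk_univ_gen C.genk, ← Sum.elim_range, rk_range_indep hI, Fintype.card_sum,
      Fintype.card_fin]
  have h1 := rk_tower (k := k) (K := L) (S := (Set.univ : Set C.L'))
  have h2 := rk_tower (k := k) (K := C.k') (S := (Set.univ : Set C.L'))
  rw [union_univ, hL, rk_univ_gen C.genL, show rk L (range fun z => algebraMap C.k' C.L' (C.s z)) =
    Fintype.card (Fin m × τ) from hss] at h1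
  rw [union_univ, hk, h1] at h2
  refine (ENat.add_right_injective_of_ne_top (ENat.natCast_ne_top (Fintype.card (Fin m × τ) + m)) ?_)
  show _ + _ = _ + _
  rw [← h2]
  push_cast
  ring

end Pool.Agent.Lib.UR
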