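import Pool.Agent.Lib.UR.BlueB

/-! The lower bound for the Hilbert function of a linear system. -/

open scoped IntermediateField
open Module Submodule Set

set_option linter.unusedVariables false

noncomputable section

namespace Pool.Agent.Lib.UR

namespace HSL

variable {K E : Type} [Field K] [Field E] [Algebra K E]

theorem pow_le_pow' {U U' : Submodule K E} (h : U ≤ U') (j : ℕ) : U ^ j ≤ U' ^ j := by
  induction j with
  | zero => simp
  | succ j ih =>
    rw [pow_succ, pow_succ]
    exact mul_le_mul' ih h

theorem pow_le_field (F : IntermediateField K E) {U : Submodule K E} (h : ∀ x ∈ U, x ∈ F)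
    (j : ℕ) : ∀ x ∈ U ^ j, x ∈ F := by
  induction j with
  | zero =>
    intro x hx
    rw [pow_zero, Submodule.mem_one] at hx
    obtain ⟨c, rfl⟩ := hx
    exact F.algebraMap_mem c
  | succ j ih =>
    intro x hx
    rw [pow_succ] at hx
    exact Submodule.mul_induction_on hx (fun a ha b hb => F.mul_mem (ih a ha) (h b hb))
      fun a b ha hb => F.add_mem ha hb

theorem exists_basis {τ : Type} (v : τ → E) (F : IntermediateField K E)
    [FiniteDimensional F E] (hv : Gen F v) :
    ∃ (e : ℕ) (b : Fin (finrank F E) → E), LinearIndependent F b ∧ ∀ i, b i ∈ sys K v ^ e := by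
  let S : Set E := {x | ∃ e : ℕ, x ∈ sys K v ^ e}
  have h1 : (Submonoid.closure (range v) : Set E) ⊆ S := by
    intro x hx
    induction hx using Submonoid.closure_induction with
    | mem x hx =>
      obtain ⟨j, rfl⟩ := hx
      exact ⟨1, by rw [pow_one]; exact mem_sys v j⟩
    | one => exact ⟨0, one_mem_pow (one_mem_sys v) 0⟩
    | mul x y _ _ hx hy =>
      obtain ⟨a, ha⟩ := hx
      obtain ⟨b, hb⟩ := hy
      exact ⟨a + b, by rw [pow_add]; exact mul_mem_mul ha hb⟩
  have h2 : span F S = ⊤ := by
    refine eq_top_iff.2 fun x _ => span_mono h1 ?_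
    rw [← Algebra.adjoin_eq_span]
    have h3 := IntermediateField.adjoin_toSubalgebra_of_isAlgebraic (F := F) (S := range v)
      fun x _ => Algebra.IsAlgebraic.isAlgebraic x
    rw [← h3, show IntermediateField.adjoin F (range v) = ⊤ from hv]
    trivial
  obtain ⟨B, hB, hsp, hli⟩ := exists_linearIndependent F S
  have hfin : B.Finite := hli.setFinite
  have : Fintype B := hfin.fintype
  have hc : finrank F E = Fintype.card B := finrank_eq_card_basis
    (Basis.mk hli (by rw [Subtype.range_coe, hsp, h2]))
  choose f hf using fun x : B => hB x.2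
  let q : Fin (finrank F E) ≃ B := (Fintype.equivFinOfCardEq hc.symm).symm
  refine ⟨Finset.univ.sup f, fun i => (q i : E), hli.comp q q.injective, fun i => ?_⟩
  exact pow_mono' (one_mem_sys v) (Finset.le_sup (Finset.mem_univ (q i))) (hf (q i))

theorem lower (hMON : St_MON) {τ : Type} [Fintype τ] (v : τ → E) {n : ℕ} (t : Fin n → E)
    (ht : AlgebraicIndependent K t)
    [FiniteDimensional (IntermediateField.adjoin K (range t)) E]
    (hv : Gen (IntermediateField.adjoin K (range t)) v) (htv : ∀ a, t a ∈ sys K v) :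
    ∃ e : ℕ, ∀ j : ℕ, finrank (IntermediateField.adjoin K (range t)) E * (j + n).choose n ≤
      finrank K ↥(sys K v ^ (j + e)) := by
  obtain ⟨e, b, hb, hbe⟩ := exists_basis v (IntermediateField.adjoin K (range t)) hv
  refine ⟨e, fun j => ?_⟩
  have := fd_pow (sys K t) j
  have := fd_pow (sys K v) (j + e)
  let c := Module.finBasis K ↥(sys K t ^ j)
  have hF : ∀ x ∈ sys K t ^ j, x ∈ IntermediateField.adjoin K (range t) :=
    pow_le_field _ (fun x hx => (sys_le
      (U := (IntermediateField.adjoin K (range t)).toSubalgebra.toSubmodule)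
      (IntermediateField.one_mem _)
      fun a => IntermediateField.subset_adjoin K (range t) ⟨a, rfl⟩) hx) j
  let c' : Fin (finrank K ↥(sys K t ^ j)) → IntermediateField.adjoin K (range t) :=
    fun l => ⟨c l, hF _ (c l).2⟩
  have hc' : LinearIndependent K c' :=
    LinearIndependent.of_comp (IntermediateField.adjoin K (range t)).val.toLinearMap
      (c.linearIndependent.map' (sys K t ^ j).subtype (ker_subtype _))
  have h1 := linearIndependent_smul hc' hb
  have h2 : ∀ p : Fin (finrank K ↥(sys K t ^ j)) ×
      Fin (finrank (IntermediateField.adjoin K (range t)) E),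
      c' p.1 • b p.2 ∈ sys K v ^ (j + e) := by
    intro p
    rw [pow_add]
    exact mul_mem_mul (pow_le_pow' (sys_le (one_mem_sys v) htv) j (c p.1).2) (hbe p.2)
  have h3 : LinearIndependent K fun p => (⟨_, h2 p⟩ : ↥(sys K v ^ (j + e))) :=
    LinearIndependent.of_comp (sys K v ^ (j + e)).subtype h1
  have h4 := h3.fintype_card_le_finrank
  rw [Fintype.card_prod, Fintype.card_fin, Fintype.card_fin, hMON K E n t ht j, mul_comm] at h4
  exact h4

theorem finrank_le {k L : Type} [Field k] [Field L] [Algebra k L] [Algebra k K] [Algebra k E]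
    [Algebra L E] [IsScalarTower k K E] [IsScalarTower k L E] {τ : Type} [Fintype τ] (w : τ → L)
    (m : ℕ) : finrank K ↥(sys K (fun j => algebraMap L E (w j)) ^ m) ≤
      finrank k ↥(sys k w ^ m) := by
  have h1 : ∀ m : ℕ, sys K (fun j => algebraMap L E (w j)) ^ m ≤
      span K (algebraMap L E '' (sys k w ^ m : Submodule k L)) := by
    intro m
    induction m with
    | zero =>
      rw [pow_zero, one_eq_span]
      exact span_mono (singleton_subset_iff.2 ⟨1, one_mem_pow (one_mem_sys w) 0, map_one _⟩)
    | succ m ih =>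
      have h2 : sys K (fun j => algebraMap L E (w j)) ≤
          span K (algebraMap L E '' (sys k w : Submodule k L)) :=
        sys_le (subset_span ⟨1, one_mem_sys w, map_one _⟩)
          fun j => subset_span ⟨w j, mem_sys w j, rfl⟩
      rw [pow_succ]
      refine (mul_le_mul' ih h2).trans ?_
      rw [span_mul_span]
      refine span_mono ?_
      rintro _ ⟨_, ⟨x, hx, rfl⟩, _, ⟨y, hy, rfl⟩, rfl⟩
      exact ⟨x * y, by rw [pow_succ]; exact mul_mem_mul hx hy, map_mul _ _ _⟩
  have := fd_pow (sys k w) m
  let b := Module.finBasis k ↥(sys k w ^ m)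
  have h3 : span K (algebraMap L E '' (sys k w ^ m : Submodule k L)) ≤
      span K (range fun i => algebraMap L E (b i)) := by
    refine span_le.2 ?_
    rintro _ ⟨x, hx, rfl⟩
    have h4 := congrArg (fun z : ↥(sys k w ^ m) => algebraMap L E z) (b.sum_repr ⟨x, hx⟩)
    simp only [Submodule.coe_sum, Submodule.coe_smul, map_sum] at h4
    rw [← h4]
    refine sum_mem fun i _ => ?_
    rw [Algebra.smul_def, map_mul, ← IsScalarTower.algebraMap_apply,
      IsScalarTower.algebraMap_apply k K E, ← Algebra.smul_def]
    exact smul_mem _ _ (subset_span ⟨i, rfl⟩)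
  have : FiniteDimensional K ↥(span K (range fun i => algebraMap L E (b i))) :=
    FiniteDimensional.span_of_finite _ (finite_range _)
  exact (Submodule.finrank_mono ((h1 m).trans h3)).trans
    ((finrank_range_le_card _).trans (by simp))

end HSL

theorem st_HSL (hSET : St_SET) (hMON : St_MON) : St_HSL := by
  intro k L _ _ _ _ τ _ w n hw hd C
  obtain ⟨h1, h2, h3, h4, -⟩ := hSET k L τ w n hw hd C
  refine ⟨h3 ▸ Module.finrank_pos, ?_⟩
  obtain ⟨e, he⟩ := HSL.lower hMON (C.map w) C.tt h1 h4 fun a => by
    rw [C.tt_eq]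
    refine sum_mem fun j _ => ?_
    exact (sys C.ks (C.map w)).smul_mem
      (⟨C.ss (a, j), IntermediateField.subset_adjoin k _ ⟨_, rfl⟩⟩ : C.ks) (mem_sys _ j)
  exact ⟨e, fun j => h3 ▸ (he j).trans (HSL.finrank_le w (j + e))⟩

end Pool.Agent.Lib.UR
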