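import Pool.Agent.Lib.UR.BlueB
import Pool.Agent.Lib.MP_7fcda1_ag.Bun1

open Module Set

noncomputable section

namespace Pool.Agent.Lib.UR

open Pool.Agent.Lib.MP_7fcda1_ag

namespace JdgB

variable {κ K : Type} [Field κ] [Field K] [Algebra κ K] [IsFF κ K] {ι ι' : Type} [Fintype ι]
  [Fintype ι']

theorem dg_opt {w : ι → K} {j : ι} (h : w j = 1) : dg κ (opt w) = dg κ w := by
  have hw : w ≠ 0 := fun h0 => one_ne_zero (h.symm.trans (congrFun h0 j))
  have : vdiv κ (opt w) = vdiv κ w := by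
    ext v
    obtain ⟨i, h1, h2⟩ := exists_vord (V := v.O) hw
    have h3 : VGe v.O (vord v.O w) w := (vge_iff hw).2 le_rfl
    rw [vdiv_apply, vdiv_apply]
    refine lin_vord_eq (i := some i) (fun o => ?_) h1 h2
    rcases o with _ | l
    · have := h3 j
      rwa [h] at this
    · exact h3 l
  rw [dg, dg, this]

theorem dg_div (w : ι → K) {a : K} (ha : a ≠ 0) : dg κ (fun i => w i / a) = dg κ w := by
  have : (fun i => w i / a) = a⁻¹ • w := funext fun i => div_eq_inv_mul _ _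
  rw [dg, dg, this, degD_vdiv_smul (inv_ne_zero ha)]

theorem dg_mul {G : ι' → K} {y : ι → K} (hG : G ≠ 0) (hy : y ≠ 0) :
    dg κ (fun p : ι' × ι => G p.1 * y p.2) = dg κ G + dg κ y := by
  have : vdiv κ (fun p : ι' × ι => G p.1 * y p.2) = vdiv κ G + vdiv κ y := by
    ext v
    obtain ⟨i, h1, h2⟩ := exists_vord (V := v.O) hG
    obtain ⟨j, h3, h4⟩ := exists_vord (V := v.O) hy
    rw [Finsupp.add_apply, vdiv_apply, vdiv_apply, vdiv_apply]
    exact lin_vord_eq (i := (i, j))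
      (fun p => ((vge_iff hG).2 le_rfl p.1).mul ((vge_iff hy).2 le_rfl p.2)) (mul_ne_zero h1 h3)
      (by rw [← h2, ← h4]; exact ord_mul h1 h3)
  rw [dg, dg, dg, this, map_add, neg_add]

theorem dg_prod {y : ι → K} (hy : y ≠ 0) (m : ℕ) :
    dg κ (fun f : Fin m → ι => ∏ b, y (f b)) = m * dg κ y := by
  have : vdiv κ (fun f : Fin m → ι => ∏ b, y (f b)) = (m : ℤ) • vdiv κ y := by
    ext v
    obtain ⟨j, h3, h4⟩ := exists_vord (V := v.O) hy
    rw [Finsupp.smul_apply, vdiv_apply, vdiv_apply, smul_eq_mul]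
    refine lin_vord_eq (i := fun _ => j) (fun f => ?_) (by simp [h3]) (by simp [h4])
    simpa using Ge.prod (s := Finset.univ) (f := fun b => y (f b)) (n := fun _ => vord v.O y)
      fun b _ => (vge_iff hy).2 le_rfl (f b)
  rw [dg, dg, this, map_smul, smul_eq_mul, mul_neg]

end JdgB

theorem st_JDG : St_JDG := fun κ K _ _ _ _ ι ι' _ _ y G S₀ i₀ n hG hy => by
  have hG' : G ≠ 0 := fun h => hG (congrFun h S₀)
  have hy' : y ≠ 0 := fun h => hy (congrFun h i₀)
  constructor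
  · rw [JdgB.dg_opt (j := (S₀, i₀)) (div_self (mul_ne_zero hG hy)),
      JdgB.dg_div (fun p : ι' × ι => G p.1 * y p.2) (mul_ne_zero hG hy), JdgB.dg_mul hG' hy']
    rfl
  · rw [JdgB.dg_opt (j := fun _ => i₀) (by simp [qK, hy])]
    refine (JdgB.dg_div (fun f : Fin (n + 2) → ι => ∏ b, y (f b)) (pow_ne_zero _ hy)).trans ?_
    rw [JdgB.dg_prod hy']
    push_cast
    rfl

end Pool.Agent.Lib.UR
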