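import Pool.Agent.Lib.UR.BlueB
import Pool.Agent.Lib.MP_7fcda1_ag.CT2

/-! On a curve the complete linear systems are Riemann-Roch spaces. -/

open Module Set

noncomputable section

namespace Pool.Agent.Lib.UR

open Pool.Agent.Lib.MP_7fcda1_ag

namespace LSC
variable {k L : Type} [Field k] [Field L] [Algebra k L] [IsFF k L] {τ : Type} [Fintype τ]

omit [IsFF k L] [Fintype τ] in
theorem opt_ne (w : τ → L) : opt w ≠ 0 := fun h => one_ne_zero (congrFun h none)

theorem ex_min (w : τ → L) (v : Place k L) : ∃ a ∈ sys k w, a ≠ 0 ∧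
    ord v.O a = vord v.O (opt w) ∧ sys k w ≤ ball v.O v.const (v.O.valuation a) := by
  obtain ⟨i, h0, h1⟩ := exists_vord (V := v.O) (opt_ne w)
  refine ⟨opt w i, ?_, h0, h1, ?_⟩
  · rw [sys_eq]
    exact Submodule.subset_span ⟨i, rfl⟩
  · rw [sys_eq, Submodule.span_le]
    rintro _ ⟨j, rfl⟩
    refine mem_ball.2 ((val_le_iff (Or.inl v.disc) h0).2 ?_)
    rw [h1]
    exact (vge_iff (opt_ne w)).2 le_rfl j

theorem mem_cl_pow (w : τ → L) (b : ℕ) (x : L) :
    x ∈ cl (sys k w ^ b) ↔ ∀ v : Place k L, Ge v.O (b * vord v.O (opt w)) x := by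
  refine ⟨fun hx v => ?_, fun hx O hO => ?_⟩
  · obtain ⟨a, -, h0, h1, h2⟩ := ex_min w v
    have h3 := mem_ball.1 (cl_le_ball (ball_pow h2 b) hx)
    rw [← map_pow, val_le_iff (Or.inl v.disc) (pow_ne_zero b h0), ord_pow, h1] at h3
    exact h3
  · by_cases hT : O = ⊤
    · refine ⟨1, one_mem_pow (one_mem_sys w) b, ?_⟩
      rw [map_one, ValuationSubring.valuation_le_one_iff, hT]
      trivial
    · obtain ⟨a, ha, h0, h1, -⟩ := ex_min w (⟨O, hT, hO⟩ : Place k L)
      refine ⟨a ^ b, Submodule.pow_mem_pow _ ha b, ?_⟩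
      have h3 := hx ⟨O, hT, hO⟩
      rw [← h1, ← ord_pow] at h3
      exact (val_le_iff (Or.inl (Place.disc ⟨O, hT, hO⟩)) (pow_ne_zero b h0)).2 h3

end LSC

theorem st_LSC : St_LSC := by
  intro k L _ _ _ _ τ τ' _ _ h q m b
  ext x
  rw [Submodule.mem_div_iff_forall_mul_mem, mem_Ls]
  have e : ∀ v : Place k L, -(m • vdiv k (opt q) - b • vdiv k (opt h)) v =
      b * vord v.O (opt h) + -(m * vord v.O (opt q)) := fun v => by
    rw [Finsupp.sub_apply, Finsupp.smul_apply, Finsupp.smul_apply, vdiv_apply, vdiv_apply,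
      nsmul_eq_mul, nsmul_eq_mul]
    ring
  refine ⟨fun hx v => ?_, fun hx y hy => (LSC.mem_cl_pow h b _).2 fun v => ?_⟩
  · obtain ⟨c, hc, h0, h1, -⟩ := LSC.ex_min q v
    have h2 := (LSC.mem_cl_pow h b _).1 (hx _ (Submodule.pow_mem_pow _ hc m)) v
    have h3 : Ge v.O (-(m * vord v.O (opt q))) (c ^ m)⁻¹ :=
      Or.inr (by rw [ord_inv, ord_pow, h1])
    have h4 := h2.mul h3
    rw [mul_inv_cancel_right₀ (pow_ne_zero m h0)] at h4
    rw [e]
    exact h4
  · have h1 := (LSC.mem_cl_pow q m y).1 (le_cl _ hy) v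
    have h2 := hx v
    rw [e] at h2
    have h3 := h2.mul h1
    rwa [neg_add_cancel_right] at h3

end Pool.Agent.Lib.UR
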