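import Pool.Agent.Lib.MP_7fcda1_ag.Iface

/-! Valuative closure of linear systems, generic cuts, curve data, eventual homomorphisms. -/

open scoped IntermediateField Polynomial
open Module Submodule Set Filter

set_option linter.unusedSectionVars false
set_option linter.unusedVariables false

noncomputable section

namespace Pool.Agent.Lib.UR

open Pool.Agent.Lib.MP_7fcda1_ag

/-! ### Linear systems -/
section cl
variable {k L : Type} [Field k] [Field L] [Algebra k L]

/-- The complete linear system attached to `U`. -/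
def cl (U : Submodule k L) : Submodule k L where
  carrier := {x | ∀ O : ValuationSubring L, (∀ c : k, algebraMap k L c ∈ O) →
    ∃ u ∈ U, O.valuation x ≤ O.valuation u}
  zero_mem' := fun _ _ => ⟨0, U.zero_mem, le_rfl⟩
  add_mem' := fun {a b} ha hb O hO => by
    obtain ⟨u, hu, h1⟩ := ha O hO
    obtain ⟨u', hu', h2⟩ := hb O hO
    rcases le_total (O.valuation a) (O.valuation b) with h | h
    · exact ⟨u', hu', O.valuation.map_add_le (h.trans h2) h2⟩
    · exact ⟨u, hu, O.valuation.map_add_le h1 (h.trans h1)⟩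
  smul_mem' := fun c a ha O hO => by
    obtain ⟨u, hu, h1⟩ := ha O hO
    refine ⟨u, hu, le_trans ?_ h1⟩
    rw [Algebra.smul_def, map_mul]
    exact mul_le_of_le_one_left' ((O.valuation_le_one_iff _).2 (hO c))

variable (k) in
/-- The linear system spanned by `1` and a family. -/
def sys {τ : Type} (w : τ → L) : Submodule k L := span k (insert 1 (range w))

variable (k) in
/-- The family generates the field. -/
def Gen {τ : Type} (w : τ → L) : Prop := IntermediateField.adjoin k (range w) = ⊤

variable (k L) in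
/-- The transcendence degree is `n`. -/
def Dim (n : ℕ) : Prop := ∃ x : Fin n → L, IsTranscendenceBasis k x

/-- The family with `1` added. -/
def opt {τ : Type} (w : τ → L) : Option τ → L := fun o => o.elim 1 w

/-- `n` independent copies of a linear form. -/
def rep (n : ℕ) {τ : Type} (w : τ → L) : Fin n → Fin n × τ → L :=
  fun a z => if z.1 = a then w z.2 else 0

variable (k) in
/-- The degree of a linear system on a curve. -/
def dg {ι : Type} (w : ι → L) : ℤ := -degD (vdiv k w)

variable (k) in
/-- The dimension of the space of sections of `b H - m Q`. -/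
def gd {τ τ' : Type} (h : τ → L) (q : τ' → L) (m b : ℕ) : ℕ :=
  finrank k ↥(cl (sys k h ^ b) / sys k q ^ m)

theorem mem_cl {U : Submodule k L} {x : L} : x ∈ cl U ↔ ∀ O : ValuationSubring L,
    (∀ c : k, algebraMap k L c ∈ O) → ∃ u ∈ U, O.valuation x ≤ O.valuation u := Iff.rfl

theorem le_cl (U : Submodule k L) : U ≤ cl U := fun x hx _ _ => ⟨x, hx, le_rfl⟩

theorem cl_le_cl {U U' : Submodule k L} (h : U ≤ cl U') : cl U ≤ cl U' := fun x hx O hO => by
  obtain ⟨u, hu, h1⟩ := hx O hO
  obtain ⟨u', hu', h2⟩ := h hu O hO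
  exact ⟨u', hu', h1.trans h2⟩

theorem cl_mono {U U' : Submodule k L} (h : U ≤ U') : cl U ≤ cl U' := cl_le_cl (h.trans (le_cl _))

theorem cl_cl (U : Submodule k L) : cl (cl U) = cl U := le_antisymm (cl_le_cl le_rfl) (le_cl _)

theorem mul_mem_cl {U U' : Submodule k L} {x y : L} (hx : x ∈ cl U) (hy : y ∈ cl U') :
    x * y ∈ cl (U * U') := fun O hO => by
  obtain ⟨u, hu, h1⟩ := hx O hO
  obtain ⟨u', hu', h2⟩ := hy O hO
  exact ⟨u * u', mul_mem_mul hu hu', by rw [map_mul, map_mul]; exact mul_le_mul' h1 h2⟩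

theorem cl_mul_le (U U' : Submodule k L) : cl U * cl U' ≤ cl (U * U') :=
  Submodule.mul_le.2 fun _ hx _ hy => mul_mem_cl hx hy

theorem pow_le_cl {U U' : Submodule k L} (h : U ≤ cl U') (j : ℕ) : U ^ j ≤ cl (U' ^ j) := by
  induction j with
  | zero => rw [pow_zero, pow_zero]; exact le_cl _
  | succ j ih =>
    rw [pow_succ, pow_succ]
    exact (mul_le_mul' ih h).trans (cl_mul_le _ _)

theorem pow_mem_cl {U : Submodule k L} {x : L} (hx : x ∈ cl U) (j : ℕ) : x ^ j ∈ cl (U ^ j) :=
  pow_le_cl (U := cl U) (U' := U) le_rfl j (Submodule.pow_mem_pow _ hx j)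

/-- The elements of value at most `g` form a subspace. -/
def ball (O : ValuationSubring L) (hO : ∀ c : k, algebraMap k L c ∈ O) (g : O.ValueGroup) :
    Submodule k L where
  carrier := {x | O.valuation x ≤ g}
  zero_mem' := by simp
  add_mem' := fun ha hb => O.valuation.map_add_le ha hb
  smul_mem' := fun c a ha => by
    change O.valuation _ ≤ g
    rw [Algebra.smul_def, map_mul]
    exact (mul_le_of_le_one_left' ((O.valuation_le_one_iff _).2 (hO c))).trans ha

theorem mem_ball {O : ValuationSubring L} {hO : ∀ c : k, algebraMap k L c ∈ O} {g} {x : L} :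
    x ∈ ball O hO g ↔ O.valuation x ≤ g := Iff.rfl

theorem ball_mul {O : ValuationSubring L} {hO : ∀ c : k, algebraMap k L c ∈ O}
    {U U' : Submodule k L} {g g'} (h : U ≤ ball O hO g) (h' : U' ≤ ball O hO g') :
    U * U' ≤ ball O hO (g * g') :=
  Submodule.mul_le.2 fun _ hx _ hy => by
    rw [mem_ball, map_mul]
    exact mul_le_mul' (h hx) (h' hy)

theorem ball_pow {O : ValuationSubring L} {hO : ∀ c : k, algebraMap k L c ∈ O}
    {U : Submodule k L} {g} (h : U ≤ ball O hO g) (j : ℕ) : U ^ j ≤ ball O hO (g ^ j) := by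
  induction j with
  | zero =>
    rw [pow_zero, pow_zero, one_eq_span, span_le]
    rintro _ rfl
    exact le_of_eq (map_one O.valuation)
  | succ j ih =>
    rw [pow_succ, pow_succ]
    exact ball_mul ih h

theorem cl_le_ball {O : ValuationSubring L} {hO : ∀ c : k, algebraMap k L c ∈ O}
    {U : Submodule k L} {g} (h : U ≤ ball O hO g) : cl U ≤ ball O hO g := fun x hx => by
  obtain ⟨u, hu, h1⟩ := hx O hO
  exact h1.trans (h hu)

/-- A finite dimensional system has an element of maximal value. -/
theorem exists_max (U : Submodule k L) [FiniteDimensional k U] (O : ValuationSubring L)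
    (hO : ∀ c : k, algebraMap k L c ∈ O) : ∃ u ∈ U, U ≤ ball O hO (O.valuation u) := by
  obtain ⟨s, rfl⟩ := (Module.Finite.iff_fg (N := U)).1 inferInstance
  rcases s.eq_empty_or_nonempty with rfl | h
  · exact ⟨0, zero_mem _, by simp⟩
  · obtain ⟨u, hu, h1⟩ := s.exists_max_image (fun x => O.valuation x) h
    exact ⟨u, subset_span hu, span_le.2 fun x hx => h1 x hx⟩

/-- An element of a product has value at most that of a product of elements. -/
theorem exists_le_mul {U U' : Submodule k L} (O : ValuationSubring L)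
    (hO : ∀ c : k, algebraMap k L c ∈ O) {x : L} (hx : x ∈ U * U') :
    ∃ u ∈ U, ∃ u' ∈ U', O.valuation x ≤ O.valuation u * O.valuation u' := by
  refine Submodule.mul_induction_on hx (fun a ha b hb => ⟨a, ha, b, hb, (map_mul _ _ _).le⟩) ?_
  rintro a b ⟨u, hu, u', hu', h1⟩ ⟨v, hv, v', hv', h2⟩
  rcases le_total (O.valuation a) (O.valuation b) with h | h
  · exact ⟨v, hv, v', hv', O.valuation.map_add_le (h.trans h2) h2⟩
  · exact ⟨u, hu, u', hu', O.valuation.map_add_le h1 (h.trans h1)⟩

/-- Cancellation. -/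
theorem cl_cancel (U : Submodule k L) {U' : Submodule k L} [FiniteDimensional k U'] (h : U' ≠ ⊥) :
    cl (U * U') / U' = cl U := by
  refine le_antisymm (fun x hx O hO => ?_) fun x hx => mem_div_iff_forall_mul_mem.2 fun y hy =>
    mul_mem_cl hx (le_cl _ hy)
  obtain ⟨u', hu', h1⟩ := exists_max U' O hO
  have h0 : O.valuation u' ≠ 0 := fun h2 => h (eq_bot_iff.2 fun y hy => by
    have := h1 hy
    rw [mem_ball, h2, le_zero_iff, map_eq_zero] at this
    exact this)
  obtain ⟨z, hz, h2⟩ := mem_div_iff_forall_mul_mem.1 hx u' hu' O hO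
  obtain ⟨u, hu, v, hv, h3⟩ := exists_le_mul O hO hz
  refine ⟨u, hu, ?_⟩
  have h4 : O.valuation x * O.valuation u' ≤ O.valuation u * O.valuation u' := by
    rw [← map_mul]
    exact (h2.trans h3).trans (mul_le_mul' le_rfl (h1 hv))
  exact le_of_mul_le_mul_right h4 (zero_lt_iff.2 h0)

theorem mem_cl_of_pow {U : Submodule k L} {x : L} {j : ℕ} (hj : 0 < j) (hx : x ^ j ∈ cl (U ^ j)) :
    x ∈ cl U := fun O hO => by
  by_contra h
  push Not at h
  have h0 : O.valuation x ≠ 0 := (zero_lt_iff.1 (lt_of_le_of_lt zero_le (h 0 U.zero_mem)))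
  have key : ∀ i : ℕ, ∀ z ∈ U ^ (i + 1), O.valuation z < O.valuation x ^ (i + 1) := by
    intro i
    induction i with
    | zero => simpa using h
    | succ i ih =>
      intro z hz
      rw [pow_succ] at hz
      obtain ⟨a, ha, b, hb, h1⟩ := exists_le_mul O hO hz
      rw [pow_succ]
      exact h1.trans_lt (mul_lt_mul'' (ih a ha) (h b hb) zero_le zero_le)
  obtain ⟨i, rfl⟩ := Nat.exists_eq_succ_of_ne_zero hj.ne'
  obtain ⟨z, hz, h1⟩ := hx O hO
  rw [map_pow] at h1
  exact absurd (key i z hz) (not_lt.2 h1)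

theorem div_div' (U A B : Submodule k L) : U / (A * B) = U / A / B := by
  ext x
  simp only [mem_div_iff_forall_mul_mem]
  refine ⟨fun h b hb a ha => ?_, fun h y hy => ?_⟩
  · rw [mul_assoc, mul_comm b]
    exact h _ (mul_mem_mul ha hb)
  · refine Submodule.mul_induction_on hy (fun a ha b hb => ?_) fun a b ha hb => ?_
    · rw [mul_comm a, ← mul_assoc]
      exact h b hb a ha
    · rw [mul_add]
      exact add_mem ha hb

theorem div_le_div' {U U' A A' : Submodule k L} (h : U ≤ U') (h' : A' ≤ A) : U / A ≤ U' / A' :=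
  fun x hx => mem_div_iff_forall_mul_mem.2 fun y hy =>
    h (mem_div_iff_forall_mul_mem.1 hx y (h' hy))

theorem div_le_self' (U : Submodule k L) {A : Submodule k L} (h : (1 : L) ∈ A) : U / A ≤ U :=
  fun x hx => by simpa using mem_div_iff_forall_mul_mem.1 hx 1 h

theorem div_mul_div_le (U U' A A' : Submodule k L) :
    cl U / A * (cl U' / A') ≤ cl (U * U') / (A * A') :=
  Submodule.mul_le.2 fun x hx y hy => mem_div_iff_forall_mul_mem.2 fun z hz => by
    refine Submodule.mul_induction_on hz (fun a ha b hb => ?_) fun a b ha hb => ?_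
    · rw [mul_mul_mul_comm]
      exact mul_mem_cl (mem_div_iff_forall_mul_mem.1 hx a ha)
        (mem_div_iff_forall_mul_mem.1 hy b hb)
    · rw [mul_add]
      exact add_mem ha hb

theorem pow_mem_div {U A : Submodule k L} {x : L} (hx : x ∈ cl U / A) (j : ℕ) :
    x ^ j ∈ cl (U ^ j) / A ^ j := by
  induction j with
  | zero =>
    refine mem_div_iff_forall_mul_mem.2 fun y hy => ?_
    simp only [pow_zero, one_mul] at hy ⊢
    exact le_cl _ hy
  | succ j ih =>
    rw [pow_succ, pow_succ, pow_succ]
    exact div_mul_div_le _ _ _ _ (mul_mem_mul ih hx)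

variable {τ : Type}

theorem one_mem_sys (w : τ → L) : (1 : L) ∈ sys k w := subset_span (mem_insert _ _)

theorem mem_sys (w : τ → L) (j : τ) : w j ∈ sys k w := subset_span (mem_insert_of_mem _ ⟨j, rfl⟩)

theorem sys_le {w : τ → L} {U : Submodule k L} (h1 : (1 : L) ∈ U) (h : ∀ j, w j ∈ U) :
    sys k w ≤ U := span_le.2 (insert_subset h1 (range_subset_iff.2 h))

theorem sys_eq (w : τ → L) : sys k w = span k (range (opt w)) := by
  rw [sys, Option.range_eq]
  rfl

instance [Finite τ] (w : τ → L) : FiniteDimensional k (sys k w) :=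
  FiniteDimensional.span_of_finite k ((finite_range w).insert 1)

theorem fd_mul (U U' : Submodule k L) [FiniteDimensional k U] [FiniteDimensional k U'] :
    FiniteDimensional k ↥(U * U') :=
  Module.Finite.iff_fg.2 ((Module.Finite.iff_fg.1 ‹_›).mul (Module.Finite.iff_fg.1 ‹_›))

theorem fd_pow (U : Submodule k L) [FiniteDimensional k U] (j : ℕ) :
    FiniteDimensional k ↥(U ^ j) :=
  Module.Finite.iff_fg.2 ((Module.Finite.iff_fg.1 ‹_›).pow j)

theorem one_mem_pow {U : Submodule k L} (h : (1 : L) ∈ U) (j : ℕ) : (1 : L) ∈ U ^ j := by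
  simpa using pow_mem_pow _ h j

theorem pow_mono' {U : Submodule k L} (h : (1 : L) ∈ U) {i j : ℕ} (hij : i ≤ j) :
    U ^ i ≤ U ^ j := by
  obtain ⟨l, rfl⟩ := Nat.exists_eq_add_of_le hij
  rw [pow_add]
  intro x hx
  simpa using Submodule.mul_mem_mul hx (one_mem_pow h l)

theorem ne_bot_of_one {U : Submodule k L} (h : (1 : L) ∈ U) : U ≠ ⊥ := fun h0 => by
  rw [h0, Submodule.mem_bot] at h
  exact one_ne_zero h

theorem sys_rep (w : τ → L) : sys k (rep 1 w 0) = sys k w := by
  have : range (rep 1 w 0) = range w := by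
    ext x
    constructor
    · rintro ⟨z, rfl⟩
      exact ⟨z.2, by simp [rep, Subsingleton.elim z.1 0]⟩
    · rintro ⟨j, rfl⟩
      exact ⟨(0, j), by simp [rep]⟩
  rw [sys, sys, this]

theorem Dim.finite [Finite τ] {w : τ → L} (hw : Gen k w) (h : Dim k L 0) :
    FiniteDimensional k L := by
  obtain ⟨x, hx⟩ := h
  have : Algebra.IsAlgebraic k L := (isTranscendenceBasis_iff_algebraicIndependent_isAlgebraic.1
    hx).2.isAlgebraic |> fun h => hx.isEmpty_iff_isAlgebraic.1 inferInstance
  have h1 := IntermediateField.finiteDimensional_adjoin (K := k) (S := range w)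
    (fun x _ => Algebra.IsIntegral.isIntegral x)
  rw [hw] at h1
  exact Module.Finite.equiv IntermediateField.topEquiv.toLinearEquiv

theorem Dim.isFF [Finite τ] {w : τ → L} (hw : Gen k w) (h : Dim k L 1) : IsFF k L := by
  obtain ⟨x, hx⟩ := h
  refine ⟨x 0, hx.1.transcendental 0, ?_⟩
  have h0 : range x = {x 0} := by
    ext z
    simp [Fin.exists_fin_one, eq_comm]
  have h1 := hx.isAlgebraic_field
  rw [h0] at h1
  have h2 := IntermediateField.finiteDimensional_adjoin (K := k⟮x 0⟯) (S := range w)
    (fun x _ => Algebra.IsIntegral.isIntegral x)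
  have h3 : IntermediateField.adjoin k⟮x 0⟯ (range w) = ⊤ := by
    rw [eq_top_iff]
    intro z _
    have h4 : z ∈ IntermediateField.adjoin k (range w) := by
      rw [show IntermediateField.adjoin k (range w) = ⊤ from hw]
      trivial
    have h5 : IntermediateField.adjoin k (range w) ≤
        (IntermediateField.adjoin k⟮x 0⟯ (range w)).restrictScalars k :=
      IntermediateField.adjoin_le_iff.2 (IntermediateField.subset_adjoin k⟮x 0⟯ (range w))
    exact h5 h4
  rw [h3] at h2
  exact Module.Finite.equiv IntermediateField.topEquiv.toLinearEquiv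

end cl

/-! ### Generic cuts -/

/-- The section of `L / k` by the generic hypersurfaces `∑ z, s z * W a z = t a`. -/
structure Cut (k L : Type) [Field k] [Field L] [Algebra k L] {A Z : Type} [Fintype Z]
    (W : A → Z → L) where
  k' : Type
  L' : Type
  [fk : Field k']
  [fL : Field L']
  [a1 : Algebra k k']
  [a2 : Algebra k' L']
  [a3 : Algebra L L']
  [a4 : Algebra k L']
  [t1 : IsScalarTower k k' L']
  [t2 : IsScalarTower k L L']
  s : Z → k'
  t : A → k'
  ind : AlgebraicIndependent L fun z => algebraMap k' L' (s z)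
  genL : IntermediateField.adjoin L (range fun z => algebraMap k' L' (s z)) = ⊤
  genk : IntermediateField.adjoin k (range s ∪ range t) = ⊤
  eq : ∀ a, algebraMap k' L' (t a) = ∑ z, algebraMap k' L' (s z) * algebraMap L L' (W a z)

attribute [instance] Cut.fk Cut.fL Cut.a1 Cut.a2 Cut.a3 Cut.a4 Cut.t1 Cut.t2

namespace Cut
variable {k L : Type} [Field k] [Field L] [Algebra k L] {A Z τ : Type} [Fintype Z]
  {W : A → Z → L} (C : Cut k L W)

/-- The degree of the cut. -/
def deg : ℕ := finrank C.k' C.L'

/-- The restriction of a family. -/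
def map (w : τ → L) : τ → C.L' := fun j => algebraMap L C.L' (w j)

/-- The restriction of a linear system. -/
def up (U : Submodule k L) : Submodule C.k' C.L' := span C.k' (algebraMap L C.L' '' U)

instance [CharZero k] : CharZero C.k' :=
  charZero_of_injective_algebraMap (algebraMap k C.k').injective

theorem mem_up {U : Submodule k L} {x : L} (h : x ∈ U) : algebraMap L C.L' x ∈ C.up U :=
  subset_span ⟨x, h, rfl⟩

theorem up_le {U : Submodule k L} {U' : Submodule C.k' C.L'}
    (h : ∀ x ∈ U, algebraMap L C.L' x ∈ U') : C.up U ≤ U' :=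
  span_le.2 (image_subset_iff.2 h)

theorem up_mono {U U' : Submodule k L} (h : U ≤ U') : C.up U ≤ C.up U' :=
  C.up_le fun _ hx => C.mem_up (h hx)

theorem map_smul' (c : k) (x : L) :
    algebraMap L C.L' (c • x) = algebraMap k C.k' c • algebraMap L C.L' x := by
  rw [Algebra.smul_def, Algebra.smul_def, map_mul, ← IsScalarTower.algebraMap_apply,
    ← IsScalarTower.algebraMap_apply]

theorem up_span (S : Set L) : C.up (span k S) = span C.k' (algebraMap L C.L' '' S) := by
  refine le_antisymm (C.up_le fun x hx => ?_) (span_mono (image_mono subset_span))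
  induction hx using span_induction with
  | mem x hx => exact subset_span ⟨x, hx, rfl⟩
  | zero => simp
  | add x y _ _ hx hy => rw [map_add]; exact add_mem hx hy
  | smul c x _ hx => rw [C.map_smul']; exact smul_mem _ _ hx

theorem up_mul (U U' : Submodule k L) : C.up (U * U') = C.up U * C.up U' := by
  rw [mul_eq_span_mul_set, up_span, up, up, span_mul_span, image_mul]

theorem up_one : C.up (1 : Submodule k L) = 1 := by
  rw [one_eq_span, one_eq_span, up_span]
  simp

theorem up_pow (U : Submodule k L) (j : ℕ) : C.up (U ^ j) = C.up U ^ j := by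
  induction j with
  | zero => simpa using C.up_one
  | succ j ih => rw [pow_succ, pow_succ, up_mul, ih]

theorem up_sys (w : τ → L) : C.up (sys k w) = sys C.k' (C.map w) := by
  rw [sys, sys, up_span, image_insert_eq, map_one, ← range_comp]
  rfl

theorem up_cl (U : Submodule k L) : C.up (cl U) ≤ cl (C.up U) :=
  C.up_le fun x hx O hO => by
    obtain ⟨u, hu, h1⟩ := hx (O.comap (algebraMap L C.L')) fun c => by
      rw [ValuationSubring.mem_comap, ← IsScalarTower.algebraMap_apply,
        IsScalarTower.algebraMap_apply k C.k' C.L']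
      exact hO _
    refine ⟨_, C.mem_up hu, ?_⟩
    obtain ⟨a, ha⟩ := (ValuationSubring.valuation_le_iff _ _ _).1 h1
    exact (ValuationSubring.valuation_le_iff _ _ _).2
      ⟨⟨algebraMap L C.L' a, a.2⟩, by rw [← ha, map_mul]⟩

theorem up_div (U U' : Submodule k L) : C.up (cl U / U') ≤ cl (C.up U) / C.up U' := by
  rw [Submodule.le_div_iff_mul_le, ← up_mul]
  exact (C.up_mono (Submodule.le_div_iff_mul_le.1 le_rfl)).trans (C.up_cl U)

theorem finrank_up (U : Submodule k L) [FiniteDimensional k U] :
    FiniteDimensional C.k' (C.up U) ∧ finrank C.k' (C.up U) ≤ finrank k U := by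
  let b := Module.finBasis k U
  have h1 : U = span k (range fun i => (b i : L)) := by
    have := congrArg (Submodule.map U.subtype) b.span_eq
    rw [map_span, Submodule.map_top, range_subtype, ← range_comp] at this
    exact this.symm
  have h2 : C.up U = span C.k' (range fun i => algebraMap L C.L' (b i)) := by
    conv_lhs => rw [h1]
    rw [up_span, ← range_comp]
    rfl
  rw [h2]
  exact ⟨FiniteDimensional.span_of_finite _ (finite_range _),
    (finrank_range_le_card _).trans (by simp)⟩

end Cut

/-! ### Curve data -/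

/-- The Jacobian matrix of the equations at a point. -/
def jac {k K : Type} [Field k] [Field K] [Algebra k K] {ι Λ : Type} (G : Λ → MvPolynomial ι k)
    (Y : ι → K) : Matrix Λ ι K :=
  Matrix.of fun l j => MvPolynomial.aeval Y (MvPolynomial.pderiv j (G l))

/-- A `K`-point `Y` of the projective scheme `G = 0`, at which the scheme is smooth of
codimension `r`, with certificates. -/
structure CD (k K : Type) [Field k] [Field K] [Algebra k K] (N l m r δ : ℕ) where
  G : Fin l → MvPolynomial (Fin (N + 1)) k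
  S : Fin m → Fin l → MvPolynomial (Fin (N + 1)) k
  Y : Fin (N + 1) → K
  J : Fin r → Fin (N + 1)
  pos : 0 < δ
  hom : ∀ a, (G a).IsHomogeneous δ
  zero : ∀ a, MvPolynomial.aeval Y (G a) = 0
  syz : ∀ b, ∑ a, S b a * G a = 0
  exa : ∃ (B : Matrix (Fin (N + 1)) (Fin l) K) (C : Matrix (Fin l) (Fin m) K),
    jac G Y * B + C * (Matrix.of fun b a => MvPolynomial.aeval Y (S b a)) = 1
  col : ∃ T : Fin r → Fin (N + 1) → K, ∀ a j, jac G Y a j = ∑ i, jac G Y a (J i) * T i j
  ne : (pl fun i a => jac G Y a (J i)) ≠ 0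
  neY : Y ≠ 0

namespace CD
variable {k K : Type} [Field k] [Field K] [Algebra k K] {N l m r δ : ℕ} (X : CD k K N l m r δ)

/-- The Pluecker coordinates of the image of the Jacobian matrix. -/
def rho : (Fin r → Fin l) → K := pl fun i a => jac X.G X.Y a (X.J i)

/-- A linear system of class `r δ H - K`. -/
def Q : (Fin r → Fin l) × Fin (N + 1) × Fin (N + 1) → K :=
  fun p => X.rho p.1 * X.Y p.2.1 ^ N * X.Y p.2.2

/-- The canonical class has negative degree on the curve. -/
def Neg : Prop := (r * δ : ℕ) * dg k X.Y < dg k X.Q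

end CD

/-- There is a rational curve of degree at most `M` through `x` on the scheme `G = 0`. -/
def RC {k : Type} [Field k] {ι Λ : Type} (G : Λ → MvPolynomial ι k) (x : ι → k) (M : ℕ) : Prop :=
  ∃ π : ι → k[X], (∀ a, MvPolynomial.aeval π (G a) = 0) ∧ (∀ i, (π i).natDegree ≤ M) ∧
    (∀ i, (π i).coeff 0 = x i) ∧ ∃ i j, π i * Polynomial.C (x j) ≠ π j * Polynomial.C (x i)

/-- The universal deformation of `Y` in the directions `s`. -/
def univ {K : Type} [CommRing K] {ι τ : Type} [Fintype τ] (Y : ι → K) (s : τ → K) (i : ι) :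
    MvPolynomial (ι × τ) K :=
  MvPolynomial.C (Y i) + ∑ α, MvPolynomial.X (i, α) * MvPolynomial.C (s α)

/-- The field of Laurent series. -/
abbrev LS (k : Type) [Field k] : Type := FractionRing (PowerSeries k)

open scoped TensorProduct in
/-- Evaluation of a family at a point with coordinates in an extension of the constants. -/
def ev {k K E : Type} [Field k] [Field K] [Algebra k K] [CommRing E] [Algebra k E] {σ : Type}
    (z : σ → E) : MvPolynomial σ K →+* K ⊗[k] E :=
  MvPolynomial.eval₂Hom Algebra.TensorProduct.includeLeftRingHom fun j => (1 : K) ⊗ₜ[k] z j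

/-- The `K`-linear extension of a linear form on monomials. -/
def lin {k K : Type} [Field k] [Field K] [Algebra k K] {σ : Type} (f : (σ →₀ ℕ) → k)
    (P : MvPolynomial σ K) : K := ∑ α ∈ P.support, f α • P.coeff α

/-! ### Eventual homomorphisms -/

/-- A family of maps which is eventually additive, multiplicative and unital. -/
structure EH {I : Type} (U : Filter I) {A : Type} [CommRing A] {B : I → Type}
    [∀ i, CommRing (B i)] (f : ∀ i, A → B i) : Prop where
  one : ∀ᶠ i in U, f i 1 = 1
  add : ∀ a b, ∀ᶠ i in U, f i (a + b) = f i a + f i b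
  mul : ∀ a b, ∀ᶠ i in U, f i (a * b) = f i a * f i b

/-- Coefficientwise application of a map to a polynomial in several variables. -/
def pm {A B σ : Type} [CommRing A] [CommRing B] (f : A → B) (P : MvPolynomial σ A) :
    MvPolynomial σ B := ∑ α ∈ P.support, MvPolynomial.monomial α (f (P.coeff α))

/-- Coefficientwise application of a map to a polynomial in one variable. -/
def pp {A B : Type} [CommRing A] [CommRing B] (f : A → B) (P : A[X]) : B[X] :=
  ∑ n ∈ P.support, Polynomial.monomial n (f (P.coeff n))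

/-- Reductions of a field to positive characteristic. -/
structure Red₀ (k : Type) [Field k] where
  I : Type
  U : Ultrafilter I
  κ : I → Type
  [fκ : ∀ i, Field (κ i)]
  [ac : ∀ i, IsAlgClosed (κ i)]
  p : I → ℕ
  [hp : ∀ i, Fact (p i).Prime]
  [ch : ∀ i, CharP (κ i) (p i)]
  φ : ∀ i, k → κ i
  hφ : EH U φ
  bad : ∃ B : ∀ i, Set (κ i), (∀ i, (B i).Finite) ∧ ∀ a : ∀ i, κ i, (∀ i, a i ∉ B i) →
    ∀ c : k[X], c ≠ 0 → ∀ᶠ i in U, (pp (φ i) c).eval (a i) ≠ 0

attribute [instance] Red₀.fκ Red₀.ac Red₀.hp Red₀.ch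

/-- Reductions of a function field, which keep the degree of `w`. -/
structure Red (k K : Type) [Field k] [Field K] [Algebra k K] (w : K) where
  R : Red₀ k
  F : R.I → Type
  [fF : ∀ i, Field (F i)]
  [alg : ∀ i, Algebra (R.κ i) (F i)]
  ψ : ∀ i, K → F i
  hψ : EH R.U ψ
  comp : ∀ c, ∀ᶠ i in R.U, ψ i (algebraMap k K c) = algebraMap (R.κ i) (F i) (R.φ i c)
  tr : ∀ᶠ i in R.U, Transcendental (R.κ i) (ψ i w) ∧ FiniteDimensional (R.κ i)⟮ψ i w⟯ (F i) ∧
    finrank (R.κ i)⟮ψ i w⟯ (F i) = finrank k⟮w⟯ K
  gen : ∃ θ : K, ∀ᶠ i in R.U, IntermediateField.adjoin (R.κ i) {ψ i w, ψ i θ} = ⊤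

attribute [instance] Red.fF Red.alg

end Pool.Agent.Lib.UR
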