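import Pool.Agent.Lib.UR.BlueB
import Pool.Agent.Lib.GD.Base

/-! A function bounded by the Gauss coordinates gives a twisted pluricanonical form. -/

open scoped TensorProduct
open KaehlerDifferential

noncomputable section

namespace Pool.Agent.Lib.UR

open Pool.Agent.Lib.MP_7fcda1_ag Pool.Agent.Lib.GD Pool.Agent.Lib.MP_e06174_ag

namespace JSE

variable {L ι : Type} [Field L] [Algebra ℂ L] {n : ℕ}

theorem gauss_div (d : Fin n → Derivation ℂ L L) (y : ι → L) {i : ι} (hi : y i ≠ 0)
    (S : Fin (n + 1) → ι) :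
    gaussT d y S / y i ^ (n + 1) = gaussT d (fun j => y j / y i) S := by
  rw [div_eq_iff (pow_ne_zero _ hi), mul_comm]
  have h1 := Matrix.det_smul (Matrix.of fun s t =>
    (Fin.cons (fun j => y j / y i) fun a j => d a (y j / y i) : Fin (n + 1) → ι → L) s (S t)) (y i)
  rw [Fintype.card_fin] at h1
  refine Eq.trans ?_ h1
  refine Matrix.det_eq_of_forall_row_eq_smul_add_const
    (Fin.cons 0 fun a => d a (y i) / y i : Fin (n + 1) → L) 0 rfl fun s t => ?_
  have h2 : y i * (y (S t) / y i) = y (S t) := by field_simp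
  refine Fin.cases ?_ (fun a => ?_) s
  · simp [h2]
  · simp only [Matrix.of_apply, Fin.cons_succ, Matrix.smul_apply, Fin.cons_zero, smul_eq_mul]
    have h3 := (d a).leibniz (y i) (y (S t) / y i)
    rw [h2, smul_eq_mul, smul_eq_mul] at h3
    rw [h3, h2]
    field_simp

theorem gauss_mem {x : Fin n → L} {d : Fin n → Derivation ℂ L L} (h : Dual x d) (O : Subring L)
    {u : ι → L} (hu : ∀ j, u j ∈ O) (S : Fin (n + 1) → ι) :
    gaussT d u S • ExteriorAlgebra.ιMulti L n (fun b => D ℂ L (x b)) ∈ regN n O := by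
  rw [gaussT, pl, Matrix.det_succ_row_zero, Finset.sum_smul]
  refine Submodule.sum_mem _ fun j _ => ?_
  have h1 := h.wedge fun b => u (S (j.succAbove b))
  have h2 : (-1) ^ (j : ℕ) * u (S j) ∈ O := mul_mem (_root_.pow_mem (neg_mem (one_mem O)) _) (hu _)
  have h3 := (regN n O).smul_mem ⟨_, h2⟩
    (Submodule.subset_span ⟨fun b => u (S (j.succAbove b)), fun b => hu _, rfl⟩)
  rw [h1] at h3
  rw [mul_smul]
  exact h3

end JSE

open JSE in
theorem st_JSE : St_JSE := by
  intro L ι _ _ _ y n x d hx hd z T m hz h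
  obtain ⟨d', hd'⟩ := exists_dual hx
  obtain rfl : d = d' := by
    funext a
    ext f
    have h1 := hd'.chain (AlgHom.id ℂ L) (d a) f
    simpa [hd] using h1
  have hω : form x m z ∈ MP_9a2ae6_ag.regular ℂ L _ (Fin m) (Fin n)
      (fun f => PiTensorProduct.tprod L fun a =>
        MP_9a2ae6_ag.wedge L Ω[L⁄ℂ] (D ℂ L) n (f a)) (NV.pows y T) := by
    intro O _ hO
    obtain ⟨i, S, hi, hy, hv⟩ := h O hO
    obtain ⟨c, hc⟩ := (ValuationSubring.valuation_le_iff _ _ _).1 hv
    rw [gauss_div d y hi] at hc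
    have h1 := MP_e06174_ag.pow_mem (m := m) _ fun _ => gauss_mem hd' O.toSubring hy S
    rw [MultilinearMap.map_smul_univ, Finset.prod_const, Finset.card_univ, Fintype.card_fin] at h1
    have h2 : ∀ ω ∈ regularForms L n m O.toSubring, y i ^ T • ω ∈ Submodule.span O.toSubring
        {η | ∃ h ∈ NV.pows y T, ∃ f : Fin m → Fin n → L, (∀ a b, f a b ∈ O) ∧
          η = h • PiTensorProduct.tprod L fun a =>
            MP_9a2ae6_ag.wedge L Ω[L⁄ℂ] (D ℂ L) n (f a)} := by
      intro ω hω
      induction hω using Submodule.span_induction with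
      | mem ω hω =>
        obtain ⟨f, hf, rfl⟩ := hω
        refine Submodule.subset_span ⟨_, ?_, f, hf, rfl⟩
        classical
        exact Finset.mem_image.2 ⟨i, Finset.mem_univ _, rfl⟩
      | zero => rw [smul_zero]; exact zero_mem _
      | add a b _ _ ha hb => rw [smul_add]; exact add_mem ha hb
      | smul c a _ ha => rw [smul_comm]; exact Submodule.smul_mem _ c ha
    have h3 := Submodule.smul_mem _ (⟨c, c.2⟩ : O.toSubring) (h2 _ h1)
    rw [Subring.smul_def, smul_smul, smul_smul, mul_assoc, mul_comm (y i ^ T)] at h3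
    rw [form, ← hc]
    exact h3
  intro h0
  rw [MP_9a2ae6_ag.plurigenus_eq] at h0
  have h1 := rank_zero_iff_forall_zero.1 h0 ⟨_, hω⟩
  exact form_ne_zero hx m hz (congrArg Subtype.val h1)

end Pool.Agent.Lib.UR
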