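import Pool.Agent.Lib.UR.MBlue
import Pool.Agent.Lib.MP_7fcda1_ag.Def1

/-! The Jacobian criterion on a smooth model. -/

open MvPolynomial Module KaehlerDifferential
open scoped TensorProduct

noncomputable section

namespace Pool.Agent.Lib.UR.M

open Pool.Agent.Lib.MP_7fcda1_ag

namespace JAC

theorem rank_tb {L ι : Type} [Field L] [Algebra ℂ L] {x : ι → L}
    (hx : IsTranscendenceBasis ℂ x) : Nonempty (Basis ι L Ω[L⁄ℂ]) := by
  let A := MvPolynomial ι ℂ
  let : Algebra A L := (MvPolynomial.aeval x : A →ₐ[ℂ] L).toRingHom.toAlgebra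
  have hA : ∀ a : A, algebraMap A L a = MvPolynomial.aeval x a := fun _ => rfl
  have : IsScalarTower ℂ A L := IsScalarTower.of_algebraMap_eq fun c => by
    rw [hA, AlgHom.commutes]
  have hinj : Function.Injective (algebraMap A L) := hx.1
  have : FaithfulSMul A L := (faithfulSMul_iff_algebraMap_injective A L).2 hinj
  let : Algebra (FractionRing A) L := FractionRing.liftAlgebra A L
  have : Algebra.IsAlgebraic A L := by
    have h1 := hx.isAlgebraic
    exact Algebra.IsAlgebraic.of_ringHom_of_comp_eq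
      (hx.1.aevalEquiv : A →+* Algebra.adjoin ℂ (Set.range x)) (RingHom.id L)
      hx.1.aevalEquiv.surjective Function.injective_id
      (RingHom.ext fun a => hx.1.algebraMap_aevalEquiv a)
  have : Algebra.IsAlgebraic (FractionRing A) L :=
    IsFractionRing.comap_isAlgebraic_iff.1 this
  have : CharZero (FractionRing A) := algebraRat.charZero _
  have : Algebra.FormallyEtale A (FractionRing A) :=
    Algebra.FormallyEtale.of_isLocalization (nonZeroDivisors A)
  have : Algebra.FormallyEtale (FractionRing A) L := Algebra.FormallyEtale.of_isSeparable _ _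
  have : Algebra.FormallyEtale A L := Algebra.FormallyEtale.comp A (FractionRing A) L
  exact ⟨((mvPolynomialBasis ℂ ι).baseChange L).map (tensorKaehlerEquivOfFormallyEtale ℂ A L)⟩

theorem rank_L {L : Type} [Field L] [Algebra ℂ L] {n : ℕ} (h : Algebra.trdeg ℂ L = n) :
    finrank L Ω[L⁄ℂ] = n := by
  obtain ⟨s, hs⟩ := exists_isTranscendenceBasis ℂ L
  obtain ⟨b⟩ := rank_tb hs
  rw [finrank, ← b.mk_eq_rank'', hs.cardinalMk_eq_trdeg, h, Cardinal.toNat_natCast]

theorem rank_fib (A L κ : Type) [CommRing A] [Algebra ℂ A] [Algebra.Smooth ℂ A] [Field L]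
    [Algebra ℂ L] [Algebra A L] [IsScalarTower ℂ A L] [IsFractionRing A L] [Field κ]
    [Algebra A κ] {n : ℕ} (h : Algebra.trdeg ℂ L = n) : finrank κ (κ ⊗[A] Ω[A⁄ℂ]) = n := by
  have : Algebra.FormallyEtale A L := Algebra.FormallyEtale.of_isLocalization (nonZeroDivisors A)
  have h1 := rankAtStalk_baseChange (R := A) (M := Ω[A⁄ℂ]) (S := κ) ⊥
  have h2 := rankAtStalk_baseChange (R := A) (M := Ω[A⁄ℂ]) (S := L) ⊥
  rw [rankAtStalk_eq_finrank_of_free] at h1 h2
  have h3 : (⊥ : PrimeSpectrum L).comap (algebraMap A L) ≤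
      (⊥ : PrimeSpectrum κ).comap (algebraMap A κ) := fun a ha => by
    have h4 : algebraMap A L a = 0 := ha
    rw [(IsFractionRing.to_map_eq_zero_iff (R := A) (K := L)).1 h4]
    exact zero_mem _
  have h4 := rankAtStalk_eq_of_le_of_finite_of_flat Ω[A⁄ℂ] h3
  have h5 := (tensorKaehlerEquivOfFormallyEtale ℂ A L).finrank_eq
  rw [rank_L h] at h5
  exact h1.trans (h4.symm.trans (h2.symm.trans h5))

theorem bound {σ : Type} [Fintype σ] (A κ Q : Type) [CommRing A] [Algebra ℂ A] [Field κ]
    [Algebra ℂ κ] [Algebra A κ] [IsScalarTower ℂ A κ] [AddCommGroup Q] [Module κ Q]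
    [Module.Finite A Ω[A⁄ℂ]] (z : σ → A)
    (hz : Function.Surjective (aeval z : MvPolynomial σ ℂ →ₐ[ℂ] A)) (q : σ → Q)
    (hq : Submodule.span κ (Set.range q) = ⊤)
    (hk : ∀ f : MvPolynomial σ ℂ, aeval z f = 0 →
      ∑ j, aeval (fun j => algebraMap A κ (z j)) (pderiv j f) • q j = 0) :
    finrank κ Q ≤ finrank κ (κ ⊗[A] Ω[A⁄ℂ]) := by
  classical
  let : Module A Q := Module.compHom Q (algebraMap A κ)
  let : Module ℂ Q := Module.compHom Q (algebraMap ℂ κ)
  have sA : ∀ (a : A) (x : Q), a • x = algebraMap A κ a • x := fun _ _ => rfl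
  have sC : ∀ (a : ℂ) (x : Q), a • x = algebraMap ℂ κ a • x := fun _ _ => rfl
  have : IsScalarTower A κ Q := ⟨fun a c x => by rw [sA, Algebra.smul_def, mul_smul]⟩
  have : IsScalarTower ℂ A Q := ⟨fun a c x => by
    rw [sA, sA, sC, Algebra.smul_def, map_mul, mul_smul, ← IsScalarTower.algebraMap_apply]⟩
  have ev : ∀ f : MvPolynomial σ ℂ,
      aeval (fun j => algebraMap A κ (z j)) f = algebraMap A κ (aeval z f) := fun f =>
    aeval_algebraMap_apply κ z f
  let d : MvPolynomial σ ℂ →ₗ[ℂ] Q :=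
    { toFun := fun f => ∑ j, aeval (fun j => algebraMap A κ (z j)) (pderiv j f) • q j
      map_add' := fun f g => by simp only [map_add, add_smul, Finset.sum_add_distrib]
      map_smul' := fun c f => by
        simp only [Derivation.map_smul, map_smul, RingHom.id_apply, Finset.smul_sum]
        simp only [sC, Algebra.smul_def, mul_smul] }
  have hd : ∀ f, d f = ∑ j, aeval (fun j => algebraMap A κ (z j)) (pderiv j f) • q j :=
    fun _ => rfl
  obtain ⟨C, hC⟩ := Def1.exists_factor (aeval z : MvPolynomial σ ℂ →ₐ[ℂ] A).toLinearMap d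
    fun f hf => hk f hf
  have hC' : ∀ f, C (aeval z f) = d f := hC
  let δ : Derivation ℂ A Q :=
    { toLinearMap := C
      map_one_eq_zero' := by
        rw [← map_one (aeval z : MvPolynomial σ ℂ →ₐ[ℂ] A), hC', hd]
        simp
      leibniz' := fun a b => by
        obtain ⟨f, rfl⟩ := hz a
        obtain ⟨g, rfl⟩ := hz b
        rw [← map_mul, hC', hC', hC', hd, hd, hd, sA, sA, ← ev, ← ev]
        simp only [Derivation.leibniz, smul_eq_mul, map_add, map_mul, add_smul,
          Finset.sum_add_distrib, Finset.smul_sum, mul_smul] }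
  refine LinearMap.finrank_le_finrank_of_surjective
    (f := δ.liftKaehlerDifferential.liftBaseChange κ) ?_
  rw [← LinearMap.range_eq_top, eq_top_iff, ← hq, Submodule.span_le]
  rintro _ ⟨j, rfl⟩
  refine ⟨1 ⊗ₜ D ℂ A (z j), ?_⟩
  rw [LinearMap.liftBaseChange_tmul, one_smul, Derivation.liftKaehlerDifferential_comp_D]
  show C (z j) = q j
  rw [← aeval_X (R := ℂ) z j, hC', hd, Finset.sum_eq_single j]
  · simp
  · intro b _ hb
    simp [hb.symm]
  · simp

theorem pick {κ ι Λ : Type} [Field κ] [Finite ι] [Finite Λ] (c : ι → Λ → κ) {ρ : ℕ}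
    (h : ρ ≤ finrank κ (Submodule.span κ (Set.range fun l j => c j l))) :
    ∃ S : Fin ρ → ι, pl (fun r => c (S r)) ≠ 0 := by
  classical
  cases nonempty_fintype ι
  cases nonempty_fintype Λ
  let M : Matrix Λ ι κ := Matrix.of fun l j => c j l
  have h1 : ρ ≤ M.rank := by
    rw [Matrix.rank_eq_finrank_span_row]
    exact h
  rw [Matrix.rank_eq_finrank_span_cols] at h1
  obtain ⟨τ, a, ha, hsp, hli⟩ := exists_linearIndependent' κ M.col
  have : Finite τ := Finite.of_injective a ha
  cases nonempty_fintype τ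
  rw [← hsp, finrank_span_eq_card hli] at h1
  obtain ⟨e⟩ : Nonempty (Fin ρ ↪ τ) := Function.Embedding.nonempty_of_card_le (by simpa using h1)
  exact ⟨fun r => a (e r), pl_ne_zero_iff.2 (hli.comp e e.injective)⟩

end JAC

theorem st_jac : St_JAC := by
  intro L Λ _ _ _ N n ρ e y G hy hn hρ hG i κ _ _ ξ hξ
  classical
  obtain ⟨hi, hfr, hsm⟩ := hy i
  let z : Fin (N + 1) → GD.chart y i := fun j => ⟨y j / y i, Algebra.subset_adjoin ⟨j, rfl⟩⟩
  have hv : ∀ f : MvPolynomial (Fin (N + 1)) ℂ,
      ((aeval z f : GD.chart y i) : L) = aeval (fun j => y j / y i) f := fun f =>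
    (aeval_algebraMap_apply L z f).symm
  have hz : Function.Surjective (aeval z : MvPolynomial (Fin (N + 1)) ℂ →ₐ[ℂ] GD.chart y i) := by
    rintro ⟨a, ha⟩
    rw [GD.chart, Algebra.adjoin_range_eq_range_aeval] at ha
    obtain ⟨f, rfl⟩ := ha
    exact ⟨f, Subtype.ext (hv f)⟩
  have h0 : ∀ f : MvPolynomial (Fin (N + 1)) ℂ, aeval z f = 0 →
      aeval (fun j => y j / y i) f = 0 := fun f hf => by rw [← hv, hf]; rfl
  let ε : GD.chart y i →ₐ[ℂ] κ := AlgHom.liftOfSurjective (aeval z) hz (aeval ξ)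
    fun f hf => hξ f (h0 f hf)
  have hε : ∀ f, ε (aeval z f) = aeval ξ f := fun f => AlgHom.liftOfSurjective_apply _ _ _ _ f
  let : Algebra (GD.chart y i) κ := ε.toRingHom.toAlgebra
  have : IsScalarTower ℂ (GD.chart y i) κ := .of_algebraMap_eq fun c => (ε.commutes c).symm
  have hzξ : (fun j => algebraMap (GD.chart y i) κ (z j)) = ξ := funext fun j => by
    have := hε (X j)
    rwa [aeval_X, aeval_X] at this
  let R : Submodule κ (Fin (N + 1) → κ) :=
    Submodule.span κ (Set.range fun l j => aeval ξ (pderiv j (G l)))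
  let W : Submodule κ (Fin (N + 1) → κ) := R ⊔ Submodule.span κ {Pi.single i 1}
  have hGy : ∀ l, aeval (fun j => y j / y i) (G l) = 0 := fun l => by
    have := Def1.aeval_hom (hG.hom l) (y i)⁻¹ y
    simp only [hG.zero, mul_zero] at this
    simpa only [div_eq_inv_mul] using this
  have hW : ∀ f : MvPolynomial (Fin (N + 1)) ℂ, aeval (fun j => y j / y i) f = 0 →
      (fun j => aeval ξ (pderiv j f)) ∈ W := fun f hf => by
    have h1 : f ∈ Ideal.span (Set.range G ∪ {X i - 1}) := by
      rw [Ideal.span_union]; exact hG.chart hi hf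
    refine (Submodule.span_induction
      (p := fun x _ => aeval ξ x = 0 ∧ (fun j => aeval ξ (pderiv j x)) ∈ W) ?_ ?_ ?_ ?_ h1).2
    · rintro x (⟨l, rfl⟩ | rfl)
      · exact ⟨hξ _ (hGy l), Submodule.mem_sup_left (Submodule.subset_span ⟨l, rfl⟩)⟩
      · refine ⟨hξ _ (by simp [hi]), Submodule.mem_sup_right (Submodule.subset_span ?_)⟩
        funext j
        by_cases hj : j = i
        · subst hj
          simp
        · simp [hj, Ne.symm hj]
    · exact ⟨map_zero _, by simp only [map_zero]; exact W.zero_mem⟩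
    · rintro a b - - ⟨ha, ha'⟩ ⟨hb, hb'⟩
      exact ⟨by rw [map_add, ha, hb, add_zero], by simp only [map_add]; exact W.add_mem ha' hb'⟩
    · rintro a b - ⟨hb, hb'⟩
      refine ⟨by rw [smul_eq_mul, map_mul, hb, mul_zero], ?_⟩
      simp only [Derivation.leibniz, smul_eq_mul, map_add, map_mul, hb, zero_mul, add_zero]
      exact W.smul_mem _ hb'
  have h1 := JAC.bound (GD.chart y i) κ (_ ⧸ W) z hz (fun j => W.mkQ (Pi.single j 1)) (by
    rw [show (fun j => W.mkQ (Pi.single j 1)) = W.mkQ ∘ Pi.basisFun κ (Fin (N + 1)) from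
      funext fun j => by simp, Set.range_comp, ← Submodule.map_span, Basis.span_eq,
      Submodule.map_top, Submodule.range_mkQ]) fun f hf => by
    rw [hzξ]
    simp only [← map_smul, ← map_sum]
    refine (Submodule.Quotient.mk_eq_zero W).2 ?_
    have h2 : ∑ j, aeval ξ (pderiv j f) • (Pi.single j 1 : Fin (N + 1) → κ) =
        fun j => aeval ξ (pderiv j f) := by
      funext j
      simp [Finset.sum_apply, Pi.single_apply]
    rw [h2]
    exact hW f (h0 f hf)
  rw [JAC.rank_fib (GD.chart y i) L κ hn] at h1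
  have h2 := W.finrank_quotient_add_finrank
  have h3 := Submodule.finrank_add_le_finrank_add_finrank R (Submodule.span κ {Pi.single i 1})
  have h4 : finrank κ (Submodule.span κ {(Pi.single i 1 : Fin (N + 1) → κ)}) ≤ 1 :=
    finrank_span_le_card _ |>.trans (by simp)
  rw [finrank_fintype_fun_eq_card, Fintype.card_fin] at h2
  obtain ⟨S, hS⟩ := JAC.pick (fun j l => aeval ξ (pderiv j (G l))) (ρ := ρ) (by
    show ρ ≤ finrank κ R
    have h5 : finrank κ W ≤ _ := h3
    omega)
  exact ⟨S, by rw [atup_eq]; exact hS⟩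

end Pool.Agent.Lib.UR.M
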