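import Pool.Agent.Lib.UR.MBlue
import Pool.Agent.Lib.MP_7fcda1_ag.Def1a

/-! The tangent space of the cone. -/

open MvPolynomial

noncomputable section

namespace Pool.Agent.Lib.UR.M

open Pool.Agent.Lib.MP_7fcda1_ag

namespace TAN

theorem der_zero {L ι : Type} [Field L] [Algebra ℂ L] {y : ι → L} {i : ι} (h : y i = 1)
    (hf : IsFractionRing (GD.chart y i) L) (D : Derivation ℂ L L) (hD : ∀ j, D (y j) = 0)
    (z : L) : D z = 0 := by
  have h1 : ∀ a ∈ GD.chart y i, D a = 0 := fun a ha => by
    refine Algebra.adjoin_induction (p := fun a _ => D a = 0) ?_ ?_ ?_ ?_ ha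
    · rintro _ ⟨j, rfl⟩
      simp [h, hD]
    · intro r
      simp
    · intro a b _ _ ha hb
      simp [ha, hb]
    · intro a b _ _ ha hb
      simp [ha, hb]
  obtain ⟨a, b, -, rfl⟩ := IsFractionRing.div_surjective (A := GD.chart y i) z
  have ha : D (algebraMap (GD.chart y i) L a) = 0 := h1 _ a.2
  have hb : D (algebraMap (GD.chart y i) L b) = 0 := h1 _ b.2
  rw [Derivation.leibniz_div, ha, hb]
  simp

theorem indep {L : Type} [Field L] [Algebra ℂ L] {N n : ℕ} {y : Fin (N + 1) → L}
    {x : Fin n → L} {d : Fin n → Derivation ℂ L L} (h : y 0 = 1)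
    (hf : IsFractionRing (GD.chart y 0) L) (hd : ∀ a b, d a (x b) = if a = b then 1 else 0) :
    LinearIndependent L (Fin.cons y fun a j => d a (y j) : Fin (n + 1) → Fin (N + 1) → L) := by
  rw [Fintype.linearIndependent_iff]
  intro c hc
  have h1 : ∀ j, c 0 * y j + ∑ a, c a.succ * d a (y j) = 0 := fun j => by
    have := congrFun hc j
    simpa [Fin.sum_univ_succ, Finset.sum_apply] using this
  have h0 : c 0 = 0 := by
    have := h1 0
    simpa [h] using this
  have hs : ∀ z, (∑ a, c a.succ • d a) z = ∑ a, c a.succ * d a z := fun z => by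
    have := congrFun (map_sum (Derivation.coeFnAddMonoidHom (R := ℂ) (A := L) (M := L))
      (fun a => c a.succ • d a) Finset.univ) z
    rw [Finset.sum_apply] at this
    exact this
  have h2 := der_zero h hf (∑ a, c a.succ • d a) fun j => by
    have := h1 j
    rwa [h0, zero_mul, zero_add, ← hs] at this
  intro i
  refine Fin.cases h0 (fun b => ?_) i
  have := h2 (x b)
  rw [hs] at this
  simpa [hd] using this

end TAN

theorem st_tan : St_TAN := by
  intro L _ _ N n y x d h hf hd
  have hi := TAN.indep h hf hd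
  refine ⟨pl_ne_zero_iff.2 hi, ?_, fun e g hg h0 a => ?_⟩
  · have := hi.fintype_card_le_finrank
    simp only [Fintype.card_fin, Module.finrank_fintype_fun_eq_card] at this
    omega
  · refine Fin.cases ?_ (fun b => ?_) a
    · simpa using Def1.euler hg h0
    · have := Def1.der_aeval (d b) y g
      rw [h0, map_zero] at this
      simpa using this.symm

end Pool.Agent.Lib.UR.M
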