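import Pool.Agent.Lib.GD.SDefs
import Pool.Agent.Lib.MP_e06174_ag.Defs
import Pool.Agent.Lib.MP_7fcda1_ag.Iface

/-! Interface between the two halves of the proof that a non pseudo-effective canonical class
forces uniruledness. -/

noncomputable section

namespace Pool.Agent.Lib.UR

open Pool.Agent.Lib.MP_7fcda1_ag

/-- The height (degree) of a tuple of functions on a curve. -/
def ht (κ : Type) {F ι : Type} [Field κ] [Field F] [Algebra κ F] (w : ι → F) : ℤ :=
  -degD (vdiv κ w)

/-- The Gauss map: Pluecker coordinates of the tangent space of the cone; its class is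
`K + (n + 1) H`. -/
def gaussT {L ι : Type} [Field L] [Algebra ℂ L] {n : ℕ} (d : Fin n → Derivation ℂ L L)
    (y : ι → L) : (Fin (n + 1) → ι) → L :=
  pl (Fin.cons y fun a j => d a (y j) : Fin (n + 1) → ι → L)

/-- There is a curve through the generic point on which the canonical class is negative. -/
def NegCurve {L ι : Type} [Field L] [Algebra ℂ L] (y : ι → L) (n : ℕ) : Prop :=
  ∃ (Ω F : Type) (_ : Field Ω) (_ : Field F) (_ : Algebra ℂ Ω) (_ : Algebra Ω F) (_ : Algebra ℂ F)
    (_ : IsScalarTower ℂ Ω F) (_ : IsFF Ω F) (σ : L →ₐ[ℂ] F) (x : Fin n → L)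
    (d : Fin n → Derivation ℂ L L), (∀ a b, d a (x b) = if a = b then 1 else 0) ∧
      ht Ω (fun S => σ (gaussT d y S)) < (n + 1) * ht Ω fun j => σ (y j)

/-- Miyaoka-Mori. -/
def St_TM : Prop := ∀ (L ι : Type) [Field L] [Algebra ℂ L] [Finite ι] [Nonempty ι] (y : ι → L)
  (n : ℕ), Algebra.trdeg ℂ L = n → GD.SmoothModel y → NegCurve y n →
    MP_e06174_ag.Uniruled ℂ L

end Pool.Agent.Lib.UR
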