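import Pool.Agent.Lib.UR.MBlue

/-! The general deformation of a base point free tuple is base point free. -/

noncomputable section

namespace Pool.Agent.Lib.UR.M

open Pool.Agent.Lib.MP_7fcda1_ag

namespace BPF

variable {k E : Type} [Field k] [Field E] [Algebra k E] [IsFF k E]

theorem kill {O : Type} [Field O] (v : Place k E) (i : v.O →+* O) (hi : ¬Function.Injective i)
    {t : v.O} (ht : Ge v.O 1 (t : E)) : i t = 0 := by
  rw [injective_iff_map_eq_zero] at hi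
  push Not at hi
  obtain ⟨a, h1, h2⟩ := hi
  have h3 : (a : E) ≠ 0 := fun h => h2 (Subtype.ext h)
  obtain ⟨n, hn⟩ := Int.eq_ofNat_of_zero_le ((Ord2_mem v.disc h3).1 a.2)
  have h4 : (a : E)⁻¹ * t ^ n ∈ v.O := by
    rw [mem_iff_ge (Or.inl v.disc), ge_mul_iff (inv_ne_zero h3), ord_inv, hn]
    simpa using ht.pow n
  have h5 : t ^ n = a * ⟨_, h4⟩ := Subtype.ext (mul_inv_cancel_left₀ h3 _).symm
  exact IsNilpotent.eq_zero ⟨n, by rw [← map_pow, h5, map_mul, h1, zero_mul]⟩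

theorem coord {ι : Type} [Finite ι] {y : ι → E} (hy : y ≠ 0) (V : ValuationSubring E)
    (hV : ∀ c, algebraMap k E c ∈ V) :
    ∃ j, y j ≠ 0 ∧ ∀ t ∈ Ls (-vdiv k y), (y j)⁻¹ * t ∈ V := by
  by_cases h : V = ⊤
  · obtain ⟨j, hj⟩ := Function.ne_iff.1 hy
    exact ⟨j, hj, fun t _ => h ▸ ValuationSubring.mem_top _⟩
  let w : Place k E := ⟨V, h, hV⟩
  obtain ⟨j, h1, h2⟩ := exists_vord (V := V) hy
  refine ⟨j, h1, fun t ht => ?_⟩
  rw [mem_iff_ge (Or.inl w.disc), ge_mul_iff (inv_ne_zero h1), ord_inv, h2]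
  simpa [vdiv_apply] using mem_Ls.1 ht w

end BPF

theorem st_bpf : St_BPF := by
  intro k E R O ι _ _ _ _ _ _ _ _ _ m v y t ε z i₁ i₂ j₀ h0 ht hL hz hi
  by_contra! h
  by_cases h2 : Function.Injective i₂.toRingHom
  · let σ : E →+* O := IsFractionRing.lift h2
    have hσ : ∀ a : v.O, σ a = i₂ a := IsFractionRing.lift_algebraMap h2
    obtain ⟨P, hP⟩ := exists_plc_of_hom i₁.toRingHom
      ((algebraMap k (AlgebraicClosure k)).comp ε.toRingHom) fun r hr => by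
        rw [hi (hr.trans (map_zero i₁).symm), map_zero]
    obtain ⟨j, h3, h4⟩ := BPF.coord (k := k) (y := fun j => (y j : E))
      (Function.ne_iff.2 ⟨j₀, by simp [h0]⟩) (P.V.comap σ) fun c => by
        have h5 := (hP (algebraMap k R c)).1
        rw [AlgHom.toRingHom_eq_coe, RingHom.coe_coe, i₁.commutes, ← i₂.commutes, ← hσ] at h5
        exact h5
    have h5 : P.To (1 + ∑ μ, σ ((y j : E)⁻¹ * t μ) * i₁ (z (j, μ))) (1 + ∑ μ : Fin m, 0) :=
      Plc.to_one.add (Plc.To.sum fun μ _ => by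
        simpa [hz] using Plc.To.mul ⟨h4 _ (hL μ), rfl⟩ (hP (z (j, μ))))
    have h6 : 1 + ∑ μ, σ ((y j : E)⁻¹ * t μ) * i₁ (z (j, μ)) = (σ (y j))⁻¹ *
        (i₂ (y j) + ∑ μ, i₂ (t μ) * i₁ (z (j, μ))) := by
      rw [mul_add, ← hσ, inv_mul_cancel₀ ((map_ne_zero σ).2 h3), Finset.mul_sum]
      simp only [map_mul, map_inv₀, hσ, mul_assoc]
    rw [h6, h, mul_zero] at h5
    simpa using h5.unique Plc.to_zero
  · have h3 : ∀ μ, i₂ (t μ) = 0 := fun μ => BPF.kill v _ h2 (ht μ)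
    simpa [h0, h3] using h j₀

end Pool.Agent.Lib.UR.M
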