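import Pool.Agent.Lib.UR.MBlue

/-! Bubbling off a rational curve. -/

open Module Polynomial

noncomputable section

namespace Pool.Agent.Lib.UR.M

open Pool.Agent.Lib.MP_7fcda1_ag

namespace BUB

section bd

variable {O Γ : Type} [Field O] [LinearOrderedCommGroupWithZero Γ] {v : Valuation O Γ} {u u' : Γ}
  {f g : PowerSeries O} {p q : O[X]}

/-- All coefficients are bounded by `u`. -/
def Bd (v : Valuation O Γ) (u : Γ) (f : PowerSeries O) : Prop :=
  ∀ l, v (PowerSeries.coeff l f) ≤ u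

theorem Bd.add (h : Bd v u f) (h' : Bd v u g) : Bd v u (f + g) := fun l => by
  rw [map_add]; exact v.map_add_le (h l) (h' l)

theorem Bd.mul (h : Bd v u f) (h' : Bd v u' g) : Bd v (u * u') (f * g) := fun l => by
  rw [PowerSeries.coeff_mul]
  exact v.map_sum_le fun x _ => by rw [map_mul]; exact mul_le_mul' (h _) (h' _)

theorem Bd.mul_one (h : Bd v u f) (h' : Bd v 1 g) : Bd v u (f * g) := by
  simpa using h.mul h'

theorem Bd.one_mul (h : Bd v 1 f) (h' : Bd v u g) : Bd v u (f * g) := by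
  simpa using h.mul h'

theorem Bd.sum {ι : Type} {s : Finset ι} {F : ι → PowerSeries O} (h : ∀ i ∈ s, Bd v u (F i)) :
    Bd v u (∑ i ∈ s, F i) := fun l => by
  rw [map_sum]; exact v.map_sum_le fun i hi => h i hi l

theorem bd_C {a : O} (h : v a ≤ u) : Bd v u (PowerSeries.C a) := fun l => by
  rw [PowerSeries.coeff_C]
  split_ifs
  · exact h
  · simp

theorem Bd.pow (h : Bd v 1 f) (n : ℕ) : Bd v 1 (f ^ n) := by
  induction n with
  | zero => simpa using bd_C (v := v) (a := 1) (u := 1) (by simp)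
  | succ n ih => rw [pow_succ]; exact ih.mul_one h

theorem bd_coe : Bd v u (p : PowerSeries O) ↔ ∀ l, v (p.coeff l) ≤ u := by
  simp only [Bd, coeff_coe]

theorem Bd.comp (h : Bd v u p) (h' : Bd v 1 q) : Bd v u (p.comp q : O[X]) := by
  rw [comp_eq_sum_left, sum_def, ← coeToPowerSeries.ringHom_apply, map_sum]
  refine Bd.sum fun n _ => ?_
  rw [coeToPowerSeries.ringHom_apply, coe_mul, coe_pow, coe_C]
  exact (bd_C (bd_coe.1 h n)).mul_one (h'.pow n)

theorem bd_X : Bd v 1 (PowerSeries.X : PowerSeries O) := fun l => by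
  rw [PowerSeries.coeff_X]
  split_ifs <;> simp

theorem Bd.trunc (h : Bd v u f) (n : ℕ) : Bd v u (PowerSeries.trunc n f : O[X]) :=
  bd_coe.2 fun l => by
    rw [PowerSeries.coeff_trunc]
    split_ifs
    · exact h l
    · simp

theorem bd_tail {n : ℕ} (h : ∀ l, n ≤ l → v (PowerSeries.coeff l f) ≤ u) :
    Bd v u ((PowerSeries.trunc n f : O[X]) - f) := fun l => by
  rw [map_sub, coeff_coe, PowerSeries.coeff_trunc]
  split_ifs with h1
  · simp
  · simpa using h l (not_lt.1 h1)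

theorem bd_eval {B ι : Type} [CommRing B] {φ : B →+* O} (hφ : ∀ b, v (φ b) ≤ 1)
    {W Z : ι → PowerSeries O} (hW : ∀ j, Bd v 1 (W j)) (hZ : ∀ j, Bd v 1 (Z j))
    (h : ∀ j, Bd v u (W j - Z j)) (G : MvPolynomial ι B) :
    Bd v 1 (G.eval₂ (PowerSeries.C.comp φ) W) ∧
      Bd v u (G.eval₂ (PowerSeries.C.comp φ) W - G.eval₂ (PowerSeries.C.comp φ) Z) := by
  induction G using MvPolynomial.induction_on with
  | C b =>
    rw [MvPolynomial.eval₂_C, MvPolynomial.eval₂_C, sub_self]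
    exact ⟨bd_C (hφ b), fun l => by simp⟩
  | add f g hf hg =>
    rw [MvPolynomial.eval₂_add, MvPolynomial.eval₂_add, add_sub_add_comm]
    exact ⟨hf.1.add hg.1, hf.2.add hg.2⟩
  | mul_X f i hf =>
    rw [MvPolynomial.eval₂_mul, MvPolynomial.eval₂_mul, MvPolynomial.eval₂_X, MvPolynomial.eval₂_X]
    refine ⟨hf.1.mul_one (hW i), ?_⟩
    rw [show ∀ a b c d : PowerSeries O, a * c - b * d = a * (c - d) + (a - b) * d from
      fun a b c d => by ring]
    exact (hf.1.one_mul (h i)).add (hf.2.mul_one (hZ i))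

end bd

variable {B Λ O κ ι : Type} [CommRing B] [Field O] [Field κ] {P : Plc O κ}

theorem to_poly {φ : B →+* O} {φ' : B →+* κ} (h : ∀ b, P.To (φ b) (φ' b)) {w : ι → O[X]}
    {π : ι → κ[X]} (hw : ∀ j l, P.To ((w j).coeff l) ((π j).coeff l)) (G : MvPolynomial ι B) :
    ∀ l, P.To ((G.eval₂ (C.comp φ) w).coeff l) ((G.eval₂ (C.comp φ') π).coeff l) := by
  induction G using MvPolynomial.induction_on with
  | C b =>
    intro l
    rw [MvPolynomial.eval₂_C, MvPolynomial.eval₂_C, RingHom.comp_apply, RingHom.comp_apply,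
      coeff_C, coeff_C]
    split_ifs
    exacts [h b, Plc.to_zero]
  | add f g hf hg =>
    intro l
    rw [MvPolynomial.eval₂_add, MvPolynomial.eval₂_add, coeff_add, coeff_add]
    exact (hf l).add (hg l)
  | mul_X f i hf =>
    intro l
    rw [MvPolynomial.eval₂_mul, MvPolynomial.eval₂_mul, MvPolynomial.eval₂_X, MvPolynomial.eval₂_X,
      coeff_mul, coeff_mul]
    exact Plc.To.sum fun x _ => (hf _).mul (hw _ _)

theorem ev_eq {K R : Type} [Field K] [CommRing R] [Algebra K R] (φ : B →+* K) (z : ι → R)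
    (G : MvPolynomial ι B) :
    MvPolynomial.aeval z (MvPolynomial.map φ G) = G.eval₂ ((algebraMap K R).comp φ) z := by
  rw [MvPolynomial.aeval_def, MvPolynomial.eval₂_map]

theorem unit [Fintype ι] {W A : ι → O[X]} {b ε : P.V.ValueGroup} (hε : ε < 1)
    (hA : ∀ j, Bd P.V.valuation b (A j))
    (hU : Bd P.V.valuation ε (∑ j, A j * W j - 1 : O[X])) {q : O[X]}
    (hq : Bd P.V.valuation 1 q) {l : O} {u : P.V.ValueGroup}
    (hl : ∀ j, P.V.valuation (l * ((W j).comp q).coeff 0) ≤ u) : P.V.valuation l ≤ b * u := by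
  have h1 := P.V.valuation.map_one_add_of_lt ((bd_coe.1 (hU.comp hq) 0).trans_lt hε)
  rw [sub_comp, one_comp, coeff_sub, coeff_one_zero, add_sub_cancel, ← coe_compRingHom_apply,
    map_sum, finsetSum_coeff] at h1
  rw [← mul_one (P.V.valuation l), ← h1, ← map_mul, Finset.mul_sum]
  refine P.V.valuation.map_sum_le fun j _ => ?_
  rw [map_mul (compRingHom q), mul_coeff_zero, mul_left_comm, map_mul]
  exact mul_le_mul' (bd_coe.1 ((hA j).comp hq) 0) (hl j)

theorem finish {G : Λ → MvPolynomial ι κ} {δ e d d' : ℕ} (hG : ∀ l, (G l).IsHomogeneous δ)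
    {π : ι → κ[X]} {x : ι → κ} {c : κ} (h : ∀ l, MvPolynomial.aeval π (G l) = 0) (hd : d ≤ e)
    (hπ : ∀ j, (π j).natDegree ≤ d) (hd' : d' = 0 ∨ d' = d) (hc : c ≠ 0)
    (h0 : ∀ j, (π j).coeff d' = c * x j) (hn : ∃ j j', C (x j) * π j' ≠ C (x j') * π j) :
    RatCurve G x e := by
  obtain ⟨π', h, hπ, h0, j, j', hn⟩ : ∃ π' : ι → κ[X], (∀ l, MvPolynomial.aeval π' (G l) = 0) ∧
      (∀ j, (π' j).natDegree ≤ d) ∧ (∀ j, (π' j).coeff 0 = c * x j) ∧
      ∃ j j', C (x j) * π' j' ≠ C (x j') * π' j := by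
    rcases hd' with rfl | rfl
    · exact ⟨π, h, hπ, h0, hn⟩
    obtain ⟨j, j', hn⟩ := hn
    refine ⟨fun j => (π j).reflect d', fun l => ?_,
      fun j => natDegree_reflect_le.trans (max_le le_rfl (hπ j)), fun j => ?_, j, j', fun h1 => ?_⟩
    · have hX : (RatFunc.X : RatFunc κ)⁻¹ ≠ 0 := inv_ne_zero RatFunc.X_ne_zero
      let _ := invertibleOfNonzero hX
      have h1 := congrArg (aeval (RatFunc.X : RatFunc κ)⁻¹) (h l)
      have h2 : (fun j => aeval (RatFunc.X : RatFunc κ)⁻¹ (π j)) =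
          (RatFunc.X : RatFunc κ)⁻¹ ^ d' • fun j => aeval (RatFunc.X : RatFunc κ) ((π j).reflect d') := by
        funext j
        have e := eval₂_reflect_mul_pow (algebraMap κ (RatFunc κ)) (RatFunc.X : RatFunc κ)⁻¹ d'
          (π j) (hπ j)
        rw [invOf_eq_inv, inv_inv, mul_comm] at e
        exact e.symm
      rw [MvPolynomial.comp_aeval_apply, h2, plc1_aeval_smul (hG l), map_zero,
        ← MvPolynomial.comp_aeval_apply, RatFunc.aeval_X_left_eq_algebraMap] at h1
      exact RatFunc.algebraMap_injective κ (((mul_eq_zero.1 h1).resolve_left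
        (pow_ne_zero _ (pow_ne_zero _ hX))).trans (map_zero _).symm)
    · rw [coeff_reflect, revAt_zero, h0]
    · have h2 := congrArg (reflect d') h1
      rw [reflect_C_mul, reflect_C_mul, reflect_reflect, reflect_reflect] at h2
      exact hn h2
  refine ⟨(C c⁻¹ : κ[X]) • π', fun j => ((natDegree_C_mul_le _ _).trans (hπ j)).trans hd,
    fun l => by rw [plc1_aeval_smul (hG l), h, mul_zero], fun j => ?_, j, j', fun h1 => hn ?_⟩
  · rw [Pi.smul_apply, smul_eq_mul, coeff_C_mul, h0, inv_mul_cancel_left₀ hc]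
  · rw [Pi.smul_apply, Pi.smul_apply, smul_eq_mul, smul_eq_mul, mul_left_comm,
      mul_left_comm (C (x j'))] at h1
    exact mul_left_cancel₀ (C_ne_zero.2 (inv_ne_zero hc)) h1

theorem radius [IsAlgClosed O] [Finite ι] {c : ι → ℕ → O} {e : ℕ} {j₁ : ι} {u : P.V.ValueGroup}
    (h0 : ∀ j, P.V.valuation (c j 0) ≤ 1) (h : ∀ j l, P.V.valuation (c j l) ≤ u) (hu : 1 < u)
    (he : P.V.valuation (c j₁ e) = u) : ∃ γ : O, P.V.valuation γ < 1 ∧
      (∀ j l, P.V.valuation (γ ^ l * c j l) ≤ 1) ∧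
      (∀ j n, P.V.valuation (γ ^ (e + n) * c j (e + n)) ≤ P.V.valuation γ ^ n) ∧
      ∃ j l, 0 < l ∧ l ≤ e ∧ P.V.valuation (γ ^ l * c j l) = 1 := by
  obtain ⟨e, rfl⟩ : ∃ e', e = e' + 1 := Nat.exists_eq_succ_of_ne_zero fun h1 => by
    rw [h1] at he
    exact (he ▸ h0 j₁).not_gt hu
  choose η hη using fun s : ι × Fin (e + 1) =>
    IsAlgClosed.exists_pow_nat_eq (c s.1 (s.2 + 1)) (Nat.succ_pos s.2)
  have : Nonempty (ι × Fin (e + 1)) := ⟨(j₁, 0)⟩
  obtain ⟨s, hs⟩ := Finite.exists_max fun s => P.V.valuation (η s)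
  have h1 : ∀ j l, l ≤ e → P.V.valuation (c j (l + 1)) ≤ P.V.valuation (η s) ^ (l + 1) :=
    fun j l hl => by
      rw [← hη (j, ⟨l, Nat.lt_succ_of_le hl⟩), map_pow]
      exact pow_le_pow_left' (hs _) _
  have h2 : u ≤ P.V.valuation (η s) ^ (e + 1) := he ▸ h1 j₁ e le_rfl
  have h3 : 1 < P.V.valuation (η s) := by
    by_contra h4
    exact (h2.trans (pow_le_one' (not_lt.1 h4) _)).not_gt hu
  have h4 : 0 < P.V.valuation (η s) := zero_lt_one.trans h3
  have h5 : P.V.valuation (η s)⁻¹ < 1 := by rw [map_inv₀]; exact inv_lt_one_of_one_lt₀ h3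
  have h6 : ∀ j n, P.V.valuation ((η s)⁻¹ ^ (e + 1 + n) * c j (e + 1 + n)) ≤
      P.V.valuation (η s)⁻¹ ^ n := fun j n => by
    rw [map_mul, map_pow, pow_add, mul_right_comm]
    refine mul_le_of_le_one_left' ?_
    rw [map_inv₀, inv_pow, inv_mul_le_one₀ (pow_pos h4 _)]
    exact (h _ _).trans h2
  refine ⟨(η s)⁻¹, h5, fun j l => ?_, h6, s.1, s.2 + 1, Nat.succ_pos _, s.2.2, ?_⟩
  · rcases l with _ | l
    · simpa using h0 j
    rcases le_or_gt l e with h7 | h7
    · rw [map_mul, map_pow, map_inv₀, inv_pow, inv_mul_le_one₀ (pow_pos h4 _)]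
      exact h1 j l h7
    · obtain ⟨n, hn⟩ := Nat.exists_eq_add_of_le (Nat.succ_le_succ h7.le)
      rw [show l + 1 = e + 1 + n from hn]
      exact (h6 j n).trans (pow_le_one' h5.le _)
  · rw [← hη s, ← mul_pow, inv_mul_cancel₀ (P.V.valuation.ne_zero_iff.1 h4.ne'), one_pow, map_one]

end BUB

open BUB in
theorem st_bub (hW : St_WALK) : St_BUB := by
  intro B Λ O κ ι _ _ _ _ _ _ P φ φ' G δ e Z a x α β j₀ j₁ hA hφ hG hZ hx hx0 hα hα' he ha h1
  obtain ⟨γ, g1, g2, g3, j₂, l₂, g4, g5, g6⟩ := radius (c := fun j l => PowerSeries.coeff l (Z j))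
    (fun j => by simpa using (P.V.valuation_le_one_iff _).2 (hx j).1) hα
    (not_le.1 fun h => hα' ((P.V.valuation_le_one_iff _).1 h)) he
  obtain ⟨β', b1, b2⟩ : ∃ β', 1 ≤ P.V.valuation β' ∧ P.V.valuation β ≤ P.V.valuation β' := by
    rcases le_total 1 (P.V.valuation β) with h | h
    exacts [⟨β, h, le_rfl⟩, ⟨1, by simp, by simpa using h⟩]
  have b3 : 0 < P.V.valuation β' := zero_lt_one.trans_le b1
  obtain ⟨N, hN⟩ := hA γ (β' ^ (δ + 1))⁻¹ g1
    (inv_ne_zero (pow_ne_zero _ (P.V.valuation.ne_zero_iff.1 b3.ne')))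
  rw [map_inv₀, map_pow, ← one_div, lt_div_iff₀' (pow_pos b3 _)] at hN
  have n1 : P.V.valuation β' ^ δ * P.V.valuation γ ^ N < 1 :=
    (mul_le_mul_left (pow_le_pow_right' b1 δ.le_succ) _).trans_lt hN
  have n2 : P.V.valuation β' * P.V.valuation γ ^ N < 1 :=
    (mul_le_mul_left (le_self_pow b1 δ.succ_ne_zero) _).trans_lt hN
  let Z' := fun j => PowerSeries.rescale γ (Z j)
  let a' := fun j => PowerSeries.rescale γ (a j)
  let W : ι → O[X] := fun j => PowerSeries.trunc (e + 1 + N) (Z' j)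
  let A : ι → O[X] := fun j => PowerSeries.trunc (e + 1 + N) (a' j)
  have z1 : ∀ j, Bd P.V.valuation 1 (Z' j) := fun j l => by
    rw [PowerSeries.coeff_rescale]; exact g2 j l
  have w1 : ∀ j, Bd P.V.valuation 1 (W j) := fun j => (z1 j).trunc _
  have w2 : ∀ j, Bd P.V.valuation (P.V.valuation γ ^ N) (W j - Z' j) := fun j =>
    bd_tail fun l hl => by
      obtain ⟨n, rfl⟩ := Nat.exists_eq_add_of_le (show e ≤ l by omega)
      rw [PowerSeries.coeff_rescale]
      exact (g3 j n).trans (pow_le_pow_right_of_le_one' g1.le (by omega))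
  have a1 : ∀ j l n, n ≤ l → P.V.valuation (PowerSeries.coeff l (a' j)) ≤
      P.V.valuation β' * P.V.valuation γ ^ n := fun j l n hn => by
    rw [PowerSeries.coeff_rescale, map_mul, map_pow, mul_comm]
    exact mul_le_mul' ((ha j l).trans b2) (pow_le_pow_right_of_le_one' g1.le hn)
  have a2 : ∀ j, Bd P.V.valuation (P.V.valuation β') (A j) := fun j =>
    Bd.trunc (fun l => by simpa using a1 j l 0 l.zero_le) _
  have u1 : Bd P.V.valuation (P.V.valuation β' * P.V.valuation γ ^ N)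
      (∑ j, A j * W j - 1 : O[X]) := by
    have e1 : ∑ j, a' j * Z' j = 1 := by
      simpa only [map_sum, map_mul, map_one] using congrArg (PowerSeries.rescale γ) h1
    rw [coe_sub, coe_one, ← e1, ← coeToPowerSeries.ringHom_apply, map_sum,
      ← Finset.sum_sub_distrib]
    refine Bd.sum fun j _ => ?_
    rw [coeToPowerSeries.ringHom_apply, coe_mul, show ∀ a b c d : PowerSeries O,
      a * c - b * d = a * (c - d) + (a - b) * d from fun a b c d => by ring]
    exact ((a2 j).mul (w2 j)).add ((bd_tail fun l hl => a1 j l N (by omega)).mul_one (z1 j))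
  have e2 : ∀ l, Bd P.V.valuation (P.V.valuation γ ^ N) ((G l).eval₂ (C.comp φ) W : O[X]) := by
    intro l
    have e3 := congrArg (PowerSeries.rescale γ) (hZ l)
    have e4 : (PowerSeries.rescale γ).comp (PowerSeries.C.comp φ) = PowerSeries.C.comp φ := by
      ext b n
      simp only [RingHom.comp_apply, PowerSeries.coeff_rescale, PowerSeries.coeff_C]
      split_ifs with h <;> simp [h]
    have e5 : coeToPowerSeries.ringHom.comp (C.comp φ) = PowerSeries.C.comp φ :=
      RingHom.ext fun b => coe_C _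
    rw [hom_eval₂, e4, map_zero] at e3
    have := (bd_eval (fun b => (P.V.valuation_le_one_iff _).2 (hφ b).1) w1 z1 w2 (G l)).2
    rw [e3, sub_zero] at this
    rw [← coeToPowerSeries.ringHom_apply, hom_eval₂, e5]
    exact this
  have q1 : ∀ s ∈ P.V, Bd P.V.valuation 1 (X + C s : O[X]) := fun s hs => by
    rw [coe_add, coe_X, coe_C]
    exact bd_X.add (bd_C ((P.V.valuation_le_one_iff _).2 hs))
  choose W' hW' using fun j => (mem_lifts (f := P.V.subtype) (W j)).1
    ((lifts_iff_coeff_lifts _).2 fun n =>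
      ⟨⟨_, (P.V.valuation_le_one_iff _).1 (bd_coe.1 (w1 j) n)⟩, rfl⟩)
  have p1 : ∀ j l, P.To ((W j).coeff l) (((W' j).map P.ρ).coeff l) := fun j l => by
    rw [← hW' j, coeff_map, coeff_map]
    exact ⟨((W' j).coeff l).2, rfl⟩
  have p2 : ∀ j, ((W' j).map P.ρ).coeff 0 = x j := fun j => (p1 j 0).unique (by
    rw [PowerSeries.coeff_trunc, if_pos (by omega), PowerSeries.coeff_rescale]
    simpa using hx j)
  obtain ⟨π, d, d', c, k1, k2, k3, k4, k5, k6, k7⟩ := hW O κ ι P W (fun j => (W' j).map P.ρ) e j₀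
    (fun π => ∀ l, MvPolynomial.aeval π (MvPolynomial.map φ' (G l)) = 0) p1 (by rwa [p2])
    (fun j => natDegree_le_iff_coeff_eq_zero.2 fun l hl => (p1 j l).unique (Plc.to_zero_iff.2 (by
      obtain ⟨n, rfl⟩ := Nat.exists_eq_add_of_le hl.le
      rw [PowerSeries.coeff_trunc]
      split_ifs
      · rw [PowerSeries.coeff_rescale]
        exact (g3 j n).trans_lt (pow_lt_one' g1 (by omega))
      · simp)))
    ⟨j₂, g4.trans_le (le_natDegree_of_ne_zero ((p1 j₂ l₂).val_eq_one_iff.1 (by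
      rw [PowerSeries.coeff_trunc, if_pos (by omega), PowerSeries.coeff_rescale, g6])))⟩
    (fun s hs => by
      by_contra! h
      have := unit (l := 1) (u := 0) n2 a2 u1 (q1 s hs) fun j => by
        rw [coeff_zero_eq_eval_zero, eval_comp]
        simp [h j]
      simp at this)
    (by
      rintro s hs r hr - π ⟨-, m, hm⟩ l
      have r1 : Bd P.V.valuation 1 (C r * X : O[X]) := by
        rw [coe_mul, coe_X, coe_C]
        exact (bd_C ((P.V.valuation_le_one_iff _).2 hr)).mul_one bd_X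
      have r2 := (q1 s hs).comp r1
      let σ := compRingHom ((X + C s).comp (C r * X))
      have r3 : ∀ j i, P.To ((((C m : O[X]) • fun j => σ (W j)) j).coeff i) ((π j).coeff i) :=
        fun j i => by
          rw [Pi.smul_apply, smul_eq_mul, coeff_C_mul, coe_compRingHom_apply, ← comp_assoc,
            comp_C_mul_X_coeff, ← mul_assoc]
          exact hm j i
      have r4 := unit (l := m) (u := 1) n2 a2 u1 r2 fun j => by
        have := (P.V.valuation_le_one_iff _).2 (r3 j 0).1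
        rwa [Pi.smul_apply, smul_eq_mul, coeff_C_mul] at this
      have r5 : σ.comp (C.comp φ) = C.comp φ := RingHom.ext fun b => C_comp
      rw [ev_eq, algebraMap_eq]
      ext i
      refine (to_poly hφ r3 (G l) i).unique (Plc.to_zero_iff.2 ?_)
      rw [← algebraMap_eq, ← ev_eq, plc1_aeval_smul ((hG l).map φ), ev_eq, algebraMap_eq, ← r5,
        ← hom_eval₂, ← C_pow, coeff_C_mul, map_mul, map_pow]
      exact (mul_le_mul' (pow_le_pow_left' (by simpa using r4) _)
        (bd_coe.1 ((e2 l).comp r2) i)).trans_lt n1)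
  simp only [p2] at k6 k7
  exact finish (fun l => (hG l).map φ') k1 k2 k3 k4 k5 k6 k7

end Pool.Agent.Lib.UR.M
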