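import Pool.Agent.Lib.UR.MBlue

/-! The dimension count. -/

open MvPolynomial Module

noncomputable section

namespace Pool.Agent.Lib.UR.M

open Pool.Agent.Lib.MP_7fcda1_ag

namespace CNT

theorem ge_eval {B k E ι : Type} [CommRing B] [Field k] [Field E] [Algebra k E] (v : Place k E)
    (φ : B →+* k) (Y : ι → E) (n : ℤ) (hY : ∀ j, Ge v.O n (Y j)) {g : MvPolynomial ι B} {d : ℕ}
    (hg : g.IsHomogeneous d) : Ge v.O (d * n) (eval₂ ((algebraMap k E).comp φ) Y g) := by
  rw [eval₂_eq]
  refine Ge.sum fun α hα => ?_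
  have h1 : Ge v.O 0 (algebraMap k E (φ (coeff α g))) := Or.inr (v.ord_const _).ge
  have h2 := Ge.prod (V := v.O) (s := α.support) (f := fun i => Y i ^ α i)
    (n := fun i => (α i : ℤ) * n) fun i _ => (hY i).pow _
  have h3 : ∑ i ∈ α.support, (α i : ℤ) * n = d * n := by
    rw [← Finset.sum_mul, ← Nat.cast_sum, ← hg.degree_eq_sum_deg_support hα]
  rw [h3] at h2
  simpa using h1.mul h2

end CNT

theorem st_cnt : St_CNT := by
  intro B Λ k E _ _ _ _ _ _ N ρ e c Q φ Y D A hc hQ hY hlt
  set w := cols Q.G Q.S ((algebraMap k E).comp φ) Y with hw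
  have hli : LinearIndependent E w := pl_ne_zero_iff.1 fun h => hQ.min (by
    rw [atup_eq, ← hw, h]; rfl)
  obtain ⟨f, hf, hf0⟩ : ∃ f ∈ Ls (D - A), f ≠ 0 := by
    by_contra h
    push Not at h
    have h1 : Ls (D - A) = ⊥ := eq_bot_iff.2 fun f hf => h f hf
    have h2 := (hc (D - A)).1
    rw [h1, finrank_bot, map_sub] at h2
    simp only [Nat.cast_zero] at h2
    omega
  have hgen : gen (Submodule.span E (Set.range w)) (e • D - A) = Submodule.span E (Set.range w) := by
    refine le_antisymm (gen_le _ _) (Submodule.span_le.2 ?_)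
    rintro _ ⟨r, rfl⟩
    have h1 : f • w r ∈ Gam (Submodule.span E (Set.range w)) (e • D - A) := by
      refine mem_Gam.2 ⟨Submodule.smul_mem _ _ (Submodule.subset_span ⟨r, rfl⟩), fun v l => ?_⟩
      have h2 := CNT.ge_eval v φ Y (-D v) (fun j => mem_Ls.1 (hY j) v)
        ((Q.hom l).pderiv (i := Q.S r))
      refine ((mem_Ls.1 hf v).mul h2).mono (le_of_eq ?_)
      have := Q.pos
      rw [Finsupp.sub_apply, Finsupp.sub_apply, Finsupp.nsmul_apply, nsmul_eq_mul,
        Nat.cast_sub this]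
      push_cast
      ring
    have h2 : w r = f⁻¹ • (f • w r) := by rw [smul_smul, inv_mul_cancel₀ hf0, one_smul]
    rw [h2]
    exact Submodule.smul_mem _ _ (Submodule.subset_span h1)
  have h := riemann_upper hc hgen
  rw [sdeg_eq hli, finrank_span_eq_card hli, Fintype.card_fin, map_sub, map_nsmul,
    nsmul_eq_mul] at h
  rw [ht, atup_eq, ← hw]
  linarith

end Pool.Agent.Lib.UR.M
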