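import Pool.Agent.Lib.UR.MBlue

/-! The conormal sequence at a point. -/

open MvPolynomial

noncomputable section

namespace Pool.Agent.Lib.UR.M

open Pool.Agent.Lib.MP_7fcda1_ag

namespace CON

variable {B Λ E : Type} [CommRing B] [Field E] {N ρ e : ℕ}

theorem ev_zero (Q : Pres B N ρ e Λ) {φ : B →+* E} {Y : Fin (N + 1) → E} (h : Q.At φ Y)
    {p : MvPolynomial (Fin (N + 1)) B}
    (hp : p ∈ Ideal.span (Set.range Q.G) ⊔ Ideal.span {X 0 - 1}) : eval₂ φ Y p = 0 := by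
  have hle : (Ideal.span (Set.range Q.G) ⊔ Ideal.span {X 0 - 1} :
      Ideal (MvPolynomial (Fin (N + 1)) B)) ≤ RingHom.ker (eval₂Hom φ Y) := by
    refine sup_le (Ideal.span_le.2 ?_) (Ideal.span_le.2 ?_)
    · rintro _ ⟨l, rfl⟩
      exact h.zero l
    · rintro _ rfl
      simp [RingHom.mem_ker, h.one]
  exact hle hp

theorem key (Q : Pres B N ρ e Λ) {φ : B →+* E} {Y : Fin (N + 1) → E} (h : Q.At φ Y)
    (γ : MvPolynomial (Fin (N + 1)) B →+ E)
    (hγ : ∀ a, ∀ g ∈ Ideal.span (Set.range Q.G), γ (a * g) = eval₂ φ Y a * γ g) (l : Λ) :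
    eval₂ φ Y Q.δ * γ (Q.G l) = ∑ r, eval₂ φ Y (Q.a l r) * γ (Q.G (Q.I r)) := by
  have hm : ∀ l, Q.G l ∈ Ideal.span (Set.range Q.G) := fun l => Ideal.subset_span ⟨l, rfl⟩
  have h0 : γ (Q.δ * Q.G l - ∑ r, Q.a l r * Q.G (Q.I r)) = 0 := by
    refine Submodule.mul_induction_on (Q.rel l) ?_ ?_
    · intro p hp g hg
      rw [hγ p g hg, ev_zero Q h hp, zero_mul]
    · intro x y hx hy
      rw [map_add, hx, hy, add_zero]
  rw [map_sub, map_sum, sub_eq_zero, hγ _ _ (hm l)] at h0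
  rw [h0]
  exact Finset.sum_congr rfl fun r _ => hγ _ _ (hm _)

theorem key_col (Q : Pres B N ρ e Λ) {φ : B →+* E} {Y : Fin (N + 1) → E} (h : Q.At φ Y)
    (s : Fin ρ) (l : Λ) :
    eval₂ φ Y Q.δ * cols Q.G Q.S φ Y s l =
      ∑ r, eval₂ φ Y (Q.a l r) * cols Q.G Q.S φ Y s (Q.I r) := by
  refine key Q h (AddMonoidHom.mk' (fun f => eval₂ φ Y (pderiv (Q.S s) f)) ?_) ?_ l
  · intro a b
    rw [map_add, eval₂_add]
  · intro a g hg
    have hz : eval₂ φ Y g = 0 := ev_zero Q h (Ideal.mem_sup_left hg)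
    simp only [AddMonoidHom.mk'_apply, Derivation.leibniz, smul_eq_mul, eval₂_add, eval₂_mul, hz,
      zero_mul, add_zero]

end CON

theorem st_con : St_CON := by
  intro B Λ E _ _ N ρ e Q φ Y h γ hγ
  have hd : (Matrix.of fun r s => cols Q.G Q.S φ Y r (Q.I s)).det ≠ 0 := by
    have := h.min
    rwa [atup_eq] at this
  have hu : IsUnit (Matrix.of fun r s => cols Q.G Q.S φ Y r (Q.I s)) :=
    (Matrix.isUnit_iff_isUnit_det _).2 (Ne.isUnit hd)
  obtain ⟨c, hc⟩ := (Matrix.vecMul_surjective_iff_isUnit.2 hu) fun s => γ (Q.G (Q.I s))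
  have hc' : ∀ s, ∑ r, c r * cols Q.G Q.S φ Y r (Q.I s) = γ (Q.G (Q.I s)) := fun s => by
    have := congrFun hc s
    simpa [Matrix.vecMul, dotProduct] using this
  refine (Submodule.mem_span_range_iff_exists_fun E).2 ⟨c, funext fun l => ?_⟩
  refine mul_left_cancel₀ h.del ?_
  rw [CON.key Q h γ hγ l]
  simp only [Finset.sum_apply, Pi.smul_apply, smul_eq_mul, Finset.mul_sum, ← hc']
  rw [Finset.sum_comm]
  refine Finset.sum_congr rfl fun r _ => ?_
  rw [mul_left_comm, CON.key_col Q h r l, Finset.mul_sum]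
  exact Finset.sum_congr rfl fun s _ => by ring

end Pool.Agent.Lib.UR.M
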