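import Pool.Agent.Lib.UR.MBlue
import Pool.Agent.Lib.MP_7fcda1_ag.Def3a

/-! Few equations: the deformation space has positive dimension. -/

open MvPolynomial Module

noncomputable section

namespace Pool.Agent.Lib.UR.M

open Pool.Agent.Lib.MP_7fcda1_ag

namespace DEF

variable {k E σ : Type} [Field k] [Field E] [Algebra k E]

/-- A linear form applied to all coefficients. -/
def push (θ : E →ₗ[k] k) (U : MvPolynomial σ E) : MvPolynomial σ k :=
  ∑ α ∈ U.support, monomial α (θ (coeff α U))

theorem coeff_push (θ : E →ₗ[k] k) (U : MvPolynomial σ E) (α : σ →₀ ℕ) :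
    coeff α (push θ U) = θ (coeff α U) := by
  classical
  rw [push, coeff_sum, Finset.sum_eq_single α (fun β _ h => by rw [coeff_monomial, if_neg h])
    fun h => by rw [notMem_support_iff.1 h, map_zero, monomial_zero, coeff_zero],
    coeff_monomial, if_pos rfl]

theorem push_add (θ : E →ₗ[k] k) (U V : MvPolynomial σ E) :
    push θ (U + V) = push θ U + push θ V := by
  ext α
  simp only [coeff_push, coeff_add, map_add]

theorem push_zero (θ : E →ₗ[k] k) : push θ (0 : MvPolynomial σ E) = 0 := by
  ext α
  simp only [coeff_push, coeff_zero, map_zero]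

theorem push_mono_mul (θ : E →ₗ[k] k) (β : σ →₀ ℕ) (c : E) (U : MvPolynomial σ E) :
    push θ (monomial β c * U) = monomial β 1 * push (θ ∘ₗ LinearMap.mulLeft k c) U := by
  classical
  ext α
  rw [coeff_push, coeff_monomial_mul', coeff_monomial_mul']
  split_ifs
  · rw [coeff_push, one_mul]; rfl
  · exact map_zero θ

theorem theta_L (θ : E →ₗ[k] k) (l : MvPolynomial σ k →ₗ[k] k) (U : MvPolynomial σ E) :
    θ (def3L E l U) = l (push θ U) := by
  rw [def3L_eq, push, map_sum, map_sum]
  refine Finset.sum_congr rfl fun α _ => ?_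
  rw [map_smul, smul_eq_mul, mul_comm, ← smul_eq_mul, ← map_smul, smul_monomial, smul_eq_mul,
    mul_one]

theorem push_mul {I : Ideal (MvPolynomial σ k)} {U : MvPolynomial σ E}
    (hU : ∀ θ : E →ₗ[k] k, push θ U ∈ I) (P : MvPolynomial σ E) (θ : E →ₗ[k] k) :
    push θ (P * U) ∈ I := by
  induction P using MvPolynomial.induction_on' with
  | monomial β c => rw [push_mono_mul]; exact I.mul_mem_left _ (hU _)
  | add P Q hP hQ => rw [add_mul, push_add]; exact I.add_mem hP hQ

theorem L_mul {I : Ideal (MvPolynomial σ k)} {l : MvPolynomial σ k →ₗ[k] k}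
    (hl : ∀ f ∈ RingHom.ker constantCoeff * I, l f = 0) {U : MvPolynomial σ E}
    (hU : ∀ θ : E →ₗ[k] k, push θ U ∈ I) (P : MvPolynomial σ E) :
    def3L E l (P * U) = constantCoeff P * def3L E l U := by
  classical
  induction P using MvPolynomial.induction_on' with
  | monomial β c =>
    by_cases h : β = 0
    · subst h
      rw [← C_apply, ← smul_eq_C_mul, map_smul, constantCoeff_C, smul_eq_mul]
    · rw [constantCoeff_monomial, if_neg h, zero_mul]
      refine (Module.forall_dual_apply_eq_zero_iff k _).1 fun θ => ?_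
      rw [theta_L, push_mono_mul]
      exact hl _ (Ideal.mul_mem_mul (by rw [RingHom.mem_ker, constantCoeff_monomial, if_neg h])
        (hU _))
  | add P Q hP hQ => rw [add_mul, map_add, hP, hQ, map_add, add_mul]

theorem hom_ind {B τ R : Type} [CommRing B] [Fintype τ] [CommRing R] (S : ℤ → R → Prop)
    (h0 : ∀ n, S n 0) (hadd : ∀ n P Q, S n P → S n Q → S n (P + Q))
    (hmul : ∀ m n P Q, S m P → S n Q → S (m + n) (P * Q)) (ev : MvPolynomial τ B →+* R)
    (hC : ∀ c, S 0 (ev (C c))) {t : ℤ} (hX : ∀ i, S t (ev (X i))) {f : MvPolynomial τ B} {m : ℕ}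
    (hf : f.IsHomogeneous m) : S (m * t) (ev f) := by
  classical
  have h1 : S 0 1 := by simpa using hC 1
  have hp : ∀ i (j : ℕ), S (j * t) (ev (X i) ^ j) := fun i j => by
    induction j with
    | zero => simpa using h1
    | succ j ih =>
      rw [pow_succ, Nat.cast_succ, add_mul, one_mul]
      exact hmul _ _ _ _ ih (hX i)
  rw [f.as_sum, map_sum]
  refine Finset.sum_induction _ (S (m * t)) (hadd _) (h0 _) fun s hs => ?_
  rw [monomial_eq, map_mul, Finsupp.prod_fintype _ _ (by simp), map_prod]
  have h2 : ∀ T : Finset τ, S (∑ i ∈ T, (s i : ℤ) * t) (∏ i ∈ T, ev (X i ^ s i)) := fun T => by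
    induction T using Finset.induction_on with
    | empty => simpa using h1
    | insert a T ha ih =>
      rw [Finset.sum_insert ha, Finset.prod_insert ha, map_pow]
      exact hmul _ _ _ _ (hp a _) ih
  have h3 : ∑ i, (s i : ℤ) = m := by
    have := hf (MvPolynomial.mem_support_iff.1 hs)
    rw [← this, Finsupp.weight_apply, Finsupp.sum_fintype _ _ (by simp)]
    simp
  have := hmul _ _ _ _ (hC (coeff s f)) (h2 Finset.univ)
  rwa [zero_add, ← Finset.sum_mul, h3] at this

theorem ge_hom {B τ : Type} [CommRing B] [Fintype τ] (V : ValuationSubring E) {a t : ℤ}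
    (ev : MvPolynomial τ B →+* MvPolynomial σ E)
    (hC : ∀ c, ∃ c', Ge V 0 c' ∧ ev (C c) = C c')
    (hX : ∀ i, PGe V (RingHom.id E) t (ev (X i)) ∧
      PGe V (RingHom.id E) (t + a) (ev (X i) - C (constantCoeff (ev (X i)))))
    {f : MvPolynomial τ B} {m : ℕ} (hf : f.IsHomogeneous m) :
    PGe V (RingHom.id E) (m * t + a) (ev f - C (constantCoeff (ev f))) := by
  have hz : ∀ n, PGe V (RingHom.id E) n (0 : MvPolynomial σ E) := fun n α => Or.inl rfl
  refine (hom_ind (fun n P => PGe V (RingHom.id E) n P ∧
    PGe V (RingHom.id E) (n + a) (P - C (constantCoeff P))) (fun n => ⟨hz _, by simpa using hz _⟩)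
    (fun n P Q hP hQ => ⟨hP.1.add hQ.1, ?_⟩) (fun m n P Q hP hQ => ⟨hP.1.mul hQ.1, ?_⟩) ev
    (fun c => ?_) hX hf).2
  · rw [map_add, map_add, add_sub_add_comm]
    exact hP.2.add hQ.2
  · have h1 := hP.2.mul hQ.1
    have h2 := (pge_monomial (V := V) (ι := RingHom.id E) (σ := σ) (hP.1 0) 0).mul hQ.2
    rw [← C_apply, ← add_assoc] at h2
    rw [add_right_comm] at h1
    have e : P * Q - C (constantCoeff (P * Q)) = (P - C (constantCoeff P)) * Q +
        C (coeff 0 P) * (Q - C (constantCoeff Q)) := by
      rw [map_mul, map_mul, constantCoeff_eq]; ring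
    rw [e]
    exact h1.add h2
  · obtain ⟨c', h1, h2⟩ := hC c
    rw [h2, constantCoeff_C, sub_self]
    exact ⟨pge_monomial h1 0, hz _⟩

end DEF

open DEF in
theorem st_def (h : St_CON) : St_DEF := by
  intro B Λ k E _ _ _ _ _ _ N ρ e m Q φ Y D A s hQ hY hs hA hlt
  classical
  set φ' := (algebraMap k E).comp φ with hφ'
  let ev : MvPolynomial (Fin (N + 1)) B →+* MvPolynomial (Fin (N + 1) × Fin m) E :=
    eval₂Hom (C.comp φ') (univ Y s)
  have hu : ∀ j, constantCoeff (univ Y s j) = Y j := fun j => by simp [univ]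
  have hcc : ∀ f, constantCoeff (ev f) = eval₂ φ' Y f := fun f => by
    have := hom_eval₂ (constantCoeff : MvPolynomial (Fin (N + 1) × Fin m) E →+* E) (C.comp φ')
      (univ Y s) f
    rw [show (constantCoeff : MvPolynomial (Fin (N + 1) × Fin m) E →+* E).comp (C.comp φ') = φ'
      from RingHom.ext fun b => constantCoeff_C _ _, funext hu] at this
    exact this
  let I : Ideal (MvPolynomial (Fin (N + 1) × Fin m) k) :=
    Ideal.span (Set.range fun a : Λ × (E →ₗ[k] k) => push a.2 (ev (Q.G a.1)))
  have hgI : ∀ l θ, push θ (ev (Q.G l)) ∈ I := fun l θ => Ideal.subset_span ⟨(l, θ), rfl⟩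
  have hIm : I ≤ RingHom.ker constantCoeff := by
    refine Ideal.span_le.2 ?_
    rintro _ ⟨a, rfl⟩
    show coeff 0 (push a.2 (ev (Q.G a.1))) = 0
    rw [coeff_push, ← constantCoeff_eq, hcc, hQ.zero, map_zero]
  have hsp : ∀ g ∈ Ideal.span (Set.range Q.G), ∀ θ, push θ (ev g) ∈ I := fun g hg => by
    induction hg using Submodule.span_induction with
    | mem f hf => obtain ⟨a, rfl⟩ := hf; exact hgI a
    | zero => intro θ; rw [map_zero, push_zero]; exact I.zero_mem
    | add f g _ _ hf hg => intro θ; rw [map_add, push_add]; exact I.add_mem (hf θ) (hg θ)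
    | smul r f _ hf => rw [smul_eq_mul, map_mul]; exact push_mul hf _
  have hge : ∀ (v : Place k E) l, PGe v.O (RingHom.id E) (-(e • D - A) v) (ev (Q.G l)) :=
    fun v l => by
      have h1 := ge_hom v.O (a := A v) (t := -D v) ev
        (fun c => ⟨_, Or.inr (v.ord_const (φ c)).ge, eval₂Hom_C _ _ _⟩) (fun i => ?_) (Q.hom l)
      · rw [hcc, hQ.zero, C_0, sub_zero] at h1
        rw [show -(e • D - A) v = e * -D v + A v by simp; ring]
        exact h1
      have h2 : PGe v.O (RingHom.id E) (-D v + A v)
          (∑ μ, C (s μ) * X (i, μ) : MvPolynomial (Fin (N + 1) × Fin m) E) :=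
        PGe.sum fun μ _ => by
          rw [C_mul_X_eq_monomial]
          refine pge_monomial ?_ _
          have := mem_Ls.1 (hs μ) v
          rwa [Finsupp.sub_apply, neg_sub, sub_eq_neg_add] at this
      have e1 : ev (X i) = univ Y s i := eval₂Hom_X' _ _ _
      rw [e1, hu, univ, add_sub_cancel_left]
      exact ⟨(pge_monomial (mem_Ls.1 (hY i) v) 0).add fun α =>
        (h2 α).mono (le_add_of_nonneg_right (hA v)), h2⟩
  set M := Gam (Submodule.span E (Set.range (cols Q.G Q.S φ' Y))) (e • D - A) with hM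
  obtain ⟨𝔭, h1, h2, h3, h4⟩ := krull I (RingHom.ker constantCoeff) hIm le_rfl (finrank k M)
    (fun l hl => by
      have hw : ∀ i, (fun a => def3L E (l i) (ev (Q.G a))) ∈ M := fun i => mem_Gam.2
        ⟨h B Λ E N ρ e Q φ' Y hQ ((def3L E (l i)).toAddMonoidHom.comp ev.toAddMonoidHom)
          fun a g hg => by
            show def3L E (l i) (ev (a * g)) = eval₂ φ' Y a * def3L E (l i) (ev g)
            rw [map_mul, L_mul (hl i) (hsp g hg), hcc],
          fun v a => by
            show Ge v.O _ (def3L E (l i) (ev (Q.G a)))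
            rw [def3L_eq]
            exact Ge.sum fun α _ => v.ge_smul (hge v a α) _⟩
      have hnl : ¬LinearIndependent k fun i => (⟨_, hw i⟩ : M) := fun hli => by
        have := hli.fintype_card_le_finrank
        simp at this
      obtain ⟨c, hc, i₀, hi₀⟩ := Fintype.not_linearIndependent_iff.1 hnl
      refine ⟨c, fun h0 => hi₀ (by simp [h0]), ?_⟩
      have hc' : ∀ a, ∑ i, c i • def3L E (l i) (ev (Q.G a)) = 0 := fun a => by
        have := congrFun (congrArg Subtype.val hc) a
        simpa using this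
      intro f hf
      induction hf using Submodule.span_induction with
      | mem f hf =>
        obtain ⟨a, rfl⟩ := hf
        have := congrArg a.2 (hc' a.1)
        simpa [theta_L] using this
      | zero => simp
      | add f g _ _ hf hg => simp [mul_add, Finset.sum_add_distrib, hf, hg]
      | smul r f hfI hf =>
        have e1 : ∀ i, l i (r • f) = constantCoeff r * l i f := fun i => by
          have e2 : r • f = (r - C (constantCoeff r)) * f + constantCoeff r • f := by
            rw [smul_eq_C_mul, smul_eq_mul]; ring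
          rw [e2, map_add, hl i _ (Ideal.mul_mem_mul (by simp) hfI), zero_add, map_smul,
            smul_eq_mul]
        simp only [e1, mul_left_comm _ (constantCoeff r), ← Finset.mul_sum, hf, mul_zero]) ⊥
    (fun ζ hζ => by
      refine (Submodule.mem_bot k).2 (funext fun i => ?_)
      have := hζ (X i) (by simp)
      simpa [coeff_X, Finsupp.single_left_inj] using this)
    (by simpa using hlt)
  refine ⟨𝔭, h1, lt_of_le_not_ge h3 h4, fun l θ g hg => h2 ?_⟩
  rw [show g = push θ (ev (Q.G l)) from MvPolynomial.ext _ _ fun α => by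
    rw [coeff_push, hg]; rfl]
  exact hgI l θ

end Pool.Agent.Lib.UR.M
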