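import Pool.Agent.Lib.UR.MBlue

open Module

namespace Pool.Agent.Lib.UR.M

open Pool.Agent.Lib.MP_7fcda1_ag

theorem st_dom : St_DOM := by
  intro k E ι I _ _ _ _ _ _ Y b M s hY hM
  refine ⟨fun c hc hlt => ?_, fun z hz h => ?_⟩
  · let D : Div k E := (M : ℤ) • vdiv k Y - (s : ℤ) • vdiv k b
    have h1 := (hc D).1
    have h2 : degD D = M * degD (vdiv k Y) - s * degD (vdiv k b) := by
      rw [map_sub, map_smul, map_smul, smul_eq_mul, smul_eq_mul]
    have h3 : 0 < finrank k (Ls D) := by
      unfold ht at hlt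
      have : (0 : ℤ) < finrank k (Ls D) := by linarith
      exact_mod_cast this
    have h4 : Ls D ≠ ⊥ := fun h => by
      rw [h, finrank_bot] at h3
      exact lt_irrefl _ h3
    obtain ⟨z, hz, hz0⟩ := (Submodule.ne_bot_iff _).1 h4
    refine ⟨z, hz0, fun v j => ?_⟩
    have h5 := (mem_Ls.1 hz v).mul ((((vge_iff hY).2 le_rfl : VGe v.O (vord v.O Y) Y) j).pow M)
    refine h5.mono (le_of_eq ?_)
    simp only [D, Finsupp.sub_apply, Finsupp.smul_apply, vdiv_apply, smul_eq_mul]
    ring
  · have h1 : (s : ℤ) • vdiv k b ≤ div k z + (M : ℤ) • vdiv k Y := fun v => by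
      obtain ⟨j, hj, e⟩ := exists_vord (V := v.O) hY
      have := (ge_iff (mul_ne_zero hz (pow_ne_zero M hj))).1 (h v j)
      rw [ord_mul hz (pow_ne_zero M hj), ord_pow, e] at this
      simpa only [Finsupp.add_apply, Finsupp.smul_apply, vdiv_apply, div_apply, smul_eq_mul]
        using this
    have h2 := degD_mono h1
    rw [map_add, map_smul, map_smul, degD_div, smul_eq_mul, smul_eq_mul] at h2
    unfold ht
    linarith

end Pool.Agent.Lib.UR.M
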