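import Pool.Agent.Lib.UR.MBlue

/-! Descent of the certificate to a finitely generated subring. -/

open MvPolynomial

noncomputable section

namespace Pool.Agent.Lib.UR.M

namespace DSC

theorem lift {K σ : Type} [Field K] (s : Set K) (g : MvPolynomial σ K)
    (h : (g.coeffs : Set K) ⊆ s) :
    ∃ g' : MvPolynomial σ (Subring.closure s), map (Subring.closure s).subtype g' = g := by
  refine (mem_range_map_iff_coeffs_subset (f := (Subring.closure s).subtype)).2 fun a ha => ?_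
  exact ⟨⟨a, Subring.subset_closure (h ha)⟩, rfl⟩

theorem prod_eq {R Λ : Type} [CommRing R] (G : Λ → R) (u : R) :
    (Ideal.span (Set.range G) ⊔ Ideal.span {u}) * Ideal.span (Set.range G) =
      Ideal.span (Set.range fun p : Option Λ × Λ => p.1.elim u G * G p.2) := by
  rw [← Ideal.span_union, Ideal.span_mul_span']
  congr 1
  ext x
  constructor
  · rintro ⟨a, ha | ha, b, ⟨l, rfl⟩, rfl⟩
    · obtain ⟨l', rfl⟩ := ha
      exact ⟨(some l', l), rfl⟩
    · obtain rfl : a = u := ha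
      exact ⟨(none, l), rfl⟩
  · rintro ⟨⟨_ | l', l⟩, rfl⟩
    · exact ⟨u, Or.inr rfl, G l, ⟨l, rfl⟩, rfl⟩
    · exact ⟨G l', Or.inl ⟨l', rfl⟩, G l, ⟨l, rfl⟩, rfl⟩

end DSC

theorem st_dsc : St_DSC := by
  intro K Λ _ _ N ρ e Q
  classical
  have := Fintype.ofFinite Λ
  have h1 := fun l => Ideal.mem_span_range_iff_exists_fun.1 (DSC.prod_eq Q.G _ ▸ Q.rel l)
  choose c hc using h1
  let s : Set K := ((⋃ l, ((Q.G l).coeffs : Set K)) ∪ (Q.δ.coeffs : Set K)) ∪
    ((⋃ l, ⋃ r, ((Q.a l r).coeffs : Set K)) ∪ ⋃ l, ⋃ p, ((c l p).coeffs : Set K))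
  have hs : s.Finite :=
    ((Set.finite_iUnion fun _ => Finset.finite_toSet _).union (Finset.finite_toSet _)).union
      ((Set.finite_iUnion fun _ => Set.finite_iUnion fun _ => Finset.finite_toSet _).union
        (Set.finite_iUnion fun _ => Set.finite_iUnion fun _ => Finset.finite_toSet _))
  have hG := fun l => DSC.lift s (Q.G l) fun a ha => Or.inl (Or.inl (Set.mem_iUnion.2 ⟨l, ha⟩))
  obtain ⟨δ, hδ⟩ := DSC.lift s Q.δ fun a ha => Or.inl (Or.inr ha)
  have ha := fun l r => DSC.lift s (Q.a l r) fun a ha =>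
    Or.inr (Or.inl (Set.mem_iUnion₂.2 ⟨l, r, ha⟩))
  have hc' := fun l p => DSC.lift s (c l p) fun a ha =>
    Or.inr (Or.inr (Set.mem_iUnion₂.2 ⟨l, p, ha⟩))
  choose G hG using hG
  choose a ha using ha
  choose c' hc' using hc'
  have hi : Function.Injective (Subring.closure s).subtype := Subtype.val_injective
  refine ⟨s, ⟨G, Q.I, Q.S, δ, a, Q.pos, fun l => IsHomogeneous.of_map hi (hG l ▸ Q.hom l),
    fun l => ?_⟩, hs, hG, rfl, rfl, hδ⟩
  rw [DSC.prod_eq]
  refine Ideal.mem_span_range_iff_exists_fun.2 ⟨c' l, map_injective _ hi ?_⟩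
  simp only [map_sum, map_mul, map_sub, hG, hδ, ha, hc']
  rw [← hc l]
  refine Finset.sum_congr rfl fun p _ => ?_
  obtain ⟨_ | l', l''⟩ := p
  · simp
  · simp [hG]

end Pool.Agent.Lib.UR.M
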