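import Pool.Agent.Lib.UR.MBlue
import Pool.Agent.Lib.MP_7fcda1_ag.Arc

/-! Expansion in power series at a place over an algebraically closed field. -/

noncomputable section

namespace Pool.Agent.Lib.UR.M

open Pool.Agent.Lib.MP_7fcda1_ag

theorem st_exp : St_EXP := by
  intro k E _ _ _ _ _ v
  have hv := v.disc
  obtain ⟨π, hπ0, hπ⟩ := hv.exists_ord 1
  have h1 : Ge v.O 1 π := Or.inr hπ.ge
  choose e he using Arc_exists_exp v hv (fun b hb => v.exists_res hb) hπ
  have hc : ∀ c : k, e (algebraMap k v.O c) = PowerSeries.C c := fun c =>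
    (he _).unique hπ (ArcExp.const v π c)
  let ex : v.O →ₐ[k] PowerSeries k :=
    { toFun := e
      map_one' := by simpa using hc 1
      map_zero' := by simpa using hc 0
      map_mul' := fun a b => (he _).unique hπ
        (ArcExp.mul (h1.mono zero_le_one) ((mem_iff_ge (Or.inl hv)).1 a.2) (he a) (he b))
      map_add' := fun a b => (he _).unique hπ ((he a).add (he b))
      commutes' := fun c => hc c }
  refine ⟨ex, fun a N => ?_⟩
  change PowerSeries.X ^ N ∣ e a ↔ _
  obtain ⟨P, hP, hP'⟩ := he a N
  constructor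
  · intro hd
    have h2 : PowerSeries.X ^ N ∣ (P : PowerSeries k) := by
      simpa using hd.sub hP
    simpa using hP'.add (Arc_ge_of_dvd v hπ (Arc_coe_dvd.1 h2))
  · intro hg
    have h2 : Ge v.O N (Polynomial.aeval π P) := by
      simpa using hg.sub hP'
    simpa using hP.add (Arc_coe_dvd.2 (Arc_dvd_of_ge v hπ _ _ h2))

end Pool.Agent.Lib.UR.M
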