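import Pool.Agent.Lib.UR.MBlue

/-! The ruled residue theorem over an algebraically closed field. -/

noncomputable section

namespace Pool.Agent.Lib.UR.M

open Pool.Agent.Lib.MP_7fcda1_ag

namespace GAU

variable {Ω D : Type} [Field Ω] [Field D] {P : Plc (RatFunc Ω) D} {F : Subfield D}
  {w : RatFunc Ω}

/-- Up to a constant and a power of `w`, the function `r` is a unit with value in `F`. -/
def H (P : Plc (RatFunc Ω) D) (F : Subfield D) (w r : RatFunc Ω) : Prop :=
  ∃ (k : ℤ) (c : Ω) (b : D), c ≠ 0 ∧ b ≠ 0 ∧ b ∈ F ∧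
    P.To (r * w ^ k / algebraMap Ω (RatFunc Ω) c) b

theorem H.mul (hw : w ≠ 0) {r s : RatFunc Ω} (h : H P F w r) (h' : H P F w s) :
    H P F w (r * s) := by
  obtain ⟨k, c, b, c0, b0, bF, h⟩ := h
  obtain ⟨k', c', b', c0', b0', bF', h'⟩ := h'
  refine ⟨k + k', c * c', b * b', mul_ne_zero c0 c0', mul_ne_zero b0 b0', mul_mem bF bF', ?_⟩
  rw [zpow_add₀ hw, map_mul, mul_mul_mul_comm, ← div_mul_div_comm]
  exact h.mul h'

theorem H.inv {r : RatFunc Ω} (h : H P F w r) : H P F w r⁻¹ := by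
  obtain ⟨k, c, b, c0, b0, bF, h⟩ := h
  refine ⟨-k, c⁻¹, b⁻¹, inv_ne_zero c0, inv_ne_zero b0, inv_mem bF, ?_⟩
  rw [zpow_neg, map_inv₀, ← mul_inv, div_eq_mul_inv, ← mul_inv, ← div_eq_mul_inv]
  exact h.inv b0

theorem all [IsAlgClosed Ω] (hw : w ≠ 0)
    (h : ∀ a : Ω, H P F w (RatFunc.X + algebraMap Ω (RatFunc Ω) a)) {r : RatFunc Ω} (hr : r ≠ 0) :
    H P F w r := by
  have hc : ∀ a : Ω, a ≠ 0 → H P F w (algebraMap Ω (RatFunc Ω) a) := fun a ha =>
    ⟨0, a, 1, ha, one_ne_zero, one_mem _, by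
      rw [zpow_zero, mul_one, div_self ((map_ne_zero _).2 ha)]; exact Plc.to_one⟩
  have hp : ∀ p : Polynomial Ω, p ≠ 0 → H P F w (algebraMap (Polynomial Ω) (RatFunc Ω) p) := by
    intro p
    have hs : p ∈ Submonoid.closure _ := IsAlgClosed.splits p
    induction hs using Submonoid.closure_induction with
    | mem q hq =>
      rcases hq with ⟨a, rfl⟩ | ⟨a, rfl⟩
      · exact fun ha => hc a fun e => ha (by rw [e, map_zero])
      · intro _
        rw [map_add, RatFunc.algebraMap_X]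
        exact h a
    | one => exact fun _ => by simpa using hc 1 one_ne_zero
    | mul p q _ _ hp hq =>
      intro e
      rw [map_mul]
      exact (hp (left_ne_zero_of_mul e)).mul hw (hq (right_ne_zero_of_mul e))
  rw [← RatFunc.num_div_denom r, div_eq_mul_inv]
  exact (hp _ (RatFunc.num_ne_zero hr)).mul hw (hp _ (RatFunc.denom_ne_zero r)).inv

theorem fin [IsAlgClosed Ω] (hw : w ≠ 0)
    (hK : ∀ (a : Ω) b, P.To (algebraMap Ω (RatFunc Ω) a) b → b ∈ F)
    (hk : ∀ (k : ℤ) (c : Ω), P.V.valuation (w ^ k) = P.V.valuation (algebraMap Ω (RatFunc Ω) c) →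
      w ^ k = 1) (h : ∀ a : Ω, H P F w (RatFunc.X + algebraMap Ω (RatFunc Ω) a))
    (r : RatFunc Ω) (b : D) (hr : P.To r b) : b ∈ F := by
  by_cases b0 : b = 0
  · rw [b0]; exact zero_mem _
  have r0 := hr.ne_zero b0
  obtain ⟨k, c, b', c0, b0', bF, h'⟩ := all hw h r0
  have c1 : algebraMap Ω (RatFunc Ω) c ≠ 0 := (map_ne_zero _).2 c0
  have e := h'.val_eq_one_iff.2 b0'
  rw [map_div₀, map_mul, hr.val_eq_one_iff.2 b0, one_mul,
    div_eq_one_iff_eq ((map_ne_zero _).2 c1)] at e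
  rw [hk k c e, mul_one] at h'
  have h2 := hr.mul (h'.inv b0')
  rw [inv_div, mul_div_cancel₀ _ r0] at h2
  have := mul_mem (hK c _ h2) bF
  rwa [inv_mul_cancel_right₀ b0'] at this

theorem near {r s : RatFunc Ω} (h : P.V.valuation r < P.V.valuation s) : P.To ((r + s) / s) 1 := by
  have s1 : P.V.valuation s ≠ 0 := (zero_le.trans_lt h).ne'
  have s0 : s ≠ 0 := (map_ne_zero _).1 s1
  have : P.To (r / s) 0 := Plc.to_zero_iff.2 (by
    rw [map_div₀]; exact (div_lt_one₀ (zero_le.trans_lt h)).2 h)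
  simpa only [add_div, div_self s0, zero_add] using this.add Plc.to_one

theorem x_ne (a : Ω) : RatFunc.X + algebraMap Ω (RatFunc Ω) a ≠ 0 := by
  have : RatFunc.X + algebraMap Ω (RatFunc Ω) a =
      algebraMap (Polynomial Ω) (RatFunc Ω) (Polynomial.X + Polynomial.C a) := by
    rw [map_add, RatFunc.algebraMap_X]; rfl
  rw [this]
  exact RatFunc.algebraMap_ne_zero (Polynomial.X_add_C_ne_zero a)

end GAU

open GAU in
theorem st_gau : St_GAU := by
  intro Ω D _ _ _ P K hK _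
  have hF : ∀ (u : D) (a : Ω) b, P.To (algebraMap Ω (RatFunc Ω) a) b →
      b ∈ Subfield.closure (K ∪ {u}) := fun u a b h =>
    Subfield.subset_closure (Or.inl ((hK b).2 ⟨a, h⟩))
  have tv : ∀ a : RatFunc Ω, P.V.valuation a ≤ 1 → ∃ b, P.To a b := fun a ha =>
    ⟨_, (P.V.valuation_le_one_iff a).1 ha, rfl⟩
  by_cases h : ∃ (β γ : Ω) (u : D), γ ≠ 0 ∧ u ∉ K ∧
      P.To ((RatFunc.X + algebraMap Ω (RatFunc Ω) β) / algebraMap Ω (RatFunc Ω) γ) u
  · obtain ⟨β, γ, u, γ0, uK, h⟩ := h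
    have γ1 : algebraMap Ω (RatFunc Ω) γ ≠ 0 := (map_ne_zero _).2 γ0
    refine ⟨u, fin one_ne_zero (hF u) (fun k _ _ => one_zpow k) fun α => ?_⟩
    rcases le_or_gt (P.V.valuation (algebraMap Ω (RatFunc Ω) ((α - β) / γ))) 1 with a | a
    · obtain ⟨b, hb⟩ := tv _ a
      refine ⟨0, γ, u + b, γ0, fun e => uK ((hK u).2 ⟨-((α - β) / γ), ?_⟩),
        add_mem (Subfield.subset_closure (Or.inr rfl)) (hF u _ _ hb), ?_⟩
      · rw [map_neg, eq_neg_of_add_eq_zero_left e]; exact hb.neg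
      · have := h.add hb
        rw [map_div₀, map_sub, ← add_div, add_assoc, add_sub_cancel] at this
        rwa [zpow_zero, mul_one]
    · have a0 : α - β ≠ 0 := fun e => by simp [e] at a
      refine ⟨0, α - β, 1, a0, one_ne_zero, one_mem _, ?_⟩
      have := near (((P.V.valuation_le_one_iff _).2 h.1).trans_lt a)
      rw [map_div₀, ← add_div, div_div_div_cancel_right₀ γ1, map_sub, add_assoc,
        add_sub_cancel] at this
      rwa [zpow_zero, mul_one, map_sub]
  refine ⟨0, ?_⟩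
  by_cases h' : ∀ β : Ω, ∃ γ : Ω, P.V.valuation (RatFunc.X + algebraMap Ω (RatFunc Ω) β) =
      P.V.valuation (algebraMap Ω (RatFunc Ω) γ)
  · refine fin one_ne_zero (hF 0) (fun k _ _ => one_zpow k) fun α => ?_
    obtain ⟨γ, e⟩ := h' α
    have γ1 : P.V.valuation (algebraMap Ω (RatFunc Ω) γ) ≠ 0 := e ▸ (map_ne_zero _).2 (x_ne α)
    have γ0 : γ ≠ 0 := fun a => γ1 (by rw [a, map_zero, map_zero])
    have e1 : P.V.valuation ((RatFunc.X + algebraMap Ω (RatFunc Ω) α) /
        algebraMap Ω (RatFunc Ω) γ) = 1 := by rw [map_div₀, e, div_self γ1]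
    obtain ⟨b, hb⟩ := tv _ e1.le
    refine ⟨0, γ, b, γ0, hb.val_eq_one_iff.1 e1,
      Subfield.subset_closure (Or.inl (by_contra fun a => h ⟨α, γ, b, γ0, a, hb⟩)), ?_⟩
    rwa [zpow_zero, mul_one]
  · push Not at h'
    obtain ⟨β, h'⟩ := h'
    refine fin (x_ne β) (hF 0) (fun k c e => ?_) fun α => ?_
    · have key : ∀ (n : ℕ) (c : Ω), P.V.valuation (RatFunc.X + algebraMap Ω (RatFunc Ω) β) ^ n =
          P.V.valuation (algebraMap Ω (RatFunc Ω) c) → n = 0 := fun n c e => by_contra fun n0 => by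
        obtain ⟨γ, rfl⟩ := IsAlgClosed.exists_pow_nat_eq c (Nat.pos_of_ne_zero n0)
        rw [map_pow, map_pow] at e
        exact h' γ ((pow_left_inj₀ zero_le zero_le n0).1 e)
      rw [map_zpow₀] at e
      obtain ⟨n, rfl | rfl⟩ := k.eq_nat_or_neg
      · rw [key n c (by rwa [zpow_natCast] at e)]; simp
      · rw [key n c⁻¹ (by rw [map_inv₀, map_inv₀, ← e, zpow_neg, zpow_natCast, inv_inv])]; simp
    · rcases (h' (α - β)).lt_or_gt with a | a
      · have a0 : α - β ≠ 0 := fun e => by simp [e] at a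
        refine ⟨0, α - β, 1, a0, one_ne_zero, one_mem _, ?_⟩
        have := near a
        rw [map_sub, add_assoc, add_sub_cancel] at this
        rwa [zpow_zero, mul_one, map_sub]
      · refine ⟨-1, 1, 1, one_ne_zero, one_ne_zero, one_mem _, ?_⟩
        have := near a
        rw [map_sub, add_left_comm, sub_add_cancel] at this
        rwa [map_one, div_one, zpow_neg_one, ← div_eq_mul_inv]

end Pool.Agent.Lib.UR.M
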