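import Pool.Agent.Lib.UR.MBlue

/-! Degree of the normal bundle. -/

open Module

noncomputable section

namespace Pool.Agent.Lib.UR.M

open Pool.Agent.Lib.MP_7fcda1_ag

namespace HT0

variable {E Λ ι : Type} [Field E] [Fintype Λ] [Fintype ι] {ρ m : ℕ}

theorem ranks (J : ι → Λ → E) (Θ : Fin m → ι → E) (S : Fin ρ → ι) (hΘ : LinearIndependent E Θ)
    (hc : Fintype.card ι = ρ + m) (h0 : ∀ l a, ∑ j, J j l * Θ a j = 0)
    (hS : LinearIndependent E fun r => J (S r)) :
    Submodule.span E (Set.range fun r => J (S r)) =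
        LinearMap.range (Fintype.linearCombination E J) ∧
      Submodule.span E (Set.range Θ) = LinearMap.ker (Fintype.linearCombination E J) := by
  have h1 : Submodule.span E (Set.range fun r => J (S r)) ≤
      LinearMap.range (Fintype.linearCombination E J) := by
    rw [Fintype.range_linearCombination]
    exact Submodule.span_mono (by rintro _ ⟨r, rfl⟩; exact ⟨S r, rfl⟩)
  have h2 : Submodule.span E (Set.range Θ) ≤ LinearMap.ker (Fintype.linearCombination E J) := by
    rw [Submodule.span_le]
    rintro _ ⟨a, rfl⟩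
    change Fintype.linearCombination E J (Θ a) = 0
    funext l
    rw [Fintype.linearCombination_apply, Finset.sum_apply, Pi.zero_apply, ← h0 l a]
    exact Finset.sum_congr rfl fun j _ => by rw [Pi.smul_apply, smul_eq_mul, mul_comm]
  have h3 := LinearMap.finrank_range_add_finrank_ker (Fintype.linearCombination E J)
  rw [Module.finrank_fintype_fun_eq_card, hc] at h3
  have h4 := Submodule.finrank_mono h1
  have h5 := Submodule.finrank_mono h2
  have h6 := finrank_span_eq_card hS
  have h7 := finrank_span_eq_card hΘ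
  rw [Fintype.card_fin] at h6 h7
  exact ⟨Submodule.eq_of_le_of_finrank_le h1 (by omega),
    Submodule.eq_of_le_of_finrank_le h2 (by omega)⟩

omit [Fintype Λ] in
theorem cramer (w : Fin ρ → Λ → E) (c : Fin ρ → E) (u : E) (r : Fin ρ) (I : Fin ρ → Λ) :
    pl (Function.update w r (u • ∑ s, c s • w s)) I = u * c r * pl w I := by
  have h1 := Matrix.det_updateRow_sum (Matrix.of fun i j => w i (I j)) r fun s => u * c s
  rw [smul_eq_mul] at h1
  rw [pl, pl, ← h1]
  congr 1
  ext i j
  by_cases h : i = r
  · subst h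
    simp [Finset.sum_apply, Finset.mul_sum, mul_assoc]
  · simp [Matrix.updateRow_ne h, Function.update_of_ne h]

omit [Fintype Λ] in
theorem coef {V : ValuationSubring E} (hV : Disc V) (w : Fin ρ → Λ → E) (c : Fin ρ → E)
    (I : Fin ρ → Λ) (d n : ℤ) (hw : ∀ r l, Ge V (-d) (w r l)) (h0 : pl w I ≠ 0)
    (h1 : ord V (pl w I) ≤ -(ρ * d)) (hn : VGe V n (∑ s, c s • w s)) (r : Fin ρ) :
    Ge V (n + d) (c r) := by
  obtain ⟨u, hu, hu'⟩ := hV.exists_ord (-d - n)
  have h2 : VGe V (ρ * -d) (pl (Function.update w r (u • ∑ s, c s • w s))) := by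
    refine lin_vge_pl fun s => ?_
    by_cases h : s = r
    · subst h
      rw [Function.update_self]
      exact (VGe.smul ge_ord hn).mono (by omega)
    · rw [Function.update_of_ne h]
      exact hw s
  have h3 := h2 I
  rw [cramer, mul_comm _ (pl w I), ge_mul_iff h0, ge_mul_iff hu] at h3
  refine h3.mono ?_
  rw [mul_neg]
  omega

end HT0

theorem st_ht0 : St_HT0 := by
  classical
  intro k E Λ ι _ _ _ _ _ _ ρ m J Θ D S₀ hΘ hc h0 hJ hloc hS₀
  have hΘ' := pl_ne_zero_iff.1 hΘ
  have hS' := pl_ne_zero_iff.1 hS₀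
  obtain ⟨hr, hk⟩ := HT0.ranks J Θ S₀ hΘ' hc h0 hS'
  have key := sdeg_map_le (κ := k) (Fintype.linearCombination E J) LinearMap.id ⊥
    (Submodule.span E (Set.range Θ)) (fun a => by rw [hk]; rfl) (-D) fun v n a ha => by
      obtain ⟨S, I, hI, hI'⟩ := hloc v
      have h1 := (HT0.ranks J Θ S hΘ' hc h0
        (pl_ne_zero_iff.1 (Function.ne_iff.2 ⟨I, hI⟩))).1
      obtain ⟨c, hc'⟩ := (Submodule.mem_span_range_iff_exists_fun E).1
        (h1.ge (LinearMap.mem_range_self _ a))
      rw [qge_bot, ← hc'] at ha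
      have h2 := HT0.coef v.disc _ c I (D v) n (fun r l => hJ v _ l) hI hI' ha
      refine ⟨∑ r, c r • Pi.single (S r) (1 : E) - a, ?_, ?_⟩
      · rw [hk, LinearMap.mem_ker, map_sub, ← hc', map_sum, sub_eq_zero]
        refine Finset.sum_congr rfl fun r _ => ?_
        rw [map_smul, Fintype.linearCombination_apply_single, one_smul]
      · rw [LinearMap.id_apply, add_sub_cancel]
        refine VGe.sum fun r _ => (VGe.smul (n := 0) (h2 r) fun j => ?_).mono ?_
        · by_cases h : j = S r
          · subst h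
            rw [Pi.single_eq_same]
            exact Or.inr (by simp)
          · rw [Pi.single_eq_of_ne h]
            exact ge_zero
        · simp
  rw [bot_sup_eq, LinearMap.range_id, sup_top_eq, sdeg_top, sdeg_bot, finrank_bot, ← hr,
    finrank_span_eq_card hS', Fintype.card_fin, sdeg_eq hS', sdeg_eq hΘ', map_neg] at key
  unfold ht
  push_cast at key
  linarith

end Pool.Agent.Lib.UR.M
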