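import Pool.Agent.Lib.UR.MBlue

/-! The canonical degree in terms of the Jacobian minors. -/

open MvPolynomial

noncomputable section

namespace Pool.Agent.Lib.UR.M

open Pool.Agent.Lib.MP_7fcda1_ag

namespace HT1

theorem ht_nonneg {k E ι : Type} [Field k] [Field E] [Algebra k E] [IsFF k E] [Finite ι]
    {w : ι → E} (hw : w ≠ 0) : 0 ≤ ht k w := by
  obtain ⟨i, hi⟩ := Function.ne_iff.1 hw
  have h : vdiv k w ≤ div k (w i) := fun v => by
    rw [vdiv_apply, div_apply]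
    exact (ge_iff hi).1 ((vge_iff hw).2 le_rfl i)
  have h2 := degD_mono h
  rw [degD_div] at h2
  unfold ht
  omega

theorem pl_smul {R ι : Type} [CommRing R] {r : ℕ} (c : R) (w : Fin r → ι → R) (I : Fin r → ι) :
    pl (fun s => c • w s) I = c ^ r * pl w I := by
  have h := Matrix.det_smul (Matrix.of fun i j => w i (I j)) c
  rw [Fintype.card_fin] at h
  exact h

/-- The local statement: the Jacobian matrix of the normalised coordinates is integral and has a
unit minor. -/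
theorem loc (hJ : St_JAC) {L Λ Ω F : Type} [Field L] [Algebra ℂ L] [Fintype Λ] [Field Ω] [Field F]
    [Algebra ℂ Ω] [Algebra Ω F] [Algebra ℂ F] [IsScalarTower ℂ Ω F] [IsFF Ω F] (σ : L →ₐ[ℂ] F)
    {N n ρ e : ℕ} {y : Fin (N + 1) → L} {G : Λ → MvPolynomial (Fin (N + 1)) ℂ}
    (hs : GD.SmoothModel y) (ht : Algebra.trdeg ℂ L = n) (hN : ρ + n = N) (hG : Eqs y e G)
    (v : Place Ω F) (i : Fin (N + 1)) (hi : ∀ j, σ (y j / y i) ∈ v.O) :
    ∃ (S : Fin ρ → Fin (N + 1)) (I : Fin ρ → Λ),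
      v.O.valuation (atup G S (algebraMap ℂ F) (fun j => σ (y j / y i)) I) = 1 := by
  obtain ⟨P, hPV, hP⟩ := exists_plc_residue v.O (RingHom.id _)
  let φ : ℂ →+* IsLocalRing.ResidueField v.O :=
    (IsLocalRing.residue v.O).comp ((algebraMap Ω v.O).comp (algebraMap ℂ Ω))
  let _ : Algebra ℂ (IsLocalRing.ResidueField v.O) := φ.toAlgebra
  have h1 : ∀ c, P.To (algebraMap ℂ F c) (φ c) := fun c => by
    rw [IsScalarTower.algebraMap_apply ℂ Ω F]
    exact hP (algebraMap Ω v.O (algebraMap ℂ Ω c))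
  have h2 : ∀ g : MvPolynomial (Fin (N + 1)) ℂ,
      P.To (eval₂ (algebraMap ℂ F) (fun j => σ (y j / y i)) g)
        (eval₂ φ (fun j => IsLocalRing.residue v.O ⟨_, hi j⟩) g) :=
    to_eval₂ h1 fun j => hP ⟨_, hi j⟩
  obtain ⟨S, hS⟩ := hJ L Λ N n ρ e y G hs ht hN hG i (IsLocalRing.ResidueField v.O)
    (fun j => IsLocalRing.residue v.O ⟨_, hi j⟩) fun g hg => by
      have h3 := h2 g
      rw [← aeval_def, ← comp_aeval_apply, hg, map_zero] at h3
      exact h3.unique Plc.to_zero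
  obtain ⟨I, hI⟩ := Function.ne_iff.1 hS
  refine ⟨S, I, ?_⟩
  have h4 := (h2 (amin G S I)).val_eq_one_iff.2 hI
  rw [hPV] at h4
  exact h4

end HT1

open HT1 in
theorem st_ht1 (hJ : St_JAC) (hT : St_TAN) (h0 : St_HT0) : St_HT1 := by
  intro L Λ Ω F _ _ _ _ _ _ _ _ _ _ σ N n ρ e y G S x d hy hs htr hN hG hd hS hlt
  obtain ⟨hg, -, htan⟩ := hT L N n y x d hy (hs 0).2.1 hd
  have hY : (fun j => σ (y j)) ≠ 0 := Function.ne_iff.2 ⟨0, by simp [hy]⟩
  have hσ : ∀ {T : Type} {w : T → L}, w ≠ 0 → (fun t => σ (w t)) ≠ 0 := fun hw => by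
    obtain ⟨t, ht⟩ := Function.ne_iff.1 hw
    exact Function.ne_iff.2 ⟨t, (map_ne_zero σ).2 ht⟩
  have hpl : pl (fun a j => σ ((Fin.cons y fun a j => d a (y j) :
      Fin (n + 1) → Fin (N + 1) → L) a j)) = fun S => σ (gaussT d y S) :=
    pl_map (σ : L →+* F) _
  have hev : ∀ g : MvPolynomial (Fin (N + 1)) ℂ,
      eval₂ (algebraMap ℂ F) (fun j => σ (y j)) g = σ (aeval y g) := fun g => by
    rw [← aeval_def, ← comp_aeval_apply]
  have hD : ∀ v : Place Ω F, (((e - 1 : ℕ) : ℤ) • -vdiv Ω fun j => σ (y j)) v =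
      -(((e - 1 : ℕ) : ℤ) * vord v.O fun j => σ (y j)) := fun v => by
    rw [Finsupp.smul_apply, Finsupp.neg_apply, vdiv_apply, smul_eq_mul, mul_neg]
  have hloc : ∀ v : Place Ω F, ∃ i, σ (y i) ≠ 0 ∧ ord v.O (σ (y i)) = vord v.O (fun j => σ (y j)) ∧
      (∀ j, σ (y j / y i) ∈ v.O) ∧ ∀ j l,
        eval₂ (algebraMap ℂ F) (fun j => σ (y j)) (pderiv j (G l)) = σ (y i) ^ (e - 1) *
          eval₂ (algebraMap ℂ F) (fun j => σ (y j / y i)) (pderiv j (G l)) := fun v => by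
    obtain ⟨i, hi, hv⟩ := exists_vord (V := v.O) hY
    refine ⟨i, hi, hv, fun j => ?_, fun j l => ?_⟩
    · have h1 := ((vge_iff (V := v.O) hY).2 le_rfl j).mul (ge_ord (V := v.O) (a := (σ (y i))⁻¹))
      rw [ord_inv, hv, add_neg_cancel] at h1
      rw [mem_iff_ge (.inl v.disc), map_div₀, div_eq_mul_inv]
      exact h1
    · rw [← aeval_def, ← aeval_def, ← plc1_aeval_smul (hG.hom l).pderiv]
      refine congrArg (fun z => aeval z _) (funext fun s => ?_)
      rw [Pi.smul_apply, smul_eq_mul, map_div₀, mul_div_cancel₀ _ hi]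
  have hat : atup G S (algebraMap ℂ F) (fun j => σ (y j)) =
      fun I => σ (atup G S (algebraMap ℂ L) y I) := funext fun I => hev _
  have key := h0 Ω F Λ (Fin (N + 1)) ρ (n + 1)
    (fun j l => eval₂ (algebraMap ℂ F) (fun j => σ (y j)) (pderiv j (G l)))
    (fun a j => σ ((Fin.cons y fun a j => d a (y j) : Fin (n + 1) → Fin (N + 1) → L) a j))
    (((e - 1 : ℕ) : ℤ) • -vdiv Ω fun j => σ (y j)) S (by rw [hpl]; exact hσ hg)
    (by rw [Fintype.card_fin]; omega)
    (fun l a => by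
      simp only [hev, ← map_mul, ← map_sum]
      rw [htan e (G l) (hG.hom l) (hG.zero l) a, map_zero])
    (fun v j l => by
      obtain ⟨i, hi, hv, hm, hJ⟩ := hloc v
      have h1 := ((ge_ord (V := v.O) (a := σ (y i))).pow (e - 1)).mul
        ((mem_iff_ge (.inl v.disc)).1 (aeval_mem (fun c => by
          rw [IsScalarTower.algebraMap_apply ℂ Ω F]; exact v.const _) hm (pderiv j (G l))))
      rw [hD, neg_neg, hJ, ← hv]
      rwa [add_zero] at h1)
    (fun v => by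
      obtain ⟨i, hi, hv, hm, hJ'⟩ := hloc v
      obtain ⟨S', I, h1⟩ := loc hJ σ hs htr hN hG v i hm
      obtain ⟨h2, h3⟩ := (val_eq_one_iff (.inl v.disc)).1 h1
      have h4 : pl (fun r l => eval₂ (algebraMap ℂ F) (fun j => σ (y j)) (pderiv (S' r) (G l))) I =
          (σ (y i) ^ (e - 1)) ^ ρ * atup G S' (algebraMap ℂ F) (fun j => σ (y j / y i)) I := by
        rw [atup_eq, ← pl_smul]
        exact congrArg (fun w => pl w I) (funext fun r => funext fun l => hJ' _ _)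
      have h5 : (σ (y i) ^ (e - 1)) ^ ρ ≠ 0 := pow_ne_zero _ (pow_ne_zero _ hi)
      refine ⟨S', I, ?_, ?_⟩
      · rw [h4]
        exact mul_ne_zero h5 h2
      · rw [h4, ord_mul h5 h2, h3, ord_pow, ord_pow, hv, hD, add_zero, mul_neg, neg_neg])
    (by
      have h1 := hσ hS
      rw [← hat, atup_eq] at h1
      exact h1)
  have h1 := ht_nonneg (k := Ω) (hσ hg)
  have h2 : 0 < ht Ω fun j => σ (y j) := by
    by_contra h
    have h3 : ((n : ℤ) + 1) * ht Ω (fun j => σ (y j)) ≤ 0 :=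
      mul_nonpos_of_nonneg_of_nonpos (by positivity) (not_lt.1 h)
    omega
  refine ⟨h2, ?_⟩
  rw [hpl, map_smul, map_neg, smul_eq_mul, Nat.cast_sub hG.pos] at key
  have hN' : (N : ℤ) = ρ + n := by omega
  rw [atup_eq, hN']
  change (ρ : ℤ) * (((e : ℤ) - (1 : ℕ)) * ht Ω fun j => σ (y j)) - _ ≤
    ht Ω (pl (cols G S (algebraMap ℂ F) fun j => σ (y j))) at key
  push_cast at key ⊢
  linarith

end Pool.Agent.Lib.UR.M
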