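import Pool.Agent.Lib.UR.MBlue

/-! Row HTS: elementary facts on heights. -/

open Module
open scoped IntermediateField

namespace Pool.Agent.Lib.UR.M

open Pool.Agent.Lib.MP_7fcda1_ag

namespace HTS

theorem vord_le {E ι : Type} [Field E] [Finite ι] (V : ValuationSubring E) {w : ι → E} {i : ι}
    (h : w i ≠ 0) : vord V w ≤ ord V (w i) :=
  (ge_iff h).1 ((vge_iff fun h0 => h (congrFun h0 i)).2 le_rfl i)

variable {k E : Type} [Field k] [Field E] [Algebra k E] [IsFF k E]

theorem vdiv_pair {τ : E} (h : τ ≠ 0) : vdiv k ![1, τ] = -poles k τ := by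
  ext v
  have h0 := vord_le v.O (w := ![1, τ]) (i := 0) one_ne_zero
  have h1 := vord_le v.O (w := ![1, τ]) (i := 1) h
  obtain ⟨i, -, hi⟩ := exists_vord (V := v.O) (w := ![1, τ])
    fun h0 => one_ne_zero (congrFun h0 0)
  rw [vdiv_apply, Finsupp.neg_apply, poles_apply]
  simp only [Matrix.cons_val_zero, Matrix.cons_val_one, ord_one] at h0 h1
  fin_cases i
  · simp only [Fin.zero_eta, Matrix.cons_val_zero, ord_one] at hi
    omega
  · simp only [Fin.mk_one, Matrix.cons_val_one, Matrix.cons_val_zero] at hi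
    omega

end HTS

theorem st_hts : St_HTS := by
  intro k E _ _ _ _
  refine ⟨fun τ hτ => ?_, fun N Y hY => ⟨fun h => ?_, ?_⟩⟩
  · have := IsFF.finite hτ
    refine ⟨?_, Module.finrank_pos⟩
    rw [ht, HTS.vdiv_pair (by rintro rfl; exact hτ isAlgebraic_zero), map_neg, neg_neg,
      degD_poles hτ]
  · by_contra hn
    have h0 : vdiv k Y = 0 := by
      ext v
      obtain ⟨i, -, hi⟩ := exists_vord (V := v.O) (w := Y)
        fun h0 => one_ne_zero (hY.symm.trans (congrFun h0 0))
      rw [vdiv_apply, ← hi]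
      exact v.ord_algebraic (not_not.1 fun h1 => hn ⟨i, h1⟩)
    rw [ht, h0, map_zero, neg_zero] at h
    exact lt_irrefl _ h
  · rintro ⟨j, hj⟩
    obtain ⟨v, hv⟩ := exists_pole hj
    have hj0 : Y j ≠ 0 := fun h => hj (by rw [h]; exact isAlgebraic_zero)
    have h1 : vdiv k Y ≤ Finsupp.single v (-1) := fun v' => by
      rw [vdiv_apply]
      by_cases e : v = v'
      · rw [← e, Finsupp.single_eq_same]
        have := HTS.vord_le v.O hj0
        omega
      · rw [Finsupp.single_eq_of_ne (Ne.symm e)]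
        have := HTS.vord_le v'.O (w := Y) (i := 0) (by rw [hY]; exact one_ne_zero)
        rwa [hY, ord_one] at this
    have h2 := degD_mono h1
    have h3 := v.deg_pos
    rw [degD_single] at h2
    rw [ht]
    omega

end Pool.Agent.Lib.UR.M
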