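import Pool.Agent.Lib.UR.MBlue

/-! A pointwise inequality is an integrality statement and survives reduction. -/

open MvPolynomial

noncomputable section

namespace Pool.Agent.Lib.UR.M

open Pool.Agent.Lib.MP_7fcda1_ag

namespace INT

theorem exists_monic {B F : Type} [CommRing B] [Field F] (f : B →+* F) (z : F)
    (h : ∀ V : ValuationSubring F, (∀ c, f c ∈ V) → z ∈ V) :
    ∃ q : Polynomial B, q.Monic ∧ q.eval₂ f z = 0 := by
  have h1 : z ∈ (integralClosure (Subring.closure (f.range : Set F)) F).toSubring := by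
    rw [← iInf_valuationSubring_superset, Subring.mem_iInf]
    exact fun V => h V.1 fun c => V.2 ⟨c, rfl⟩
  obtain ⟨p, hp, hz⟩ : IsIntegral (Subring.closure (f.range : Set F)) z := h1
  have h2 : p.map (algebraMap _ F) ∈ Polynomial.lifts f := by
    refine (Polynomial.lifts_iff_coeff_lifts _).2 fun l => ?_
    rw [Polynomial.coeff_map]
    exact (Subring.closure_eq f.range).le (p.coeff l).2
  obtain ⟨q, hq, -, hm⟩ := Polynomial.lifts_and_natDegree_eq_and_monic h2 (hp.map _)
  refine ⟨q, hm, ?_⟩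
  rw [← Polynomial.eval_map, hq, Polynomial.eval_map, hz]

theorem exists_lift {Ω I : Type} [Field Ω] {q : Polynomial (MvPolynomial I Ω)} (hq : q.Monic)
    (R : Subring Ω) (h : ∀ l ∈ q.support, ((q.coeff l).coeffs : Set Ω) ⊆ R) :
    ∃ Q : Polynomial (MvPolynomial I R), Q.Monic ∧ Q.map (map R.subtype) = q := by
  have h2 : q ∈ Polynomial.lifts (map R.subtype : MvPolynomial I R →+* MvPolynomial I Ω) := by
    refine (Polynomial.lifts_iff_coeff_lifts _).2 fun l => ?_
    by_cases hl : l ∈ q.support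
    · refine mem_range_map_iff_coeffs_subset.2 fun c hc => ⟨⟨c, h l hl hc⟩, rfl⟩
    · exact ⟨0, by rw [map_zero, Polynomial.notMem_support_iff.1 hl]⟩
  obtain ⟨Q, hQ, -, hm⟩ := Polynomial.lifts_and_natDegree_eq_and_monic h2 hq
  exact ⟨Q, hm, hQ⟩

theorem to_poly {B E D : Type} [CommRing B] [Field E] [Field D] {P : Plc E D} {φ : B →+* E}
    {φ' : B →+* D} (h : ∀ b, P.To (φ b) (φ' b)) {z : E} {z' : D} (hz : P.To z z')
    (g : Polynomial B) : P.To (g.eval₂ φ z) (g.eval₂ φ' z') := by
  induction g using Polynomial.induction_on' with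
  | add f g hf hg => simpa only [Polynomial.eval₂_add] using hf.add hg
  | monomial n a => simpa only [Polynomial.eval₂_monomial] using (h a).mul (hz.pow n)

theorem eval₂_mem {B E I : Type} [CommRing B] [Field E] {V : ValuationSubring E} {φ : B →+* E}
    (h : ∀ b, φ b ∈ V) {z : I → E} (hz : ∀ i, z i ∈ V) (g : MvPolynomial I B) :
    eval₂ φ z g ∈ V := by
  induction g using MvPolynomial.induction_on with
  | C b => simpa using h b
  | add f g hf hg => simpa only [eval₂_add] using add_mem hf hg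
  | mul_X f i hf => simpa only [eval₂_mul, eval₂_X] using mul_mem hf (hz i)

/-- at a minimal coordinate the inequality is a membership -/
theorem ge_iff_mem {F I : Type} [Field F] [Finite I] {V : ValuationSubring F} (hV : Disc V)
    {b : I → F} {i : I} (hi : b i ≠ 0) (h : ∀ l, b l / b i ∈ V) (s : ℕ) (u : F) :
    Ge V (s * vord V b) u ↔ u / b i ^ s ∈ V := by
  have hb : b ≠ 0 := fun e => hi (congrFun e i)
  have h1 : vord V b = ord V (b i) := by
    refine le_antisymm ((ge_iff hi).1 ((vge_iff hb).2 le_rfl i)) ((vge_iff hb).1 fun l => ?_)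
    have := ((mem_iff_ge (Or.inl hV)).1 (h l)).mul (ge_ord (V := V) (a := b i))
    rwa [zero_add, div_mul_cancel₀ _ hi] at this
  rw [h1, mem_iff_ge (Or.inl hV), div_eq_inv_mul, ge_mul_iff (inv_ne_zero (pow_ne_zero s hi)),
    ord_inv, ord_pow, zero_sub, neg_neg]

end INT

theorem st_int : St_INT := by
  intro Ω F I _ _ _ _ _ b u s hu
  have key : ∀ i, ∃ q : Polynomial (MvPolynomial I Ω), b i ≠ 0 → q.Monic ∧
      q.eval₂ (eval₂Hom (algebraMap Ω F) fun l => b l / b i) (u / b i ^ s) = 0 := fun i => by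
    by_cases hi : b i = 0
    · exact ⟨0, fun h => (h hi).elim⟩
    obtain ⟨q, hq⟩ := INT.exists_monic (eval₂Hom (algebraMap Ω F) fun l => b l / b i)
      (u / b i ^ s) fun V hV => by
        by_cases ht : V = ⊤
        · rw [ht]
          exact ValuationSubring.mem_top _
        let v : Place Ω F := ⟨V, ht, fun c => by simpa using hV (C c)⟩
        exact (INT.ge_iff_mem v.disc hi (fun l => by simpa using hV (X l)) s u).1 (hu v)
    exact ⟨q, fun _ => hq⟩
  choose q hq using key
  refine ⟨⋃ i, ⋃ l ∈ (q i).support, (((q i).coeff l).coeffs : Set Ω),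
    Set.finite_iUnion fun i => (Finset.finite_toSet _).biUnion fun l _ => Finset.finite_toSet _,
    ?_⟩
  intro R k E D _ _ _ _ _ π j P b' u' hR hπ hb hP hb' w
  obtain ⟨i, hi, hw⟩ := exists_min_coord w.O hb'
  have hj : j (b' i) ≠ 0 := (map_ne_zero j).2 hi
  obtain ⟨hm, hz⟩ := hq i ((hb i).ne_zero hj)
  obtain ⟨Q, hQ, hQq⟩ := INT.exists_lift hm R fun l hl c hc =>
    hR (Set.mem_iUnion.2 ⟨i, Set.mem_iUnion₂.2 ⟨l, hl, hc⟩⟩)
  let ψ : MvPolynomial I R →+* E := eval₂Hom ((algebraMap k E).comp π) fun l => b' l / b' i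
  have h1 : P.To (u / b i ^ s) (j (u' / b' i ^ s)) := by
    rw [map_div₀, map_pow, div_eq_mul_inv, div_eq_mul_inv]
    exact hP.mul (((hb i).pow s).inv (pow_ne_zero s hj))
  have h2 := INT.to_poly (P := P)
    (φ := (eval₂Hom (algebraMap Ω F) fun l => b l / b i).comp (map R.subtype)) (φ' := j.comp ψ)
    (fun g => by
      have := to_eval₂ (P := P) (φ := (algebraMap Ω F).comp R.subtype)
        (φ' := j.comp ((algebraMap k E).comp π)) hπ (z := fun l => b l / b i)
        (z' := fun l => j (b' l / b' i)) (fun l => by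
          rw [map_div₀, div_eq_mul_inv, div_eq_mul_inv]
          exact (hb l).mul ((hb i).inv hj)) g
      rw [← hom_eval₂ j, ← eval₂_map] at this
      exact this) h1 Q
  rw [← Polynomial.eval₂_map, hQq, hz, ← Polynomial.hom_eval₂] at h2
  have h3 := (map_eq_zero j).1 (h2.unique Plc.to_zero)
  refine (INT.ge_iff_mem w.disc hi hw s u').2 (mem_of_monic (Q.map ψ) (hQ.map ψ) (fun l => ?_) ?_)
  · rw [Polynomial.coeff_map]
    exact INT.eval₂_mem (fun r => w.const (π r)) hw _
  · rw [Polynomial.eval_map, h3]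

end Pool.Agent.Lib.UR.M
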