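import Pool.Agent.Lib.UR.MBlue

/-! Bend and break in positive characteristic. -/

open MvPolynomial Module

noncomputable section

namespace Pool.Agent.Lib.UR.M

open Pool.Agent.Lib.MP_7fcda1_ag

namespace MM

variable {k E : Type} [Field k] [Field E] [Algebra k E] [IsFF k E]

theorem const_eq (v : Place k E) {c : k} (h : Ge v.O 1 (algebraMap k E c)) : c = 0 := by
  by_contra hc
  rw [ge_iff ((map_ne_zero _).2 hc), v.ord_const] at h
  exact absurd h (by decide)

theorem infinite [Infinite k] : Infinite (Place k E) := by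
  obtain ⟨τ, hτ, -⟩ := IsFF.ex (κ := k) (L := E)
  have h : ∀ c : k, ∃ v : Place k E, Ge v.O 1 (τ - algebraMap k E c) := fun c => by
    have h1 : Transcendental k (τ - algebraMap k E c)⁻¹ := fun h => hτ (by
      have := (IsAlgebraic.inv_iff.1 h).add (isAlgebraic_algebraMap (R := k) (A := E) c)
      rwa [sub_add_cancel] at this)
    obtain ⟨v, hv⟩ := exists_pole h1
    rw [ord_inv] at hv
    exact ⟨v, Or.inr (by omega)⟩
  choose f hf using h
  refine Infinite.of_injective f fun c c' e => ?_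
  have h2 := (hf c).sub (e ▸ hf c')
  rw [sub_sub_sub_cancel_left, ← map_sub] at h2
  exact (sub_eq_zero.1 (const_eq _ h2)).symm

theorem red {B ι : Type} [CommRing B] (v : Place k E) (φ : B →+* k) {Y : ι → E} {x : ι → k}
    (h : ∀ j, Ge v.O 1 (Y j - algebraMap k E (x j))) (g : MvPolynomial ι B) :
    Ge v.O 1 (eval₂ ((algebraMap k E).comp φ) Y g - algebraMap k E (eval₂ φ x g)) := by
  have c0 : ∀ c : k, Ge v.O 0 (algebraMap k E c) := fun c => Or.inr (v.ord_const c).ge
  induction g using MvPolynomial.induction_on with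
  | C b =>
    rw [eval₂_C, eval₂_C, RingHom.comp_apply, sub_self]
    exact ge_zero
  | add f g hf hg =>
    rw [eval₂_add, eval₂_add, map_add, add_sub_add_comm]
    exact hf.add hg
  | mul_X f j hf =>
    rw [eval₂_mul, eval₂_mul, eval₂_X, eval₂_X, map_mul]
    have h1 := (hf.mul (h j)).mono (show (1 : ℤ) ≤ 1 + 1 by decide)
    have h2 := (hf.mul (c0 (x j))).mono (show (1 : ℤ) ≤ 1 + 0 by decide)
    have h3 := ((c0 (eval₂ φ x f)).mul (h j)).mono (show (1 : ℤ) ≤ 0 + 1 by decide)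
    have h4 := (h1.add h2).add h3
    rwa [show ∀ a b c d : E, (a - b) * (c - d) + (a - b) * d + b * (c - d) = a * c - b * d from
      fun a b c d => by ring] at h4

theorem ht_pow {ι : Type} [Finite ι] (w : ι → E) {q : ℕ} (hq : q ≠ 0) :
    ht k (fun i => w i ^ q) = q * ht k w := by
  have : vdiv k (fun i => w i ^ q) = (q : ℤ) • vdiv k w := by
    ext v
    rw [Finsupp.smul_apply, vdiv_apply, vdiv_apply, vord_pow w hq, smul_eq_mul]
  rw [ht, ht, this, map_smul, smul_eq_mul, mul_neg]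

end MM

open MM in
theorem st_mm (h : St_MM0) : St_MM := by
  intro B Λ k E _ _ _ _ _ _ _ p _ _ N ρ e Q φ Y g₀ D hQ h0 hD hlt hg
  classical
  have hp : p.Prime := Fact.out
  haveI : CharP E p := charP_of_injective_algebraMap (algebraMap k E).injective p
  haveI := MM.infinite (k := k) (E := E)
  obtain ⟨c, hc⟩ := exists_RR k E
  obtain ⟨f, hf⟩ := pow_unbounded_of_one_lt ((N + 2) * ((N + 1 + ρ) * c + 1)) hp.one_lt
  obtain ⟨q, hq⟩ : ∃ q, q = p ^ f := ⟨_, rfl⟩
  rw [← hq] at hf
  obtain ⟨b, hb⟩ : ∃ b, b = q / (N + 2) := ⟨_, rfl⟩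
  have b1 : (N + 2) * b ≤ q := hb ▸ Nat.mul_div_le q (N + 2)
  have b2 : q < (N + 2) * (b + 1) := hb ▸ Nat.lt_mul_div_succ q (by omega)
  have b3 : (N + 1 + ρ) * c < b := by
    have := Nat.lt_of_mul_lt_mul_left (hf.trans b2)
    omega
  have q0 : q ≠ 0 := by omega
  have fin : ((⋃ j, {v : Place k E | ord v.O (Y j) ≠ 0}) ∪
      {v : Place k E | ord v.O (eval₂ ((algebraMap k E).comp φ) Y g₀) ≠ 0}).Finite :=
    (Set.finite_iUnion fun j => finite_ord _).union (finite_ord _)
  obtain ⟨T, T1, T2⟩ := fin.infinite_compl.exists_subset_card_eq b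
  have T3 : ∀ v ∈ T, (∀ j, ord v.O (Y j) = 0) ∧
      ord v.O (eval₂ ((algebraMap k E).comp φ) Y g₀) = 0 := fun v hv => by
    have := T1 hv
    simp only [Set.mem_compl_iff, Set.mem_union, Set.mem_iUnion, not_or, not_exists] at this
    exact ⟨fun j => not_not.1 (this.1 j), not_not.1 this.2⟩
  let φ' : B →+* k := (iterateFrobenius k p f).comp φ
  have fr : ∀ g, eval₂ ((algebraMap k E).comp φ') (fun j => Y j ^ q) g =
      eval₂ ((algebraMap k E).comp φ) Y g ^ q := fun g => by
    have e1 := hom_eval₂ (iterateFrobenius E p f) ((algebraMap k E).comp φ) Y g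
    have e2 : (iterateFrobenius E p f).comp ((algebraMap k E).comp φ) =
        (algebraMap k E).comp φ' := by
      ext b
      simp only [φ', RingHom.comp_apply, iterateFrobenius_def, map_pow]
    rw [e2] at e1
    simp only [iterateFrobenius_def, ← hq] at e1
    exact e1.symm
  have fa : atup Q.G Q.S ((algebraMap k E).comp φ') (fun j => Y j ^ q) =
      fun I => atup Q.G Q.S ((algebraMap k E).comp φ) Y I ^ q := funext fun I => fr _
  have hQ' : Q.At ((algebraMap k E).comp φ') fun j => Y j ^ q :=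
    ⟨by rw [hQ.one, one_pow], fun l => by rw [fr, hQ.zero, zero_pow q0],
      by rw [fr]; exact pow_ne_zero _ hQ.del, by rw [fa]; exact pow_ne_zero _ hQ.min⟩
  have z1 : ((N : ℤ) + 2) * b ≤ q := by exact_mod_cast b1
  have z2 : (q : ℤ) < (N + 2) * (b + 1) := by exact_mod_cast b2
  have z3 : ((N : ℤ) + 1 + ρ) * c < b := by exact_mod_cast b3
  have p1 : (0 : ℤ) ≤ N := by positivity
  have p2 : (0 : ℤ) ≤ ρ := by positivity
  have p3 : (0 : ℤ) ≤ c := by positivity
  have p4 : (0 : ℤ) ≤ b := by positivity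
  have p5 : (0 : ℤ) ≤ q := by positivity
  obtain ⟨v, hv, x, κ, _, ψ, d, a1, a2, a3⟩ := h B Λ k E N ρ e c Q φ' (fun j => Y j ^ q) T hc hQ'
    (fun v hv j => pow_mem ((mem_iff_ge (Or.inl v.disc)).2 (Or.inr ((T3 v hv).1 j).ge)) q)
    (Finset.card_pos.1 (by omega)) (by
      rw [ht_pow Y q0, T2]
      have : (q : ℤ) * 1 ≤ q * ht k Y := mul_le_mul_of_nonneg_left h0 p5
      nlinarith [mul_nonneg p1 p4, mul_nonneg p1 p3, mul_nonneg p2 p3]) (by
      rw [fa, ht_pow Y q0, ht_pow _ q0, T2]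
      have : (q : ℤ) * ((ρ * e - (N + 1)) * ht k Y + 1) ≤
          q * ht k (atup Q.G Q.S ((algebraMap k E).comp φ) Y) := mul_le_mul_of_nonneg_left hlt p5
      nlinarith [mul_nonneg p2 p4])
  have r := red v φ' a1
  have ev : ∀ g, eval₂ (ψ.comp φ') (fun j => ψ (x j)) g = ψ (eval₂ φ' x g) := fun g =>
    (hom_eval₂ ψ φ' x g).symm
  refine ⟨κ, inferInstance, ψ.comp φ', fun j => ψ (x j), ?_, fun g h1 => ?_, a3.mono ?_⟩
  · rw [ev, map_ne_zero]
    intro h1
    have h2 := r g₀
    rw [h1, map_zero, sub_zero, fr, ge_iff (pow_ne_zero _ hg), ord_pow, (T3 v hv).2,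
      mul_zero] at h2
    exact absurd h2 (by decide)
  · have h2 := (r g).neg
    rw [fr, h1, zero_pow q0, zero_sub, neg_neg] at h2
    rw [ev, const_eq v h2, map_zero]
  · rw [ht_pow Y q0, T2] at a2
    have b4 : (0 : ℤ) < b := (mul_nonneg (by positivity) p3).trans_lt z3
    have b5 : (q : ℤ) ≤ 2 * (N + 2) * b := by nlinarith
    have b6 : (q : ℤ) * ht k Y ≤ 2 * (N + 2) * b * D :=
      mul_le_mul b5 hD h0.le (by positivity)
    have b7 : (b : ℤ) * d ≤ b * (2 * (N + 2) * D) := by linarith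
    exact_mod_cast le_of_mul_le_mul_left b7 b4

end Pool.Agent.Lib.UR.M
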