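import Pool.Agent.Lib.UR.MBlue

/-! Bend and break for a curve with enough deformations. -/

open MvPolynomial Module

noncomputable section

namespace Pool.Agent.Lib.UR.M

open Pool.Agent.Lib.MP_7fcda1_ag

namespace MM0

variable {k E : Type} [Field k] [Field E] [Algebra k E] [IsFF k E]

theorem degD_sum [IsAlgClosed k] (T : Finset (Place k E)) (n : Place k E → ℤ) :
    degD (∑ v ∈ T, Finsupp.single v (n v)) = ∑ v ∈ T, n v := by
  rw [map_sum]
  refine Finset.sum_congr rfl fun v _ => ?_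
  have : v.deg = 1 := Algebra.finrank_eq_one_iff_bijective_algebraMap.2
    IsAlgClosed.algebraMap_bijective_of_isIntegral
  rw [degD_single, this, Nat.cast_one, mul_one]

omit [IsFF k E] in
theorem sum_apply (T : Finset (Place k E)) (n : Place k E → ℤ) (w : Place k E) [Decidable (w ∈ T)] :
    (∑ v ∈ T, Finsupp.single v (n v)) w = if w ∈ T then n w else 0 := by
  classical
  rw [Finset.sum_apply']
  simp only [Finsupp.single_apply]
  exact (Finset.sum_ite_eq' T w n).trans (by split_ifs <;> rfl)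

theorem exists_trans [IsAlgClosed k] {σ : Type} {𝔭 : Ideal (MvPolynomial σ k)} [𝔭.IsPrime]
    (h : 𝔭 < RingHom.ker constantCoeff) : ∃ ε : (MvPolynomial σ k ⧸ 𝔭) →ₐ[k] k,
      (∀ a, ε (Ideal.Quotient.mk 𝔭 (X a)) = 0) ∧
        ∃ a, Transcendental k (Ideal.Quotient.mk 𝔭 (X a)) := by
  let ε := Ideal.Quotient.liftₐ 𝔭 (aeval fun _ => (0 : k)) fun g hg => by
    simpa using h.le hg
  have hε : ∀ a, ε (Ideal.Quotient.mk 𝔭 (X a)) = 0 := fun a => by simp [ε]
  refine ⟨ε, hε, ?_⟩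
  by_contra! h1
  refine h.not_ge fun g hg => ?_
  have h2 : Ideal.Quotient.mkₐ k 𝔭 = aeval fun _ => 0 := algHom_ext fun a => by
    have hi := (not_not.1 (h1 a)).isIntegral
    obtain ⟨c, hc⟩ := minpoly.mem_range_of_degree_eq_one k _
      (IsAlgClosed.degree_eq_one_of_irreducible k (minpoly.irreducible hi))
    have h3 := hε a
    rw [← hc, AlgHom.commutes] at h3
    rw [aeval_X, Ideal.Quotient.mkₐ_eq_mk, ← hc, show c = 0 from h3, map_zero]
  rw [← Ideal.Quotient.eq_zero_iff_mem, ← Ideal.Quotient.mkₐ_eq_mk k, h2, aeval_zero',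
    show constantCoeff g = 0 from hg, map_zero]

variable {Ω : Type} [Field Ω] [Algebra k Ω]

/-- Series with bounded coefficients. -/
def bdd (k : Type) [Field k] [Algebra k Ω] (V : ValuationSubring Ω) :
    Subalgebra k (PowerSeries Ω) where
  carrier := {f | ∃ β, ∀ l, V.valuation (PowerSeries.coeff l f) ≤ V.valuation β}
  mul_mem' := by
    rintro f g ⟨a, ha⟩ ⟨b, hb⟩
    refine ⟨a * b, fun l => ?_⟩
    rw [PowerSeries.coeff_mul]
    refine Valuation.map_sum_le _ fun p _ => ?_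
    rw [map_mul, map_mul]
    exact mul_le_mul' (ha _) (hb _)
  add_mem' := by
    rintro f g ⟨a, ha⟩ ⟨b, hb⟩
    rcases le_total (V.valuation a) (V.valuation b) with h | h
    · exact ⟨b, fun l => map_add (PowerSeries.coeff l) f g ▸
        Valuation.map_add_le _ ((ha l).trans h) (hb l)⟩
    · exact ⟨a, fun l => map_add (PowerSeries.coeff l) f g ▸
        Valuation.map_add_le _ (ha l) ((hb l).trans h)⟩
  algebraMap_mem' c := ⟨algebraMap k Ω c, fun l => by
    rw [PowerSeries.algebraMap_apply, PowerSeries.coeff_C]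
    split_ifs <;> simp⟩

theorem C_mem (V : ValuationSubring Ω) (c : Ω) : PowerSeries.C c ∈ bdd k V :=
  ⟨c, fun l => by
    rw [PowerSeries.coeff_C]
    split_ifs <;> simp⟩

theorem cert (hBPF : St_BPF) {R ι : Type} [CommRing R] [Algebra k R] [Fintype ι] {m : ℕ}
    {v : Place k E} {y : ι → v.O} {t : Fin m → v.O} {ε : R →ₐ[k] k} {z : ι × Fin m → R}
    (i : R →ₐ[k] Ω) (α : v.O →ₐ[k] PowerSeries Ω) {j₀ : ι} (V : ValuationSubring Ω)
    (hy : y j₀ = 1) (ht : ∀ μ, Ge v.O 1 (t μ : E))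
    (ht' : ∀ μ, (t μ : E) ∈ Ls (-vdiv k fun j => (y j : E))) (hz : ∀ a, ε (z a) = 0)
    (hi : Function.Injective i) (hα : ∀ a, α a ∈ bdd k V) :
    ∃ (a : ι → PowerSeries Ω) (β : Ω),
      (∀ j l, V.valuation (PowerSeries.coeff l (a j)) ≤ V.valuation β) ∧
      ∑ j, a j * (α (y j) + ∑ μ, α (t μ) * PowerSeries.C (i (z (j, μ)))) = 1 := by
  let α' := α.codRestrict _ hα
  let γ := (IsScalarTower.toAlgHom k Ω (PowerSeries Ω)).codRestrict _ (C_mem V)
  let Z : ι → bdd k V := fun j => α' (y j) + ∑ μ, α' (t μ) * γ (i (z (j, μ)))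
  have h1 : Ideal.span (Set.range Z) = ⊤ := by
    by_contra h
    obtain ⟨𝔪, h𝔪, h2⟩ := Ideal.exists_le_maximal _ h
    let := Ideal.Quotient.field 𝔪
    obtain ⟨j, hj⟩ := hBPF k E R (bdd k V ⧸ 𝔪) ι m v y t ε z
      (((Ideal.Quotient.mkₐ k 𝔪).comp γ).comp i) ((Ideal.Quotient.mkₐ k 𝔪).comp α') j₀ hy ht ht' hz
      (((Ideal.Quotient.mkₐ k 𝔪).comp γ).toRingHom.injective.comp hi)
    apply hj
    have := Ideal.Quotient.eq_zero_iff_mem.2 (h2 (Ideal.subset_span ⟨j, rfl⟩))
    simp only [Z, map_add, map_sum, map_mul] at this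
    exact this
  obtain ⟨a, ha⟩ := Ideal.mem_span_range_iff_exists_fun.1 ((Ideal.eq_top_iff_one _).1 h1)
  choose b hb using fun j => (a j).2
  have : Nonempty ι := ⟨j₀⟩
  obtain ⟨j, hj⟩ := Finite.exists_max fun j => V.valuation (b j)
  refine ⟨fun j => a j, b j, fun j' l => (hb j' l).trans (hj j'), ?_⟩
  have := congrArg (bdd k V).val ha
  simp only [Z, map_add, map_sum, map_mul] at this
  exact this

theorem eval_univ {O S ι : Type} [CommRing O] [CommRing S] {m : ℕ} (α : O →+* S)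
    (w : ι × Fin m → S) (y : ι → O) (t : Fin m → O) (j : ι) :
    eval₂Hom α w (univ y t j) = α (y j) + ∑ μ, α (t μ) * w (j, μ) := by
  simp only [univ, map_add, map_sum, map_mul, eval₂Hom_C, eval₂Hom_X']

omit [IsFF k E] in
/-- The family of germs satisfies the equations. -/
theorem germ_zero (hSEM : St_SEM) {B ι S : Type} [CommRing B] [CommRing S] [Algebra k S] {m : ℕ}
    (φ : B →+* k) {v : Place k E} (y : ι → v.O) (t : Fin m → v.O) (G : MvPolynomial ι B)
    {𝔭 : Ideal (MvPolynomial (ι × Fin m) k)} (α : v.O →ₐ[k] S)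
    (β : (MvPolynomial (ι × Fin m) k ⧸ 𝔭) →ₐ[k] S)
    (h : ∀ (θ : E →ₗ[k] k) (g : MvPolynomial (ι × Fin m) k), (∀ a, coeff a g =
      θ (coeff a (eval₂ (C.comp ((algebraMap k E).comp φ))
        (univ (fun j => (y j : E)) fun μ => t μ) G))) → g ∈ 𝔭) :
    eval₂ ((algebraMap k S).comp φ)
      (fun j => α (y j) + ∑ μ, α (t μ) * β (Ideal.Quotient.mk 𝔭 (X (j, μ)))) G = 0 := by
  let i : v.O →ₐ[k] E := { v.O.subtype with commutes' := fun _ => rfl }
  have h1 := hSEM k v.O E _ S i (eval₂ (C.comp ((algebraMap k v.O).comp φ)) (univ y t) G) 𝔭 α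
    (β.comp (Ideal.Quotient.mkₐ k 𝔭)) Subtype.val_injective (fun θ g hg => h θ g fun a => by
      rw [hg]
      refine congrArg θ ((coeff_map v.O.subtype _ a).symm.trans (congrArg _ ?_))
      rw [hom_eval₂]
      congr 1
      · ext b : 1
        exact map_C _ _
      · funext j
        simp [univ])
    fun g hg => by simp [Ideal.Quotient.eq_zero_iff_mem.2 hg]
  rw [← coe_eval₂Hom, hom_eval₂] at h1
  refine Eq.trans (congrArg₂ (eval₂ · · G) (RingHom.ext fun b => ?_) (_root_.funext fun j => ?_)) h1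
  · simp
  · rw [eval_univ]
    rfl

end MM0

theorem st_mm0 (hDEF : St_DEF) (hSEM : St_SEM) (hCNT : St_CNT) (hEXP : St_EXP) (hARC : St_ARC)
    (hBPF : St_BPF) (hBUB : St_BUB) : St_MM0 := by
  intro B Λ k E _ _ _ _ _ _ _ N ρ e c Q φ Y T hc hQ hT hT' h1 h2
  classical
  have hY : Y ≠ 0 := fun h => one_ne_zero (hQ.one.symm.trans (congrFun h 0))
  set D := -vdiv k Y
  set A : Div k E := ∑ v ∈ T, Finsupp.single v 1
  have hD : degD D = ht k Y := map_neg _ _
  have hA : degD A = T.card := (MM0.degD_sum T fun _ => 1).trans (by simp)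
  have hA' : ∀ w, A w = if w ∈ T then 1 else 0 := fun w => MM0.sum_apply T (fun _ => 1) w
  have hA0 : 0 ≤ A := fun w => by
    rw [hA']
    split_ifs <;> simp
  have hDv : ∀ v, -D v = vord v.O Y := fun v => by simp [D, vdiv_apply]
  have hYD : ∀ j, Y j ∈ Ls D := fun j => mem_Ls.2 fun v => hDv v ▸ (vge_iff hY).2 le_rfl j
  have hD0 : ∀ v ∈ T, D v = 0 := fun v hv => by
    have h3 := (vge_iff hY).1 fun j => (mem_iff_ge (Or.inl v.disc)).1 (hT v hv j)
    have h4 := (ge_iff one_ne_zero).1 (hQ.one ▸ (vge_iff hY).2 (le_refl (vord v.O Y)) 0)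
    have h5 := v.ord_const 1
    have h6 := hDv v
    rw [map_one] at h5
    omega
  let b := Module.finBasis k (Ls (D - A))
  obtain ⟨𝔭, h𝔭, h3, h4⟩ := hDEF B Λ k E N ρ e _ Q φ Y D A (fun μ => b μ) hQ hYD
    (fun μ => (b μ).2) hA0 (by
      have h3 := hCNT B Λ k E N ρ e c Q φ Y D A hc hQ hYD (by rw [hD, hA]; exact h1)
      have h4 := mul_le_mul_of_nonneg_left (hc (D - A)).1 (by positivity : (0 : ℤ) ≤ N + 1)
      rw [map_sub, hD, hA] at h4
      rw [hD, hA] at h3
      exact_mod_cast h3.trans_lt (h2.trans_le h4))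
  obtain ⟨ε, hε, a₀, h5⟩ := MM0.exists_trans h3
  obtain ⟨Ω, κ, _, _, _, _, _, i, P, hi, hP, h6, h7⟩ := hARC k _ _ h5
  set z := fun a => Ideal.Quotient.mk 𝔭 (X a)
  have := Nonempty.intro a₀
  obtain ⟨⟨j₁, μ₁⟩, h8⟩ := Finite.exists_max fun a => P.V.valuation (i (z a))
  set α := i (z (j₁, μ₁))
  have h9 : 1 < P.V.valuation α :=
    (not_le.1 fun h => h6 ((P.V.valuation_le_one_iff _).1 h)).trans_le (h8 a₀)
  have hα : α ≠ 0 := fun h => by simp [h] at h9
  have h10 : ∀ x, P.V.valuation x ≤ P.V.valuation α → x / α ∈ P.V := fun x h => by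
    rw [← P.V.valuation_le_one_iff, map_div₀]
    exact div_le_one_of_le₀ h zero_le
  let w : _ → κ := fun μ => P.ρ ⟨_, h10 _ (h8 (j₁, μ))⟩
  have hw : ∀ μ, P.To (i (z (j₁, μ)) / α) (w μ) := fun μ => ⟨_, rfl⟩
  obtain ⟨θ, hθ⟩ := (Algebra.linearMap k κ).exists_leftInverse_of_injective
    (LinearMap.ker_eq_bot.2 (algebraMap k κ).injective)
  let ψ := ∑ μ, θ (w μ) • b μ
  have hψ : (ψ : E) ≠ 0 := fun h => by
    have h11 := Fintype.linearIndependent_iff.1 b.linearIndependent _ (Subtype.ext h) μ₁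
    rw [(hw μ₁).unique (by rw [div_self hα]; exact Plc.to_one)] at h11
    exact one_ne_zero ((LinearMap.congr_fun hθ 1).symm.trans (by simpa using h11))
  have h11 : ∀ (a : Ls (D - A)) v, Ge v.O (A v - D v) (a : E) := fun a v => by
    simpa using mem_Ls.1 a.2 v
  have h12 : ∀ (a : Ls (D - A)), ∀ v ∈ T, Ge v.O 1 (a : E) := fun a v hv => by
    simpa [hA', hv, hD0 v hv] using h11 a v
  obtain ⟨v, hv, h13⟩ := T.exists_min_image (fun v => ord v.O (ψ : E)) hT'
  obtain ⟨d, hd⟩ := Int.eq_ofNat_of_zero_le (zero_le_one.trans ((ge_iff hψ).1 (h12 ψ v hv)))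
  obtain ⟨ex, hex⟩ := hEXP k E v
  let y : _ → v.O := fun j => ⟨_, hT v hv j⟩
  let t : _ → v.O := fun μ =>
    ⟨_, (mem_iff_ge (Or.inl v.disc)).2 ((h12 (b μ) v hv).mono zero_le_one)⟩
  let ex' := (PowerSeries.mapAlgHom (Algebra.ofId k Ω)).comp ex
  have h14 : ∀ a l, PowerSeries.coeff l (ex' a) = algebraMap k Ω (PowerSeries.coeff l (ex a)) :=
    fun _ _ => rfl
  have h15 : ∀ c, P.V.valuation (algebraMap k Ω c) ≤ 1 := fun c =>
    (P.V.valuation_le_one_iff _).2 (hP c).1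
  have hy : y 0 = 1 := Subtype.ext hQ.one
  obtain ⟨a, β, h16, h17⟩ := MM0.cert hBPF (y := y) (t := t) i ex' P.V hy (fun μ => h12 _ v hv)
    (fun μ => CT2_Ls_mono (sub_le_self D hA0) (b μ).2) hε hi
    fun a => ⟨1, fun l => by simpa [h14] using h15 _⟩
  have h18 : ∀ j l, PowerSeries.coeff l (ex' (y j) + ∑ μ, ex' (t μ) * PowerSeries.C (i (z (j, μ))))
      = algebraMap k Ω (PowerSeries.coeff l (ex (y j))) +
        ∑ μ, algebraMap k Ω (PowerSeries.coeff l (ex (t μ))) * i (z (j, μ)) := fun j l => by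
    simp only [map_add, map_sum, PowerSeries.coeff_mul_C, h14]
  refine ⟨v, hv, fun j => PowerSeries.coeff 0 (ex (y j)), κ, inferInstance, algebraMap k κ, d,
    fun j => ?_, ?_, hBUB B Λ Ω κ _ P ((algebraMap k Ω).comp φ) _ Q.G e d _ a _ α β 0 j₁ h7
      (fun b => hP _) Q.hom (fun l => ?_) (fun j => ?_) (by simp [hy]) (fun j l => ?_)
      (fun h => h9.not_ge ((P.V.valuation_le_one_iff _).2 h)) ?_ h16 h17⟩
  · refine (hex (y j - algebraMap k v.O _) 1).1 ?_
    rw [pow_one, PowerSeries.X_dvd_iff, map_sub, map_sub, AlgHom.commutes]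
    simp
  · have h19 : ∑ v ∈ T, Finsupp.single v (ord v.O (ψ : E)) ≤ div k (ψ : E) + D := fun u => by
      have h20 := (ge_iff hψ).1 (h11 ψ u)
      have h21 := hA0 u
      rw [MM0.sum_apply, Finsupp.add_apply, div_apply]
      split_ifs with h
      · rw [hD0 u h, add_zero]
      · exact le_trans h21 (by omega)
    have h20 := degD_mono h19
    rw [MM0.degD_sum, map_add, degD_div, zero_add, hD] at h20
    have h21 := T.card_nsmul_le_sum _ _ h13
    rw [hd, nsmul_eq_mul] at h21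
    exact h21.trans h20
  · have := MM0.germ_zero hSEM φ y t (Q.G l) ex'
      ((IsScalarTower.toAlgHom k Ω (PowerSeries Ω)).comp i) (h4 l)
    rwa [show algebraMap k (PowerSeries Ω) = PowerSeries.C.comp (algebraMap k Ω) from
      RingHom.ext fun _ => PowerSeries.algebraMap_apply] at this
  · rw [← PowerSeries.coeff_zero_eq_constantCoeff_apply, h18, Finset.sum_eq_zero, add_zero]
    · exact hP _
    · intro μ _
      rw [PowerSeries.X_pow_dvd_iff.1 ((hex (t μ) 1).2 (h12 _ v hv)) 0 one_pos, map_zero, zero_mul]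
  · rw [h18]
    refine Valuation.map_add_le _ ((h15 _).trans h9.le) (Valuation.map_sum_le _ fun μ _ => ?_)
    rw [map_mul]
    exact (mul_le_of_le_one_left' (h15 _)).trans (h8 _)
  · have h19 : P.To (α⁻¹) 0 := Plc.to_zero_iff.2 (by rw [map_inv₀]; exact inv_lt_one_of_one_lt₀ h9)
    have h20 := (((hP (PowerSeries.coeff d (ex (y j₁)))).mul h19).add (Plc.To.sum
      (s := Finset.univ) fun μ _ => (hP (PowerSeries.coeff d (ex (t μ)))).mul (hw μ))).val_eq_one_iff.2
      fun h => ?_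
    · rw [h18, ← div_eq_one_iff_eq ((Valuation.ne_zero_iff _).2 hα), ← map_div₀, ← h20]
      simp only [div_eq_mul_inv, add_mul, Finset.sum_mul, mul_assoc]
    let ψ' := ∑ μ, θ (w μ) • t μ
    have h21 : (ψ' : E) = ψ := by
      simp only [ψ, ψ', AddSubmonoidClass.coe_finsetSum, v.CT1_coe_smul]
      rfl
    have h22 : PowerSeries.coeff d (ex ψ') = 0 := by
      have := congrArg θ h
      simp only [mul_zero, zero_add, map_sum, ← Algebra.smul_def, map_smul, map_zero] at this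
      simp only [ψ', map_sum, map_smul]
      exact (Finset.sum_congr rfl fun _ _ => mul_comm _ _).trans this
    have h23 := (ge_iff hψ).1 (h21 ▸ (hex ψ' (d + 1)).1 (PowerSeries.X_pow_dvd_iff.2 fun l hl =>
      (Nat.lt_succ_iff.1 hl).eq_or_lt.elim (fun h => h ▸ h22)
        (PowerSeries.X_pow_dvd_iff.1 ((hex ψ' d).2 (h21 ▸ hd ▸ ge_ord)) l)))
    omega

end Pool.Agent.Lib.UR.M
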