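import Pool.Agent.Lib.UR.MBlue

open MvPolynomial

noncomputable section

namespace Pool.Agent.Lib.UR.M

namespace NUL

variable {B V K : Type} [CommRing B] [Field K] {ψ : B →+* K}

theorem den (h : ∀ c : K, ∃ a b, ψ b ≠ 0 ∧ ψ a = ψ b * c) (f : MvPolynomial V K) :
    ∃ δ g, ψ δ ≠ 0 ∧ map ψ g = C (ψ δ) * f := by
  induction f using MvPolynomial.induction_on with
  | C c =>
    obtain ⟨a, b, h1, h2⟩ := h c
    exact ⟨b, C a, h1, by rw [map_C, h2, C_mul]⟩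
  | add f f' hf hf' =>
    obtain ⟨δ, g, h1, h2⟩ := hf
    obtain ⟨δ', g', h3, h4⟩ := hf'
    refine ⟨δ * δ', C δ' * g + C δ * g', by rw [map_mul]; exact mul_ne_zero h1 h3, ?_⟩
    simp only [map_add, map_mul, map_C, h2, h4]
    ring
  | mul_X f i hf =>
    obtain ⟨δ, g, h1, h2⟩ := hf
    exact ⟨δ, g * X i, h1, by rw [map_mul, map_X, h2, mul_assoc]⟩

/-- The extension of an ideal to the field of fractions of the image. -/
def ext (h : ∀ c : K, ∃ a b, ψ b ≠ 0 ∧ ψ a = ψ b * c) (I : Ideal (MvPolynomial V B)) :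
    Ideal (MvPolynomial V K) where
  carrier := {f | ∃ δ, ∃ g ∈ I, ψ δ ≠ 0 ∧ map ψ g = C (ψ δ) * f}
  zero_mem' := ⟨1, 0, zero_mem _, by simp, by simp⟩
  add_mem' := by
    rintro f f' ⟨δ, g, h0, h1, h2⟩ ⟨δ', g', h5, h3, h4⟩
    refine ⟨δ * δ', C δ' * g + C δ * g', add_mem (I.mul_mem_left _ h0) (I.mul_mem_left _ h5),
      by rw [map_mul]; exact mul_ne_zero h1 h3, ?_⟩
    simp only [map_add, map_mul, map_C, h2, h4]
    ring
  smul_mem' := by
    rintro f f' ⟨δ', g', h5, h3, h4⟩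
    obtain ⟨δ, g, h1, h2⟩ := den h f
    refine ⟨δ * δ', g * g', I.mul_mem_left _ h5, by rw [map_mul]; exact mul_ne_zero h1 h3, ?_⟩
    simp only [map_mul, smul_eq_mul, h2, h4]
    ring

end NUL

theorem st_nul : St_NUL := by
  intro B V Ω _ _ _ _ A ψ hA
  let K := Subfield.closure (Set.range ψ)
  let ψ' : B →+* K := ψ.codRestrict K fun b => Subfield.subset_closure ⟨b, rfl⟩
  have h0 : ∀ b, ψ' b = 0 ↔ ψ b = 0 := fun b => Subtype.ext_iff
  have h : ∀ c : K, ∃ a b, ψ' b ≠ 0 ∧ ψ' a = ψ' b * c := fun c => by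
    obtain ⟨y, hy, z, hz, e⟩ := Subfield.mem_closure_iff.1 c.2
    rw [← RingHom.coe_range, Subring.closure_eq] at hy hz
    obtain ⟨a, rfl⟩ := hy
    obtain ⟨b, rfl⟩ := hz
    by_cases hb : ψ b = 0
    · refine ⟨0, 1, by simp, Subtype.ext ?_⟩
      change ψ 0 = ψ 1 * c
      rw [← e, hb, div_zero, mul_zero, map_zero]
    · refine ⟨a, b, fun e => hb ((h0 b).1 e), Subtype.ext ?_⟩
      change ψ a = ψ b * c
      rw [← e, mul_div_cancel₀ _ hb]
  have htop : NUL.ext h (Ideal.span A) = ⊤ := by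
    by_contra hne
    obtain ⟨m, hm, hle⟩ := Ideal.exists_le_maximal _ hne
    obtain ⟨v, hv⟩ := eq_vanishingIdeal_singleton_of_isMaximal Ω hm
    refine hA ⟨v, fun g hg => ?_⟩
    have h1 : map ψ' g ∈ m := hle ⟨1, g, Ideal.subset_span hg, by simp, by simp⟩
    rw [hv, mem_vanishingIdeal_singleton_iff, aeval_def, eval₂_map] at h1
    exact h1
  obtain ⟨δ, g, h1, h2, h3⟩ := (Ideal.eq_top_iff_one _).1 htop
  refine ⟨δ, fun e => h2 ((h0 δ).2 e), fun E _ φ hφ hδ ⟨v, hv⟩ => hδ ?_⟩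
  have h4 : eval₂Hom φ v g = 0 :=
    (Ideal.span_le (I := RingHom.ker (eval₂Hom φ v))).2 (fun g hg => hv g hg) h1
  have h5 : map φ (g - C δ) = 0 := by
    ext a
    rw [coeff_map, coeff_zero]
    refine hφ _ ((h0 _).1 ?_)
    rw [← coeff_map, map_sub, h3, map_C, mul_one, sub_self, coeff_zero]
  have h6 : eval₂Hom φ v (g - C δ) = 0 := by
    rw [coe_eval₂Hom, eval₂_eq_eval_map, h5, map_zero]
  rwa [map_sub, h4, zero_sub, neg_eq_zero, eval₂Hom_C] at h6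

end Pool.Agent.Lib.UR.M
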