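import Pool.Agent.Lib.UR.MBlue
import Pool.Agent.Lib.MP_7fcda1_ag.Def1

/-! The certificate over the complex numbers. -/

open MvPolynomial Module

noncomputable section

namespace Pool.Agent.Lib.UR.M

open Pool.Agent.Lib.MP_7fcda1_ag

namespace PRE

theorem frac {L ι : Type} [Field L] [Algebra ℂ L] {y : ι → L} {i : ι} (h₀ : y i = 1)
    (hf : IsFractionRing (GD.chart y i) L) (c : L) :
    ∃ a b : MvPolynomial ι ℂ, aeval y b ≠ 0 ∧ c * aeval y b = aeval y a := by
  have hy : (fun j => y j / y i) = y := by funext j; rw [h₀, div_one]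
  have hr : ∀ u : GD.chart y i, ∃ a : MvPolynomial ι ℂ, aeval y a = (u : L) := fun u => by
    have h1 : (u : L) ∈ Algebra.adjoin ℂ (Set.range fun j => y j / y i) := u.2
    rw [hy, Algebra.adjoin_range_eq_range_aeval] at h1
    exact h1
  obtain ⟨u, v, hv, huv⟩ := IsFractionRing.div_surjective (A := GD.chart y i) c
  obtain ⟨a, ha⟩ := hr u
  obtain ⟨b, hb⟩ := hr v
  have hv0 : (v : L) ≠ 0 := fun h => nonZeroDivisors.ne_zero hv (Subtype.ext h)
  refine ⟨a, b, hb ▸ hv0, ?_⟩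
  rw [ha, hb, ← huv]
  exact div_mul_cancel₀ _ hv0

theorem key {L Λ : Type} [Field L] [Algebra ℂ L] {N e : ℕ} {y : Fin (N + 1) → L}
    {G : Λ → MvPolynomial (Fin (N + 1)) ℂ} (h : Eqs y e G) (h₀ : y 0 = 1)
    (hs : ∀ c : L, ∃ a b : MvPolynomial (Fin (N + 1)) ℂ,
      aeval y b ≠ 0 ∧ c * aeval y b = aeval y a)
    {g : MvPolynomial (Fin (N + 1)) ℂ} (hg : g ∈ Ideal.span (Set.range G))
    (hd : ∀ j, aeval y (pderiv j g) = 0) : ∃ s, aeval y s ≠ 0 ∧ s * g ∈
      (Ideal.span (Set.range G) ⊔ Ideal.span {X 0 - 1}) * Ideal.span (Set.range G) := by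
  have hy : (fun i => y i / y 0) = y := by funext i; rw [h₀, div_one]
  set I := Ideal.span (Set.range G) with hI
  set P := RingHom.ker (aeval y : MvPolynomial (Fin (N + 1)) ℂ →ₐ[ℂ] L) with hP
  have hIP : I ≤ P := Ideal.span_le.2 (by rintro _ ⟨l, rfl⟩; exact h.zero l)
  have hPI : P ≤ I ⊔ Ideal.span {X 0 - 1} := fun f hf =>
    h.chart (by rw [h₀]; exact one_ne_zero) (by rw [hy]; exact hf)
  have hX : X 0 - 1 ∈ P := by
    rw [hP, RingHom.mem_ker]; simp [h₀]
  have hsq : P ^ 2 ≤ P * I ⊔ Ideal.span {(X 0 - 1) * (X 0 - 1)} := by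
    rw [pow_two]
    refine (Ideal.mul_mono_right hPI).trans ?_
    rw [Ideal.mul_sup]
    refine sup_le le_sup_left ((Ideal.mul_mono_left hPI).trans ?_)
    rw [Ideal.sup_mul, Ideal.span_singleton_mul_span_singleton]
    refine sup_le (le_sup_of_le_left ?_) le_sup_right
    rw [mul_comm]
    exact Ideal.mul_mono_left ((Ideal.span_singleton_le_iff_mem _).2 hX)
  obtain ⟨s, hs0, hsg⟩ := Def1.conormal_inj y hs (hIP hg) hd
  obtain ⟨a, ha, b, hb, hab⟩ := Submodule.mem_sup.1 (hsq hsg)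
  obtain ⟨q, rfl⟩ := Ideal.mem_span_singleton'.1 hb
  have h1 : (X 0 - 1) * ((X 0 - 1) * q) ∈ I := by
    have : (X 0 - 1) * ((X 0 - 1) * q) = s * g - a := by
      rw [← hab]; ring
    rw [this]
    exact Ideal.sub_mem _ (Ideal.mul_mem_left _ _ hg) (Ideal.mul_le_right (I := P) (J := I) ha)
  have h2 := Def1.cancel h.hom 0 h1
  refine ⟨s, hs0, Ideal.mul_mono_left hPI ?_⟩
  have : s * g = a + (X 0 - 1) * ((X 0 - 1) * q) := by
    rw [← hab]; ring
  rw [this]
  exact Ideal.add_mem _ ha (Ideal.mul_mem_mul hX h2)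

theorem rows {L Λ ι : Type} [Field L] [Fintype ι] {m ρ : ℕ} (J : ι → Λ → L) (S : Fin ρ → ι)
    (I : Fin ρ → Λ) (Θ : Fin m → ι → L) (hI : pl (fun r => J (S r)) I ≠ 0) (hΘ : pl Θ ≠ 0)
    (hc : ρ + m = Fintype.card ι) (h : ∀ l a, ∑ j, J j l * Θ a j = 0) (l : Λ) :
    ∃ c : Fin ρ → L, ∀ j, ∑ r, c r * J j (I r) = J j l := by
  have h1 : LinearIndependent L fun r j => J j (I r) := by
    refine pl_ne_zero_iff.1 fun h0 => hI ?_
    have h2 := congrFun h0 S
    simp only [pl, Pi.zero_apply] at h2 ⊢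
    rw [← Matrix.det_transpose]
    exact h2
  have h2 : (Matrix.of Θ).rank = m := by
    have := LinearIndependent.rank_matrix (M := Matrix.of Θ) (pl_ne_zero_iff.1 hΘ)
    rwa [Fintype.card_fin] at this
  have h3 := LinearMap.finrank_range_add_finrank_ker (Matrix.of Θ).mulVecLin
  rw [finrank_fintype_fun_eq_card] at h3
  have h4 : ∀ l, (fun j => J j l) ∈ LinearMap.ker (Matrix.of Θ).mulVecLin := fun l => by
    rw [LinearMap.mem_ker]
    funext a
    simpa [Matrix.mulVec, dotProduct, mul_comm] using h l a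
  have h5 : Submodule.span L (Set.range fun r j => J j (I r)) =
      LinearMap.ker (Matrix.of Θ).mulVecLin := by
    apply Submodule.eq_of_le_of_finrank_eq
    · rw [Submodule.span_le]
      rintro _ ⟨r, rfl⟩
      exact h4 _
    · rw [finrank_span_eq_card h1, Fintype.card_fin]
      have h6 : finrank L (LinearMap.range (Matrix.of Θ).mulVecLin) = m := h2
      omega
  obtain ⟨c, hc'⟩ := (Submodule.mem_span_range_iff_exists_fun L).1 (h5 ▸ h4 l)
  refine ⟨c, fun j => ?_⟩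
  simpa [Finset.sum_apply] using congrFun hc' j

end PRE

theorem st_pre : St_PRE := by
  intro L Λ _ _ _ N m ρ e y G S Θ h₀ hf h hA hΘ hc hJ
  classical
  cases nonempty_fintype Λ
  have hs := PRE.frac h₀ hf
  obtain ⟨I, hI⟩ := Function.ne_iff.1 hA
  have hI' : pl (fun r => (fun j l => aeval y (pderiv j (G l))) (S r)) I ≠ 0 := by
    have h1 := hI
    rw [atup_eq] at h1
    exact h1
  choose c hcr using PRE.rows (fun j l => aeval y (pderiv j (G l))) S I Θ hI' hΘ
    (by rw [Fintype.card_fin]; exact hc) hJ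
  choose a b hb hab using fun p : Λ × Fin ρ => hs (c p.1 p.2)
  obtain ⟨a', ha'⟩ : ∃ a' : Λ × Fin ρ → MvPolynomial (Fin (N + 1)) ℂ,
      ∀ p, c p.1 p.2 * aeval y (∏ q, b q) = aeval y (a' p) := by
    refine ⟨fun p => a p * ∏ q ∈ Finset.univ.erase p, b q, fun p => ?_⟩
    rw [← Finset.mul_prod_erase _ _ (Finset.mem_univ p), map_mul, map_mul, ← mul_assoc, hab]
  have hb0 : aeval y (∏ q, b q) ≠ 0 := by
    rw [map_prod]; exact Finset.prod_ne_zero_iff.2 fun q _ => hb q
  generalize ∏ q, b q = b₀ at ha' hb0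
  have hmem : ∀ l, G l ∈ Ideal.span (Set.range G) := fun l => Ideal.subset_span ⟨l, rfl⟩
  choose s hs0 hsg using fun l => PRE.key h h₀ hs (g := b₀ * G l - ∑ r, a' (l, r) * G (I r))
    (Ideal.sub_mem _ (Ideal.mul_mem_left _ _ (hmem l))
      (Ideal.sum_mem _ fun r _ => Ideal.mul_mem_left _ _ (hmem _))) (fun j => by
      simp only [map_sub, map_sum, Derivation.leibniz, smul_eq_mul, map_add, map_mul, h.zero,
        zero_mul, add_zero]
      rw [← hcr l j, Finset.mul_sum, ← Finset.sum_sub_distrib]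
      refine Finset.sum_eq_zero fun r _ => ?_
      rw [← ha' (l, r)]; ring)
  refine ⟨⟨G, I, S, (∏ l, s l) * b₀, fun l r => (∏ l, s l) * a' (l, r), h.pos, h.hom,
    fun l => ?_⟩, rfl, rfl, h₀, h.zero, ?_, hI⟩
  · have h1 : (∏ l, s l) * b₀ * G l - ∑ r, (∏ l, s l) * a' (l, r) * G (I r) =
        (∏ l' ∈ Finset.univ.erase l, s l') * (s l * (b₀ * G l - ∑ r, a' (l, r) * G (I r))) := by
      rw [← mul_assoc, Finset.prod_erase_mul _ _ (Finset.mem_univ l), mul_sub, Finset.mul_sum]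
      simp only [mul_assoc]
    rw [h1]
    exact Ideal.mul_mem_left _ _ (hsg l)
  · show aeval y ((∏ l, s l) * b₀) ≠ 0
    rw [map_mul, map_prod]
    exact mul_ne_zero (Finset.prod_ne_zero_iff.2 fun l _ => hs0 l) hb0

end Pool.Agent.Lib.UR.M
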