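import Pool.Agent.Lib.UR.MBlue

open MvPolynomial

noncomputable section

namespace Pool.Agent.Lib.UR.M

namespace RCN

variable (B ι : Type) [CommRing B] (D : ℕ)

/-- The unknowns. -/
abbrev Vr : Type := (ι × Fin (D + 1)) ⊕ (ι × ι × Fin (D + 1))

variable {ι}

/-- The universal curve. -/
def U (j : ι) : Polynomial (MvPolynomial (Vr ι D) B) :=
  ∑ l : Fin (D + 1), Polynomial.monomial l (X (.inl (j, l)))

variable {B} {Λ : Type} [Fintype ι]

/-- The equations. -/
def Eqn (G : Λ → MvPolynomial ι B) (x : ι → B) : Set (MvPolynomial (Vr ι D) B) :=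
  {g | (∃ l n, g = (eval₂ (Polynomial.C.comp C) (U B D) (G l)).coeff n) ∨
    (∃ j, g = (U B D j).coeff 0 - C (x j)) ∨
    g = ∑ q : ι × ι × Fin (D + 1), X (.inr q) * (C (x q.1) * (U B D q.2.1).coeff q.2.2 -
      C (x q.2.1) * (U B D q.1).coeff q.2.2) - 1}

variable {D} {E : Type} [Field E] (φ : B →+* E)

omit [Fintype ι] in
theorem aeval_U (v : Vr ι D → E) (g : MvPolynomial ι B) :
    aeval (fun j => (U B D j).map (eval₂Hom φ v)) (map φ g) =
      (eval₂ (Polynomial.C.comp C) (U B D) g).map (eval₂Hom φ v) := by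
  induction g using MvPolynomial.induction_on with
  | C c => simp
  | add f g hf hg => rw [map_add, map_add, hf, hg, eval₂_add, Polynomial.map_add]
  | mul_X f i hf =>
    rw [map_mul, map_mul, hf, eval₂_mul, Polynomial.map_mul, map_X, aeval_X, eval₂_X]

omit [Fintype ι] in
theorem map_U (v : Vr ι D → E) (j : ι) : (U B D j).map (eval₂Hom φ v) =
    ∑ l : Fin (D + 1), Polynomial.monomial l (v (.inl (j, l))) := by
  simp [U, Polynomial.map_sum]

theorem iff (G : Λ → MvPolynomial ι B) (x : ι → B) :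
    RatCurve (fun l => map φ (G l)) (fun j => φ (x j)) D ↔
      ∃ v : Vr ι D → E, ∀ g ∈ Eqn D G x, eval₂ φ v g = 0 := by
  classical
  have hc : ∀ (v : Vr ι D → E) (p : Polynomial (MvPolynomial (Vr ι D) B)) n,
      eval₂ φ v (p.coeff n) = (p.map (eval₂Hom φ v)).coeff n := fun v p n => by
    rw [Polynomial.coeff_map, coe_eval₂Hom]
  constructor
  · rintro ⟨P, h1, h2, h3, j, j', h4⟩
    obtain ⟨l, hl⟩ : ∃ l, φ (x j) * (P j').coeff l - φ (x j') * (P j).coeff l ≠ 0 := by
      by_contra hn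
      refine h4 (Polynomial.ext fun l => ?_)
      rw [Polynomial.coeff_C_mul, Polynomial.coeff_C_mul]
      exact sub_eq_zero.1 (by_contra fun e => hn ⟨l, e⟩)
    have hD : l < D + 1 := by
      by_contra hn
      rw [Polynomial.coeff_eq_zero_of_natDegree_lt ((h1 j).trans_lt (by omega)),
        Polynomial.coeff_eq_zero_of_natDegree_lt ((h1 j').trans_lt (by omega))] at hl
      simp at hl
    let v : Vr ι D → E := Sum.elim (fun q => (P q.1).coeff q.2)
      (Pi.single (j, j', ⟨l, hD⟩) (φ (x j) * (P j').coeff l - φ (x j') * (P j).coeff l)⁻¹)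
    have hv : ∀ i, (U B D i).map (eval₂Hom φ v) = P i := fun i => by
      rw [map_U, (P i).as_sum_range' (D + 1) (Nat.lt_succ_of_le (h1 i)),
        ← Fin.sum_univ_eq_sum_range fun l => Polynomial.monomial l ((P i).coeff l)]
      rfl
    refine ⟨v, ?_⟩
    rintro g (⟨a, n, rfl⟩ | ⟨i, rfl⟩ | rfl)
    · rw [hc, ← aeval_U, funext hv, h2 a, Polynomial.coeff_zero]
    · rw [eval₂_sub, hc, hv, h3, eval₂_C, sub_self]
    · simp only [eval₂_sub, eval₂_sum, eval₂_mul, eval₂_X, eval₂_C, eval₂_one, hc, hv]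
      rw [Finset.sum_eq_single (j, j', ⟨l, hD⟩) (fun q _ hq => by simp [v, hq]) (by simp)]
      simp only [v, Sum.elim_inr, Pi.single_eq_same]
      rw [inv_mul_cancel₀ hl, sub_self]
  · rintro ⟨v, hv⟩
    refine ⟨fun j => (U B D j).map (eval₂Hom φ v), fun j => ?_, fun l => ?_, fun j => ?_, ?_⟩
    · simp only [map_U]
      exact Polynomial.natDegree_sum_le_of_forall_le _ _ fun l _ =>
        (Polynomial.natDegree_monomial_le _).trans (Nat.le_of_lt_succ l.2)
    · rw [aeval_U]
      ext n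
      rw [← hc, hv _ (.inl ⟨l, n, rfl⟩), Polynomial.coeff_zero]
    · have := hv _ (.inr (.inl ⟨j, rfl⟩))
      rwa [eval₂_sub, hc, eval₂_C, sub_eq_zero] at this
    · by_contra hn
      have h1 := hv _ (.inr (.inr rfl))
      simp only [eval₂_sub, eval₂_sum, eval₂_mul, eval₂_X, eval₂_C, eval₂_one, hc] at h1
      rw [Finset.sum_eq_zero, zero_sub, neg_eq_zero] at h1
      · exact one_ne_zero h1
      · intro q _
        have h2 := congrArg (fun p => p.coeff q.2.2) (by_contra fun e => hn ⟨q.1, q.2.1, e⟩)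
        simp only [Polynomial.coeff_C_mul] at h2
        rw [h2, sub_self, mul_zero]

end RCN

theorem st_rcn (h : St_NUL) : St_RCN := by
  intro B ι Λ Ω _ _ _ _ G x D ψ h1
  have := Fintype.ofFinite ι
  rw [RCN.iff] at h1
  obtain ⟨δ, h2, h3⟩ := h B _ Ω _ ψ h1
  refine ⟨δ, h2, fun E _ φ h4 h5 => ?_⟩
  rw [RCN.iff]
  exact h3 E φ h4 h5

end Pool.Agent.Lib.UR.M
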