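import Pool.Agent.Lib.UR.MBlue
import Pool.Agent.Lib.NV.Spread

/-! Reduction of a function field modulo a prime. -/

open Module Polynomial
open scoped IntermediateField

noncomputable section

namespace Pool.Agent.Lib.UR.M

open Pool.Agent.Lib.MP_7fcda1_ag

namespace RED

theorem rel {O F : Type} [Field O] [Field F] [Algebra O F] [IsFF O F] {τ : F}
    (hτ : Transcendental O τ) (a : F) : ∃ q : O[X][X], q ≠ 0 ∧ q.natDegree ≤ finrank O⟮τ⟯ F ∧
      q.eval₂ (aeval τ).toRingHom a = 0 := by
  have := IsFF.finite hτ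
  let t := IntermediateField.AdjoinSimple.gen O τ
  let _ : Algebra O[X] O⟮τ⟯ := (aeval t).toRingHom.toAlgebra
  have e : ∀ g : O[X], algebraMap O⟮τ⟯ F (algebraMap O[X] O⟮τ⟯ g) = aeval τ g := fun g =>
    (aeval_algebraMap_apply F t g).symm
  have : FaithfulSMul O[X] O⟮τ⟯ := (faithfulSMul_iff_algebraMap_injective _ _).2 fun g g' h =>
    transcendental_iff_injective.1 hτ (by rw [← e, ← e, h])
  have : IsFractionRing O[X] O⟮τ⟯ := IsFractionRing.of_field _ _ fun z => by
    obtain ⟨r, s, h⟩ := (IntermediateField.mem_adjoin_simple_iff O z.1).1 z.2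
    exact ⟨r, s, (algebraMap O⟮τ⟯ F).injective (by rw [map_div₀, e, e]; exact h)⟩
  have hi : IsIntegral O⟮τ⟯ a := IsIntegral.of_finite _ a
  refine ⟨IsLocalization.integerNormalization (nonZeroDivisors O[X]) (minpoly O⟮τ⟯ a),
    fun h => minpoly.ne_zero hi (IsFractionRing.integerNormalization_eq_zero_iff.1 h),
    le_trans (natDegree_le_iff_coeff_eq_zero.2 fun N hN => ?_) (minpoly.natDegree_le a), ?_⟩
  · by_contra h
    exact (le_natDegree_of_mem_supp N (IsLocalization.integerNormalization_support _ _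
      (mem_support_iff.2 h))).not_gt hN
  · have h := IsLocalization.integerNormalization_eval₂_eq_zero (nonZeroDivisors O[X])
      (algebraMap O⟮τ⟯ F) (minpoly O⟮τ⟯ a) (minpoly.aeval O⟮τ⟯ a)
    rwa [show (algebraMap O⟮τ⟯ F).comp (algebraMap O[X] O⟮τ⟯) = (aeval τ).toRingHom from
      RingHom.ext e] at h

theorem value {A F D : Type} [CommRing A] [Field F] [Field D] {P : Plc F D} {i : A →+* F}
    {φ : A →+* D} (h : ∀ r, P.To (i r) (φ r)) {q : A[X]} {a : F} (hq : q.eval₂ i a = 0)
    (hl : φ q.leadingCoeff ≠ 0) : ∃ b, P.To a b ∧ q.eval₂ φ b = 0 := by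
  have h0 := (h _).ne_zero hl
  have ha : a ∈ P.V := by
    refine mem_of_monic (C (i q.leadingCoeff)⁻¹ * q.map i) ?_ (fun n => ?_) ?_
    · apply monic_C_mul_of_mul_leadingCoeff_eq_one
      rw [leadingCoeff_map_of_leadingCoeff_ne_zero _ h0]
      exact inv_mul_cancel₀ h0
    · rw [coeff_C_mul, coeff_map]
      exact (((h _).inv hl).mul (h _)).1
    · rw [eval_mul, eval_map, hq, mul_zero]
  have hb : P.To a (P.ρ ⟨a, ha⟩) := ⟨ha, rfl⟩
  refine ⟨_, hb, ?_⟩
  have h1 : P.To (q.eval₂ i a) (q.eval₂ φ (P.ρ ⟨a, ha⟩)) := by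
    rw [eval₂_eq_sum, eval₂_eq_sum]
    exact Plc.To.sum fun n _ => (h _).mul (hb.pow n)
  rw [hq] at h1
  exact h1.unique Plc.to_zero

theorem lift {O : Type} [Field O] {R : Subring O} {q : O[X][X]}
    (h : ∀ n l, (q.coeff n).coeff l ∈ R) :
    ∃ q' : R[X][X], q'.map (mapRingHom R.subtype) = q :=
  (mem_lifts q).1 ((lifts_iff_coeff_lifts q).2 fun n =>
    (mem_lifts _).1 ((lifts_iff_coeff_lifts _).2 fun l => ⟨⟨_, h n l⟩, rfl⟩))

theorem rank_le {K E J : Type} [Field K] [Field E] [Algebra K E] {m : ℕ} (u : J → E)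
    (h : ∀ j, ∃ q : K[X], q ≠ 0 ∧ q.natDegree ≤ m ∧ aeval (u j) q = 0) (s : Finset J) :
    finrank K (IntermediateField.adjoin K (u '' s)) ≤ m ^ s.card := by
  classical
  induction s using Finset.induction_on with
  | empty =>
    rw [Finset.coe_empty, Set.image_empty, IntermediateField.adjoin_empty,
      IntermediateField.finrank_bot, Finset.card_empty, pow_zero]
  | insert j s hj ih =>
    obtain ⟨q, h1, h2, h3⟩ := h j
    rw [Finset.coe_insert, Set.image_insert_eq, Set.insert_eq, IntermediateField.adjoin_union,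
      Finset.card_insert_of_notMem hj, pow_succ']
    refine (IntermediateField.finrank_sup_le _ _).trans (Nat.mul_le_mul ?_ ih)
    rw [IntermediateField.adjoin.finrank (IsAlgebraic.isIntegral ⟨q, h1, h3⟩)]
    exact (natDegree_le_natDegree (minpoly.degree_le_of_ne_zero K _ h1 h3)).trans h2

theorem gen {k E J : Type} [Field k] [Field E] [Algebra k E] [Finite J] {m : ℕ} {τ : E}
    (hτ : Transcendental k τ) (u : J → E)
    (ht : IntermediateField.adjoin k ({τ} ∪ Set.range u) = ⊤)
    (h : ∀ j, ∃ q : k[X][X], q ≠ 0 ∧ q.natDegree ≤ m ∧ q.eval₂ (aeval τ).toRingHom (u j) = 0) :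
    IsFF k E ∧ finrank k⟮τ⟯ E ≤ m ^ Nat.card J := by
  have := Fintype.ofFinite J
  let t := IntermediateField.AdjoinSimple.gen k τ
  have e : (algebraMap k⟮τ⟯ E).comp (aeval (R := k) t).toRingHom = (aeval τ).toRingHom :=
    RingHom.ext fun g => (aeval_algebraMap_apply E t g).symm
  have hi : Function.Injective (aeval (R := k) t).toRingHom := fun g g' h =>
    transcendental_iff_injective.1 hτ
      ((RingHom.congr_fun e g).symm.trans ((congrArg (algebraMap k⟮τ⟯ E) h).trans
        (RingHom.congr_fun e g')))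
  have h' : ∀ j, ∃ q : k⟮τ⟯[X], q ≠ 0 ∧ q.natDegree ≤ m ∧ aeval (u j) q = 0 := fun j => by
    obtain ⟨q, h1, h2, h3⟩ := h j
    refine ⟨q.map (aeval (R := k) t).toRingHom, (Polynomial.map_ne_zero_iff hi).2 h1,
      natDegree_map_le.trans h2, ?_⟩
    rw [aeval_def, eval₂_map, e, h3]
  rw [← IntermediateField.adjoin_adjoin_left, IntermediateField.restrictScalars_eq_top_iff] at ht
  have h1 := rank_le u h' Finset.univ
  rw [Finset.coe_univ, Set.image_univ, ht, IntermediateField.finrank_top', Finset.card_univ,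
    ← Nat.card_eq_fintype_card] at h1
  have h2 : FiniteDimensional k⟮τ⟯ (IntermediateField.adjoin k⟮τ⟯ (Set.range u)) :=
    IntermediateField.finiteDimensional_adjoin (by
      rintro _ ⟨j, rfl⟩
      obtain ⟨q, h1, -, h3⟩ := h' j
      exact IsAlgebraic.isIntegral ⟨q, h1, h3⟩)
  rw [ht] at h2
  exact ⟨⟨τ, hτ, IntermediateField.topEquiv.toLinearEquiv.finiteDimensional⟩, h1⟩

end RED

open RED in
theorem st_red : St_RED := by
  intro O F J _ _ _ _ _ τ u s T hτ hs hT h0
  choose q hq0 hqd hqe using rel hτ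
  let A : Set F := Set.range u ∪ (T ∪ (fun t => t⁻¹) '' T)
  have hA : A.Finite := (Set.finite_range u).union (hT.union (hT.image _))
  obtain ⟨R, κ, _, _, π₀, hR⟩ := NV.exists_res (s ∪ ⋃ a ∈ A,
      (insert (q a).leadingCoeff.leadingCoeff⁻¹ (⋃ g ∈ (q a).coeffs, (g.coeffs : Set O))))
    (hs.union (hA.biUnion fun a _ => ((q a).coeffs.finite_toSet.biUnion fun g _ =>
      g.coeffs.finite_toSet).insert _))
  have hc : ∀ a ∈ A, ∀ n l, ((q a).coeff n).coeff l ∈ R := fun a ha n l => by
    by_cases h : ((q a).coeff n).coeff l = 0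
    · rw [h]; exact zero_mem R
    · refine hR (Or.inr (Set.mem_biUnion ha (Or.inr (Set.mem_biUnion (x := (q a).coeff n) ?_ ?_))))
      · exact coeff_mem_coeffs fun h1 => h (by rw [h1, coeff_zero])
      · exact coeff_mem_coeffs h
  have hl : ∀ a ∈ A, (q a).leadingCoeff.leadingCoeff⁻¹ ∈ R := fun a ha =>
    hR (Or.inr (Set.mem_biUnion ha (Or.inl rfl)))
  obtain ⟨p, hp⟩ := CharP.exists κ
  let k := AlgebraicClosure κ
  let D := AlgebraicClosure (RatFunc k)
  let π : R →+* k := (algebraMap κ k).comp π₀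
  let x : D := algebraMap (RatFunc k) D RatFunc.X
  have hx : Transcendental k x :=
    (transcendental_algebraMap_iff (algebraMap (RatFunc k) D).injective).2
      RatFunc.transcendental_X
  let i : R[X] →+* F := (aeval τ).toRingHom.comp (mapRingHom R.subtype)
  let φ : R[X] →+* D := (aeval x).toRingHom.comp (mapRingHom π)
  have hinj : Function.Injective (mapRingHom R.subtype) := map_injective _ Subtype.val_injective
  obtain ⟨P, hP⟩ := exists_plc_of_hom i φ fun r hr => by
    have h1 : r = 0 := hinj (transcendental_iff_injective.1 hτ (by simpa [i] using hr))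
    rw [h1, map_zero]
  have key : ∀ a ∈ A, ∃ b, P.To a b ∧ ∃ g : k[X][X], g ≠ 0 ∧ g.natDegree ≤ finrank O⟮τ⟯ F ∧
      g.eval₂ (aeval x).toRingHom b = 0 := fun a ha => by
    obtain ⟨q', hq'⟩ := lift (hc a ha)
    have e1 : (q a).leadingCoeff = q'.leadingCoeff.map R.subtype := by
      rw [← hq', leadingCoeff_map_of_injective hinj]; rfl
    have e2 : (q a).leadingCoeff.leadingCoeff = q'.leadingCoeff.leadingCoeff := by
      rw [e1, leadingCoeff_map_of_injective Subtype.val_injective]; rfl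
    have e3 : q'.leadingCoeff.leadingCoeff * ⟨_, hl a ha⟩ = 1 := Subtype.ext (by
      rw [Subring.coe_mul, ← e2]
      exact mul_inv_cancel₀ (leadingCoeff_ne_zero.2 (leadingCoeff_ne_zero.2 (hq0 a))))
    have e4 : mapRingHom π q'.leadingCoeff ≠ 0 := fun h => by
      have h1 := congrArg π e3
      have h2 : π q'.leadingCoeff.leadingCoeff = 0 := by
        rw [leadingCoeff, ← coeff_map, ← coe_mapRingHom, h, coeff_zero]
      rw [map_mul, h2, zero_mul, map_one] at h1
      exact zero_ne_one h1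
    obtain ⟨b, hb, hb'⟩ := value hP (q := q') (a := a) (by rw [← eval₂_map, hq', hqe])
      fun h => e4 (transcendental_iff_injective.1 hx (h.trans (map_zero _).symm))
    refine ⟨b, hb, q'.map (mapRingHom π), fun h => e4 ?_, natDegree_map_le.trans ?_, ?_⟩
    · rw [leadingCoeff, ← coeff_map, h, coeff_zero]
    · rw [← natDegree_map_eq_of_injective hinj, hq']
      exact hqd a
    · rw [eval₂_map, hb']
  choose b hb hb' using fun j => key (u j) (Or.inl ⟨j, rfl⟩)
  let E := IntermediateField.adjoin k ({x} ∪ Set.range b)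
  let x' : E := ⟨x, IntermediateField.subset_adjoin _ _ (Or.inl rfl)⟩
  let b' : J → E := fun j => ⟨b j, IntermediateField.subset_adjoin _ _ (Or.inr ⟨j, rfl⟩)⟩
  have hx' : Transcendental k x' :=
    (transcendental_algebraMap_iff (algebraMap E D).injective).1 hx
  obtain ⟨h1, h2⟩ := gen (m := finrank O⟮τ⟯ F) hx' b' (IntermediateField.lift_injective E (by
    rw [IntermediateField.lift_adjoin, IntermediateField.lift_top, Set.image_union,
      Set.image_singleton, ← Set.range_comp]
    rfl)) fun j => by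
      obtain ⟨g, h1, h2, h3⟩ := hb' j
      refine ⟨g, h1, h2, (algebraMap E D).injective ?_⟩
      rw [Polynomial.hom_eval₂, map_zero, ← h3]
      exact congrArg (fun f => eval₂ f (b j) g)
        (RingHom.ext fun r => (aeval_algebraMap_apply D x' r).symm)
  refine ⟨R, k, E, D, inferInstance, inferInstance, p, ⟨CharP.char_is_prime κ p⟩, inferInstance,
    inferInstance, inferInstance, inferInstance, h1, π, algebraMap E D, P, x', b',
    fun a ha => hR (Or.inl ha), fun r => ?_, ?_, hx', hb, fun t ht => ?_, h2⟩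
  · rw [← IsScalarTower.algebraMap_apply]
    simpa [i, φ] using hP (C r)
  · simpa [i, φ] using hP X
  · obtain ⟨c, hc, -⟩ := key t (Or.inr (Or.inl ht))
    obtain ⟨c', hc', -⟩ := key t⁻¹ (Or.inr (Or.inr ⟨t, ht, rfl⟩))
    have h3 := hc.mul hc'
    rw [mul_inv_cancel₀ fun h => h0 (h ▸ ht)] at h3
    exact hc.val_eq_one_iff.2 (left_ne_zero_of_mul_eq_one (h3.unique Plc.to_one))

end Pool.Agent.Lib.UR.M
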