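import Pool.Agent.Lib.UR.MBlue
import Pool.Agent.Lib.MP_7fcda1_ag.Rk
import Pool.Agent.Lib.MP_e06174_ag.Ruled

/-! One parameter too many can be specialised. -/

noncomputable section

namespace Pool.Agent.Lib.UR.M

open Pool.Agent.Lib.MP_7fcda1_ag

namespace RUL

theorem rk_univ {k E : Type} [Field k] [Field E] [Algebra k E] {n : ℕ}
    (h : Algebra.trdeg k E = n) : rk k (Set.univ : Set E) = n := by
  have h1 := (AlgebraicIndependent.matroid k E).toENat_cRank_eq
  rw [AlgebraicIndependent.matroid_cRank_eq, h, Cardinal.toENat_nat] at h1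
  rw [h1, ← Matroid.eRk_ground]
  rfl

theorem rk_range {k E E' : Type} [Field k] [Field E] [Algebra k E] [Field E'] [Algebra k E']
    {n : ℕ} (h : Algebra.trdeg k E = n) (φ : E →ₐ[k] E') : rk k (Set.range φ) = n := by
  rw [← Set.image_univ, rk_image, rk_univ h]

theorem ex_tr {L Ω : Type} [Field L] [Field Ω] [IsAlgClosed Ω] [Algebra ℂ L] [Algebra ℂ Ω] {n : ℕ}
    (σ : L →ₐ[ℂ] RatFunc Ω) {η : L} (hL : Algebra.trdeg ℂ L = n) (hΩ : Algebra.trdeg ℂ Ω = n)
    (hη : σ η ∉ (algebraMap Ω (RatFunc Ω)).range) : ∃ m : Ω, ∀ p : Polynomial L,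
      p.eval₂ (σ : L →+* RatFunc Ω) (algebraMap Ω (RatFunc Ω) m) = 0 → p = 0 := by
  by_contra h
  push Not at h
  let ι := IsScalarTower.toAlgHom ℂ Ω (RatFunc Ω)
  let _ : Algebra L (RatFunc Ω) := (σ : L →+* RatFunc Ω).toAlgebra
  have h1 : rk ℂ (Set.range σ ∪ Set.range ι) ≤ rk ℂ (Set.range ι) := by
    rw [rk_range hΩ, ← rk_range hL σ]
    refine rk_le_of_alg ?_
    rintro _ (⟨a, rfl⟩ | ⟨m, rfl⟩)
    · exact isAlgebraic_algebraMap (⟨σ a, IntermediateField.subset_adjoin ℂ _ ⟨a, rfl⟩⟩ :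
        IntermediateField.adjoin ℂ (Set.range σ))
    · obtain ⟨p, p1, p0⟩ := h m
      exact Rk_alg_of_subset (A := L) (σ : L →+* RatFunc Ω).injective
        (fun x => ⟨⟨σ x, IntermediateField.subset_adjoin ℂ _ ⟨x, rfl⟩⟩, rfl⟩) ⟨p, p0, p1⟩
  have h2 := alg_of_rk (by rw [rk_range hΩ]; exact ENat.natCast_ne_top n) h1 (σ η) ⟨η, rfl⟩
  have h3 : IsAlgebraic Ω (σ η) := Rk_alg_of_subset Subtype.val_injective (fun x => by
    have : IntermediateField.adjoin ℂ (Set.range ι) ≤ ι.fieldRange :=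
      IntermediateField.adjoin_le_iff.2 fun _ a => a
    exact this x.2) h2
  exact hη (minpoly.mem_range_of_degree_eq_one Ω _
    (IsAlgClosed.degree_eq_one_of_irreducible Ω (minpoly.irreducible h3.isIntegral)))

theorem ex_basis {k E : Type} [Field k] [Field E] [Algebra k E] {K : Set E} {n : ℕ}
    (h : rk k K ≤ n) : ∃ y : Fin n → E, ∀ a ∈ K,
      IsAlgebraic (IntermediateField.adjoin k (Set.range y)) a := by
  obtain ⟨j, hj⟩ := ENat.ne_top_iff_exists.1 (ne_top_of_le_ne_top (ENat.natCast_ne_top n) h)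
  obtain ⟨w, w1, w2⟩ := exists_indep hj.le
  have e : rk k (Set.range w) = j := by rw [rk_range_indep w2, Fintype.card_fin]
  have h1 := alg_of_rk (S := K) (T := Set.range w) (by rw [e]; exact ENat.natCast_ne_top j) (by
    rw [e, hj, Set.union_eq_left.2 (Set.range_subset_iff.2 w1)])
  have jn : j ≤ n := by exact_mod_cast hj.le.trans h
  refine ⟨fun i => if a : (i : ℕ) < j then w ⟨i, a⟩ else 0, fun a ha => Rk_mem_cl.1
    (Matroid.closure_subset_closure _ ?_ (Rk_mem_cl.2 (h1 a ha)))⟩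
  rintro _ ⟨i, rfl⟩
  exact ⟨⟨i, i.2.trans_le jn⟩, dif_pos i.2⟩

end RUL

open RUL in
theorem st_rul (hG : St_GAU) : St_RUL := by
  intro L Ω _ _ _ _ _ n S σ η hS hT hL hΩ hη
  obtain ⟨m, hm⟩ := ex_tr σ hL hΩ hη
  let D := AlgebraicClosure L
  let φ := IsScalarTower.toAlgHom ℂ L D
  let ι := IsScalarTower.toAlgHom ℂ Ω (RatFunc Ω)
  obtain ⟨P, hP⟩ := exists_plc_of_hom
    (Polynomial.eval₂RingHom (σ : L →+* RatFunc Ω) (algebraMap Ω (RatFunc Ω) m))
    (Polynomial.eval₂RingHom (algebraMap L D) 0) fun r hr => by rw [hm r hr, map_zero]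
  have h1 : ∀ a, P.To (σ a) (φ a) := fun a => by simpa [φ] using hP (Polynomial.C a)
  have h2 : P.To (ι m) 0 := by simpa [ι] using hP Polynomial.X
  have h3 : ι m ≠ 0 := fun e => Polynomial.X_ne_zero (hm _ (by simpa using e))
  have h4 : P.Over ℂ := fun c => by
    have := h1 (algebraMap ℂ L c)
    rwa [AlgHom.commutes, AlgHom.commutes] at this
  let K : Set D := {b | ∃ a : Ω, P.To (ι a) b}
  have h5 : rk ℂ K < n := by
    let z : {a : Ω // ι a ∈ P.V} → RatFunc Ω := fun a => ι a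
    let z' : {a : Ω // ι a ∈ P.V} → D := fun a => P.ρ ⟨_, a.2⟩
    have hz : ∀ a, P.To (z a) (z' a) := fun a => ⟨a.2, rfl⟩
    have a1 : rk ℂ (Set.range z) ≤ n := by
      rw [← rk_range hΩ ι]
      exact rk_mono (Set.range_subset_iff.2 fun a => ⟨a, rfl⟩)
    refine (rk_mono (T := Set.range z') ?_).trans_lt ((rk_hom_lt
      (ne_top_of_le_ne_top (ENat.natCast_ne_top n) a1) (fun f hf => ?_)
      (g := MvPolynomial.X ⟨m, h2.1⟩) ?_ ?_).trans_le a1)
    · rintro b ⟨a, ha, rfl⟩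
      exact ⟨⟨a, ha⟩, rfl⟩
    · have := Plc.To.aeval h4 hz f
      rw [hf] at this
      exact this.unique Plc.to_zero
    · rwa [MvPolynomial.aeval_X]
    · rw [MvPolynomial.aeval_X]; exact h2.2
  obtain ⟨u, hu⟩ := hG Ω D P K (fun _ => Iff.rfl) (by
    by_contra h
    push Not at h
    refine h5.not_ge ?_
    rw [← rk_range hL φ]
    exact rk_mono (Set.range_subset_iff.2 fun a => h _ _ (h1 a)))
  obtain _ | n := n
  · simp at h5
  obtain ⟨y, hy⟩ := ex_basis (k := ℂ) (K := K) (n := n)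
    (Order.le_of_lt_add_one (by exact_mod_cast h5))
  have h6 : ∀ a, ∃ T : Finset D, (T : Set D) ⊆ K ∪ {u} ∧
      φ a ∈ IntermediateField.adjoin ℂ (T : Set D) := fun a =>
    IntermediateField.exists_finset_of_mem_adjoin
      (Subfield.closure_mono Set.subset_union_right (hu _ _ (h1 a)))
  choose T T1 T2 using h6
  refine MP_e06174_ag.uniruled_of_adjoin φ hL y ((⋃ a ∈ S, (T a : Set D)) ∩ K)
    ((hS.biUnion fun a _ => (T a).finite_toSet).inter_of_left _) (fun a ha => hy a ha.2) u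
    fun x => ?_
  have : IntermediateField.adjoin ℂ S ≤ (IntermediateField.adjoin ℂ
      (Set.range y ∪ (⋃ a ∈ S, (T a : Set D)) ∩ K ∪ {u})).comap φ :=
    IntermediateField.adjoin_le_iff.2 fun a ha =>
      IntermediateField.adjoin.mono ℂ _ _ (fun b hb => (T1 a hb).imp_left fun c =>
        Or.inr ⟨Set.mem_biUnion ha hb, c⟩) (T2 a)
  exact this (hT ▸ IntermediateField.mem_top)

end Pool.Agent.Lib.UR.M
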