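import Pool.Agent.Lib.UR.MBlue

/-! From coefficient functionals to points with values in any algebra. -/

open MvPolynomial Module

noncomputable section

namespace Pool.Agent.Lib.UR.M

theorem st_sem : St_SEM := by
  intro k O E σ T _ _ _ _ _ _ _ i W 𝔭 α β hi h𝔭 hβ
  classical
  obtain ⟨r, hr⟩ := LinearMap.exists_leftInverse_of_injective i.toLinearMap
    (LinearMap.ker_eq_bot.2 hi)
  have hr' : ∀ x, r (i x) = x := fun x => LinearMap.congr_fun hr x
  let b := Basis.ofVectorSpace k O
  let F := W.support.biUnion fun a => (b.repr (coeff a W)).support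
  have hm : ∀ (a : σ →₀ ℕ) (c : k),
      β (monomial a c) = c • a.prod fun t n => β (X t) ^ n := by
    intro a c
    rw [monomial_eq, map_mul, ← MvPolynomial.algebraMap_eq, β.commutes, ← Algebra.smul_def,
      map_finsuppProd]
    simp only [map_pow]
  have hz : ∀ ν, ∑ a ∈ W.support, b.repr (coeff a W) ν • (a.prod fun t n => β (X t) ^ n) = 0 := by
    intro ν
    have h1 : (∑ a ∈ W.support, monomial a (b.repr (coeff a W) ν)) ∈ 𝔭 := by
      refine h𝔭 ((b.coord ν).comp r) _ fun a => ?_
      rw [LinearMap.comp_apply, hr', Basis.coord_apply, coeff_sum]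
      simp only [coeff_monomial]
      rw [Finset.sum_ite_eq']
      split_ifs with h
      · rfl
      · rw [notMem_support_iff.1 h, map_zero, Finsupp.zero_apply]
    have h2 := hβ _ h1
    rw [map_sum] at h2
    simpa only [hm] using h2
  have hc : ∀ a ∈ W.support, α (coeff a W) = ∑ ν ∈ F, b.repr (coeff a W) ν • α (b ν) := by
    intro a ha
    have h1 : coeff a W = ∑ ν ∈ F, b.repr (coeff a W) ν • b ν := by
      conv_lhs => rw [← b.linearCombination_repr (coeff a W)]
      rw [Finsupp.linearCombination_apply]
      exact Finsupp.sum_of_support_subset _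
        (Finset.subset_biUnion_of_mem (fun a => (b.repr (coeff a W)).support) ha) _
        fun ν _ => zero_smul _ _
    conv_lhs => rw [h1]
    simp only [map_sum, map_smul]
  rw [eval₂_eq]
  have h3 : ∀ a ∈ W.support, (α : O →+* T) (coeff a W) * ∏ t ∈ a.support, β (X t) ^ a t =
      ∑ ν ∈ F, α (b ν) * (b.repr (coeff a W) ν • (a.prod fun t n => β (X t) ^ n)) := by
    intro a ha
    rw [RingHom.coe_coe, hc a ha, Finset.sum_mul]
    refine Finset.sum_congr rfl fun ν _ => ?_
    rw [smul_mul_assoc, mul_smul_comm]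
    rfl
  rw [Finset.sum_congr rfl h3, Finset.sum_comm]
  refine Finset.sum_eq_zero fun ν _ => ?_
  rw [← Finset.mul_sum, hz, mul_zero]

end Pool.Agent.Lib.UR.M
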