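import Pool.Agent.Lib.UR.MBlue
import Pool.Agent.Lib.MP_7fcda1_ag.Def1

/-! Assembly for normalised coordinates. -/

open MvPolynomial Module

noncomputable section

namespace Pool.Agent.Lib.UR.M

open Pool.Agent.Lib.MP_7fcda1_ag

theorem st_tm0 (hUNI : St_UNI) (hJAC : St_JAC) (hTAN : St_TAN) (hPRE : St_PRE) (hDSC : St_DSC)
    (hHT1 : St_HT1) (hTRF : St_TRF) (hRCN : St_RCN) : St_TM0 := by
  intro L _ _ N n y h0 hn hy ⟨Ω, F, _, _, _, _, _, _, _, σ, x, d, hd, hlt⟩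
  by_contra hU
  obtain ⟨e, Λ, _, G, hG⟩ := exists_eqs (k := ℂ) y
  obtain ⟨h1, h2, h3⟩ := hTAN L N n y x d h0 (hy 0).2.1 hd
  obtain ⟨ρ, rfl⟩ := Nat.exists_eq_add_of_le' h2
  obtain ⟨S, hS⟩ := hJAC L Λ _ n ρ e y G hy hn rfl hG 0 L y fun g hg => by simpa [h0] using hg
  obtain ⟨Q, rfl, rfl, hQ⟩ := hPRE L Λ _ (n + 1) ρ e y G S _ h0 (hy 0).2.1 hG hS h1 rfl
    fun l a => h3 e _ (hG.hom l) (hG.zero l) a
  obtain ⟨h4, h5⟩ := hHT1 L Λ Ω F σ _ n ρ e y Q.G Q.S x d h0 hy hn rfl hG hd hS hlt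
  obtain ⟨s, Q', hs, h6, h7, h8, h9⟩ := hDSC ℂ Λ _ ρ e Q
  let R := Subring.closure s
  let φ : R →+* Ω := (algebraMap ℂ Ω).comp R.subtype
  have e1 : (algebraMap Ω F).comp φ = (algebraMap ℂ F).comp R.subtype := by
    rw [IsScalarTower.algebraMap_eq ℂ Ω F]; rfl
  have e2 : ∀ g : MvPolynomial (Fin (ρ + n + 1)) R, eval₂ ((algebraMap Ω F).comp φ)
      (fun j => σ (y j)) g = σ (eval₂ (algebraMap ℂ L) y (map R.subtype g)) := fun g => by
    rw [e1, eval₂_map]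
    refine Eq.trans ?_ (hom_eval₂ (σ : L →+* F) _ _ _).symm
    congr 1
    ext r
    simp
  have e3 : ∀ I, map R.subtype (amin Q'.G Q'.S I) = amin Q.G Q.S I := fun I => by
    refine (congrFun (pl_map (map R.subtype) _) I).symm.trans ?_
    simp only [amin, ← pderiv_map, R, h6, h7]
  have e4 : atup Q'.G Q'.S ((algebraMap Ω F).comp φ) (fun j => σ (y j)) =
      atup Q.G Q.S (algebraMap ℂ F) fun j => σ (y j) := by
    funext I
    rw [atup, atup, e1, ← e3, eval₂_map]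
  obtain ⟨D, hD⟩ := hTRF R Λ Ω F _ ρ e Q' φ (fun j => σ (y j)) (algebraMap ℂ Ω '' s) (hs.image _)
    (fun b => by
      rw [← RingHom.map_closure]
      exact ⟨b, b.2, rfl⟩)
    ⟨by rw [h0, map_one], fun l => by rw [e2, h6, hQ.zero, map_zero],
      by rw [e2, h9]; exact (map_ne_zero σ).2 hQ.del,
      by rw [atup, e2, e3, h8]; exact (map_ne_zero σ).2 hQ.min⟩ h4 (e4 ▸ h5)
  let ψ : MvPolynomial (Fin (ρ + n + 1)) R →+* AlgebraicClosure L :=
    (algebraMap L _).comp ((eval₂Hom (algebraMap ℂ L) y).comp (map R.subtype))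
  have e5 : ∀ g, ψ g = 0 ↔ eval₂ ((algebraMap Ω F).comp φ) (fun j => σ (y j)) g = 0 := fun g => by
    rw [e2, map_eq_zero σ]
    exact map_eq_zero (algebraMap L (AlgebraicClosure L))
  obtain ⟨δ, h10, h11⟩ := hRCN _ _ Λ _ (fun l => map C (Q'.G l)) X D ψ fun h => hU <| by
    refine hUNI L Λ _ n e D y Q.G h0 (hy 0).2.1 hn hG ?_
    have e6 : (fun l => map ψ (map C (Q'.G l))) =
        fun l => map (algebraMap ℂ (AlgebraicClosure L)) (Q.G l) := funext fun l => by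
      rw [← h6, map_map, map_map]
      congr 2
      ext r
      simp [ψ, IsScalarTower.algebraMap_apply ℂ L (AlgebraicClosure L)]
    have e7 : (fun j => ψ (X j)) = fun j => algebraMap L (AlgebraicClosure L) (y j) :=
      funext fun j => by simp [ψ]
    rwa [e6, e7] at h
  obtain ⟨κ, _, χ, x', h12, h13, h14⟩ := hD δ fun h => h10 ((e5 δ).2 h)
  refine h11 κ (eval₂Hom χ x') (fun b hb => h13 b ((e5 b).1 hb)) h12 ?_
  have e6 : (fun l => map (eval₂Hom χ x') (map C (Q'.G l))) = fun l => map χ (Q'.G l) :=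
    funext fun l => by
      rw [map_map]
      congr 2
      ext r
      simp
  have e7 : (fun j => eval₂Hom χ x' (X j)) = x' := funext fun j => by simp
  rwa [e6, e7]

end Pool.Agent.Lib.UR.M
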