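import Pool.Agent.Lib.UR.MBlue

/-! Transfer of the curve to positive characteristic. -/

open MvPolynomial Module
open scoped IntermediateField

noncomputable section

namespace Pool.Agent.Lib.UR.M

open Pool.Agent.Lib.MP_7fcda1_ag

theorem st_trf (hDOM : St_DOM) (hHTS : St_HTS) (hINT : St_INT) (hRED : St_RED) (hMM : St_MM) :
    St_TRF := by
  intro B Λ Ω F _ _ _ _ _ _ N ρ e Q φ Y s hs hφ hQ h0 hlt
  classical
  set φF := (algebraMap Ω F).comp φ
  set A := atup Q.G Q.S φF Y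
  set κ₀ : ℤ := ρ * e - (N + 1)
  have hY : Y ≠ 0 := fun h => one_ne_zero (hQ.one.symm.trans (congrFun h 0))
  obtain ⟨j₀, hτ⟩ := ((hHTS Ω F).2 N Y hQ.one).1 h0
  obtain ⟨c, hc⟩ := exists_RR Ω F
  obtain ⟨h1, h2⟩ := (hHTS Ω F).1 _ hτ
  set m := finrank Ω⟮Y j₀⟯ F
  obtain ⟨d, hd⟩ := Int.eq_ofNat_of_zero_le h0.le
  obtain ⟨z₀, h3, h4⟩ := (hDOM Ω F _ _ Y ![1, Y j₀] 1 (d + c + 1) hY one_pos).1 c hc (by
    rw [h1, hd]
    have : (1 : ℤ) ≤ m := by exact_mod_cast h2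
    push_cast
    nlinarith)
  obtain ⟨z, M, t, h5, h6, h7⟩ : ∃ (z : F) (M t : ℕ), z ≠ 0 ∧ 0 < M ∧ (κ₀ < 0 ∨ κ₀ * t < M ∧
      ∀ (v : Place Ω F) j, Ge v.O (t * vord v.O A) (z * Y j ^ M)) := by
    rcases lt_or_ge κ₀ 0 with h | h
    · exact ⟨1, 1, 0, one_ne_zero, one_pos, Or.inl h⟩
    obtain ⟨K, hK⟩ := Int.eq_ofNat_of_zero_le h
    obtain ⟨a, ha⟩ := Int.eq_ofNat_of_zero_le ((mul_nonneg h h0.le).trans hlt.le)
    rw [hK, hd, ha] at hlt
    have h5 : K * d < a := by exact_mod_cast hlt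
    have h6 : 0 < (K * (c + 1) + 1) * a := Nat.mul_pos (by omega) (by omega)
    obtain ⟨z, h7, h8⟩ := (hDOM Ω F _ _ Y A _ ((K * (c + 1) + 1) * d + (c + 1)) hY h6).1 c hc (by
      rw [ha, hd]
      have : (1 : ℤ) ≤ a := by exact_mod_cast (by omega : 1 ≤ a)
      push_cast
      nlinarith)
    refine ⟨z, _, _, h7, h6, Or.inr ⟨?_, h8⟩⟩
    rw [hK]
    have h9 : K * ((K * (c + 1) + 1) * d + (c + 1)) < (K * (c + 1) + 1) * a := by
      have := Nat.mul_le_mul_left (K * (c + 1) + 1) (Nat.succ_le_of_lt h5)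
      nlinarith
    exact_mod_cast h9
  choose s₀ hs₀ hs₀' using fun j => hINT Ω F _ ![1, Y j₀] _ _ fun v => h4 v j
  have h8 : ∀ j, ∃ s₁ : Set Ω, s₁.Finite ∧ ∀ (R : Subring Ω) (k E D : Type) [Field k] [Field E]
      [Field D] [Algebra k E] [IsFF k E] (π : R →+* k) (i : E →+* D) (P : Plc F D)
      (b' : (Fin ρ → Λ) → E) (u' : E), s₁ ⊆ R →
      (∀ r : R, P.To (algebraMap Ω F r) (i (algebraMap k E (π r)))) →
      (∀ I, P.To (A I) (i (b' I))) → P.To (z * Y j ^ M) (i u') → b' ≠ 0 → ¬ κ₀ < 0 →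
      ∀ w : Place k E, Ge w.O (t * vord w.O b') u' := fun j => by
    rcases h7 with h | h
    · exact ⟨∅, Set.finite_empty, fun _ _ _ _ _ _ _ _ _ _ _ _ _ _ _ _ _ _ _ h' => absurd h h'⟩
    · obtain ⟨s₁, h8, h9⟩ := hINT Ω F _ A _ _ fun v => h.2 v j
      exact ⟨s₁, h8, fun R k E D _ _ _ _ _ π i P b' u' a1 a2 a3 a4 a5 _ =>
        h9 R k E D π i P b' u' a1 a2 a3 a4 a5⟩
  choose s₁ hs₁ hs₁' using h8
  refine ⟨2 * (N + 2) * ((d + c + 1) * m ^ Nat.card (Fin (N + 1) ⊕ Bool)), fun g₀ hg₀ => ?_⟩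
  obtain ⟨R, k, E, D, _, _, p, _, _, _, _, _, _, π, i, P, τ', u', a1, a2, a3, a4, a5, a6, a7⟩ :=
    hRED Ω F (Fin (N + 1) ⊕ Bool) (Y j₀) (Sum.elim Y fun b => cond b z z₀)
      (s ∪ (⋃ j, s₀ j) ∪ ⋃ j, s₁ j) {z, z₀, eval₂ φF Y Q.δ, A Q.I, eval₂ φF Y g₀} hτ
      ((hs.union (Set.finite_iUnion hs₀)).union (Set.finite_iUnion hs₁)) (Set.toFinite _) (by
        simp only [Set.mem_insert_iff, Set.mem_singleton_iff, not_or]
        exact ⟨h5.symm, h3.symm, hQ.del.symm, hQ.min.symm, hg₀.symm⟩)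
  let φ' : B →+* k := π.comp (φ.codRestrict R fun b =>
    Subring.closure_le.2 ((Set.subset_union_left.trans Set.subset_union_left).trans a1) (hφ b))
  let Y' : Fin (N + 1) → E := fun j => u' (.inl j)
  have b1 : ∀ g, P.To (eval₂ φF Y g) (i (eval₂ ((algebraMap k E).comp φ') Y' g)) := fun g => by
    rw [hom_eval₂]
    exact to_eval₂ (fun b => a2 ⟨φ b, _⟩) (fun j => a5 (.inl j)) g
  have b2 : ∀ {a : F} {a' : E}, P.To a (i a') → P.V.valuation a = 1 → a' ≠ 0 := fun h h' h'' =>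
    h.val_eq_one_iff.1 h' (by rw [h'', map_zero])
  have b3 : ∀ g, eval₂ φF Y g = 0 → eval₂ ((algebraMap k E).comp φ') Y' g = 0 := fun g hg =>
    (map_eq_zero i).1 ((b1 g).unique (hg ▸ Plc.to_zero))
  have b4 : Y' 0 = 1 := i.injective ((a5 (.inl 0)).unique (by
    rw [map_one, Sum.elim_inl, hQ.one]
    exact Plc.to_one))
  have hQ' : Q.At ((algebraMap k E).comp φ') Y' := ⟨b4, fun l => b3 _ (hQ.zero l),
    b2 (b1 _) (a6 _ (by simp)), b2 (b1 _) (a6 (A Q.I) (by simp))⟩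
  have hY' : Y' ≠ 0 := fun h => one_ne_zero (b4.symm.trans (congrFun h 0))
  have b5 : Y' j₀ = τ' := i.injective ((a5 (.inl j₀)).unique a3)
  have b6 : 0 < ht k Y' := ((hHTS k E).2 N Y' b4).2 ⟨j₀, b5 ▸ a4⟩
  have b7 := (hDOM k E _ _ Y' ![1, τ'] 1 (d + c + 1) hY' one_pos).2 (u' (.inr false))
    (b2 (a5 (.inr false)) (a6 z₀ (by simp))) fun w j => hs₀' j R k E D π i P ![1, τ'] _
      (((Set.subset_iUnion s₀ j).trans (Set.subset_union_right.trans Set.subset_union_left)).trans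
        a1) a2 (Fin.forall_fin_two.2 ⟨by simpa using Plc.to_one, a3⟩)
      (by rw [map_mul, map_pow]; exact (a5 (.inr false)).mul ((a5 (.inl j)).pow 1))
      (fun h => one_ne_zero (congrFun h 0)) w
  rw [((hHTS k E).1 _ a4).1] at b7
  obtain ⟨κ, _, χ, x, c1, c2, c3⟩ := hMM B Λ k E p N ρ e Q φ' Y' g₀
    ((d + c + 1) * m ^ Nat.card (Fin (N + 1) ⊕ Bool)) hQ' b6 (by
      have : ((d + c + 1 : ℕ) : ℤ) * finrank k⟮τ'⟯ E ≤
          ((d + c + 1) * m ^ Nat.card (Fin (N + 1) ⊕ Bool) : ℕ) := by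
        exact_mod_cast Nat.mul_le_mul_left (d + c + 1) a7
      simp only [Nat.cast_one, one_mul] at b7
      exact b7.trans this) (by
      have b8 : 0 ≤ ht k (atup Q.G Q.S ((algebraMap k E).comp φ') Y') :=
        neg_nonneg.2 (degD_vdiv_nonpos _)
      by_cases h : κ₀ < 0
      · exact (mul_neg_of_neg_of_pos h b6).trans_le b8
      have b9 := (hDOM k E _ _ Y' (atup Q.G Q.S ((algebraMap k E).comp φ') Y') M t hY' h6).2
        (u' (.inr true)) (b2 (a5 (.inr true)) (a6 z (by simp))) fun w j =>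
          hs₁' j R k E D π i P _ _ (((Set.subset_iUnion s₁ j).trans Set.subset_union_right).trans
            a1) a2 (fun I => b1 _)
            (by rw [map_mul, map_pow]; exact (a5 (.inr true)).mul ((a5 (.inl j)).pow M))
            (fun h => hQ'.min (congrFun h _)) h w
      have b10 := (h7.resolve_left h).1
      have b11 : (0 : ℤ) < M := by exact_mod_cast h6
      have b12 := not_lt.1 h
      by_contra b13
      have b14 := not_lt.1 b13
      change _ ≤ κ₀ * _ at b14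
      have : (0 : ℤ) ≤ t := by positivity
      nlinarith [mul_le_mul_of_nonneg_left b14 this, mul_lt_mul_of_pos_right b10 b6])
    (b2 (b1 _) (a6 _ (by simp)))
  exact ⟨κ, inferInstance, χ, x, c1, fun g hg => c2 g (b3 g hg), c3⟩

end Pool.Agent.Lib.UR.M
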