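import Pool.Agent.Lib.UR.MBlue
import Pool.Agent.Lib.MP_7fcda1_ag.Def1

/-! A rational curve through the generic point gives uniruledness. -/

open MvPolynomial Module

noncomputable section

namespace Pool.Agent.Lib.UR.M

open Pool.Agent.Lib.MP_7fcda1_ag

theorem st_uni (h : St_RUL) : St_UNI := by
  intro L Λ _ _ N n e D y G h0 hfr hn hG ⟨P, _, hP, hP0, j₁, j₂, hne⟩
  beta_reduce at hP hP0 hne
  let Ω := AlgebraicClosure L
  have hy : (fun j => y j / y 0) = y := by funext j; rw [h0, div_one]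
  have h1 : P 0 ≠ 0 := fun h1 => by
    have := hP0 0
    rw [h1, h0, map_one, Polynomial.coeff_zero] at this
    exact zero_ne_one this
  let a : Polynomial Ω →ₐ[ℂ] RatFunc Ω := IsScalarTower.toAlgHom ℂ _ _
  have ha : Function.Injective a := IsFractionRing.injective (Polynomial Ω) (RatFunc Ω)
  have h2 : a (P 0) ≠ 0 := (map_ne_zero_iff _ ha).2 h1
  let ξ : Fin (N + 1) → RatFunc Ω := fun j => a (P j) / a (P 0)
  have hξ0 : ξ 0 = 1 := div_self h2
  have hhom : ∀ (g : MvPolynomial (Fin (N + 1)) ℂ) (d : ℕ), g.IsHomogeneous d →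
      a (aeval P g) = a (P 0) ^ d * aeval ξ g := fun g d hg => by
    rw [← Def1.aeval_hom hg, ← AlgHom.comp_apply, comp_aeval]
    simp only [ξ, mul_div_cancel₀ _ h2]
  have hker : ∀ f : MvPolynomial (Fin (N + 1)) ℂ, aeval y f = 0 ↔ aeval ξ f = 0 := fun f => by
    refine ⟨fun hf => ?_, fun hf => ?_⟩
    · have h3 : Ideal.span (Set.range G) ⊔ Ideal.span {X 0 - 1} ≤
          RingHom.ker (aeval ξ : MvPolynomial (Fin (N + 1)) ℂ →ₐ[ℂ] RatFunc Ω) := by
        refine sup_le (Ideal.span_le.2 ?_) ((Ideal.span_singleton_le_iff_mem _).2 ?_)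
        · rintro _ ⟨l, rfl⟩
          have h4 := hhom _ _ (hG.hom l)
          have h5 := hP l
          rw [aeval_map_algebraMap] at h5
          rw [h5, map_zero] at h4
          exact (mul_eq_zero.1 h4.symm).resolve_left (pow_ne_zero _ h2)
        · rw [RingHom.mem_ker, map_sub, aeval_X, hξ0, map_one, sub_self]
      exact h3 (hG.chart (by rw [h0]; exact one_ne_zero) (by rw [hy]; exact hf))
    · obtain ⟨g, hg, hgf⟩ := exists_homog 0 f le_rfl
      obtain ⟨q, hq⟩ := Ideal.mem_span_singleton'.1 hgf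
      have h3 := congrArg (aeval ξ) hq
      have h4 := congrArg (aeval y) hq
      simp only [map_mul, map_sub, aeval_X, map_one, hξ0, h0, sub_self, mul_zero, hf,
        sub_zero] at h3 h4
      have h5 := hhom g _ hg
      rw [← h3, mul_zero, map_eq_zero_iff _ ha] at h5
      have h6 := congrArg ((Polynomial.aeval (0 : Ω)).restrictScalars ℂ) h5
      rw [← AlgHom.comp_apply, comp_aeval, map_zero] at h6
      have h7 : (fun j => ((Polynomial.aeval (0 : Ω)).restrictScalars ℂ) (P j)) =
          fun j => algebraMap L Ω (y j) := funext fun j => by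
        rw [← hP0 j, Polynomial.coeff_zero_eq_aeval_zero]
        rfl
      rw [h7] at h6
      rw [← sub_eq_zero.1 h4.symm]
      exact (map_eq_zero (algebraMap L Ω)).1 ((aeval_algebraMap_apply Ω y g).symm.trans h6)
  let z : Fin (N + 1) → GD.chart y 0 := fun j => ⟨y j / y 0, Algebra.subset_adjoin ⟨j, rfl⟩⟩
  have hv : ∀ f : MvPolynomial (Fin (N + 1)) ℂ,
      ((aeval z f : GD.chart y 0) : L) = aeval y f := fun f =>
    (aeval_algebraMap_apply L z f).symm.trans (congrArg (fun w => aeval w f) hy)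
  have hz : Function.Surjective (aeval z : MvPolynomial (Fin (N + 1)) ℂ →ₐ[ℂ] GD.chart y 0) := by
    rintro ⟨b, hb⟩
    rw [GD.chart, Algebra.adjoin_range_eq_range_aeval, hy] at hb
    obtain ⟨f, rfl⟩ := hb
    exact ⟨f, Subtype.ext (hv f)⟩
  let ε : GD.chart y 0 →ₐ[ℂ] RatFunc Ω := AlgHom.liftOfSurjective (aeval z) hz (aeval ξ)
    fun f hf => (hker f).1 (by
      have h3 : aeval z f = 0 := hf
      rw [← hv, h3]; rfl)
  have hε : ∀ f, ε (aeval z f) = aeval ξ f := fun f => AlgHom.liftOfSurjective_apply _ _ _ _ f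
  have hεi : Function.Injective ε := (injective_iff_map_eq_zero ε).2 fun b hb => by
    obtain ⟨f, rfl⟩ := hz b
    exact Subtype.ext ((hv f).trans ((hker f).2 ((hε f).symm.trans hb)))
  let σ : L →ₐ[ℂ] RatFunc Ω := IsFractionRing.liftAlgHom hεi
  have hσ : ∀ j, σ (y j) = ξ j := fun j => by
    have h3 : σ (algebraMap _ L (z j)) = ε (z j) := IsFractionRing.lift_algebraMap hεi _
    have h4 := hε (X j)
    rw [aeval_X, aeval_X] at h4
    rw [← h4, ← h3]
    exact congrArg σ (congrFun hy j).symm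
  have hΩ : Algebra.trdeg ℂ Ω = n := by
    rw [← trdeg_add_eq ℂ L (A := Ω), hn, trdeg_eq_zero (R := L) (A := Ω), add_zero]
  have hS : IntermediateField.adjoin ℂ (Set.range y) = ⊤ := by
    refine eq_top_iff.2 fun c _ => ?_
    obtain ⟨b, b', -, rfl⟩ := IsFractionRing.div_surjective (A := GD.chart y 0) c
    have h3 : ∀ b : GD.chart y 0, algebraMap _ L b ∈ IntermediateField.adjoin ℂ (Set.range y) :=
      fun b => IntermediateField.algebra_adjoin_le_adjoin ℂ _ (by
        have h4 : (b : L) ∈ Algebra.adjoin ℂ (Set.range fun j => y j / y 0) := b.2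
        rwa [hy] at h4)
    exact div_mem (h3 b) (h3 b')
  by_contra hU
  have h3 : ∀ j, P j = Polynomial.C (algebraMap L Ω (y j)) * P 0 := fun j => by
    obtain ⟨c, hc⟩ : σ (y j) ∈ (algebraMap Ω (RatFunc Ω)).range := by
      by_contra hc
      exact hU (h L Ω n _ σ (y j) (Set.finite_range y) hS hn hΩ hc)
    have h4 : P j = Polynomial.C c * P 0 := ha (by
      rw [map_mul, show a (Polynomial.C c) = ξ j from hc.trans (hσ j), div_mul_cancel₀ _ h2])
    have h5 := hP0 j
    rw [h4, Polynomial.coeff_C_mul, hP0 0, h0, map_one, mul_one] at h5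
    rw [← h5]
    exact h4
  refine hne ?_
  rw [h3 j₁, h3 j₂]
  exact mul_left_comm _ _ _

end Pool.Agent.Lib.UR.M
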