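import Pool.Agent.Lib.UR.MBlue
import Pool.Agent.Lib.MP_7fcda1_ag.Plc2a

open Polynomial

noncomputable section

namespace Pool.Agent.Lib.UR.M

open Pool.Agent.Lib.MP_7fcda1_ag

namespace WALK

variable {Ω κ ι : Type} [Field Ω] [IsAlgClosed Ω] [Field κ] (P : Plc Ω κ)

/-- A polynomial with non-constant reduction has a root in the valuation ring. -/
theorem root {q : Polynomial κ} (hq : 0 < q.natDegree) (n : ℕ) :
    ∀ p : Polynomial Ω, p.natDegree = n → Plc2PT P p q → ∃ s ∈ P.V, p.eval s = 0 := by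
  induction n using Nat.strong_induction_on with
  | _ n ih =>
    intro p hn h
    have hq0 : q ≠ 0 := by
      rintro rfl
      simp at hq
    have h1 : 0 < p.natDegree :=
      hq.trans_le (le_natDegree_of_ne_zero ((h _).ne_zero (leadingCoeff_ne_zero.2 hq0)))
    obtain ⟨a, ha⟩ := IsAlgClosed.exists_root p (natDegree_pos_iff_degree_pos.1 h1).ne'
    by_cases hV : a ∈ P.V
    · exact ⟨a, hV, ha⟩
    have ha0 : a ≠ 0 := fun e => hV (e ▸ zero_mem _)
    have hi : P.To a⁻¹ 0 := by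
      rw [Plc.to_zero_iff, map_inv₀]
      exact inv_lt_one_of_one_lt₀ (not_le.1 fun e => hV ((P.V.valuation_le_one_iff a).1 e))
    obtain ⟨p₁, hp₁⟩ := dvd_iff_isRoot.2 ha
    have hp0 : p₁ ≠ 0 := by
      rintro rfl
      rw [hp₁] at h1
      simp at h1
    have e : C (-a) * p₁ = p + C a⁻¹ * (X * (C (-a) * p₁)) := by
      have e1 : (C a⁻¹ * C a : Polynomial Ω) = 1 := by rw [← C_mul, inv_mul_cancel₀ ha0, C_1]
      rw [hp₁, C_neg]
      linear_combination (X * p₁) * e1
    have h2 : Plc2PT P (C (-a) * p₁) q := by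
      intro l
      induction l with
      | zero =>
        rw [e, coeff_add, coeff_C_mul, coeff_X_mul_zero, mul_zero, add_zero]
        exact h 0
      | succ l ihl =>
        rw [e, coeff_add, coeff_C_mul, coeff_X_mul]
        simpa using (h (l + 1)).add (hi.mul ihl)
    have h3 : (C (-a) * p₁).natDegree < n := by
      rw [← hn, hp₁, natDegree_mul (X_sub_C_ne_zero a) hp0, natDegree_X_sub_C]
      exact (natDegree_C_mul_le _ _).trans_lt (by omega)
    obtain ⟨s, hs, h4⟩ := ih _ h3 _ rfl h2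
    refine ⟨s, hs, ?_⟩
    rw [eval_mul, eval_C] at h4
    rw [hp₁, eval_mul, (mul_eq_zero.1 h4).resolve_left (neg_ne_zero.2 ha0), mul_zero]

/-- The next slope of the Newton polygon. -/
theorem slope [Finite ι] (b : ι → ℕ → Ω) {n : ℕ} (hn : 0 < n) (h0 : ∃ j, b j 0 ≠ 0)
    (hlt : ∀ j l, l < n → P.V.valuation (b j l) < 1) :
    ∃ γ : Ω, γ ≠ 0 ∧ P.V.valuation γ < 1 ∧
      (∀ j l, l < n → P.V.valuation (b j l) ≤ P.V.valuation γ ^ (n - l)) ∧
      ∃ j l, l < n ∧ b j l = γ ^ (n - l) := by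
  obtain ⟨j₁, hj₁⟩ := h0
  choose f hf using fun q : ι × Fin n =>
    IsAlgClosed.exists_pow_nat_eq (b q.1 q.2) (Nat.sub_pos_of_lt q.2.2)
  have : Nonempty (ι × Fin n) := ⟨(j₁, ⟨0, hn⟩)⟩
  obtain ⟨q, hq⟩ := Finite.exists_max fun q => P.V.valuation (f q)
  have h1 : ∀ j l, l < n → P.V.valuation (b j l) ≤ P.V.valuation (f q) ^ (n - l) := by
    intro j l hl
    rw [← hf (j, ⟨l, hl⟩), map_pow]
    exact pow_le_pow_left₀ zero_le (hq _) _
  refine ⟨f q, fun e => hj₁ ?_, ?_, h1, q.1, q.2, q.2.2, (hf q).symm⟩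
  · have := h1 j₁ 0 hn
    rw [e, map_zero, Nat.sub_zero, zero_pow hn.ne', le_zero_iff] at this
    simpa using this
  · have := hlt q.1 q.2 q.2.2
    rw [← hf q, map_pow] at this
    exact not_le.1 fun e => this.not_ge (one_le_pow₀ e)

theorem walk [Finite ι] {x : ι → κ} {j₀ : ι} (hx : x j₀ ≠ 0) {w : ι → Polynomial Ω}
    (hw0 : (w j₀).coeff 0 = 0) (hw1 : ∃ j, (w j).coeff 0 ≠ 0) {Good : (ι → Polynomial κ) → Prop}
    (hG : ∀ r ∈ P.V, r ≠ 0 → ∀ π, P.In w r π → Good π) (n : ℕ) :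
    ∀ r ∈ P.V, r ≠ 0 → ∀ π, P.In w r π → (∀ j j', C (x j) * π j' = C (x j') * π j) →
      (π j₀).coeff n ≠ 0 → ∃ (π' : ι → Polynomial κ) (d : ℕ) (c : κ), Good π' ∧ d ≤ n ∧
        (∀ j, (π' j).natDegree ≤ d) ∧ c ≠ 0 ∧ (∀ j, (π' j).coeff d = c * x j) ∧
        ∃ j j', C (x j) * π' j' ≠ C (x j') * π' j := by
  induction n using Nat.strong_induction_on with
  | _ n ih =>
    intro r hr hr0 π hπ hg hn
    by_cases hlow : ∃ l < n, (π j₀).coeff l ≠ 0
    · obtain ⟨l, hl, h⟩ := hlow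
      obtain ⟨π', d, c, h1, h2, h3⟩ := ih l hl r hr hr0 π hπ hg h
      exact ⟨π', d, c, h1, h2.trans hl.le, h3⟩
    have hco : ∀ {π : ι → Polynomial κ}, (∀ j j', C (x j) * π j' = C (x j') * π j) → ∀ j l,
        (π j).coeff l = (π j₀).coeff l / x j₀ * x j := fun {π} hg j l => by
      have := congrArg (fun p => p.coeff l) (hg j₀ j)
      simp only [coeff_C_mul] at this
      field_simp
      linear_combination this
    have hn0 : 0 < n := Nat.pos_of_ne_zero fun e => hn (e ▸ Plc2_in_zero hπ hw0)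
    obtain ⟨-, μ, hμ⟩ := hπ
    have hμ0 : μ ≠ 0 := left_ne_zero_of_mul (left_ne_zero_of_mul ((hμ j₀ n).ne_zero hn))
    obtain ⟨γ, h0, h1, h2, j₁, l₁, h3, h4⟩ :=
      slope P (fun j l => μ * (w j).coeff l * r ^ l) hn0
        (hw1.imp fun j hj => by simpa [hμ0] using hj) fun j l hl => by
          have e : (π j₀).coeff l = 0 := by_contra fun e => hlow ⟨l, hl, e⟩
          have := hμ j l
          rw [hco hg j l, e, zero_div, zero_mul] at this
          exact Plc.to_zero_iff.1 this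
    have hv : 0 < P.V.valuation γ := zero_lt_iff.2 (by simpa using h0)
    have hγ : P.To γ 0 := Plc.to_zero_iff.2 h1
    have elo : ∀ j l, l ≤ n → μ / γ ^ n * (w j).coeff l * (r * γ) ^ l =
        μ * (w j).coeff l * r ^ l / γ ^ (n - l) := fun j l hl => by
      obtain ⟨m, rfl⟩ := Nat.exists_eq_add_of_le hl
      rw [Nat.add_sub_cancel_left]
      field_simp
      ring
    have ehi : ∀ j m, μ / γ ^ n * (w j).coeff (n + m) * (r * γ) ^ (n + m) =
        μ * (w j).coeff (n + m) * r ^ (n + m) * γ ^ m := fun j m => by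
      field_simp
      ring
    have hto : ∀ j l, ∃ z, P.To (μ / γ ^ n * (w j).coeff l * (r * γ) ^ l) z ∧
        (n < l → z = 0) ∧ (l = n → z = (π j).coeff n) := fun j l => by
      rcases lt_trichotomy l n with h | rfl | h
      · refine ⟨_, ⟨?_, rfl⟩, fun e => (lt_asymm h e).elim, fun e => (h.ne e).elim⟩
        rw [elo j l h.le, ← P.V.valuation_le_one_iff, map_div₀, map_pow]
        exact div_le_one_of_le₀ (h2 j l h) zero_le
      · refine ⟨_, ?_, fun e => (lt_irrefl _ e).elim, fun _ => rfl⟩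
        rw [elo j l le_rfl, Nat.sub_self, pow_zero, div_one]
        exact hμ j l
      · obtain ⟨m, rfl⟩ := Nat.exists_eq_add_of_le h.le
        refine ⟨0, ?_, fun _ => rfl, fun e => (h.ne' e).elim⟩
        have := (hμ j (n + m)).mul (hγ.pow m)
        rwa [zero_pow (by omega), mul_zero, ← ehi] at this
    choose z hz hz0 hzn using hto
    let π' : ι → Polynomial κ := fun j => ∑ l ∈ Finset.range (n + 1), monomial l (z j l)
    have hc : ∀ j l, (π' j).coeff l = z j l := fun j l => by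
      simp only [π', finsetSum_coeff, coeff_monomial, Finset.sum_ite_eq', Finset.mem_range]
      split_ifs with h
      · rfl
      · exact (hz0 j l (by omega)).symm
    have hcn : ∀ j, (π' j).coeff n = (π j).coeff n := fun j => (hc j n).trans (hzn j n rfl)
    have hin : P.In w (r * γ) π' := by
      refine ⟨fun e => hn ?_, _, fun j l => (hc j l).symm ▸ hz j l⟩
      rw [← hcn, e]
      rfl
    have hm : r * γ ∈ P.V := mul_mem hr hγ.1
    by_cases hg' : ∀ j j', C (x j) * π' j' = C (x j') * π' j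
    · have h5 := hz j₁ l₁
      rw [elo j₁ l₁ h3.le, h4, div_self (pow_ne_zero _ h0), ← hc, hco hg'] at h5
      have h6 : (π' j₀).coeff l₁ ≠ 0 := fun e => by
        rw [e, zero_div, zero_mul] at h5
        exact one_ne_zero (Plc.to_one.unique h5)
      obtain ⟨π'', d, c, h7, h8, h9⟩ := ih l₁ h3 _ hm (mul_ne_zero hr0 h0) π' hin hg' h6
      exact ⟨π'', d, c, h7, h8.trans h3.le, h9⟩
    · refine ⟨π', n, (π j₀).coeff n / x j₀, hG _ hm (mul_ne_zero hr0 h0) _ hin, le_rfl,
        fun j => natDegree_le_iff_coeff_eq_zero.2 fun l hl => (hc j l).trans (hz0 j l hl),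
        div_ne_zero hn hx, fun j => (hcn j).trans (hco hg j n), ?_⟩
      simpa only [not_forall] using hg'

end WALK

theorem st_walk : St_WALK := by
  intro Ω κ ι _ _ _ _ P W π₀ e j₀ Good h1 h2 h3 h4 h5 h6
  have h0 : π₀ j₀ ≠ 0 := fun e => h2 (by rw [e, coeff_zero])
  have hin : ∀ s t, P.To s t → P.In (fun j => (W j).comp (X + C s)) 1
      fun j => (π₀ j).comp (X + C t) := fun s t h => by
    refine ⟨fun e => h0 ?_, 1, fun j l => ?_⟩
    · have := congrFun e j₀
      rwa [Pi.zero_apply, ← taylor_apply, taylor_eq_zero] at this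
    · rw [one_mul, one_pow, mul_one]
      exact Plc2PT.comp (h1 j) (Plc2PT.X.add (Plc2PT.C h)) l
  by_cases hg : ∀ j j', C ((π₀ j).coeff 0) * π₀ j' = C ((π₀ j').coeff 0) * π₀ j
  · obtain ⟨j, hj⟩ := h4
    have hd : 0 < (π₀ j₀).natDegree := by
      rw [← natDegree_C_mul h2, hg j₀ j] at hj
      exact hj.trans_le (natDegree_C_mul_le _ _)
    obtain ⟨s, hs, hs0⟩ := WALK.root P hd _ (W j₀) rfl (h1 j₀)
    have hc : ∀ j, ((W j).comp (X + C s)).coeff 0 = (W j).eval s := fun j => by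
      rw [← taylor_apply, taylor_coeff_zero]
    obtain ⟨π, d, c, a1, a2, a3, a4, a5, a6⟩ := WALK.walk P (x := fun j => (π₀ j).coeff 0) h2
      (w := fun j => (W j).comp (X + C s)) ((hc j₀).trans hs0)
      ((h5 s hs).imp fun j hj => (hc j).symm ▸ hj) (h6 s hs) (π₀ j₀).natDegree 1 (one_mem _)
      one_ne_zero _ (hin s _ ⟨hs, rfl⟩)
      (fun j j' => by
        have := congrArg (fun p => p.comp (X + C (P.ρ ⟨s, hs⟩))) (hg j j')
        simpa only [mul_comp, C_comp] using this)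
      (by
        rw [← taylor_apply, coeff_taylor_natDegree]
        exact leadingCoeff_ne_zero.2 h0)
    exact ⟨π, d, d, c, a1, a2.trans (h3 j₀), a3, .inr rfl, a4, a5, a6⟩
  · refine ⟨π₀, e, 0, 1, ?_, le_rfl, h3, .inl rfl, one_ne_zero, fun j => (one_mul _).symm, ?_⟩
    · have := h6 0 (zero_mem _) 1 (one_mem _) one_ne_zero _ (hin 0 0 Plc.to_zero)
      simpa using this
    · simpa only [not_forall] using hg

end Pool.Agent.Lib.UR.M
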