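import Pool.Agent.Lib.UR.M_ARC
import Pool.Agent.Lib.UR.M_BPF
import Pool.Agent.Lib.UR.M_BUB
import Pool.Agent.Lib.UR.M_CNT
import Pool.Agent.Lib.UR.M_CON
import Pool.Agent.Lib.UR.M_DEF
import Pool.Agent.Lib.UR.M_DOM
import Pool.Agent.Lib.UR.M_DSC
import Pool.Agent.Lib.UR.M_EXP
import Pool.Agent.Lib.UR.M_GAU
import Pool.Agent.Lib.UR.M_HT0
import Pool.Agent.Lib.UR.M_HT1
import Pool.Agent.Lib.UR.M_HTS
import Pool.Agent.Lib.UR.M_INT
import Pool.Agent.Lib.UR.M_JAC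
import Pool.Agent.Lib.UR.M_MM
import Pool.Agent.Lib.UR.M_MM0
import Pool.Agent.Lib.UR.M_NORM
import Pool.Agent.Lib.UR.M_NUL
import Pool.Agent.Lib.UR.M_PRE
import Pool.Agent.Lib.UR.M_RCN
import Pool.Agent.Lib.UR.M_RED
import Pool.Agent.Lib.UR.M_RUL
import Pool.Agent.Lib.UR.M_SEM
import Pool.Agent.Lib.UR.M_TAN
import Pool.Agent.Lib.UR.M_TM0
import Pool.Agent.Lib.UR.M_TRF
import Pool.Agent.Lib.UR.M_UNI
import Pool.Agent.Lib.UR.M_WALK

/-! The theorem of Miyaoka and Mori. -/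

namespace Pool.Agent.Lib.UR.M

theorem st_tm : St_TM :=
  st_norm (st_tm0 (st_uni (st_rul st_gau)) st_jac st_tan st_pre st_dsc
    (st_ht1 st_jac st_tan st_ht0)
    (st_trf st_dom st_hts st_int st_red (st_mm (st_mm0 (st_def st_con) st_sem st_cnt st_exp st_arc
      st_bpf (st_bub st_walk))))
    (st_rcn st_nul))

end Pool.Agent.Lib.UR.M
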