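import Pool.Agent.Lib.UR.BlueB

/-! The degree of an iterated generic cut does not depend on the order. -/

open scoped IntermediateField
open Module Set Filter

set_option linter.unusedVariables false

noncomputable section

namespace Pool.Agent.Lib.UR

open Pool.Agent.Lib.MP_7fcda1_ag

namespace SYM

theorem gen_tower {k K E : Type} [Field k] [Field K] [Field E] [Algebra k K] [Algebra K E]
    [Algebra k E] [IsScalarTower k K E] {S : Set K} {T U : Set E}
    (h1 : IntermediateField.adjoin k S = ⊤) (h2 : IntermediateField.adjoin K T = ⊤)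
    (hT : T ⊆ U) (hS : ∀ x ∈ S, algebraMap K E x ∈ U) : IntermediateField.adjoin k U = ⊤ := by
  let V := IntermediateField.adjoin k U
  have h3 : ∀ x : K, algebraMap K E x ∈ V := by
    intro x
    have hx : x ∈ IntermediateField.adjoin k S := by
      rw [h1]
      trivial
    have h4 : IntermediateField.adjoin k S ≤ V.comap (IsScalarTower.toAlgHom k K E) :=
      IntermediateField.adjoin_le_iff.2 fun y hy => IntermediateField.subset_adjoin k U (hS y hy)
    exact h4 hx
  refine eq_top_iff.2 fun x _ => ?_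
  have hx : x ∈ IntermediateField.adjoin K T := by
    rw [h2]
    trivial
  have h5 : IntermediateField.adjoin K T ≤ V.toSubfield.toIntermediateField h3 :=
    IntermediateField.adjoin_le_iff.2 fun y hy => IntermediateField.subset_adjoin k U (hT hy)
  exact h5 hx

variable {k L : Type} [Field k] [Field L] [Algebra k L] {A Z A' Z' : Type} [Fintype Z]
  [Fintype Z']

/-- The block diagonal family. -/
def blk (W : A → Z → L) (W' : A' → Z' → L) : A ⊕ A' → Z ⊕ Z' → L :=
  Sum.elim (fun a => Sum.elim (W a) 0) fun a => Sum.elim 0 (W' a)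

theorem comp {W : A → Z → L} (W' : A' → Z' → L) (C₁ : Cut k L W) {W₂ : A' → Z' → C₁.L'}
    (C₂ : Cut C₁.k' C₁.L' W₂) (h : ∀ a z, W₂ a z = algebraMap L C₁.L' (W' a z)) :
    ∃ C : Cut k L (blk W' W), C.deg = C₂.deg := by
  let a1 : Algebra k C₂.k' := ((algebraMap C₁.k' C₂.k').comp (algebraMap k C₁.k')).toAlgebra
  let a3 : Algebra L C₂.L' := ((algebraMap C₁.L' C₂.L').comp (algebraMap L C₁.L')).toAlgebra
  let a4 : Algebra k C₂.L' := ((algebraMap C₁.k' C₂.L').comp (algebraMap k C₁.k')).toAlgebra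
  have u1 : IsScalarTower k C₁.k' C₂.k' := IsScalarTower.of_algebraMap_eq fun _ => rfl
  have u2 : IsScalarTower L C₁.L' C₂.L' := IsScalarTower.of_algebraMap_eq fun _ => rfl
  have t1 : IsScalarTower k C₂.k' C₂.L' := IsScalarTower.of_algebraMap_eq fun x =>
    IsScalarTower.algebraMap_apply C₁.k' C₂.k' C₂.L' (algebraMap k C₁.k' x)
  have e1 : ∀ x : C₁.k', algebraMap C₂.k' C₂.L' (algebraMap C₁.k' C₂.k' x) =
      algebraMap C₁.L' C₂.L' (algebraMap C₁.k' C₁.L' x) := fun x => by
    rw [← IsScalarTower.algebraMap_apply, ← IsScalarTower.algebraMap_apply]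
  have t2 : IsScalarTower k L C₂.L' := IsScalarTower.of_algebraMap_eq fun x => by
    change algebraMap C₁.k' C₂.L' (algebraMap k C₁.k' x) =
      algebraMap C₁.L' C₂.L' (algebraMap L C₁.L' (algebraMap k L x))
    rw [← IsScalarTower.algebraMap_apply k L, IsScalarTower.algebraMap_apply k C₁.k' C₁.L',
      ← IsScalarTower.algebraMap_apply C₁.k' C₁.L']
  have e2 : (fun z => algebraMap C₂.k' C₂.L'
      (Sum.elim C₂.s (fun z => algebraMap C₁.k' C₂.k' (C₁.s z)) z)) =
      Sum.elim (fun z => algebraMap C₂.k' C₂.L' (C₂.s z))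
        (algebraMap C₁.L' C₂.L' ∘ fun z => algebraMap C₁.k' C₁.L' (C₁.s z)) := by
    funext z
    cases z with
    | inl z => rfl
    | inr z => exact e1 _
  refine ⟨{
    k' := C₂.k'
    L' := C₂.L'
    s := Sum.elim C₂.s fun z => algebraMap C₁.k' C₂.k' (C₁.s z)
    t := Sum.elim C₂.t fun a => algebraMap C₁.k' C₂.k' (C₁.t a)
    ind := ?_
    genL := ?_
    genk := ?_
    eq := ?_ }, rfl⟩
  · rw [e2]
    exact C₁.ind.sumElim_comp C₂.ind
  · rw [e2]
    refine gen_tower C₁.genL C₂.genL ?_ ?_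
    · rintro _ ⟨z, rfl⟩
      exact ⟨Sum.inl z, rfl⟩
    · rintro _ ⟨z, rfl⟩
      exact ⟨Sum.inr z, rfl⟩
  · refine gen_tower C₁.genk C₂.genk ?_ ?_
    · rintro _ (⟨z, rfl⟩ | ⟨a, rfl⟩)
      · exact Or.inl ⟨Sum.inl z, rfl⟩
      · exact Or.inr ⟨Sum.inl a, rfl⟩
    · rintro _ (⟨z, rfl⟩ | ⟨a, rfl⟩)
      · exact Or.inl ⟨Sum.inr z, rfl⟩
      · exact Or.inr ⟨Sum.inr a, rfl⟩
  · rintro (a | a)
    · rw [Fintype.sum_sum_type]
      simp only [blk, Sum.elim_inl, Sum.elim_inr, Pi.zero_apply, map_zero, mul_zero,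
        Finset.sum_const_zero, add_zero]
      rw [C₂.eq]
      exact Finset.sum_congr rfl fun z _ => by rw [h]; rfl
    · rw [Fintype.sum_sum_type]
      simp only [blk, Sum.elim_inl, Sum.elim_inr, Pi.zero_apply, map_zero, mul_zero,
        Finset.sum_const_zero, zero_add]
      rw [e1, C₁.eq, map_sum]
      exact Finset.sum_congr rfl fun z _ => by rw [map_mul, e1]; rfl

end SYM

theorem st_SYM (hUNQ : St_UNQ) : St_SYM := by
  intro k L _ _ _ τ τ' _ _ w w' a b C₁ C₂ C₃ C₄
  obtain ⟨C, hC⟩ := SYM.comp (rep b w') C₁ C₂ (C₁.rep_map b w')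
  obtain ⟨C', hC'⟩ := SYM.comp (rep a w) C₃ C₄ (C₃.rep_map a w)
  rw [← hC, ← hC']
  refine hUNQ k L _ _ _ _ _ _ (Equiv.sumComm _ _) (Equiv.sumComm _ _) ?_ C C'
  rintro (i | i) (z | z) <;> rfl

end Pool.Agent.Lib.UR
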