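import Pool.Agent.Lib.UR.BlueB

/-! The degree of a generic cut does not depend on the choices. -/

open Module Set

noncomputable section

namespace Pool.Agent.Lib.UR

namespace UNQ

theorem exists_frac {L E Z : Type} [Field L] [Field E] [Algebra L E] {x : Z → E}
    (h : AlgebraicIndependent L x) (hg : IntermediateField.adjoin L (range x) = ⊤) :
    ∃ e : FractionRing (MvPolynomial Z L) ≃ₐ[L] E,
      ∀ z, e (algebraMap (MvPolynomial Z L) _ (MvPolynomial.X z)) = x z := by
  refine ⟨(h.aevalEquivField.trans (IntermediateField.equivOfEq hg)).trans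
    IntermediateField.topEquiv, fun z => ?_⟩
  have := h.aevalEquivField_algebraMap_apply_coe (MvPolynomial.X z)
  rw [MvPolynomial.aeval_X] at this
  exact this

theorem exists_equiv {L E E' Z : Type} [Field L] [Field E] [Field E'] [Algebra L E] [Algebra L E']
    {x : Z → E} {x' : Z → E'} (h : AlgebraicIndependent L x)
    (hg : IntermediateField.adjoin L (range x) = ⊤) (h' : AlgebraicIndependent L x')
    (hg' : IntermediateField.adjoin L (range x') = ⊤) :
    ∃ j : E ≃ₐ[L] E', ∀ z, j (x z) = x' z := by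
  obtain ⟨e, he⟩ := exists_frac h hg
  obtain ⟨e', he'⟩ := exists_frac h' hg'
  refine ⟨e.symm.trans e', fun z => ?_⟩
  rw [← he z, AlgEquiv.trans_apply, AlgEquiv.symm_apply_apply, he']

theorem finrank_eq {K K' E E' : Type} [Field K] [Field K'] [Field E] [Field E'] [Algebra K E]
    [Algebra K' E'] (j : E ≃+* E') (h : ∀ a, ∃ b, j (algebraMap K E a) = algebraMap K' E' b)
    (h' : ∀ b, ∃ a, j.symm (algebraMap K' E' b) = algebraMap K E a) :
    finrank K E = finrank K' E' := by
  choose f hf using h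
  have hi := (algebraMap K' E').injective
  let g : K →+* K' :=
    { toFun := f
      map_one' := hi (by rw [← hf]; simp)
      map_mul' := fun a b => hi (by rw [map_mul, ← hf, ← hf, ← hf]; simp)
      map_zero' := hi (by rw [← hf]; simp)
      map_add' := fun a b => hi (by rw [map_add, ← hf, ← hf, ← hf]; simp) }
  have hb : Function.Bijective g := ⟨g.injective, fun b => by
    obtain ⟨a, ha⟩ := h' b
    refine ⟨a, hi ?_⟩
    change algebraMap K' E' (f a) = _
    rw [← hf, ← ha, RingEquiv.apply_symm_apply]⟩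
  refine Algebra.finrank_eq_of_equiv_equiv (RingEquiv.ofBijective g hb) j ?_
  ext a
  exact (hf a).symm

theorem range_map {k L : Type} [Field k] [Field L] [Algebra k L] {A Z A' Z' : Type} [Fintype Z]
    [Fintype Z'] {W : A → Z → L} {W' : A' → Z' → L} (eA : A ≃ A') (eZ : Z ≃ Z')
    (hW : ∀ a z, W' (eA a) (eZ z) = W a z) (C : Cut k L W) (C' : Cut k L W')
    (j : C.L' ≃ₐ[L] C'.L') (hj : ∀ z, j (C.ss z) = C'.ss (eZ z)) (a : C.k') :
    ∃ b, j (algebraMap C.k' C.L' a) = algebraMap C'.k' C'.L' b := by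
  have ha : a ∈ IntermediateField.adjoin k (range C.s ∪ range C.t) := by
    rw [C.genk]
    trivial
  have h : IntermediateField.adjoin k (range C.s ∪ range C.t) ≤
      (IsScalarTower.toAlgHom k C'.k' C'.L').fieldRange.comap
        ((j.restrictScalars k).toAlgHom.comp (IsScalarTower.toAlgHom k C.k' C.L')) := by
    refine IntermediateField.adjoin_le_iff.2 ?_
    rintro _ (⟨z, rfl⟩ | ⟨a, rfl⟩)
    · exact ⟨C'.s (eZ z), (hj z).symm⟩
    · refine ⟨C'.t (eA a), ?_⟩
      change algebraMap C'.k' C'.L' _ = j (algebraMap C.k' C.L' _)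
      rw [C.eq, C'.eq, map_sum, ← eZ.sum_comp]
      refine Finset.sum_congr rfl fun z _ => ?_
      rw [map_mul, j.commutes, hW]
      exact congrArg (· * _) (hj z).symm
  obtain ⟨b, hb⟩ := h ha
  exact ⟨b, hb.symm⟩

end UNQ

open UNQ in
theorem st_UNQ : St_UNQ := by
  intro k L _ _ _ A Z A' Z' _ _ W W' eA eZ hW C C'
  obtain ⟨j, hj⟩ := exists_equiv (x := C.ss) (x' := C'.ss ∘ eZ) C.ind C.genL
    (AlgebraicIndependent.comp C'.ind eZ eZ.injective)
    (by rw [eZ.surjective.range_comp]; exact C'.genL)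
  refine finrank_eq j.toRingEquiv (range_map eA eZ hW C C' j hj) ?_
  refine range_map eA.symm eZ.symm (fun a z => ?_) C' C j.symm fun z => ?_
  · rw [← hW, Equiv.apply_symm_apply, Equiv.apply_symm_apply]
  · rw [AlgEquiv.symm_apply_eq, hj, Function.comp_apply, Equiv.apply_symm_apply]

end Pool.Agent.Lib.UR
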