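import Pool.Agent.Lib.UR.BlueB

open Module Submodule Set

namespace Pool.Agent.Lib.UR

namespace FD

variable {k L τ : Type} [Field k] [Field L] [Algebra k L] {w : τ → L}

theorem adj {x : L} (hx : x ∈ Algebra.adjoin k (range w)) : ∃ e : ℕ, x ∈ sys k w ^ e := by
  induction hx using Algebra.adjoin_induction with
  | mem x hx =>
    obtain ⟨j, rfl⟩ := hx
    exact ⟨1, by rw [pow_one]; exact mem_sys w j⟩
  | algebraMap c =>
    exact ⟨0, by rw [pow_zero]; exact Submodule.algebraMap_mem c⟩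
  | add x y _ _ hx hy =>
    obtain ⟨e, hx⟩ := hx
    obtain ⟨e', hy⟩ := hy
    exact ⟨e + e', add_mem (pow_mono' (one_mem_sys w) (by omega) hx)
      (pow_mono' (one_mem_sys w) (by omega) hy)⟩
  | mul x y _ _ hx hy =>
    obtain ⟨e, hx⟩ := hx
    obtain ⟨e', hy⟩ := hy
    exact ⟨e + e', by rw [pow_add]; exact mul_mem_mul hx hy⟩

theorem frac (hw : Gen k w) (x : L) :
    ∃ (B : L) (e : ℕ), B ≠ 0 ∧ B ∈ sys k w ^ e ∧ B * x ∈ sys k w ^ e := by
  have hx : x ∈ IntermediateField.adjoin k (range w) := by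
    rw [show IntermediateField.adjoin k (range w) = ⊤ from hw]
    trivial
  obtain ⟨r, hr, s, hs, rfl⟩ := IntermediateField.mem_adjoin_iff_div.1 hx
  by_cases h : s = 0
  · exact ⟨1, 0, one_ne_zero, one_mem_pow (one_mem_sys w) 0, by simp [h]⟩
  obtain ⟨e, hr⟩ := adj hr
  obtain ⟨e', hs⟩ := adj hs
  exact ⟨s, e + e', h, pow_mono' (one_mem_sys w) (by omega) hs, by
    rw [mul_div_cancel₀ _ h]; exact pow_mono' (one_mem_sys w) (by omega) hr⟩

theorem den (hw : Gen k w) (s : Finset L) :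
    ∃ (B : L) (e : ℕ), B ≠ 0 ∧ B ∈ sys k w ^ e ∧ ∀ x ∈ s, B * x ∈ sys k w ^ e := by
  classical
  induction s using Finset.induction_on with
  | empty => exact ⟨1, 0, one_ne_zero, one_mem_pow (one_mem_sys w) 0, by simp⟩
  | insert a s _ ih =>
    obtain ⟨B, e, h0, h1, h2⟩ := ih
    obtain ⟨B', e', h0', h1', h2'⟩ := frac hw a
    refine ⟨B * B', e + e', mul_ne_zero h0 h0', by rw [pow_add]; exact mul_mem_mul h1 h1',
      fun x hx => ?_⟩
    rw [pow_add]
    rcases Finset.mem_insert.1 hx with rfl | hx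
    · rw [mul_assoc]; exact mul_mem_mul h1 h2'
    · rw [mul_right_comm]; exact mul_mem_mul (h2 x hx) h1'

end FD

theorem st_FD (hEXC : St_EXC) (hHSU : St_HSU) : St_FD := by
  intro k L _ _ _ _ τ _ w n hw hn U hU
  obtain ⟨C⟩ := hEXC k L _ _ (rep n w)
  obtain ⟨e0, h0⟩ := hHSU k L τ w n hw hn C
  obtain ⟨s, rfl⟩ := (Module.Finite.iff_fg (N := U)).1 hU
  obtain ⟨B, e, hB, -, h2⟩ := FD.den hw s
  have h3 : span k {B} * span k (s : Set L) ≤ sys k w ^ e := by
    rw [span_mul_span, span_le]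
    rintro _ ⟨a, rfl, x, hx, rfl⟩
    exact h2 x hx
  have := (h0 e).1
  refine Module.Finite.of_injective (LinearMap.codRestrict (cl (sys k w ^ e))
    ((LinearMap.mulLeft k B).comp (cl (span k (s : Set L))).subtype) fun x =>
      cl_mono h3 (mul_mem_cl (le_cl _ (mem_span_singleton_self B)) x.2)) fun x y h => ?_
  exact Subtype.ext (mul_left_cancel₀ hB (congrArg Subtype.val h))

end Pool.Agent.Lib.UR
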