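import Pool.Agent.Lib.UR.BlueB

open MvPolynomial

noncomputable section

namespace Pool.Agent.Lib.UR

namespace GauB

theorem prim {L σ : Type} [Field L] (O : ValuationSubring L) {P : MvPolynomial σ L} (hP : P ≠ 0) :
    ∃ (c : L) (P' : MvPolynomial σ O), P = C c * map O.subtype P' ∧
      map (IsLocalRing.residue O) P' ≠ 0 ∧ ∀ α, O.valuation (P.coeff α) ≤ O.valuation c := by
  obtain ⟨α₀, h0, h1⟩ := Finset.exists_max_image P.support (fun α => O.valuation (P.coeff α))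
    (support_nonempty.2 hP)
  have hc : P.coeff α₀ ≠ 0 := mem_support_iff.1 h0
  have h2 : ∀ α, O.valuation (P.coeff α) ≤ O.valuation (P.coeff α₀) := fun α => by
    by_cases h : α ∈ P.support
    · exact h1 α h
    · rw [notMem_support_iff.1 h, map_zero]
      exact zero_le
  obtain ⟨P', hP'⟩ : C (P.coeff α₀)⁻¹ * P ∈ Set.range (map O.subtype) := by
    rw [mem_range_map_iff_coeffs_subset]
    intro z hz
    obtain ⟨α, -, rfl⟩ := mem_coeffs_iff.1 hz
    refine ⟨⟨coeff α (C (P.coeff α₀)⁻¹ * P), ?_⟩, rfl⟩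
    rw [coeff_C_mul, ← O.valuation_le_one_iff, inv_mul_eq_div, map_div₀]
    exact div_le_one_of_le₀ (h2 α) zero_le
  refine ⟨P.coeff α₀, P', ?_, fun e => ?_, h2⟩
  · rw [hP', ← mul_assoc, ← C_mul, mul_inv_cancel₀ hc, C_1, one_mul]
  · have h3 := congrArg (coeff α₀) hP'
    rw [coeff_map, coeff_C_mul, inv_mul_cancel₀ hc] at h3
    have h4 : P'.coeff α₀ = 1 := Subtype.ext h3
    have h5 := congrArg (coeff α₀) e
    rw [coeff_map, h4, map_one, coeff_zero] at h5
    exact one_ne_zero h5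

end GauB

theorem st_GAU : St_GAU := by
  intro L σ _ O P Q α β
  by_cases hP : P = 0
  · exact ⟨0, by simp [hP]⟩
  by_cases hQ : Q = 0
  · exact ⟨0, by simp [hQ]⟩
  obtain ⟨c, P', h1, h2, h3⟩ := GauB.prim O hP
  obtain ⟨d, Q', h4, h5, h6⟩ := GauB.prim O hQ
  have h7 := mul_ne_zero h2 h5
  rw [← map_mul] at h7
  obtain ⟨γ, hγ⟩ := exists_coeff_ne_zero h7
  rw [coeff_map, Ne, IsLocalRing.residue_eq_zero_iff, O.valuation_lt_one_iff, not_lt] at hγ
  refine ⟨γ, ?_⟩
  have e : P * Q = C (c * d) * map O.subtype (P' * Q') := by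
    rw [map_mul, map_mul, mul_mul_mul_comm, ← h1, ← h4]
  rw [e, coeff_C_mul, coeff_map, map_mul, map_mul, map_mul]
  exact (mul_le_mul' (h3 α) (h6 β)).trans (le_mul_of_one_le_right' hγ)

end Pool.Agent.Lib.UR
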