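import Pool.Agent.Lib.UR.BlueB

/-! The exact restriction formula for a generic hypersurface section. -/

open Module Submodule Set MvPolynomial

noncomputable section

namespace Pool.Agent.Lib.UR

namespace RES

variable {k L σ ι ι' : Type} [Field k] [Field L] [Algebra k L] [Fintype ι] [Fintype ι']

/-- A combination of constants with polynomial coefficients. -/
def cmb (b : ι → L) (p : ι → MvPolynomial σ k) : MvPolynomial σ L :=
  ∑ i, MvPolynomial.map (algebraMap k L) (p i) * C (b i)

theorem coeff_cmb (b : ι → L) (p : ι → MvPolynomial σ k) (α : σ →₀ ℕ) :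
    (cmb b p).coeff α = ∑ i, (p i).coeff α • b i := by
  rw [cmb, coeff_sum]
  refine Finset.sum_congr rfl fun i _ => ?_
  rw [mul_comm, coeff_C_mul, coeff_map, Algebra.smul_def, mul_comm]

theorem cmb_inj {b : ι → L} (hb : LinearIndependent k b) {p q : ι → MvPolynomial σ k}
    (h : cmb b p = cmb b q) : p = q := by
  funext i
  ext α
  have h1 := congrArg (coeff α) h
  rw [coeff_cmb, coeff_cmb] at h1
  exact Fintype.linearIndependent_iffₛ.1 hb _ _ h1 i

theorem cmb_zero (b : ι → L) : cmb b (0 : ι → MvPolynomial σ k) = 0 := by simp [cmb]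

theorem exists_cmb {b : ι → L} {F : MvPolynomial σ L} (h : ∀ α, F.coeff α ∈ span k (range b)) :
    ∃ p : ι → MvPolynomial σ k, cmb b p = F := by
  classical
  choose c hc using fun α => (mem_span_range_iff_exists_fun k).1 (h α)
  refine ⟨fun i => ∑ α ∈ F.support, monomial α (c α i), ?_⟩
  ext α
  rw [coeff_cmb]
  by_cases hα : α ∈ F.support
  · rw [← hc α]
    refine Finset.sum_congr rfl fun i _ => ?_
    simp only [coeff_sum, coeff_monomial, Finset.sum_ite_eq', if_pos hα]
  · rw [notMem_support_iff.1 hα]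
    refine Finset.sum_eq_zero fun i _ => ?_
    simp only [coeff_sum, coeff_monomial, Finset.sum_ite_eq', if_neg hα, zero_smul]

theorem cmb_sum (b : ι → L) (p : ι' → MvPolynomial σ k) (N : ι' → ι → MvPolynomial σ k) :
    cmb b (fun i => ∑ j, p j * N j i) =
      ∑ j, MvPolynomial.map (algebraMap k L) (p j) * cmb b (N j) := by
  simp only [cmb, map_sum, map_mul, Finset.sum_mul, Finset.mul_sum, mul_assoc]
  exact Finset.sum_comm

theorem exists_fam (Γ : Submodule k L) [FiniteDimensional k Γ] :
    ∃ b : Fin (finrank k Γ) → L, LinearIndependent k b ∧ span k (range b) = Γ := by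
  let b := Module.finBasis k Γ
  refine ⟨fun i => (b i : L), b.linearIndependent.map' Γ.subtype Γ.ker_subtype, ?_⟩
  have h := congrArg (Submodule.map Γ.subtype) b.span_eq
  rw [map_span, Submodule.map_top, range_subtype, ← range_comp] at h
  exact h

/-- Clearing denominators. -/
theorem exists_den {x : σ → L} (hx : IntermediateField.adjoin k (range x) = ⊤) (c : ι → L) :
    ∃ (q : L) (p : ι → MvPolynomial σ k), q ≠ 0 ∧ q • c = fun i => aeval x (p i) := by
  classical
  have h1 : ∀ y : L, ∃ r s : MvPolynomial σ k, aeval x s ≠ 0 ∧ aeval x s * y = aeval x r := by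
    intro y
    have hy : y ∈ IntermediateField.adjoin k (range x) := by
      rw [hx]
      trivial
    obtain ⟨r, s, h⟩ := (IntermediateField.mem_adjoin_range_iff k x y).1 hy
    by_cases h0 : aeval x s = 0
    · exact ⟨0, 1, by simp, by simp [h, h0]⟩
    · exact ⟨r, s, h0, by rw [h, mul_div_cancel₀ _ h0]⟩
  choose r s h0 h using h1
  refine ⟨∏ i, aeval x (s (c i)), fun i => (∏ j ∈ Finset.univ.erase i, s (c j)) * r (c i),
    Finset.prod_ne_zero_iff.2 fun i _ => h0 _, funext fun i => ?_⟩
  rw [Pi.smul_apply, smul_eq_mul, map_mul, map_prod, ← h,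
    ← Finset.prod_erase_mul _ _ (Finset.mem_univ i), mul_assoc]

theorem cl_div_le (U U' : Submodule k L) : cl (cl U / U') ≤ cl U / U' := fun x hx =>
  mem_div_iff_forall_mul_mem.2 fun y hy O hO => by
    obtain ⟨z, hz, h1⟩ := hx O hO
    obtain ⟨u, hu, h2⟩ := mem_div_iff_forall_mul_mem.1 hz y hy O hO
    refine ⟨u, hu, le_trans ?_ h2⟩
    rw [map_mul, map_mul]
    exact mul_le_mul' h1 le_rfl

variable {τ : Type} [Fintype τ]

/-- The equation of the generic hypersurface. -/
def th (w : τ → L) : MvPolynomial ((Fin 1 × τ) ⊕ Fin 1) L :=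
  X (Sum.inr 0) - ∑ z : Fin 1 × τ, X (Sum.inl z) * C (w z.2)

theorem coeff_th (w : τ → L) (α : ((Fin 1 × τ) ⊕ Fin 1) →₀ ℕ) :
    (th w).coeff α ∈ sys k w := by
  classical
  rw [th, coeff_sub, coeff_sum]
  refine sub_mem ?_ (sum_mem fun z _ => ?_)
  · rw [coeff_X]
    split_ifs
    exacts [one_mem_sys w, zero_mem _]
  · rw [mul_comm, coeff_C_mul, coeff_X]
    split_ifs
    · rw [mul_one]
      exact mem_sys w _
    · rw [mul_zero]
      exact zero_mem _

theorem coeff_th_inr (w : τ → L) : (th w).coeff (Finsupp.single (Sum.inr 0) 1) = 1 := by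
  classical
  rw [th, coeff_sub, coeff_sum, coeff_X, if_pos rfl, Finset.sum_eq_zero, sub_zero]
  intro z _
  rw [mul_comm, coeff_C_mul, coeff_X, if_neg, mul_zero]
  rw [Finsupp.single_left_inj one_ne_zero]
  exact Sum.inl_ne_inr

theorem coeff_th_inl (w : τ → L) (j : τ) :
    (th w).coeff (Finsupp.single (Sum.inl (0, j)) 1) = -w j := by
  classical
  rw [th, coeff_sub, coeff_sum, coeff_X, if_neg, zero_sub, Finset.sum_eq_single (0, j)]
  · rw [mul_comm, coeff_C_mul, coeff_X, if_pos rfl, mul_one]
  · intro z _ hz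
    rw [mul_comm, coeff_C_mul, coeff_X, if_neg, mul_zero]
    rw [Finsupp.single_left_inj one_ne_zero]
    exact fun h => hz (Sum.inl_injective h)
  · exact fun h => absurd (Finset.mem_univ _) h
  · rw [Finsupp.single_left_inj one_ne_zero]
    exact Sum.inr_ne_inl

theorem th_ne (w : τ → L) : th w ≠ 0 := fun h => by
  have h1 := coeff_th_inr w
  rw [h, coeff_zero] at h1
  exact zero_ne_one h1

/-- Division by the equation. -/
theorem coeff_mem (hGAU : St_GAU) {w : τ → L} {Γ : Submodule k L} (hΓ : cl Γ ≤ Γ)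
    {F : MvPolynomial ((Fin 1 × τ) ⊕ Fin 1) L} (h : ∀ α, (th w * F).coeff α ∈ Γ) (β) :
    F.coeff β ∈ Γ / sys k w := by
  have h1 : ∀ α, (th w).coeff α * F.coeff β ∈ Γ := fun α => hΓ fun O _ => by
    obtain ⟨γ, h2⟩ := hGAU L _ O (th w) F α β
    exact ⟨_, h γ, h2⟩
  have h2 : sys k w ≤ Γ.comap (LinearMap.mulLeft k (F.coeff β)) := by
    refine sys_le ?_ fun j => ?_
    · have h3 := h1 (Finsupp.single (Sum.inr 0) 1)
      rw [coeff_th_inr, mul_comm] at h3
      exact h3
    · have h3 := neg_mem (h1 (Finsupp.single (Sum.inl (0, j)) 1))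
      rw [coeff_th_inl, neg_mul, neg_neg, mul_comm] at h3
      exact h3
  exact mem_div_iff_forall_mul_mem.2 fun y hy => h2 hy

variable {w : τ → L} (D : Cut k L (rep 1 w))

/-- Evaluation on the cut. -/
def ev : MvPolynomial ((Fin 1 × τ) ⊕ Fin 1) L →ₐ[L] D.L' :=
  aeval fun o => algebraMap D.k' D.L' (Sum.elim D.s D.t o)

omit [Fintype τ] in
theorem rep_one (a : Fin 1) (z : Fin 1 × τ) : rep 1 w a z = w z.2 := by
  simp [rep, Subsingleton.elim z.1 a]

theorem ev_th : ev D (th w) = 0 := by
  have h := D.eq 0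
  simp only [rep_one] at h
  simp only [ev, th, map_sub, map_sum, map_mul, aeval_X, aeval_C, Sum.elim_inl, Sum.elim_inr, h,
    sub_self]

theorem dvd_of_ev {F : MvPolynomial ((Fin 1 × τ) ⊕ Fin 1) L} (h : ev D F = 0) : th w ∣ F := by
  let sb : MvPolynomial ((Fin 1 × τ) ⊕ Fin 1) L →ₐ[L] MvPolynomial (Fin 1 × τ) L :=
    aeval (Sum.elim X fun _ => ∑ z : Fin 1 × τ, X z * C (w z.2))
  have h1 : (aeval fun z => algebraMap D.k' D.L' (D.s z)).comp sb = ev D := by
    refine algHom_ext fun o => ?_
    rcases o with z | a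
    · simp [sb, ev]
    · have h := D.eq a
      simp only [rep_one] at h
      simp only [sb, ev, AlgHom.comp_apply, map_sum, map_mul, aeval_X, aeval_C, Sum.elim_inr, h]
  have h2 : sb F = 0 := D.ind (by
    rw [map_zero, ← h, ← h1]
    rfl)
  let mk := Ideal.Quotient.mkₐ L (Ideal.span {th w})
  have h3 : (mk.comp (rename Sum.inl)).comp sb = mk := by
    refine algHom_ext fun o => ?_
    rcases o with z | a
    · simp [sb]
    · obtain rfl : a = 0 := Subsingleton.elim _ _
      have h4 : mk (X (Sum.inr 0) - ∑ z : Fin 1 × τ, X (Sum.inl z) * C (w z.2)) = 0 :=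
        Ideal.Quotient.eq_zero_iff_mem.2 (Ideal.mem_span_singleton_self _)
      rw [map_sub, sub_eq_zero] at h4
      rw [h4]
      simp only [sb, AlgHom.comp_apply, map_sum, map_mul, aeval_X, Sum.elim_inr, rename_X,
        rename_C]
  have h5 : mk F = 0 := by
    rw [← h3, AlgHom.comp_apply, h2, map_zero]
  exact Ideal.mem_span_singleton.1 (Ideal.Quotient.eq_zero_iff_mem.1 h5)

theorem ev_cmb (b : ι → L) (p : ι → MvPolynomial ((Fin 1 × τ) ⊕ Fin 1) k) :
    ev D (cmb b p) = Fintype.linearCombination D.k' (fun i => algebraMap L D.L' (b i))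
      fun i => aeval (Sum.elim D.s D.t) (p i) := by
  rw [cmb, map_sum, Fintype.linearCombination_apply]
  refine Finset.sum_congr rfl fun i _ => ?_
  rw [map_mul, Algebra.smul_def, ev, aeval_C, aeval_map_algebraMap, ← aeval_algebraMap_apply]
  rfl

theorem main (hGAU : St_GAU) (hi : AlgebraicIndependent k (Sum.elim D.s D.t))
    (Γ : Submodule k L) [FiniteDimensional k Γ] (hΓ : cl Γ ≤ Γ) :
    finrank k Γ = finrank k ↥(Γ / sys k w) + finrank D.k' (D.up Γ) := by
  have := Submodule.finiteDimensional_of_le (div_le_self' Γ (one_mem_sys w))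
  obtain ⟨b, hb, hs⟩ := exists_fam Γ
  obtain ⟨b', hb', hs'⟩ := exists_fam (Γ / sys k w)
  have hg : IntermediateField.adjoin k (range (Sum.elim D.s D.t)) = ⊤ := by
    rw [Sum.elim_range]
    exact D.genk
  have hN : ∀ j, ∃ N, cmb b N = th w * C (b' j) := fun j => exists_cmb fun α => by
    have h1 : b' j ∈ Γ / sys k w := hs'.le (subset_span ⟨j, rfl⟩)
    rw [hs, mul_comm, coeff_C_mul]
    exact mem_div_iff_forall_mul_mem.1 h1 _ (coeff_th w α)
  choose N hN using hN
  have hc : ∀ p, cmb b (fun i => ∑ j, p j * N j i) = th w * cmb b' p := fun p => by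
    rw [cmb_sum, cmb, Finset.mul_sum]
    exact Finset.sum_congr rfl fun j _ => by rw [hN, mul_left_comm]
  let μ := Fintype.linearCombination D.k' fun i => algebraMap L D.L' (b i)
  let ν := Fintype.linearCombination D.k' fun j i => aeval (Sum.elim D.s D.t) (N j i)
  have hν : ∀ p : _ → MvPolynomial _ k, ν (fun j => aeval (Sum.elim D.s D.t) (p j)) =
      fun i => aeval (Sum.elim D.s D.t) (∑ j, p j * N j i) := fun p => funext fun i => by
    simp only [ν, Fintype.linearCombination_apply, Finset.sum_apply, Pi.smul_apply, smul_eq_mul,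
      map_sum, map_mul]
  have hinj : Function.Injective ν := by
    refine (injective_iff_map_eq_zero _).2 fun c h0 => ?_
    obtain ⟨q, p, hq, hp⟩ := exists_den hg c
    have h1 : (fun i => ∑ j, p j * N j i) = 0 := funext fun i => hi (by
      have h2 := congrFun (hν p) i
      rw [← hp, map_smul, h0, smul_zero] at h2
      rw [← h2, Pi.zero_apply, Pi.zero_apply, map_zero])
    have h2 := hc p
    rw [h1, cmb_zero] at h2
    have h3 : p = 0 :=
      cmb_inj hb' (((mul_eq_zero.1 h2.symm).resolve_left (th_ne w)).trans (cmb_zero b').symm)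
    refine (smul_eq_zero.1 (hp.trans (funext fun j => ?_))).resolve_left hq
    rw [h3, Pi.zero_apply, Pi.zero_apply, map_zero]
  have hker : LinearMap.range ν = LinearMap.ker μ := by
    refine le_antisymm ?_ fun c h0 => ?_
    · rw [Fintype.range_linearCombination, span_le]
      rintro _ ⟨j, rfl⟩
      change μ _ = 0
      rw [← ev_cmb, hN, map_mul, ev_th, zero_mul]
    · obtain ⟨q, p, hq, hp⟩ := exists_den hg c
      obtain ⟨F, hF⟩ : th w ∣ cmb b p := dvd_of_ev D (by
        rw [ev_cmb, ← hp, map_smul, LinearMap.mem_ker.1 h0, smul_zero])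
      obtain ⟨p', rfl⟩ : ∃ p', cmb b' p' = F := exists_cmb fun β => by
        rw [hs']
        refine coeff_mem hGAU hΓ (fun α => ?_) β
        rw [← hF, coeff_cmb]
        exact sum_mem fun i _ => smul_mem _ _ (hs.le (subset_span ⟨i, rfl⟩))
      have h1 := cmb_inj hb (hF.trans (hc p').symm)
      refine (smul_mem_iff _ hq).1 ⟨fun j => aeval (Sum.elim D.s D.t) (p' j), ?_⟩
      rw [hν, hp, h1]
  have hr : LinearMap.range μ = D.up Γ := by
    rw [Fintype.range_linearCombination, ← congrArg D.up hs, D.up_span, ← range_comp]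
    rfl
  have h1 := μ.finrank_range_add_finrank_ker
  rw [← hker, LinearMap.finrank_range_of_inj hinj, hr, finrank_fin_fun, finrank_fin_fun] at h1
  omega

end RES

theorem st_RES (hGAU : St_GAU) : St_RES := by
  intro k L _ _ _ τ _ w C hi U U' hf
  rw [div_div']
  exact RES.main C hGAU hi _ (RES.cl_div_le U U')

end Pool.Agent.Lib.UR
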