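import Pool.Agent.Lib.UR.BlueB

/-! The inequality of Siu. -/

open Module Set Filter Topology

noncomputable section

namespace Pool.Agent.Lib.UR

theorem st_S1 (hASY : St_ASY) (hDIM : St_DIM) (hHSU : St_HSU) (hHSL : St_HSL) (hUPP : St_UPP) :
    St_S1 := by
  intro k L _ _ _ _ τ τ' _ _ v h n hv hh hd C C₁ C₂ σ hyp
  have hd1 := (hDIM k L _ h 1 n hh (by rwa [add_comm]) C₁).2
  obtain ⟨e, he⟩ := hHSU _ _ _ _ n (C₁.gen hv) hd1 C₂
  obtain ⟨e₀, he₀⟩ := hHSU _ _ _ _ (n + 1) hv hd C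
  obtain ⟨-, e', he'⟩ := hHSL _ _ _ _ (n + 1) hv hd C
  have key : ∀ j, 0 < j → e' ≤ j → C.deg * (j * 1 - e' + (n + 1)).choose (n + 1) ≤
      j * σ * (C₂.deg * (j * 1 + (e + n)).choose n) := by
    intro j hj hj'
    have h1 := hUPP k L _ h n hh hd C₁ _ (fd_pow (sys k v) j) (j * σ)
    rw [hyp j hj, finrank_bot, zero_add, C₁.up_pow, C₁.up_sys] at h1
    have h2 := he' (j - e')
    rw [Nat.sub_add_cancel hj'] at h2
    have := (he₀ j).1
    rw [mul_one, ← add_assoc j e n]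
    exact (h2.trans (Submodule.finrank_mono (le_cl _))).trans
      (h1.trans (Nat.mul_le_mul_left _ (he j).2))
  have t1 := ((hASY (n + 1) 1 e').2).const_mul (C.deg : ℝ)
  have t2 := ((hASY n 1 (e + n)).1).const_mul ((σ : ℝ) * C₂.deg)
  have t3 := le_of_tendsto_of_tendsto t1 t2 (by
    filter_upwards [eventually_gt_atTop 0, eventually_ge_atTop e'] with j hj hj'
    have h0 : (0 : ℝ) < j := by exact_mod_cast hj
    have h1 : ((C.deg * (j * 1 - e' + (n + 1)).choose (n + 1) : ℕ) : ℝ) ≤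
      (j * σ * (C₂.deg * (j * 1 + (e + n)).choose n) : ℕ) := by exact_mod_cast key j hj hj'
    push_cast at h1
    rw [← mul_div_assoc, ← mul_div_assoc, pow_succ, ← div_div, div_le_iff₀ h0, div_mul_eq_mul_div]
    refine div_le_div_of_nonneg_right (h1.trans_eq (by ring)) (by positivity))
  have h5 : (0 : ℝ) < n.factorial := by exact_mod_cast n.factorial_pos
  rw [Nat.factorial_succ] at t3
  push_cast at t3
  rw [one_pow, one_pow, mul_one_div, mul_one_div, div_le_div_iff₀ (by positivity) h5] at t3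
  have h6 : (C.deg : ℝ) ≤ (n + 1) * σ * C₂.deg := le_of_mul_le_mul_right (t3.trans_eq (by ring)) h5
  exact_mod_cast h6

end Pool.Agent.Lib.UR
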