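import Pool.Agent.Lib.UR.BlueB

open Module Submodule

namespace Pool.Agent.Lib.UR

theorem st_UPP (hDIM : St_DIM) (hFD : St_FD) (hRES : St_RES) : St_UPP := by
  intro k L _ _ _ _ τ _ w n hw hd C U hU u
  obtain ⟨h1, h2⟩ := hDIM k L τ w 1 n hw (by rwa [add_comm]) C
  haveI h3 : FiniteDimensional k ↥(cl U) := hFD k L τ w (n + 1) hw hd U hU
  haveI h4 : FiniteDimensional C.k' ↥(cl (C.up U)) :=
    hFD C.k' C.L' τ (C.map w) n (C.gen hw) h2 (C.up U) (C.finrank_up U).1
  induction u with
  | zero =>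
    have e : cl U / sys k w ^ 0 = cl U := by
      rw [pow_zero]
      refine le_antisymm (div_le_self' _ (Submodule.one_le.1 le_rfl)) ?_
      rw [Submodule.le_div_iff_mul_le, mul_one]
    rw [e, zero_mul, add_zero]
  | succ u ih =>
    have h5 : cl U / sys k w ^ u ≤ cl U := div_le_self' _ (one_mem_pow (one_mem_sys w) u)
    have h6 := hRES k L τ w C h1 U (sys k w ^ u) (Submodule.finiteDimensional_of_le h5)
    have h7 : finrank C.k' ↥(C.up (cl U / sys k w ^ u)) ≤ finrank C.k' ↥(cl (C.up U)) :=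
      Submodule.finrank_mono ((C.up_mono h5).trans (C.up_cl U))
    rw [← pow_succ] at h6
    rw [add_mul, one_mul]
    omega

end Pool.Agent.Lib.UR
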