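import Pool.Agent.Lib.UR.BlueB

/-! The curve through the generic point. -/

open Module Set Filter Submodule

noncomputable section

namespace Pool.Agent.Lib.UR

open Pool.Agent.Lib.MP_7fcda1_ag

namespace BM
variable {k L : Type} [Field k] [Field L] [Algebra k L]

theorem exists_v {τ : Type} [Fintype τ] {h : τ → L} (hh : Gen k h) (Γ : Submodule k L)
    [FiniteDimensional k Γ] {γ : L} (hγ : γ ∈ Γ) (h0 : γ ≠ 0) {n : ℕ} (hn : 0 < n) :
    ∃ (r : ℕ) (v : Fin r → L), Gen k v ∧ span k {γ} * sys k v = Γ * sys k h ^ n := by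
  have := fd_pow (sys k h) n
  have := fd_mul Γ (sys k h ^ n)
  let b := Module.finBasis k ↥(Γ * sys k h ^ n)
  have hb : span k (range fun i => (b i : L)) = Γ * sys k h ^ n := by
    have := congrArg (Submodule.map (Γ * sys k h ^ n).subtype) b.span_eq
    rwa [map_span, Submodule.map_top, range_subtype, ← range_comp] at this
  have h1 : span k {γ} * sys k (fun i => (b i : L) / γ) = Γ * sys k h ^ n := by
    rw [sys, span_mul_span]
    refine le_antisymm (span_le.2 ?_) ?_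
    · rintro _ ⟨g, hg, y, rfl | ⟨i, rfl⟩, rfl⟩ <;> rw [hg]
      · exact Submodule.mul_mem_mul hγ (one_mem_pow (one_mem_sys h) n)
      · change γ * (_ / γ) ∈ _
        rw [mul_div_cancel₀ _ h0]
        exact (b i).2
    · exact hb.ge.trans (span_le.2 (range_subset_iff.2 fun i => subset_span
        ⟨γ, rfl, _, Or.inr ⟨i, rfl⟩, mul_div_cancel₀ _ h0⟩))
  refine ⟨_, fun i => (b i : L) / γ, ?_, h1⟩
  refine eq_top_iff.2 (hh.ge.trans (IntermediateField.adjoin_le_iff.2 (range_subset_iff.2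
    fun j => ?_)))
  have h2 : γ * h j ∈ span k {γ} * sys k (fun i => (b i : L) / γ) := by
    rw [h1]
    refine Submodule.mul_mem_mul hγ (pow_mono' (one_mem_sys h) hn ?_)
    rw [pow_one]
    exact mem_sys h j
  rw [Submodule.mem_span_singleton_mul] at h2
  obtain ⟨z, hz, h3⟩ := h2
  rw [← mul_left_cancel₀ h0 h3]
  exact sys_le (U := (IntermediateField.adjoin k (range fun i => (b i : L) / γ)).toSubmodule)
    (IntermediateField.one_mem _) (fun i => IntermediateField.subset_adjoin _ _ ⟨i, rfl⟩) hz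

theorem le_level {H Q : Submodule k L} (m b n : ℕ) :
    cl (H ^ b) / Q ^ m * H ^ n ≤ cl (H ^ (b + n)) / Q ^ m :=
  Submodule.mul_le.2 fun x hx y hy => mem_div_iff_forall_mul_mem.2 fun z hz => by
    rw [mul_right_comm, pow_add]
    exact mul_mem_cl (mem_div_iff_forall_mul_mem.1 hx z hz) (le_cl _ hy)

theorem vanish {H Q V : Submodule k L} [FiniteDimensional k H] (h1 : (1 : L) ∈ H) {γ : L}
    (h0 : γ ≠ 0) {m b σ j : ℕ} (hσ : σ ≤ b) (hV : span k {γ} * V ≤ cl (H ^ b) / Q ^ m)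
    (h : cl (H ^ ((b - σ) * j)) / Q ^ (m * j) = ⊥) : cl (V ^ j) / H ^ (j * σ) = ⊥ := by
  refine eq_bot_iff.2 fun x hx => ?_
  have := fd_pow H (j * σ)
  have h2 : γ ^ j * x ∈ cl (H ^ ((b - σ) * j)) / Q ^ (m * j) := by
    refine mem_div_iff_forall_mul_mem.2 fun y hy => ?_
    rw [← cl_cancel _ (ne_bot_of_one (one_mem_pow h1 (j * σ))), ← pow_add]
    refine mem_div_iff_forall_mul_mem.2 fun z hz => ?_
    have h3 : γ ^ j * y * (x * z) ∈ cl (span k {γ} ^ j * Q ^ (m * j) * V ^ j) :=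
      mul_mem_cl (le_cl _ (Submodule.mul_mem_mul
        (Submodule.pow_mem_pow _ (mem_span_singleton_self γ) j) hy))
        (mem_div_iff_forall_mul_mem.1 hx z hz)
    have h4 : span k {γ} ^ j * Q ^ (m * j) * V ^ j ≤ cl (H ^ ((b - σ) * j + j * σ)) := by
      rw [mul_right_comm, pow_mul, ← mul_pow, ← mul_pow,
        show (b - σ) * j + j * σ = b * j by rw [mul_comm j, ← add_mul, Nat.sub_add_cancel hσ],
        pow_mul]
      exact pow_le_cl (Submodule.le_div_iff_mul_le.1 hV) j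
    rw [show γ ^ j * x * y * z = γ ^ j * y * (x * z) by ring]
    exact cl_le_cl h4 h3
  rw [h, Submodule.mem_bot] at h2
  exact (mul_eq_zero.1 h2).resolve_left (pow_ne_zero _ h0)

end BM

open BM in
theorem st_BM (hEXC : St_EXC) (hSYM : St_SYM) (hDIM : St_DIM) (hTHR : St_THR)
    (hS1 : St_S1) (hS2 : St_S2) (hS3 : St_S3) (hCRV : St_CRV) (hANA : St_ANA) (hB1 : St_B1) :
    St_BM := by
  intro k L _ _ _ _ _ τ τ' _ _ h q n a N hh hq hd hyp
  rcases n with _ | n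
  · exact ⟨k, L, inferInstance, inferInstance, inferInstance, inferInstance, inferInstance,
      inferInstance, Dim.isFF hh hd, AlgHom.id k L, hB1 k L τ τ' h q a N hh hd hyp⟩
  by_contra hcon
  obtain ⟨m1, m2, θ, hθ, m3, m4⟩ := hTHR k L τ τ' h q (n + 2) a N hh hd hyp
  obtain ⟨D₁⟩ := hEXC k L _ _ (rep 1 h)
  obtain ⟨C₁⟩ := hEXC k L _ _ (rep 1 q)
  obtain ⟨C₃⟩ := hEXC C₁.k' C₁.L' _ _ (rep 1 (C₁.map h))
  obtain ⟨C₄⟩ := hEXC C₃.k' C₃.L' _ _ (rep n (C₃.map (C₁.map h)))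
  refine hANA (gd k h q) n a C₄.deg θ hθ m1 m2 m4 fun m b hg => ?_
  let Γ := cl (sys k h ^ b) / sys k q ^ m
  have hfd : FiniteDimensional k Γ := Module.finite_of_finrank_pos (Nat.pos_of_ne_zero hg)
  have hΓ : Γ ≠ ⊥ := fun h0 => hg (Submodule.finrank_eq_zero.2 h0)
  obtain ⟨γ, hγ, h0⟩ := (Submodule.ne_bot_iff _).1 hΓ
  obtain ⟨r, v, hv, hV⟩ := exists_v hh Γ hγ h0 (n := n + 2) (by omega)
  have hV' : span k {γ} * sys k v ≤ cl (sys k h ^ (b + (n + 2))) / sys k q ^ m :=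
    hV.le.trans (le_level m b (n + 2))
  obtain ⟨C⟩ := hEXC k L _ _ (rep (n + 2) v)
  obtain ⟨D₂⟩ := hEXC D₁.k' D₁.L' _ _ (rep (n + 1) (D₁.map v))
  obtain ⟨C₂⟩ := hEXC C₁.k' C₁.L' _ _ (rep (n + 1) (C₁.map v))
  obtain ⟨E⟩ := hEXC k L _ _ (rep (n + 1) v)
  obtain ⟨E₁⟩ := hEXC E.k' E.L' _ _ (rep 1 (E.map h))
  obtain ⟨E₂⟩ := hEXC E.k' E.L' _ _ (rep 1 (E.map q))
  have hE := (hDIM k L _ v (n + 1) 1 hv hd E).2
  refine ⟨C.deg, D₂.deg, C₂.deg, hS3 k L _ _ v h (n + 2) hv hh hd C Γ γ hfd h0 hV.ge,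
    fun σ hσ hσ' => ?_, hS2 k L _ _ _ v h q n hv hh hq hd C D₁ D₂ C₁ C₂ C₃ C₄ γ m _ h0 hV', ?_⟩
  · refine hS1 k L _ _ v h (n + 1) hv hh hd C D₁ D₂ σ fun j hj =>
      vanish (one_mem_sys h) h0 hσ hV' (m3 _ _ ?_)
    push_cast
    rw [← mul_assoc]
    exact mul_lt_mul_of_pos_right hσ' (by exact_mod_cast hj)
  · by_contra hlt
    refine hcon ⟨E.k', E.L', inferInstance, inferInstance, inferInstance, inferInstance,
      inferInstance, inferInstance, Dim.isFF (E.gen hv) hE, IsScalarTower.toAlgHom k L E.L', ?_⟩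
    have e1 := hCRV _ _ _ _ (E.gen hh) hE E₁
    have e2 := hCRV _ _ _ _ (E.gen hq) hE E₂
    rw [Cut.map_opt] at e1 e2
    change (a : ℤ) * dg E.k' (fun o => algebraMap L E.L' (opt h o)) <
      dg E.k' fun o => algebraMap L E.L' (opt q o)
    rw [← e1, ← e2, ← hSYM k L _ _ h v 1 (n + 1) D₁ D₂ E E₁,
      ← hSYM k L _ _ q v 1 (n + 1) C₁ C₂ E E₂]
    exact_mod_cast not_le.1 hlt

end Pool.Agent.Lib.UR
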