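import Pool.Agent.Lib.UR.Defs
import Pool.Agent.Lib.UR.Iface
import Pool.Agent.Lib.NV.SDefs

/-! Statements of the steps of the duality between pseudo-effective classes and movable curves. -/

open scoped IntermediateField
open Module Set Filter Topology

set_option linter.unusedVariables false

noncomputable section

namespace Pool.Agent.Lib.UR

open Pool.Agent.Lib.MP_7fcda1_ag

namespace Cut
variable {k L : Type} [Field k] [Field L] [Algebra k L] {A Z τ : Type} [Fintype Z]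
  {W : A → Z → L} (C : Cut k L W)

/-- The free coefficients, in the big field. -/
def ss (z : Z) : C.L' := algebraMap C.k' C.L' (C.s z)

/-- The dependent coefficients, in the big field. -/
def tt (a : A) : C.L' := algebraMap C.k' C.L' (C.t a)

/-- The field generated by the free coefficients. -/
abbrev ks : IntermediateField k C.L' := IntermediateField.adjoin k (range C.ss)

theorem gen {w : τ → L} (hw : Gen k w) : Gen C.k' (C.map w) := by
  let T := IntermediateField.adjoin C.k' (range (C.map w))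
  have h1 : ∀ x : L, algebraMap L C.L' x ∈ T := by
    intro x
    have hx : x ∈ IntermediateField.adjoin k (range w) := by
      rw [show IntermediateField.adjoin k (range w) = ⊤ from hw]
      trivial
    have h2 : IntermediateField.adjoin k (range w) ≤
        (T.restrictScalars k).comap (IsScalarTower.toAlgHom k L C.L') :=
      IntermediateField.adjoin_le_iff.2 (range_subset_iff.2 fun j =>
        IntermediateField.subset_adjoin C.k' (range (C.map w)) ⟨j, rfl⟩)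
    exact h2 hx
  refine eq_top_iff.2 fun x _ => ?_
  have hx : x ∈ IntermediateField.adjoin L (range fun z => algebraMap C.k' C.L' (C.s z)) := by
    rw [C.genL]
    trivial
  have h3 : IntermediateField.adjoin L (range fun z => algebraMap C.k' C.L' (C.s z)) ≤
      T.toSubfield.toIntermediateField h1 :=
    IntermediateField.adjoin_le_iff.2 (range_subset_iff.2 fun z => T.algebraMap_mem _)
  exact h3 hx

theorem map_opt (w : τ → L) : opt (C.map w) = fun o => algebraMap L C.L' (opt w o) := by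
  funext o
  cases o <;> simp [opt, map]

theorem rep_map (n : ℕ) (w : τ → L) (a : Fin n) (z : Fin n × τ) :
    rep n (C.map w) a z = algebraMap L C.L' (rep n w a z) := by
  unfold rep map
  split_ifs <;> simp

end Cut

theorem Cut.tt_eq {k L τ : Type} [Field k] [Field L] [Algebra k L] [Fintype τ] {n : ℕ}
    {w : τ → L} (C : Cut k L (rep n w)) (a : Fin n) :
    C.tt a = ∑ j, C.ss (a, j) * C.map w j := by
  rw [Cut.tt, C.eq, Fintype.sum_prod_type, Finset.sum_eq_single a]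
  · simp [rep, Cut.ss, Cut.map]
  · intro b _ hb
    simp [rep, hb]
  · simp

/-! ### Generic cuts -/

def St_EXC : Prop :=
  ∀ (k L : Type) [Field k] [Field L] [Algebra k L] (A Z : Type) [Fintype Z] (W : A → Z → L),
    Nonempty (Cut k L W)

def St_UNQ : Prop :=
  ∀ (k L : Type) [Field k] [Field L] [Algebra k L] (A Z A' Z' : Type) [Fintype Z] [Fintype Z']
    (W : A → Z → L) (W' : A' → Z' → L) (eA : A ≃ A') (eZ : Z ≃ Z'),
    (∀ a z, W' (eA a) (eZ z) = W a z) → ∀ (C : Cut k L W) (C' : Cut k L W'), C.deg = C'.deg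

def St_SYM : Prop :=
  ∀ (k L : Type) [Field k] [Field L] [Algebra k L] (τ τ' : Type) [Fintype τ] [Fintype τ']
    (w : τ → L) (w' : τ' → L) (a b : ℕ) (C₁ : Cut k L (rep a w))
    (C₂ : Cut C₁.k' C₁.L' (rep b (C₁.map w'))) (C₃ : Cut k L (rep b w'))
    (C₄ : Cut C₃.k' C₃.L' (rep a (C₃.map w))), C₂.deg = C₄.deg

def St_DIM : Prop :=
  ∀ (k L : Type) [Field k] [CharZero k] [Field L] [Algebra k L] (τ : Type) [Fintype τ]
    (w : τ → L) (m n : ℕ), Gen k w → Dim k L (m + n) → ∀ C : Cut k L (rep m w),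
    AlgebraicIndependent k (Sum.elim C.s C.t) ∧ Dim C.k' C.L' n

def St_GPO : Prop :=
  ∀ (k L : Type) [Field k] [Field L] [Algebra k L] (τ : Type) [Fintype τ] (w : τ → L) (n : ℕ),
    Dim k L n → ∀ (C : Cut k L (rep n w)) (O : ValuationSubring C.L'), (∀ c ∈ C.ks, c ∈ O) →
    ∀ j, O.valuation (C.map w j) ≤ 1 ∨ ∃ a, O.valuation (C.map w j) ≤ O.valuation (C.tt a)

def St_SET : Prop :=
  ∀ (k L : Type) [Field k] [CharZero k] [Field L] [Algebra k L] (τ : Type) [Fintype τ]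
    (w : τ → L) (n : ℕ), Gen k w → Dim k L n → ∀ C : Cut k L (rep n w),
    AlgebraicIndependent C.ks C.tt ∧
    FiniteDimensional (IntermediateField.adjoin C.ks (range C.tt)) C.L' ∧
    finrank (IntermediateField.adjoin C.ks (range C.tt)) C.L' = C.deg ∧
    Gen (IntermediateField.adjoin C.ks (range C.tt)) (C.map w) ∧
    ∀ (ι : Type) (x : ι → L), LinearIndependent k x → LinearIndependent C.ks (C.map x)

/-! ### Hilbert functions -/

def St_ASY : Prop :=
  ∀ D M e : ℕ,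
    Tendsto (fun j : ℕ => ((j * M + e).choose D : ℝ) / (j : ℝ) ^ D) atTop
      (𝓝 ((M : ℝ) ^ D / D.factorial)) ∧
    Tendsto (fun j : ℕ => ((j * M - e + D).choose D : ℝ) / (j : ℝ) ^ D) atTop
      (𝓝 ((M : ℝ) ^ D / D.factorial))

def St_MON : Prop :=
  ∀ (k L : Type) [Field k] [Field L] [Algebra k L] (n : ℕ) (t : Fin n → L),
    AlgebraicIndependent k t → ∀ j : ℕ, finrank k ↥(sys k t ^ j) = (j + n).choose n

def St_POL : Prop :=
  ∀ (k L : Type) [Field k] [Field L] [Algebra k L] (n : ℕ) (t : Fin n → L),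
    AlgebraicIndependent k t → Gen k t → ∀ j : ℕ, cl (sys k t ^ j) = sys k t ^ j

def St_TRC : Prop :=
  ∀ (k F L : Type) [Field k] [CharZero k] [Field F] [Field L] [Algebra k F] [Algebra F L]
    [Algebra k L] [IsScalarTower k F L] [FiniteDimensional F L] (U : Submodule k F) (x : L),
    x ∈ cl (U.map (IsScalarTower.toAlgHom k F L).toLinearMap) → Algebra.trace F L x ∈ cl U

def St_ALG : Prop :=
  ∀ (k L : Type) [Field k] [Field L] [Algebra k L] (τ : Type) [Fintype τ] (t : τ → L) (y : L),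
    IsAlgebraic (IntermediateField.adjoin k (range t)) y →
    ∃ e : ℕ, ∃ p ∈ sys k t ^ e, p ≠ 0 ∧ p * y ∈ cl (sys k t ^ e)

def St_NOE : Prop :=
  ∀ (k L : Type) [Field k] [CharZero k] [Field L] [Algebra k L] (n : ℕ) (t : Fin n → L),
    AlgebraicIndependent k t → FiniteDimensional (IntermediateField.adjoin k (range t)) L →
    ∃ e : ℕ, ∀ j : ℕ, FiniteDimensional k ↥(cl (sys k t ^ j)) ∧ finrank k ↥(cl (sys k t ^ j)) ≤
      finrank (IntermediateField.adjoin k (range t)) L * (j + e + n).choose n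

def St_HSU : Prop :=
  ∀ (k L : Type) [Field k] [CharZero k] [Field L] [Algebra k L] (τ : Type) [Fintype τ]
    (w : τ → L) (n : ℕ), Gen k w → Dim k L n → ∀ C : Cut k L (rep n w),
    ∃ e : ℕ, ∀ j : ℕ, FiniteDimensional k ↥(cl (sys k w ^ j)) ∧
      finrank k ↥(cl (sys k w ^ j)) ≤ C.deg * (j + e + n).choose n

def St_HSL : Prop :=
  ∀ (k L : Type) [Field k] [CharZero k] [Field L] [Algebra k L] (τ : Type) [Fintype τ]
    (w : τ → L) (n : ℕ), Gen k w → Dim k L n → ∀ C : Cut k L (rep n w), 0 < C.deg ∧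
    ∃ e : ℕ, ∀ j : ℕ, C.deg * (j + n).choose n ≤ finrank k ↥(sys k w ^ (j + e))

def St_FD : Prop :=
  ∀ (k L : Type) [Field k] [CharZero k] [Field L] [Algebra k L] (τ : Type) [Fintype τ]
    (w : τ → L) (n : ℕ), Gen k w → Dim k L n → ∀ U : Submodule k L, FiniteDimensional k U →
    FiniteDimensional k ↥(cl U)

/-! ### Restriction to a generic member -/

def St_GAU : Prop :=
  ∀ (L σ : Type) [Field L] (O : ValuationSubring L) (P Q : MvPolynomial σ L) (α β : σ →₀ ℕ),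
    ∃ γ, O.valuation (P.coeff α * Q.coeff β) ≤ O.valuation ((P * Q).coeff γ)

def St_RES : Prop :=
  ∀ (k L : Type) [Field k] [Field L] [Algebra k L] (τ : Type) [Fintype τ] (w : τ → L)
    (C : Cut k L (rep 1 w)), AlgebraicIndependent k (Sum.elim C.s C.t) →
    ∀ U U' : Submodule k L, FiniteDimensional k ↥(cl U / U') → finrank k ↥(cl U / U') =
      finrank k ↥(cl U / (U' * sys k w)) + finrank C.k' ↥(C.up (cl U / U'))

def St_UPP : Prop :=
  ∀ (k L : Type) [Field k] [CharZero k] [Field L] [Algebra k L] (τ : Type) [Fintype τ]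
    (w : τ → L) (n : ℕ), Gen k w → Dim k L (n + 1) → ∀ (C : Cut k L (rep 1 w))
    (U : Submodule k L), FiniteDimensional k U → ∀ u : ℕ, finrank k ↥(cl U) ≤
      finrank k ↥(cl U / sys k w ^ u) + u * finrank C.k' ↥(cl (C.up U))

/-! ### The inequalities of Siu and Fujita -/

def St_S1 : Prop :=
  ∀ (k L : Type) [Field k] [CharZero k] [Field L] [Algebra k L] (τ τ' : Type) [Fintype τ]
    [Fintype τ'] (v : τ → L) (h : τ' → L) (n : ℕ), Gen k v → Gen k h → Dim k L (n + 1) →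
    ∀ (C : Cut k L (rep (n + 1) v)) (C₁ : Cut k L (rep 1 h))
      (C₂ : Cut C₁.k' C₁.L' (rep n (C₁.map v))) (σ : ℕ),
    (∀ j, 0 < j → cl (sys k v ^ j) / sys k h ^ (j * σ) = ⊥) → C.deg ≤ (n + 1) * σ * C₂.deg

def St_S2A : Prop :=
  ∀ (k L : Type) [Field k] [CharZero k] [Field L] [Algebra k L] (τ τ' : Type) [Fintype τ]
    [Fintype τ'] (v : τ → L) (h : τ' → L) (n : ℕ), Gen k v → Gen k h → Dim k L (n + 1) →
    ∀ (C : Cut k L (rep (n + 1) v)) (C₁ : Cut k L (rep 1 h))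
      (C₂ : Cut C₁.k' C₁.L' (rep n (C₁.map v))), ∃ e : ℕ, ∀ i s : ℕ,
    C.deg * (i + (n + 1)).choose (n + 1) + s * (C₂.deg * (i + n).choose n) ≤
      finrank k ↥(cl (sys k v ^ (i + e) * sys k h ^ s))

def St_S2B : Prop :=
  ∀ (k L : Type) [Field k] [CharZero k] [Field L] [Algebra k L] (τ τ' τ'' : Type) [Fintype τ]
    [Fintype τ'] [Fintype τ''] (v : τ → L) (h : τ' → L) (q : τ'' → L) (n : ℕ),
    Gen k v → Gen k h → Gen k q → Dim k L (n + 2) →
    ∀ (C₁ : Cut k L (rep 1 q)) (C₂ : Cut C₁.k' C₁.L' (rep (n + 1) (C₁.map v)))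
      (C₃ : Cut C₁.k' C₁.L' (rep 1 (C₁.map h)))
      (C₄ : Cut C₃.k' C₃.L' (rep n (C₃.map (C₁.map h)))) (γ : L) (b : ℕ), γ ≠ 0 →
    Submodule.span k {γ} * sys k v ≤ cl (sys k h ^ b) → ∃ e : ℕ, ∀ i s u : ℕ,
    finrank k ↥(cl (sys k v ^ i * sys k h ^ s)) ≤
      finrank k ↥(cl (sys k v ^ i * sys k h ^ s) / sys k q ^ u) +
        u * (C₂.deg * (i + e + (n + 1)).choose (n + 1) +
          s * (C₄.deg * (i * b + s + e + n).choose n))

/-- The orthogonality estimate, for the numbers `ρ = V ^ (n + 2)`, `ρH = V ^ (n + 1) H`,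
`ρQ = V ^ (n + 1) Q`, `ρ₀ = H ^ (n + 1) Q`. -/
def Orth (g : ℕ → ℕ → ℕ) (n m b ρ ρH ρQ ρ₀ : ℕ) : Prop :=
  ∀ M : ℕ, 0 < M → ∀ ε : ℝ, 0 < ε → ∀ᶠ j : ℕ in atTop,
    ((M : ℝ) ^ (n + 2) * ρ + (n + 2) * b * (M : ℝ) ^ (n + 1) * ρH -
      (n + 2) * m * (M : ℝ) ^ (n + 1) * ρQ -
      (n + 2) * (n + 1) * m * b * ((b : ℝ) * (M + 1)) ^ n * ρ₀ - ε) * (j : ℝ) ^ (n + 2) ≤
      (n + 2).factorial * g ((M + 1) * j * m) ((M + 1) * j * b)

def St_S2 : Prop :=
  ∀ (k L : Type) [Field k] [CharZero k] [Field L] [Algebra k L] (τ τ' τ'' : Type) [Fintype τ]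
    [Fintype τ'] [Fintype τ''] (v : τ → L) (h : τ' → L) (q : τ'' → L) (n : ℕ),
    Gen k v → Gen k h → Gen k q → Dim k L (n + 2) →
    ∀ (C : Cut k L (rep (n + 2) v)) (D₁ : Cut k L (rep 1 h))
      (D₂ : Cut D₁.k' D₁.L' (rep (n + 1) (D₁.map v)))
      (C₁ : Cut k L (rep 1 q)) (C₂ : Cut C₁.k' C₁.L' (rep (n + 1) (C₁.map v)))
      (C₃ : Cut C₁.k' C₁.L' (rep 1 (C₁.map h)))
      (C₄ : Cut C₃.k' C₃.L' (rep n (C₃.map (C₁.map h)))) (γ : L) (m b : ℕ), γ ≠ 0 →
    Submodule.span k {γ} * sys k v ≤ cl (sys k h ^ b) / sys k q ^ m →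
    Orth (gd k h q) n m b C.deg D₂.deg C₂.deg C₄.deg

def St_LEX : Prop :=
  ∀ (k L : Type) [Field k] [IsAlgClosed k] [Field L] [Algebra k L] (n : ℕ) (t : Fin n → L),
    AlgebraicIndependent k t → FiniteDimensional (IntermediateField.adjoin k (range t)) L →
    ∃ (O : ValuationSubring L) (e : ℕ), 0 < e ∧ (∀ c : k, algebraMap k L c ∈ O) ∧
      (∀ x ∈ O, ∃ c : k, O.valuation (x - algebraMap k L c) < 1) ∧
      (∀ α : Fin n → ℤ, O.valuation (∏ i, t i ^ α i) = 1 → α = 0) ∧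
      ∀ x : L, x ≠ 0 → ∃ α : Fin n → ℤ, O.valuation (x ^ e) = O.valuation (∏ i, t i ^ α i)

def St_VAL : Prop :=
  ∀ (k L : Type) [Field k] [Field L] [Algebra k L] (O : ValuationSubring L),
    (∀ c : k, algebraMap k L c ∈ O) →
    (∀ (ι : Type) (x : ι → L), (∀ i, x i ≠ 0) → (Function.Injective fun i => O.valuation (x i)) →
      LinearIndependent k x) ∧
    ((∀ x ∈ O, ∃ c : k, O.valuation (x - algebraMap k L c) < 1) →
      ∀ Γ : Submodule k L, FiniteDimensional k Γ → ∃ x : Fin (finrank k Γ) → L,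
        (∀ i, x i ∈ Γ ∧ x i ≠ 0) ∧ Function.Injective fun i => O.valuation (x i))

def St_S3 : Prop :=
  ∀ (k L : Type) [Field k] [IsAlgClosed k] [CharZero k] [Field L] [Algebra k L] (τ τ' : Type)
    [Fintype τ] [Fintype τ'] (v : τ → L) (h : τ' → L) (n : ℕ), Gen k v → Gen k h → Dim k L n →
    ∀ (C : Cut k L (rep n v)) (Γ : Submodule k L) (γ : L), FiniteDimensional k Γ → γ ≠ 0 →
    Γ * sys k h ^ n ≤ Submodule.span k {γ} * sys k v → n.factorial * finrank k Γ ≤ C.deg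

/-! ### The threshold and the numerical conclusion -/

def St_THR : Prop :=
  ∀ (k L : Type) [Field k] [CharZero k] [Field L] [Algebra k L] (τ τ' : Type) [Fintype τ]
    [Fintype τ'] (h : τ → L) (q : τ' → L) (n a N : ℕ), Gen k h → Dim k L n →
    (∀ t, 0 < t → cl (sys k h ^ (t * N * a + t)) / sys k q ^ (t * N) = ⊥) →
    (∀ m b b', b ≤ b' → gd k h q m b ≤ gd k h q m b') ∧
    (∃ c : ℕ, ∀ m b, gd k h q m b ≤ c * (b + 1) ^ n) ∧
    ∃ θ : ℝ, (a : ℝ) < θ ∧ (∀ m b : ℕ, (b : ℝ) < θ * m → cl (sys k h ^ b) / sys k q ^ m = ⊥) ∧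
      ∀ x : ℝ, θ < x → ∃ c : ℝ, 0 < c ∧
        ∃ᶠ m : ℕ in atTop, c * (m : ℝ) ^ n ≤ gd k h q m ⌊x * m⌋₊

def St_ANA : Prop :=
  ∀ (g : ℕ → ℕ → ℕ) (n a ρ₀ : ℕ) (θ : ℝ), (a : ℝ) < θ → (∀ m b b', b ≤ b' → g m b ≤ g m b') →
    (∃ c : ℕ, ∀ m b, g m b ≤ c * (b + 1) ^ (n + 2)) →
    (∀ x : ℝ, θ < x → ∃ c : ℝ, 0 < c ∧
      ∃ᶠ m : ℕ in atTop, c * (m : ℝ) ^ (n + 2) ≤ g m ⌊x * m⌋₊) →
    (∀ m b, g m b ≠ 0 → ∃ ρ ρH ρQ : ℕ, (n + 2).factorial * g m b ≤ ρ ∧
      (∀ σ : ℕ, σ ≤ b + (n + 2) → ((b + (n + 2) - σ : ℕ) : ℝ) < θ * m → ρ ≤ (n + 2) * σ * ρH) ∧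
      Orth g n m (b + (n + 2)) ρ ρH ρQ ρ₀ ∧ ρQ ≤ a * ρH) → False

/-! ### Curves -/

def St_LSC : Prop :=
  ∀ (k L : Type) [Field k] [Field L] [Algebra k L] [IsFF k L] (τ τ' : Type) [Fintype τ]
    [Fintype τ'] (h : τ → L) (q : τ' → L) (m b : ℕ), cl (sys k h ^ b) / sys k q ^ m =
      Ls (m • vdiv k (opt q) - b • vdiv k (opt h))

def St_CRV : Prop :=
  ∀ (k L : Type) [Field k] [CharZero k] [Field L] [Algebra k L] (τ : Type) [Fintype τ]
    (w : τ → L), Gen k w → Dim k L 1 → ∀ C : Cut k L (rep 1 w), (C.deg : ℤ) = dg k (opt w)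

def St_B1 : Prop :=
  ∀ (k L : Type) [Field k] [Field L] [Algebra k L] (τ τ' : Type) [Fintype τ] [Fintype τ']
    (h : τ → L) (q : τ' → L) (a N : ℕ), Gen k h → Dim k L 1 →
    (∀ t, 0 < t → cl (sys k h ^ (t * N * a + t)) / sys k q ^ (t * N) = ⊥) →
    (a : ℤ) * dg k (opt h) < dg k (opt q)

/-- If no multiple of `N (a H - Q) + H` is effective, there is a curve through the generic point
on which `a H - Q` has negative degree. -/
def St_BM : Prop :=
  ∀ (k L : Type) [Field k] [IsAlgClosed k] [CharZero k] [Field L] [Algebra k L] (τ τ' : Type)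
    [Fintype τ] [Fintype τ'] (h : τ → L) (q : τ' → L) (n a N : ℕ),
    Gen k h → Gen k q → Dim k L (n + 1) →
    (∀ t, 0 < t → cl (sys k h ^ (t * N * a + t)) / sys k q ^ (t * N) = ⊥) →
    ∃ (κ K : Type) (_ : Field κ) (_ : Field K) (_ : Algebra k κ) (_ : Algebra κ K)
      (_ : Algebra k K) (_ : IsScalarTower k κ K) (_ : IsFF κ K) (σ : L →ₐ[k] K),
      (a : ℤ) * dg κ (fun o => σ (opt h o)) < dg κ fun o => σ (opt q o)

/-! ### The canonical class -/

/-- A linear system of class `K + (n + 2) H`. -/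
def hK {L ι : Type} [Field L] [Algebra ℂ L] {n : ℕ} (d : Fin n → Derivation ℂ L L) (y : ι → L)
    (S₀ : Fin (n + 1) → ι) (i₀ : ι) : (Fin (n + 1) → ι) × ι → L :=
  fun p => gaussT d y p.1 * y p.2 / (gaussT d y S₀ * y i₀)

/-- A linear system of class `(n + 2) H`. -/
def qK {L ι : Type} [Field L] (n : ℕ) (y : ι → L) (i₀ : ι) : (Fin (n + 2) → ι) → L :=
  fun f => (∏ b, y (f b)) / y i₀ ^ (n + 2)

def St_JSE : Prop :=
  ∀ (L ι : Type) [Field L] [Algebra ℂ L] [Fintype ι] (y : ι → L) (n : ℕ) (x : Fin n → L)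
    (d : Fin n → Derivation ℂ L L), IsTranscendenceBasis ℂ x →
    (∀ a b, d a (x b) = if a = b then 1 else 0) → ∀ (z : L) (T m : ℕ), z ≠ 0 →
    (∀ O : ValuationSubring L, (∀ c : ℂ, algebraMap ℂ L c ∈ O) → ∃ i S, y i ≠ 0 ∧
      (∀ j, y j / y i ∈ O) ∧
      O.valuation z ≤ O.valuation ((gaussT d y S / y i ^ (n + 1)) ^ m * y i ^ T)) →
    MP_9a2ae6_ag.plurigenus ℂ L n (NV.pows y T) m ≠ 0

def St_JPS : Prop :=
  ∀ (L ι : Type) [Field L] [Algebra ℂ L] [Fintype ι] (y : ι → L) (n : ℕ) (x : Fin n → L)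
    (d : Fin n → Derivation ℂ L L), IsTranscendenceBasis ℂ x →
    (∀ a b, d a (x b) = if a = b then 1 else 0) → ∀ (S₀ : Fin (n + 1) → ι) (i₀ : ι),
    gaussT d y S₀ ≠ 0 → y i₀ ≠ 0 → ¬ NV.Psef y n → ∃ N : ℕ, ∀ t, 0 < t →
      cl (sys ℂ (hK d y S₀ i₀) ^ (t * N * 1 + t)) / sys ℂ (qK n y i₀) ^ (t * N) = ⊥

def St_JDG : Prop :=
  ∀ (κ K : Type) [Field κ] [Field K] [Algebra κ K] [IsFF κ K] (ι ι' : Type) [Fintype ι]
    [Fintype ι'] (y : ι → K) (G : ι' → K) (S₀ : ι') (i₀ : ι) (n : ℕ), G S₀ ≠ 0 → y i₀ ≠ 0 →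
    dg κ (opt fun p : ι' × ι => G p.1 * y p.2 / (G S₀ * y i₀)) = ht κ G + ht κ y ∧
      dg κ (opt (qK n y i₀)) = (n + 2) * ht κ y

/-- The goal of this half. -/
def St_B : Prop :=
  ∀ (L ι : Type) [Field L] [Algebra ℂ L] [Fintype ι] [Nonempty ι] (y : ι → L) (n : ℕ), 0 < n →
    Algebra.trdeg ℂ L = n → GD.SmoothModel y → ¬ NV.Psef y n → NegCurve y n

end Pool.Agent.Lib.UR
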