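import Pool.Agent.Lib.UR.BlueB

/-! The analytic step: a continuity point of the volume function. -/

open Set Filter Topology

set_option linter.unusedVariables false

noncomputable section

namespace Pool.Agent.Lib.UR

namespace AnaB

theorem binom (n : ℕ) (M : ℝ) (hM : 0 ≤ M) :
    (M + 1) ^ (n + 2) ≤ M ^ (n + 2) + (n + 2) * M ^ (n + 1) + ((n : ℝ) + 2) ^ 2 * (M + 1) ^ n := by
  induction n with
  | zero => simp only [Nat.cast_zero, zero_add, pow_zero, pow_one]; nlinarith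
  | succ n ih =>
    have h1 : M ^ (n + 1) ≤ (M + 1) ^ (n + 1) := pow_le_pow_left₀ hM (by linarith) _
    have h2 : (0 : ℝ) ≤ (M + 1) ^ (n + 1) := by positivity
    have h3 : (M + 1) * (M + 1) ^ (n + 2) ≤ (M + 1) * (M ^ (n + 2) + (n + 2) * M ^ (n + 1) +
        ((n : ℝ) + 2) ^ 2 * (M + 1) ^ n) := mul_le_mul_of_nonneg_left ih (by linarith)
    have hn : (0 : ℝ) ≤ n := Nat.cast_nonneg n
    have h4 : ((n : ℝ) + 2) * M ^ (n + 1) ≤ ((n : ℝ) + 2) * (M + 1) ^ (n + 1) :=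
      mul_le_mul_of_nonneg_left h1 (by linarith)
    have h5 : (((n : ℝ) + 2) + ((n : ℝ) + 2) ^ 2) * (M + 1) ^ (n + 1) ≤
        ((n : ℝ) + 1 + 2) ^ 2 * (M + 1) ^ (n + 1) :=
      mul_le_mul_of_nonneg_right (by nlinarith) h2
    have e1 : (M + 1) ^ (n + 1 + 2) = (M + 1) * (M + 1) ^ (n + 2) := by ring
    have e2 : (M + 1) * (M ^ (n + 2) + (n + 2) * M ^ (n + 1) + ((n : ℝ) + 2) ^ 2 * (M + 1) ^ n) =
        M ^ (n + 1 + 2) + ((n : ℝ) + 1 + 2) * M ^ (n + 1 + 1) + ((n : ℝ) + 2) * M ^ (n + 1) +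
          ((n : ℝ) + 2) ^ 2 * (M + 1) ^ (n + 1) := by ring
    push_cast
    rw [e1]
    linarith

theorem exM (n : ℕ) (C : ℝ) (hC : 0 ≤ C) : ∃ M : ℕ, 0 < M ∧
    ((M : ℝ) + 1) ^ (n + 2) + C * ((M : ℝ) + 1) ^ n <
      (M : ℝ) ^ (n + 2) + ((n : ℝ) + 3) * (M : ℝ) ^ (n + 1) := by
  obtain ⟨M, hM⟩ := exists_nat_gt ((((n : ℝ) + 2) ^ 2 + C) * 2 ^ n + 1)
  have h0 : (0 : ℝ) ≤ (((n : ℝ) + 2) ^ 2 + C) * 2 ^ n := by positivity
  have h1 : (1 : ℝ) < M := by linarith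
  refine ⟨M, by exact_mod_cast (by linarith : (0 : ℝ) < M), ?_⟩
  have h2 := binom n M (by linarith)
  have h3 : ((M : ℝ) + 1) ^ n ≤ 2 ^ n * (M : ℝ) ^ n := by
    rw [← mul_pow]; exact pow_le_pow_left₀ (by linarith) (by linarith) _
  have h4 : (((n : ℝ) + 2) ^ 2 + C) * ((M : ℝ) + 1) ^ n ≤
      (((n : ℝ) + 2) ^ 2 + C) * (2 ^ n * (M : ℝ) ^ n) :=
    mul_le_mul_of_nonneg_left h3 (by positivity)
  have h5 : (0 : ℝ) < (M : ℝ) ^ n := by positivity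
  have h6 : (((n : ℝ) + 2) ^ 2 + C) * 2 ^ n * (M : ℝ) ^ n < M * (M : ℝ) ^ n :=
    mul_lt_mul_of_pos_right (by linarith) h5
  have e1 : (M : ℝ) ^ (n + 1) = M * (M : ℝ) ^ n := by ring
  nlinarith

theorem exE (A B E : ℝ) (hB : 0 ≤ B) (hE : 0 ≤ E) (h : B + E < A) :
    ∃ ε : ℝ, 0 < ε ∧ ε < 1 ∧ (1 + ε) * B + E < (1 - ε) * A := by
  have h1 : 0 < A + B := by linarith
  refine ⟨(A - B - E) / (2 * (A + B)), div_pos (by linarith) (by linarith), ?_, ?_⟩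
  · rw [div_lt_one (by linarith)]; linarith
  · have h2 : (A - B - E) / (2 * (A + B)) * (A + B) = (A - B - E) / 2 := by
      field_simp
    nlinarith

/-- The set of eventual upper bounds. -/
def S (g : ℕ → ℕ → ℕ) (D : ℕ) (x : ℝ) : Set ℝ :=
  {c | ∀ᶠ m : ℕ in atTop, (g m ⌊x * m⌋₊ : ℝ) ≤ c * (m : ℝ) ^ D}

/-- The volume function. -/
def vol (g : ℕ → ℕ → ℕ) (D : ℕ) (x : ℝ) : ℝ := sInf (S g D x)

variable {g : ℕ → ℕ → ℕ} {D : ℕ}

theorem le_of_mem {x c c' : ℝ} (h : c' ∈ S g D x)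
    (hc : ∃ᶠ m : ℕ in atTop, c * (m : ℝ) ^ D ≤ g m ⌊x * m⌋₊) : c ≤ c' := by
  obtain ⟨m, h1, h2, h3⟩ := (hc.and_eventually (h.and (eventually_gt_atTop 0))).exists
  have hm : (0 : ℝ) < (m : ℝ) ^ D := by positivity
  exact le_of_mul_le_mul_right (h1.trans h2) hm

theorem bdd (x : ℝ) : BddBelow (S g D x) :=
  ⟨0, fun c h => le_of_mem h (Eventually.of_forall (fun m => by simp)).frequently⟩

theorem ne (hb : ∃ c : ℕ, ∀ m b, g m b ≤ c * (b + 1) ^ D) (x : ℝ) : (S g D x).Nonempty := by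
  obtain ⟨c, hc⟩ := hb
  refine ⟨c * (|x| + 1) ^ D, ?_⟩
  filter_upwards [eventually_ge_atTop 1] with m hm
  have h1 : (1 : ℝ) ≤ m := by exact_mod_cast hm
  have h2 : (⌊x * m⌋₊ : ℝ) ≤ |x| * m := by
    have h3 : ⌊x * m⌋₊ ≤ ⌊|x| * m⌋₊ :=
      Nat.floor_mono (mul_le_mul_of_nonneg_right (le_abs_self x) (by linarith))
    have h4 : (⌊|x| * m⌋₊ : ℝ) ≤ |x| * m := Nat.floor_le (by positivity)
    exact le_trans (by exact_mod_cast h3) h4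
  have h5 : (g m ⌊x * m⌋₊ : ℝ) ≤ c * ((⌊x * m⌋₊ : ℝ) + 1) ^ D := by exact_mod_cast hc m _
  have h6 : ((⌊x * m⌋₊ : ℝ) + 1) ^ D ≤ ((|x| + 1) * m) ^ D :=
    pow_le_pow_left₀ (by positivity) (by linarith) _
  rw [mul_assoc, ← mul_pow]
  exact h5.trans (mul_le_mul_of_nonneg_left h6 (by positivity))

theorem vol_mono (hm : ∀ m b b', b ≤ b' → g m b ≤ g m b')
    (hb : ∃ c : ℕ, ∀ m b, g m b ≤ c * (b + 1) ^ D) : Monotone (vol g D) := by
  intro x y hxy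
  refine csInf_le_csInf (bdd x) (ne hb y) ?_
  intro c hc
  filter_upwards [hc] with m h
  refine le_trans ?_ h
  exact_mod_cast hm m _ _ (Nat.floor_mono (mul_le_mul_of_nonneg_right hxy (Nat.cast_nonneg m)))

theorem upper (hb : ∃ c : ℕ, ∀ m b, g m b ≤ c * (b + 1) ^ D) {x c : ℝ} (h : vol g D x < c) :
    ∀ᶠ m : ℕ in atTop, (g m ⌊x * m⌋₊ : ℝ) ≤ c * (m : ℝ) ^ D := by
  obtain ⟨c', h1, h2⟩ := exists_lt_of_csInf_lt (ne hb x) h
  filter_upwards [h1] with m h3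
  exact h3.trans (mul_le_mul_of_nonneg_right h2.le (by positivity))

theorem lower {x c : ℝ} (h : c < vol g D x) :
    ∃ᶠ m : ℕ in atTop, c * (m : ℝ) ^ D < g m ⌊x * m⌋₊ := by
  by_contra h1
  rw [not_frequently] at h1
  have h2 : c ∈ S g D x := by
    filter_upwards [h1] with m h3
    exact not_lt.1 h3
  exact absurd (csInf_le (bdd x) h2) (not_le.2 h)

theorem pos (hb : ∃ c : ℕ, ∀ m b, g m b ≤ c * (b + 1) ^ D) {x c : ℝ} (hc : 0 < c)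
    (h : ∃ᶠ m : ℕ in atTop, c * (m : ℝ) ^ D ≤ g m ⌊x * m⌋₊) : 0 < vol g D x :=
  hc.trans_le (le_csInf (ne hb x) (fun _ h1 => le_of_mem h1 h))

/-- The limit of the orthogonality estimate. -/
theorem orth {n m b ρ ρH ρQ ρ₀ M : ℕ} {x c : ℝ} (hm : ∀ m b b', b ≤ b' → g m b ≤ g m b')
    (hO : Orth g n m b ρ ρH ρQ ρ₀) (hM : 0 < M) (hm0 : 0 < m) (hb : (b : ℝ) ≤ x * m)
    (hu : ∀ᶠ m : ℕ in atTop, (g m ⌊x * m⌋₊ : ℝ) ≤ c * (m : ℝ) ^ (n + 2)) :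
    (M : ℝ) ^ (n + 2) * ρ + (n + 2) * b * (M : ℝ) ^ (n + 1) * ρH -
      (n + 2) * m * (M : ℝ) ^ (n + 1) * ρQ -
      (n + 2) * (n + 1) * m * b * ((b : ℝ) * (M + 1)) ^ n * ρ₀ ≤
      (n + 2).factorial * (c * (((M : ℝ) + 1) ^ (n + 2) * (m : ℝ) ^ (n + 2))) := by
  refine le_of_forall_pos_le_add (fun ε hε => ?_)
  have ht : Tendsto (fun j : ℕ => (M + 1) * j * m) atTop atTop := by
    refine tendsto_atTop_mono (fun j => ?_) tendsto_id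
    exact le_trans (Nat.le_mul_of_pos_left j (Nat.succ_pos M)) (Nat.le_mul_of_pos_right _ hm0)
  obtain ⟨j, h1, h2, h3⟩ := ((hO M hM ε hε).and ((ht.eventually hu).and
    (eventually_gt_atTop 0))).exists
  have hj : (0 : ℝ) < (j : ℝ) ^ (n + 2) := by positivity
  have h4 : (M + 1) * j * b ≤ ⌊x * (((M + 1) * j * m : ℕ) : ℝ)⌋₊ := by
    refine Nat.le_floor ?_
    push_cast
    have h5 : ((M : ℝ) + 1) * j * b ≤ ((M : ℝ) + 1) * j * (x * m) :=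
      mul_le_mul_of_nonneg_left hb (by positivity)
    linarith
  have h6 : (g ((M + 1) * j * m) ((M + 1) * j * b) : ℝ) ≤
      c * (((M + 1) * j * m : ℕ) : ℝ) ^ (n + 2) :=
    le_trans (by exact_mod_cast hm _ _ _ h4) h2
  have h7 := h1.trans (mul_le_mul_of_nonneg_left h6 (Nat.cast_nonneg _))
  have e : ((n + 2).factorial : ℝ) * (c * (((M + 1) * j * m : ℕ) : ℝ) ^ (n + 2)) =
      (n + 2).factorial * (c * (((M : ℝ) + 1) ^ (n + 2) * (m : ℝ) ^ (n + 2))) *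
        (j : ℝ) ^ (n + 2) := by
    push_cast
    rw [mul_pow, mul_pow]
    ring
  rw [e] at h7
  have h8 := le_of_mul_le_mul_right h7 hj
  linarith

end AnaB

open AnaB in
theorem st_ANA : St_ANA := by
  intro g n a ρ₀ θ ha hm hb hp hO
  have ha0 : (0 : ℝ) ≤ a := Nat.cast_nonneg a
  have hn0 : (0 : ℝ) ≤ n := Nat.cast_nonneg n
  have hθ : 0 < θ := by linarith
  obtain ⟨η, hη, hηe⟩ : ∃ η : ℝ, 0 < η ∧ θ - a = 2 * ((n : ℝ) + 3) * η :=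
    ⟨(θ - a) / (2 * ((n : ℝ) + 3)), div_pos (by linarith) (by linarith), by field_simp⟩
  have hmono : Monotone (vol g (n + 2)) := vol_mono hm hb
  obtain ⟨x, hx1, hx2, hx3⟩ := (hmono.countable_not_continuousAt.dense_compl ℝ).exists_between
    (show θ < θ + η by linarith)
  have hc : ContinuousAt (vol g (n + 2)) x := not_not.1 hx1
  obtain ⟨c₀, hc₀, hc₁⟩ := hp x hx2
  have hV : 0 < vol g (n + 2) x := pos hb hc₀ hc₁
  set V := vol g (n + 2) x with hVdef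
  have hF : (0 : ℝ) < (n + 2).factorial := by exact_mod_cast Nat.factorial_pos _
  obtain ⟨C, hC, hCe⟩ : ∃ C : ℝ, 0 ≤ C ∧ C * ((n + 2).factorial * V) =
      (n + 2) * (n + 1) * (θ + η) ^ (n + 1) * ρ₀ :=
    ⟨(n + 2) * (n + 1) * (θ + η) ^ (n + 1) * ρ₀ / ((n + 2).factorial * V), by positivity,
      by field_simp⟩
  obtain ⟨M, hM, hM1⟩ := exM n C hC
  obtain ⟨ε, hε, hε1, hε2⟩ := exE _ _ _ (by positivity) (by positivity) hM1
  have hev : ∀ᶠ y in 𝓝[>] x, vol g (n + 2) y < (1 + ε) * V ∧ y < θ + η ∧ x < y := by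
    refine (Eventually.filter_mono nhdsWithin_le_nhds ?_).and
      ((Eventually.filter_mono nhdsWithin_le_nhds (eventually_lt_nhds hx3)).and
        self_mem_nhdsWithin)
    exact hc.eventually (eventually_lt_nhds (by nlinarith))
  obtain ⟨y, hy1, hy2, hy3⟩ := hev.exists
  have hu := upper hb hy1
  have hl : ∃ᶠ m : ℕ in atTop, (1 - ε) * V * (m : ℝ) ^ (n + 2) < g m ⌊x * m⌋₊ :=
    lower (by nlinarith)
  have e1 : ∀ᶠ m : ℕ in atTop, (n : ℝ) + 2 ≤ (y - x) * m :=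
    (tendsto_natCast_atTop_atTop.const_mul_atTop (sub_pos.2 hy3)).eventually_ge_atTop _
  have e2 : ∀ᶠ m : ℕ in atTop, 1 ≤ η * m :=
    (tendsto_natCast_atTop_atTop.const_mul_atTop hη).eventually_ge_atTop _
  obtain ⟨m, h1, h2, h3, h4⟩ :=
    (hl.and_eventually (e1.and (e2.and (eventually_gt_atTop 0)))).exists
  have hm0 : (0 : ℝ) < m := by exact_mod_cast h4
  have hmD : (0 : ℝ) < (m : ℝ) ^ (n + 2) := by positivity
  have hg : g m ⌊x * m⌋₊ ≠ 0 := by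
    intro h0
    rw [h0, Nat.cast_zero] at h1
    have : 0 < (1 - ε) * V * (m : ℝ) ^ (n + 2) := mul_pos (mul_pos (by linarith) hV) hmD
    linarith
  obtain ⟨ρ, ρH, ρQ, r1, r2, r3, r4⟩ := hO m _ hg
  have hb1 : (⌊x * m⌋₊ : ℝ) ≤ x * m := Nat.floor_le (mul_nonneg (by linarith) hm0.le)
  have hb2 : x * m < (⌊x * m⌋₊ : ℝ) + 1 := Nat.lt_floor_add_one _
  generalize ⌊x * m⌋₊ = b at h1 hg r1 r2 r3 hb1 hb2
  have hθm : θ * m ≤ x * m := mul_le_mul_of_nonneg_right hx2.le hm0.le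
  have hym : y * m ≤ (θ + η) * m := mul_le_mul_of_nonneg_right hy2.le hm0.le
  have hθ0 : 0 < θ * m := mul_pos hθ hm0
  obtain ⟨b', hb'⟩ : ∃ b' : ℕ, b' = b + (n + 2) := ⟨_, rfl⟩
  rw [← hb'] at r2 r3
  have hbe : (b' : ℝ) = b + (n + 2) := by rw [hb']; push_cast; ring
  have hb3 : (b' : ℝ) ≤ y * m := by linarith
  have hb4 : θ * m ≤ b' := by linarith
  have hb0 : (0 : ℝ) ≤ b' := Nat.cast_nonneg _
  have s1 : ⌊(b' : ℝ) - θ * m⌋₊ + 1 ≤ b' :=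
    Nat.succ_le_of_lt ((Nat.floor_lt (by linarith)).2 (by linarith))
  have s2 : (⌊(b' : ℝ) - θ * m⌋₊ : ℝ) ≤ b' - θ * m := Nat.floor_le (by linarith)
  have s3 : (b' : ℝ) - θ * m < (⌊(b' : ℝ) - θ * m⌋₊ : ℝ) + 1 := Nat.lt_floor_add_one _
  have s4 := r2 _ s1 (by rw [Nat.cast_sub s1]; push_cast; linarith)
  have s5 : (ρ : ℝ) ≤ (n + 2) * ((⌊(b' : ℝ) - θ * m⌋₊ : ℝ) + 1) * ρH := by exact_mod_cast s4
  have hH : (0 : ℝ) ≤ ρH := Nat.cast_nonneg _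
  have s6 : (ρ : ℝ) ≤ (n + 2) * (2 * (η * m)) * ρH :=
    s5.trans (mul_le_mul_of_nonneg_right
      (mul_le_mul_of_nonneg_left (by linarith) (by linarith)) hH)
  have r5 : (ρQ : ℝ) ≤ a * ρH := by exact_mod_cast r4
  have s7 : (m : ℝ) * ρQ ≤ m * (a * ρH) := mul_le_mul_of_nonneg_left r5 hm0.le
  have s8 : θ * m * ρH ≤ b' * ρH := mul_le_mul_of_nonneg_right hb4 hH
  have s9 : 2 * ((n : ℝ) + 3) * η * (m * ρH) ≤ b' * ρH - m * ρQ := by
    rw [← hηe]; linarith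
  have s10 : ((n : ℝ) + 3) * ρ ≤ (n + 2) * (b' * ρH - m * ρQ) := by
    have t1 := mul_le_mul_of_nonneg_left s6 (show (0 : ℝ) ≤ n + 3 by linarith)
    have t2 := mul_le_mul_of_nonneg_left s9 (show (0 : ℝ) ≤ n + 2 by linarith)
    linarith
  have o1 := orth hm r3 hM h4 hb3 hu
  have hM0 : (0 : ℝ) < M := by exact_mod_cast hM
  have o2 : (M : ℝ) ^ (n + 1) * (((n : ℝ) + 3) * ρ) ≤
      (M : ℝ) ^ (n + 1) * ((n + 2) * (b' * ρH - m * ρQ)) :=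
    mul_le_mul_of_nonneg_left s10 (by positivity)
  have o3 : (b' : ℝ) ^ (n + 1) ≤ ((θ + η) * m) ^ (n + 1) :=
    pow_le_pow_left₀ hb0 (by linarith) _
  have o4 : ((n : ℝ) + 2) * (n + 1) * m * b' * ((b' : ℝ) * (M + 1)) ^ n * ρ₀ ≤
      C * ((M : ℝ) + 1) ^ n * ((n + 2).factorial * V * (m : ℝ) ^ (n + 2)) := by
    have t1 : ((n : ℝ) + 2) * (n + 1) * m * ((M : ℝ) + 1) ^ n * ρ₀ * (b' : ℝ) ^ (n + 1) ≤
        ((n : ℝ) + 2) * (n + 1) * m * ((M : ℝ) + 1) ^ n * ρ₀ * ((θ + η) * m) ^ (n + 1) :=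
      mul_le_mul_of_nonneg_left o3 (by positivity)
    have t2 : C * ((M : ℝ) + 1) ^ n * ((n + 2).factorial * V * (m : ℝ) ^ (n + 2)) =
        C * ((n + 2).factorial * V) * (((M : ℝ) + 1) ^ n * (m : ℝ) ^ (n + 2)) := by ring
    rw [t2, hCe]
    rw [mul_pow] at t1 ⊢
    refine le_trans (le_of_eq ?_) (t1.trans (le_of_eq ?_)) <;> ring
  have r6 : ((n + 2).factorial : ℝ) * g m b ≤ ρ := by exact_mod_cast r1
  have r7 : (1 - ε) * ((n + 2).factorial * V * (m : ℝ) ^ (n + 2)) ≤ ρ := by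
    have t1 := mul_le_mul_of_nonneg_left h1.le hF.le
    linarith
  have hW : 0 < (n + 2).factorial * V * (m : ℝ) ^ (n + 2) := by positivity
  have o5 := mul_le_mul_of_nonneg_left r7
    (show (0 : ℝ) ≤ (M : ℝ) ^ (n + 2) + ((n : ℝ) + 3) * (M : ℝ) ^ (n + 1) by positivity)
  have o6 := mul_lt_mul_of_pos_right hε2 hW
  linarith

end Pool.Agent.Lib.UR
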