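import Pool.Agent.Lib.UR.BlueB
import Pool.Agent.Lib.MP_7fcda1_ag.Ord2

/-! From a non pseudo-effective canonical class to empty linear systems. -/

noncomputable section

namespace Pool.Agent.Lib.UR

open Pool.Agent.Lib.MP_7fcda1_ag

namespace JPS

theorem bound {L ι ι' : Type} [Field L] [Algebra ℂ L] (y : ι → L) (G : ι' → L) (n M t : ℕ)
    {S₀ S : ι'} {i₀ i : ι} (hG : G S₀ ≠ 0) (hy : y i₀ ≠ 0) (O : ValuationSubring L)
    (hO : ∀ c : ℂ, algebraMap ℂ L c ∈ O) (hS : G S ≠ 0) (hS' : ∀ S', G S' / G S ∈ O)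
    (hi : y i ≠ 0) (hi' : ∀ j, y j / y i ∈ O) {x : L}
    (hx : x ∈ cl (sys ℂ (fun p : ι' × ι => G p.1 * y p.2 / (G S₀ * y i₀)) ^ (M + t)) /
      sys ℂ (qK n y i₀) ^ M) :
    O.valuation (x * (G S₀ * y i₀) ^ (M + t) / y i₀ ^ ((n + 2) * M)) ≤
      O.valuation ((G S / y i ^ (n + 1)) ^ (M + t) * y i ^ (t * (n + 2))) := by
  have h1 : ∀ p : ι' × ι, G p.1 * y p.2 / (G S₀ * y i₀) ∈
      ball O hO (O.valuation (G S * y i / (G S₀ * y i₀))) := fun p => by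
    have h2 : G p.1 * y p.2 / (G S₀ * y i₀) =
        G p.1 / G S * (y p.2 / y i) * (G S * y i / (G S₀ * y i₀)) := by
      field_simp
    rw [mem_ball, h2, map_mul]
    exact mul_le_of_le_one_left' ((O.valuation_le_one_iff _).2 (O.mul_mem _ _ (hS' _) (hi' _)))
  have h2 : sys ℂ (fun p : ι' × ι => G p.1 * y p.2 / (G S₀ * y i₀)) ≤
      ball O hO (O.valuation (G S * y i / (G S₀ * y i₀))) := by
    refine sys_le ?_ h1
    have h3 := h1 (S₀, i₀)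
    rwa [div_self (mul_ne_zero hG hy)] at h3
  have h3 := cl_le_ball (ball_pow h2 (M + t)) (Submodule.mem_div_iff_forall_mul_mem.1 hx _
    (Submodule.pow_mem_pow _ (mem_sys (k := ℂ) (qK n y i₀) fun _ => i) M))
  rw [mem_ball, ← map_pow] at h3
  have h4 : qK n y i₀ (fun _ => i) = y i ^ (n + 2) / y i₀ ^ (n + 2) := by simp [qK]
  have h5 : x * (G S₀ * y i₀) ^ (M + t) / y i₀ ^ ((n + 2) * M) =
      x * qK n y i₀ (fun _ => i) ^ M * ((G S₀ * y i₀) ^ (M + t) / y i ^ ((n + 2) * M)) := by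
    rw [h4, div_pow, ← pow_mul, ← pow_mul]
    field_simp
  have h6 : (G S / y i ^ (n + 1)) ^ (M + t) * y i ^ (t * (n + 2)) =
      (G S * y i / (G S₀ * y i₀)) ^ (M + t) *
        ((G S₀ * y i₀) ^ (M + t) / y i ^ ((n + 2) * M)) := by
    rw [div_pow, div_pow, div_mul_div_cancel₀ (pow_ne_zero _ (mul_ne_zero hG hy)),
      div_mul_eq_mul_div, div_eq_div_iff (pow_ne_zero _ (pow_ne_zero _ hi)) (pow_ne_zero _ hi)]
    ring
  rw [h5, h6, map_mul, map_mul _ (_ ^ _)]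
  exact mul_le_mul' h3 le_rfl

end JPS

theorem st_JPS (hJSE : St_JSE) : St_JPS := by
  intro L ι _ _ _ y n x d hx hd S₀ i₀ hG hy hP
  have hy0 : y ≠ 0 := fun h => hy (by rw [h]; rfl)
  have hG0 : gaussT d y ≠ 0 := fun h => hG (by rw [h]; rfl)
  obtain ⟨N₀, hN⟩ : ∃ N₀ : ℕ, ∀ t, 0 < t →
      MP_9a2ae6_ag.plurigenus ℂ L n (NV.pows y t) (t * N₀) = 0 := by
    by_contra h
    refine hP fun N => ?_
    by_contra h'
    exact h ⟨N, fun t ht => by_contra fun h2 => h' ⟨t, ht, h2⟩⟩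
  have hN0 : N₀ ≠ 0 := by
    rintro rfl
    refine hJSE L ι y n x d hx hd (y i₀) 1 0 hy (fun O _ => ?_) (hN 1 one_pos)
    obtain ⟨i, hi, hi'⟩ := exists_min_coord O hy0
    refine ⟨i, S₀, hi, hi', ?_⟩
    have h1 : y i₀ = y i₀ / y i * y i := (div_mul_cancel₀ _ hi).symm
    rw [pow_zero, one_mul, pow_one, h1, map_mul]
    exact mul_le_of_le_one_left' ((O.valuation_le_one_iff _).2 (hi' _))
  obtain ⟨N, hNN⟩ : ∃ N, (n + 2) * N₀ = N + 1 :=
    Nat.exists_eq_succ_of_ne_zero (mul_ne_zero (Nat.succ_ne_zero _) hN0)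
  refine ⟨N, fun t ht => eq_bot_iff.2 fun z hz => ?_⟩
  rw [Submodule.mem_bot]
  by_contra hz0
  rw [mul_one] at hz
  have h1 : t * (n + 2) * N₀ = t * N + t := by rw [mul_assoc, hNN]; ring
  refine hJSE L ι y n x d hx hd
    (z * (gaussT d y S₀ * y i₀) ^ (t * N + t) / y i₀ ^ ((n + 2) * (t * N))) (t * (n + 2))
    (t * N + t) (div_ne_zero (mul_ne_zero hz0 (pow_ne_zero _ (mul_ne_zero hG hy)))
      (pow_ne_zero _ hy)) (fun O hO => ?_) (h1 ▸ hN _ (by positivity))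
  obtain ⟨i, hi, hi'⟩ := exists_min_coord O hy0
  obtain ⟨S, hS, hS'⟩ := exists_min_coord O hG0
  exact ⟨i, S, hi, hi', JPS.bound y (gaussT d y) n (t * N) t hG hy O hO hS hS' hi hi' hz⟩

end Pool.Agent.Lib.UR
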