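import Pool.Agent.Lib.UR.BlueB
import Pool.Agent.Lib.MP_7fcda1_ag.Plc1

open Set

set_option linter.unusedVariables false
set_option linter.unusedSectionVars false

noncomputable section

namespace Pool.Agent.Lib.UR

open Pool.Agent.Lib.MP_7fcda1_ag

namespace LexB

variable {k L : Type} [Field k] [Field L] [Algebra k L] {n : ℕ}

/-- Laurent monomials. -/
def mon (t : Fin n → L) (α : Fin n → ℤ) : L := ∏ i, t i ^ α i

variable {t : Fin n → L}

lemma mon_zero : mon t 0 = 1 := by simp [mon]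

lemma mon_add (h : ∀ i, t i ≠ 0) (α β : Fin n → ℤ) : mon t (α + β) = mon t α * mon t β := by
  rw [mon, mon, mon, ← Finset.prod_mul_distrib]
  exact Finset.prod_congr rfl fun i _ => zpow_add₀ (h i) _ _

lemma mon_ne (h : ∀ i, t i ≠ 0) (α : Fin n → ℤ) : mon t α ≠ 0 :=
  Finset.prod_ne_zero_iff.2 fun i _ => zpow_ne_zero _ (h i)

lemma mon_sub (h : ∀ i, t i ≠ 0) (α β : Fin n → ℤ) : mon t (α - β) = mon t α / mon t β := by
  rw [eq_div_iff (mon_ne h β), ← mon_add h, sub_add_cancel]

lemma mon_nsmul (h : ∀ i, t i ≠ 0) (α : Fin n → ℤ) (m : ℕ) : mon t (m • α) = mon t α ^ m := by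
  induction m with
  | zero => rw [zero_smul, mon_zero, pow_zero]
  | succ m ih => rw [succ_nsmul, mon_add h, ih, pow_succ]

lemma aeval_mono (d : Fin n →₀ ℕ) (c : k) :
    MvPolynomial.aeval t (MvPolynomial.monomial d c) = c • mon t fun i => (d i : ℤ) := by
  rw [MvPolynomial.aeval_monomial, Finsupp.prod_fintype _ _ fun i => pow_zero _, Algebra.smul_def]
  simp [mon]

lemma li_mon (ht : AlgebraicIndependent k t) : LinearIndependent k (mon t) := by
  classical
  have h : ∀ i, t i ≠ 0 := ht.ne_zero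
  rw [linearIndependent_iff']
  intro s g hg γ0 hγ0
  obtain ⟨N, hN⟩ : ∃ N : ℕ, ∀ γ ∈ s, ∀ a, 0 ≤ γ a + N := by
    refine ⟨s.sup fun γ => Finset.univ.sup fun a => (γ a).natAbs, fun γ hγ a => ?_⟩
    have h1 : (γ a).natAbs ≤ Finset.univ.sup fun a => (γ a).natAbs :=
      Finset.le_sup (f := fun a => (γ a).natAbs) (Finset.mem_univ a)
    have h2 : (Finset.univ.sup fun a => (γ a).natAbs) ≤
        s.sup fun γ => Finset.univ.sup fun a => (γ a).natAbs :=
      Finset.le_sup (f := fun γ : Fin n → ℤ => Finset.univ.sup fun a => (γ a).natAbs) hγ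
    have h3 := h1.trans h2
    omega
  let d : (Fin n → ℤ) → Fin n →₀ ℕ := fun γ =>
    Finsupp.equivFunOnFinite.symm fun a => (γ a + N).toNat
  have hd : ∀ γ a, d γ a = (γ a + N).toNat := fun γ a => rfl
  have e : ∀ γ ∈ s, MvPolynomial.aeval t (MvPolynomial.monomial (d γ) (g γ)) =
      (g γ • mon t γ) * mon t fun _ => (N : ℤ) := fun γ hγ => by
    rw [aeval_mono, smul_mul_assoc, ← mon_add h]
    refine congrArg (fun α => g γ • mon t α) (funext fun a => ?_)
    rw [hd, Int.toNat_of_nonneg (hN γ hγ a)]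
    rfl
  have h0 : (∑ γ ∈ s, MvPolynomial.monomial (d γ) (g γ) : MvPolynomial (Fin n) k) = 0 := by
    apply ht
    rw [map_sum, Finset.sum_congr rfl e, ← Finset.sum_mul, hg, zero_mul, map_zero]
  have h1 := congrArg (MvPolynomial.coeff (d γ0)) h0
  rw [MvPolynomial.coeff_sum, Finset.sum_eq_single_of_mem γ0 hγ0, MvPolynomial.coeff_monomial,
    if_pos rfl, MvPolynomial.coeff_zero] at h1
  · exact h1
  · intro γ hγ hne
    rw [MvPolynomial.coeff_monomial, if_neg]
    intro h
    refine hne (funext fun a => ?_)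
    have h2 := DFunLike.congr_fun h a
    rw [hd, hd] at h2
    have := hN γ hγ a
    have := hN γ0 hγ0 a
    omega

variable (n) in
/-- Exponents that are lexicographically nonnegative. -/
def Pos : AddSubmonoid (Fin n → ℤ) where
  carrier := {α | 0 ≤ toLex α}
  zero_mem' := le_refl (0 : Lex (Fin n → ℤ))
  add_mem' := fun {a b} ha hb => add_nonneg (α := Lex (Fin n → ℤ)) ha hb

lemma pos_add {a b : Pos n} : a + b = 0 ↔ a = 0 ∧ b = 0 := by
  have h := add_eq_zero_iff_of_nonneg (α := Lex (Fin n → ℤ)) a.2 b.2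
  simp only [Subtype.ext_iff]
  exact h

lemma exists_place [IsAlgClosed k] (ht : AlgebraicIndependent k t) : ∃ P : Plc L k,
    (∀ c : k, P.To (algebraMap k L c) c) ∧ ∀ α, 0 < toLex α → P.To (mon t α) 0 := by
  classical
  have h : ∀ i, t i ≠ 0 := ht.ne_zero
  let f : Multiplicative (Pos n) →* L :=
    { toFun := fun a => mon t a.toAdd.1
      map_one' := mon_zero
      map_mul' := fun a b => mon_add h _ _ }
  let g : Multiplicative (Pos n) →* k :=
    { toFun := fun a => if a.toAdd = 0 then 1 else 0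
      map_one' := if_pos rfl
      map_mul' := fun a b => by
        simp only [toAdd_mul, pos_add]
        by_cases h1 : a.toAdd = 0 <;> by_cases h2 : b.toAdd = 0 <;> simp [h1, h2] }
  obtain ⟨P, hP⟩ := exists_plc_of_hom (AddMonoidAlgebra.lift k L (Pos n) f).toRingHom
    (AddMonoidAlgebra.lift k k (Pos n) g).toRingHom fun r hr => by
      have h1 := linearIndependent_iff.1 ((li_mon ht).comp (fun a : Pos n => a.1)
        Subtype.val_injective) r.coeff ((AddMonoidAlgebra.lift_apply f r).symm.trans hr)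
      have h2 : r = 0 := AddMonoidAlgebra.ext h1
      rw [h2, map_zero]
  refine ⟨P, fun c => ?_, fun α hα => ?_⟩
  · simpa [Algebra.smul_def] using hP (algebraMap k _ c)
  · have h1 := hP (AddMonoidAlgebra.single ⟨α, hα.le⟩ 1)
    have h2 : (⟨α, hα.le⟩ : Pos n) ≠ 0 := fun e => hα.ne' (congrArg Subtype.val e)
    simpa [f, g, h2] using h1

lemma val_sum (O : ValuationSubring L) {ι : Type} {s : Finset ι} (hs : s.Nonempty) (f : ι → L)
    (h : ∀ i ∈ s, ∀ j ∈ s, O.valuation (f i) = O.valuation (f j) → i = j) :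
    ∃ j ∈ s, O.valuation (∑ i ∈ s, f i) = O.valuation (f j) := by
  classical
  obtain ⟨j, hj, h1⟩ := s.exists_max_image (fun i => O.valuation (f i)) hs
  refine ⟨j, hj, O.valuation.map_sum_eq_of_lt hj fun i hi => ?_⟩
  obtain ⟨h2, h3⟩ := Finset.mem_sdiff.1 hi
  exact (h1 i h2).lt_of_ne fun e => h3 (Finset.mem_singleton.2 (h i h2 j hj e))

variable {O : ValuationSubring L}

lemma val_const (hO : ∀ c : k, algebraMap k L c ∈ O) {c : k} (hc : c ≠ 0) :
    O.valuation (algebraMap k L c) = 1 := by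
  refine le_antisymm ((O.valuation_le_one_iff _).2 (hO c)) ?_
  have h1 := (O.valuation_le_one_iff _).2 (hO c⁻¹)
  rw [map_inv₀, map_inv₀] at h1
  exact (inv_le_one₀ (zero_lt_iff.2 ((Valuation.ne_zero_iff _).2 ((map_ne_zero _).2 hc)))).1 h1

lemma val_poly (h : ∀ i, t i ≠ 0) (hO : ∀ c : k, algebraMap k L c ∈ O)
    (hi : ∀ α, O.valuation (mon t α) = 1 → α = 0) (p : MvPolynomial (Fin n) k)
    (hp : MvPolynomial.aeval t p ≠ 0) :
    ∃ α, O.valuation (MvPolynomial.aeval t p) = O.valuation (mon t α) := by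
  have h0 : p ≠ 0 := fun e => hp (by rw [e, map_zero])
  have e : ∀ d ∈ p.support, O.valuation (MvPolynomial.aeval t (MvPolynomial.monomial d
      (MvPolynomial.coeff d p))) = O.valuation (mon t fun i => (d i : ℤ)) := fun d hd => by
    rw [aeval_mono, Algebra.smul_def, map_mul, val_const hO (MvPolynomial.mem_support_iff.1 hd),
      one_mul]
  obtain ⟨d, hd, h1⟩ := val_sum O (MvPolynomial.support_nonempty.2 h0)
    (fun d => MvPolynomial.aeval t (MvPolynomial.monomial d (MvPolynomial.coeff d p)))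
    fun d hd d' hd' h1 => by
      rw [e d hd, e d' hd'] at h1
      have h2 := hi ((fun i => (d i : ℤ)) - fun i => (d' i : ℤ)) (by
        rw [mon_sub h, map_div₀, h1, div_self ((Valuation.ne_zero_iff _).2 (mon_ne h _))])
      exact Finsupp.ext fun i => Int.ofNat_inj.1 (congrFun (sub_eq_zero.1 h2) i)
  rw [← map_sum, ← MvPolynomial.as_sum, e d hd] at h1
  exact ⟨_, h1⟩

lemma val_field (h : ∀ i, t i ≠ 0) (hO : ∀ c : k, algebraMap k L c ∈ O)
    (hi : ∀ α, O.valuation (mon t α) = 1 → α = 0) {x : L}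
    (hx : x ∈ IntermediateField.adjoin k (range t)) (h0 : x ≠ 0) :
    ∃ α, O.valuation x = O.valuation (mon t α) := by
  obtain ⟨p, q, rfl⟩ := (IntermediateField.mem_adjoin_range_iff k t x).1 hx
  obtain ⟨α, h1⟩ := val_poly h hO hi p (div_ne_zero_iff.1 h0).1
  obtain ⟨β, h2⟩ := val_poly h hO hi q (div_ne_zero_iff.1 h0).2
  exact ⟨α - β, by rw [mon_sub h, map_div₀, map_div₀, h1, h2]⟩

lemma val_alg (F : IntermediateField k L) [FiniteDimensional F L] (O : ValuationSubring L) {x : L}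
    (h0 : x ≠ 0) : ∃ (m : ℕ) (c : L), 0 < m ∧ m ≤ Module.finrank F L ∧ c ∈ F ∧ c ≠ 0 ∧
      O.valuation (x ^ m) = O.valuation c := by
  have hp : minpoly F x ≠ 0 := minpoly.ne_zero (IsIntegral.of_finite F x)
  have hd := minpoly.natDegree_le (A := F) x
  have hc : ∀ i ∈ (minpoly F x).support, (((minpoly F x).coeff i : F) : L) ≠ 0 := fun i hi e =>
    Polynomial.mem_support_iff.1 hi (Subtype.ext e)
  have key : ∀ i ∈ (minpoly F x).support, ∀ j ∈ (minpoly F x).support, j < i →
      O.valuation (((minpoly F x).coeff i : F) * x ^ i) =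
        O.valuation (((minpoly F x).coeff j : F) * x ^ j) → ∃ (m : ℕ) (c : L), 0 < m ∧
          m ≤ Module.finrank F L ∧ c ∈ F ∧ c ≠ 0 ∧ O.valuation (x ^ m) = O.valuation c := by
    intro i hi j hj hji e
    obtain ⟨m, rfl⟩ := Nat.exists_eq_add_of_le hji.le
    have h1 := Polynomial.le_natDegree_of_mem_supp _ hi
    refine ⟨m, ((minpoly F x).coeff j : F) / ((minpoly F x).coeff (j + m) : F), by omega, by omega,
      div_mem ((minpoly F x).coeff j).2 ((minpoly F x).coeff (j + m)).2,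
      div_ne_zero (hc j hj) (hc _ hi), ?_⟩
    rw [map_div₀, eq_div_iff ((Valuation.ne_zero_iff _).2 (hc _ hi))]
    refine mul_right_cancel₀ ((Valuation.ne_zero_iff O.valuation).2 (pow_ne_zero j h0)) ?_
    rw [← map_mul, ← map_mul, ← map_mul, ← e]
    exact congrArg O.valuation (by ring)
  by_contra hn
  obtain ⟨j, hj, h1⟩ := val_sum O (Polynomial.support_nonempty.2 hp)
    (fun i => (((minpoly F x).coeff i : F) : L) * x ^ i) fun i hi j hj e => by
      by_contra h2
      rcases lt_or_gt_of_ne h2 with h3 | h3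
      · exact hn (key j hj i hi h3 e.symm)
      · exact hn (key i hi j hj h3 e)
  have h2 : ∑ i ∈ (minpoly F x).support, (((minpoly F x).coeff i : F) : L) * x ^ i = 0 := by
    have h3 := minpoly.aeval F x
    rw [Polynomial.aeval_def, Polynomial.eval₂_eq_sum, Polynomial.sum_def] at h3
    exact h3
  rw [h2, map_zero] at h1
  exact (Valuation.ne_zero_iff _).2 (mul_ne_zero (hc j hj) (pow_ne_zero j h0)) h1.symm

end LexB

open LexB in
theorem st_LEX : St_LEX := fun k L _ _ _ _ n t ht hf => by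
  have h : ∀ i, t i ≠ 0 := ht.ne_zero
  obtain ⟨P, h1, h2⟩ := exists_place ht
  have hO : ∀ c : k, algebraMap k L c ∈ P.V := fun c => (h1 c).1
  have h3 : ∀ α, 0 < toLex α → P.V.valuation (mon t α) < 1 := fun α hα =>
    (P.ker ⟨_, (h2 α hα).1⟩).1 (h2 α hα).2
  have hi : ∀ α, P.V.valuation (mon t α) = 1 → α = 0 := fun α e => by
    rcases lt_trichotomy 0 (toLex α) with h4 | h4 | h4
    · exact absurd e (h3 α h4).ne
    · exact h4.symm
    · refine absurd ?_ (h3 ((0 : Fin n → ℤ) - α) (sub_pos (α := Lex (Fin n → ℤ)).2 h4)).ne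
      rw [mon_sub h, map_div₀, e, mon_zero, map_one, div_one]
  refine ⟨P.V, (Module.finrank (IntermediateField.adjoin k (range t)) L).factorial,
    Nat.factorial_pos _, hO, fun x hx => ⟨P.ρ ⟨x, hx⟩, ?_⟩, hi, fun x hx => ?_⟩
  · refine (P.ker (⟨x, hx⟩ - ⟨_, hO _⟩)).1 ?_
    rw [map_sub, (h1 _).2, sub_self]
  · obtain ⟨m, c, h4, h5, h6, h7, h8⟩ := val_alg (IntermediateField.adjoin k (range t)) P.V hx
    obtain ⟨α, h9⟩ := val_field h hO hi h6 h7
    obtain ⟨j, hj⟩ := Nat.dvd_factorial h4 h5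
    refine ⟨j • α, ?_⟩
    rw [hj, pow_mul, map_pow, h8, h9, ← map_pow, ← mon_nsmul h]
    rfl

end Pool.Agent.Lib.UR
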