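import Pool.Agent.Lib.UR.BlueB

/-! The orthogonality estimate. -/

open Module Submodule Set Filter Topology

noncomputable section

namespace Pool.Agent.Lib.UR

namespace S2

variable {k L : Type} [Field k] [Field L] [Algebra k L]

theorem mul_mem {V H Q : Submodule k L} {γ : L} {m b : ℕ}
    (hγ : span k {γ} * V ≤ cl (H ^ b) / Q ^ m) (i s u : ℕ) {x : L}
    (hx : x ∈ cl (V ^ i * H ^ s) / Q ^ u) :
    γ ^ i * x ∈ cl (H ^ (b * i + s)) / Q ^ (m * i + u) := by
  have h1 : span k {γ} * V * Q ^ m ≤ cl (H ^ b) := Submodule.le_div_iff_mul_le.1 hγ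
  have h2 : (span k {γ} ^ i * Q ^ (m * i)) * (V ^ i * H ^ s) ≤ cl (H ^ (b * i + s)) := by
    have h3 : (span k {γ} ^ i * Q ^ (m * i)) * (V ^ i * H ^ s) =
        (span k {γ} * V * Q ^ m) ^ i * H ^ s := by
      rw [mul_pow, mul_pow, pow_mul]; ring
    rw [h3, pow_add, pow_mul]
    exact (mul_le_mul' (pow_le_cl h1 i) (le_cl _)).trans (cl_mul_le _ _)
  refine mem_div_iff_forall_mul_mem.2 fun y hy => ?_
  rw [pow_add] at hy
  refine Submodule.mul_induction_on hy (fun a ha c hc => ?_) fun a c ha hc => ?_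
  · have h4 : γ ^ i * x * (a * c) = (γ ^ i * a) * (x * c) := by ring
    rw [h4]
    refine cl_le_cl h2 (mul_mem_cl (le_cl _ (mul_mem_mul ?_ ha))
      (mem_div_iff_forall_mul_mem.1 hx c hc))
    exact pow_mem_pow _ (mem_span_singleton_self γ) i
  · rw [mul_add]; exact add_mem ha hc

theorem finrank_le {S T : Submodule k L} [FiniteDimensional k T] {c : L} (hc : c ≠ 0)
    (h : ∀ x ∈ S, c * x ∈ T) : finrank k S ≤ finrank k T := by
  let f : S →ₗ[k] T := ((LinearMap.mulLeft k c).comp S.subtype).codRestrict T fun x => h x x.2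
  refine LinearMap.finrank_le_finrank_of_injective (f := f) fun x y hxy => ?_
  exact Subtype.ext (mul_left_cancel₀ hc (congrArg Subtype.val hxy))

end S2

theorem st_S2 (hASY : St_ASY) (hFD : St_FD) (hS2A : St_S2A) (hS2B : St_S2B) : St_S2 := by
  intro k L _ _ _ _ τ τ' τ'' _ _ _ v h q n hv hh hq hd C D₁ D₂ C₁ C₂ C₃ C₄ γ m b hγ hle M hM ε hε
  obtain ⟨e₁, hA⟩ := hS2A k L τ τ' v h (n + 1) hv hh hd C D₁ D₂
  obtain ⟨e₂, hB⟩ := hS2B k L τ τ' τ'' v h q n hv hh hq hd C₁ C₂ C₃ C₄ γ b hγ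
    (hle.trans (div_le_self' _ (one_mem_pow (one_mem_sys q) m)))
  have t1 := (hASY (n + 2) M e₁).2
  have t2 := (hASY (n + 1) M e₁).2
  have t3 := (hASY (n + 1) M (e₂ + (n + 1))).1
  have t4 := (hASY n (b * (M + 1)) (e₂ + n)).1
  have t := ((((t1.const_mul (C.deg : ℝ)).add (t2.const_mul ((b : ℝ) * D₂.deg))).sub
    (t3.const_mul ((m : ℝ) * C₂.deg))).sub
    (t4.const_mul ((m : ℝ) * b * C₄.deg))).const_mul ((n + 2).factorial : ℝ)
  have hf : (n.factorial : ℝ) ≠ 0 := Nat.cast_ne_zero.2 n.factorial_ne_zero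
  have hlim : (M : ℝ) ^ (n + 2) * C.deg + (n + 2) * b * (M : ℝ) ^ (n + 1) * D₂.deg -
      (n + 2) * m * (M : ℝ) ^ (n + 1) * C₂.deg -
      (n + 2) * (n + 1) * m * b * ((b : ℝ) * (M + 1)) ^ n * C₄.deg - ε <
      ((n + 2).factorial : ℝ) * ((C.deg : ℝ) * ((M : ℝ) ^ (n + 2) / (n + 2).factorial) +
        (b : ℝ) * D₂.deg * ((M : ℝ) ^ (n + 1) / (n + 1).factorial) -
        (m : ℝ) * C₂.deg * ((M : ℝ) ^ (n + 1) / (n + 1).factorial) -
        (m : ℝ) * b * C₄.deg * (((b * (M + 1) : ℕ) : ℝ) ^ n / n.factorial)) := by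
    refine (sub_lt_self _ hε).trans_eq ?_
    have h1 : (n : ℝ) + 1 ≠ 0 := by positivity
    have h2 : (n : ℝ) + 1 + 1 ≠ 0 := by positivity
    simp only [Nat.factorial_succ]
    push_cast
    field_simp
    ring
  filter_upwards [t.eventually (lt_mem_nhds hlim), eventually_ge_atTop e₁,
    eventually_gt_atTop 0] with j h1 h2 h3
  have hj : (0 : ℝ) < j := Nat.cast_pos.2 h3
  have h4 : j * M - e₁ + e₁ = j * M := Nat.sub_add_cancel (h2.trans (Nat.le_mul_of_pos_right j hM))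
  have hA' := hA (j * M - e₁) (j * b)
  rw [h4] at hA'
  have hB' := hB (j * M) (j * b) (j * m)
  have hd1 : FiniteDimensional k ↥(sys k h ^ (b * (j * M) + j * b)) := fd_pow _ _
  have hd2 := hFD k L τ' h (n + 2) hh hd (sys k h ^ (b * (j * M) + j * b)) inferInstance
  have hd3 : FiniteDimensional k
      ↥(cl (sys k h ^ (b * (j * M) + j * b)) / sys k q ^ (m * (j * M) + j * m)) :=
    Submodule.finiteDimensional_of_le (div_le_self' _ (one_mem_pow (one_mem_sys q) _))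
  have hC : finrank k ↥(cl (sys k v ^ (j * M) * sys k h ^ (j * b)) / sys k q ^ (j * m)) ≤
      gd k h q ((M + 1) * j * m) ((M + 1) * j * b) := by
    rw [show (M + 1) * j * m = m * (j * M) + j * m by ring,
      show (M + 1) * j * b = b * (j * M) + j * b by ring]
    exact S2.finrank_le (pow_ne_zero (j * M) hγ) fun x hx => S2.mul_mem hle _ _ _ hx
  have h5 := hA'.trans (hB'.trans (Nat.add_le_add_right hC _))
  rw [show j * M * b + j * b + e₂ + n = j * (b * (M + 1)) + (e₂ + n) by ring,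
    add_assoc (j * M) e₂ (n + 1)] at h5
  have h6 : ((C.deg * (j * M - e₁ + (n + 2)).choose (n + 2) +
      j * b * (D₂.deg * (j * M - e₁ + (n + 1)).choose (n + 1)) : ℕ) : ℝ) ≤
      ((gd k h q ((M + 1) * j * m) ((M + 1) * j * b) +
        j * m * (C₂.deg * (j * M + (e₂ + (n + 1))).choose (n + 1) +
          j * b * (C₄.deg * (j * (b * (M + 1)) + (e₂ + n)).choose n)) : ℕ) : ℝ) :=
    Nat.cast_le.2 h5
  push_cast at h6
  refine (mul_le_mul_of_nonneg_right h1.le (pow_pos hj _).le).trans ?_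
  rw [mul_assoc]
  refine mul_le_mul_of_nonneg_left ?_ (Nat.cast_nonneg _)
  refine le_trans (le_of_eq ?_) (sub_le_iff_le_add.2 h6)
  field_simp
  ring

end Pool.Agent.Lib.UR
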