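import Pool.Agent.Lib.UR.BlueB

/-! The lower bound for the sections of `i V + s H`. -/

open Module Set

set_option linter.unusedVariables false

noncomputable section

namespace Pool.Agent.Lib.UR

namespace S2A

theorem cl_div_one {k L : Type} [Field k] [Field L] [Algebra k L] (U : Submodule k L) :
    U / (1 : Submodule k L) = U := by
  refine le_antisymm (div_le_self' _ (Submodule.one_le.1 le_rfl)) fun x hx => ?_
  refine Submodule.mem_div_iff_forall_mul_mem.2 fun y hy => ?_
  obtain ⟨c, rfl⟩ := Submodule.mem_one.1 hy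
  rw [mul_comm, ← Algebra.smul_def]
  exact U.smul_mem c hx

end S2A

theorem st_S2A (hDIM : St_DIM) (hFD : St_FD) (hHSL : St_HSL) (hRES : St_RES) : St_S2A := by
  intro k L _ _ _ _ τ τ' _ _ v h n hv hh hD C C₁ C₂
  obtain ⟨hind, hD₁⟩ := hDIM k L τ' h 1 n hh (by rwa [add_comm]) C₁
  obtain ⟨-, e₁, he₁⟩ := hHSL k L τ v (n + 1) hv hD C
  obtain ⟨-, e₂, he₂⟩ := hHSL C₁.k' C₁.L' τ (C₁.map v) n (C₁.gen hv) hD₁ C₂
  refine ⟨e₁ + e₂, fun i s => ?_⟩
  have hfd : ∀ s : ℕ, FiniteDimensional k ↥(cl (sys k v ^ (i + (e₁ + e₂)) * sys k h ^ s)) := by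
    intro s
    have := fd_pow (sys k v) (i + (e₁ + e₂))
    have := fd_pow (sys k h) s
    exact hFD k L τ v (n + 1) hv hD _ (fd_mul _ _)
  induction s with
  | zero =>
    have := hfd 0
    rw [zero_mul, add_zero]
    refine (he₁ i).trans (Submodule.finrank_mono ?_)
    rw [pow_zero, mul_one]
    exact (pow_mono' (one_mem_sys v) (by omega)).trans (le_cl _)
  | succ s ih =>
    have h0 := hfd (s + 1)
    have h1 := hRES k L τ' h C₁ hind (sys k v ^ (i + (e₁ + e₂)) * sys k h ^ (s + 1)) 1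
      (by rw [S2A.cl_div_one]; exact h0)
    have h2 : cl (sys k v ^ (i + (e₁ + e₂)) * sys k h ^ (s + 1)) / (1 * sys k h) =
        cl (sys k v ^ (i + (e₁ + e₂)) * sys k h ^ s) := by
      rw [one_mul, pow_succ (sys k h), ← mul_assoc]
      exact cl_cancel _ (ne_bot_of_one (one_mem_sys h))
    rw [h2, S2A.cl_div_one] at h1
    have h3 := (C₁.finrank_up (cl (sys k v ^ (i + (e₁ + e₂)) * sys k h ^ (s + 1)))).1
    have h4 : C₂.deg * (i + n).choose n ≤
        finrank C₁.k' ↥(C₁.up (cl (sys k v ^ (i + (e₁ + e₂)) * sys k h ^ (s + 1)))) := by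
      refine (he₂ i).trans (Submodule.finrank_mono ?_)
      rw [← C₁.up_sys, ← C₁.up_pow]
      refine C₁.up_mono ((pow_mono' (one_mem_sys v) (show i + e₂ ≤ i + (e₁ + e₂) by omega)).trans
        (le_trans ?_ (le_cl _)))
      intro x hx
      simpa using Submodule.mul_mem_mul hx (one_mem_pow (one_mem_sys h) (s + 1))
    rw [h1, add_mul, one_mul, ← add_assoc]
    exact add_le_add ih h4

end Pool.Agent.Lib.UR
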