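import Pool.Agent.Lib.UR.BlueB

/-! The upper bound for the sections of `i V + s H` not vanishing along `u Q`. -/

open Module Submodule Set

noncomputable section

namespace Pool.Agent.Lib.UR

namespace S2B

variable {k L : Type} [Field k] [Field L] [Algebra k L]

theorem finrank_le {S T : Submodule k L} [FiniteDimensional k T] {c : L} (hc : c ≠ 0)
    (h : ∀ x ∈ S, c * x ∈ T) : finrank k S ≤ finrank k T := by
  let f : S →ₗ[k] T := ((LinearMap.mulLeft k c).comp S.subtype).codRestrict T fun x => h x x.2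
  refine LinearMap.finrank_le_finrank_of_injective (f := f) fun x y hxy => ?_
  exact Subtype.ext (mul_left_cancel₀ hc (congrArg Subtype.val hxy))

theorem mul_mem {V H : Submodule k L} {γ : L} {b : ℕ}
    (hγ : span k {γ} * V ≤ cl (H ^ b)) (i s : ℕ) {x : L} (hx : x ∈ cl (V ^ i * H ^ s)) :
    γ ^ i * x ∈ cl (H ^ (i * b + s)) := by
  have h2 : span k {γ} ^ i * (V ^ i * H ^ s) ≤ cl (H ^ (i * b + s)) := by
    rw [← mul_assoc, ← mul_pow, pow_add, mul_comm i b, pow_mul]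
    exact (mul_le_mul' (pow_le_cl hγ i) (le_cl _)).trans (cl_mul_le _ _)
  exact cl_le_cl h2 (mul_mem_cl (le_cl _ (pow_mem_pow _ (mem_span_singleton_self γ) i)) hx)

theorem up_le {A Z τ τ' : Type} [Fintype Z] {W : A → Z → L} (C : Cut k L W) {v : τ → L}
    {h : τ' → L} {γ : L} {b : ℕ} (hγ : span k {γ} * sys k v ≤ cl (sys k h ^ b)) :
    span C.k' {algebraMap L C.L' γ} * sys C.k' (C.map v) ≤ cl (sys C.k' (C.map h) ^ b) := by
  have h1 := (C.up_mono hγ).trans (C.up_cl _)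
  rwa [C.up_mul, C.up_pow, C.up_sys, C.up_sys, C.up_span, image_singleton] at h1

end S2B

theorem st_S2B (hDIM : St_DIM) (hFD : St_FD) (hHSU : St_HSU) (hUPP : St_UPP) : St_S2B := by
  intro k L _ _ _ _ τ τ' τ'' _ _ _ v h q n hv hh hq hd C₁ C₂ C₃ C₄ γ b hγ hle
  obtain ⟨-, hd₁⟩ := hDIM k L τ'' q 1 (n + 1) hq (by rwa [show 1 + (n + 1) = n + 2 by omega]) C₁
  obtain ⟨-, hd₃⟩ := hDIM C₁.k' C₁.L' τ' (C₁.map h) 1 n (C₁.gen hh) (by rwa [add_comm]) C₃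
  obtain ⟨e₁, he₁⟩ := hHSU C₁.k' C₁.L' τ (C₁.map v) (n + 1) (C₁.gen hv) hd₁ C₂
  obtain ⟨e₂, he₂⟩ := hHSU C₃.k' C₃.L' τ' (C₃.map (C₁.map h)) n (C₃.gen (C₁.gen hh)) hd₃ C₄
  refine ⟨e₁ + e₂, fun i s u => ?_⟩
  have f1 : FiniteDimensional k ↥(sys k v ^ i * sys k h ^ s) := by
    have := fd_pow (sys k v) i
    have := fd_pow (sys k h) s
    exact fd_mul _ _
  have f2 : FiniteDimensional C₁.k' ↥(sys C₁.k' (C₁.map h) ^ s) := fd_pow _ s
  have f3 : FiniteDimensional C₁.k' ↥(sys C₁.k' (C₁.map v) ^ i * sys C₁.k' (C₁.map h) ^ s) := by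
    have := fd_pow (sys C₁.k' (C₁.map v)) i
    exact fd_mul _ _
  have h1 := hUPP k L τ'' q (n + 1) hq hd C₁ _ f1 u
  rw [C₁.up_mul, C₁.up_pow, C₁.up_pow, C₁.up_sys, C₁.up_sys] at h1
  have h2 := hUPP C₁.k' C₁.L' τ' (C₁.map h) n (C₁.gen hh) hd₁ C₃ _ f3 s
  rw [C₃.up_mul, C₃.up_pow, C₃.up_pow, C₃.up_sys, C₃.up_sys,
    cl_cancel _ (ne_bot_of_one (one_mem_pow (one_mem_sys _) s))] at h2
  have h3 := (he₁ i).2.trans (Nat.mul_le_mul_left C₂.deg
    (Nat.choose_le_choose (n + 1) (show i + e₁ + (n + 1) ≤ i + (e₁ + e₂) + (n + 1) by omega)))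
  have h4 := (he₂ (i * b + s)).2.trans (Nat.mul_le_mul_left C₄.deg
    (Nat.choose_le_choose n (show i * b + s + e₂ + n ≤ i * b + s + (e₁ + e₂) + n by omega)))
  have f4 := (he₂ (i * b + s)).1
  have hγ' : algebraMap C₁.L' C₃.L' (algebraMap L C₁.L' γ) ≠ 0 :=
    (map_ne_zero _).2 ((map_ne_zero _).2 hγ)
  have h5 : finrank C₃.k' ↥(cl (sys C₃.k' (C₃.map (C₁.map v)) ^ i *
      sys C₃.k' (C₃.map (C₁.map h)) ^ s)) ≤
      finrank C₃.k' ↥(cl (sys C₃.k' (C₃.map (C₁.map h)) ^ (i * b + s))) :=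
    S2B.finrank_le (pow_ne_zero i hγ') fun x hx =>
      S2B.mul_mem (S2B.up_le C₃ (S2B.up_le C₁ hle)) i s hx
  exact h1.trans (Nat.add_le_add_left (Nat.mul_le_mul_left u
    (h2.trans (Nat.add_le_add h3 (Nat.mul_le_mul_left s (h5.trans h4))))) _)

end Pool.Agent.Lib.UR
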