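import Pool.Agent.Lib.UR.BlueB
import Pool.Agent.Lib.MP_7fcda1_ag.Rka

open scoped IntermediateField
open Module Set Filter Topology

set_option linter.unusedVariables false

noncomputable section

namespace Pool.Agent.Lib.UR

open Pool.Agent.Lib.MP_7fcda1_ag

namespace S3

variable {k L : Type} [Field k] [Field L] [Algebra k L] {n : ℕ}

/-- Laurent monomials. -/
def mon (t : Fin n → L) (α : Fin n → ℤ) : L := ∏ i, t i ^ α i

theorem mon_add {t : Fin n → L} (ht : ∀ i, t i ≠ 0) (α β : Fin n → ℤ) :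
    mon t (α + β) = mon t α * mon t β := by
  simp only [mon, Pi.add_apply, zpow_add₀ (ht _), Finset.prod_mul_distrib]

theorem mon_zero (t : Fin n → L) : mon t 0 = 1 := by simp [mon]

theorem mon_nsmul {t : Fin n → L} (ht : ∀ i, t i ≠ 0) (α : Fin n → ℤ) (r : ℕ) :
    mon t (r • α) = mon t α ^ r := by
  induction r with
  | zero => rw [zero_smul, mon_zero, pow_zero]
  | succ r ih => rw [succ_nsmul, mon_add ht, ih, pow_succ]

theorem mon_ne {t : Fin n → L} (ht : ∀ i, t i ≠ 0) (α : Fin n → ℤ) : mon t α ≠ 0 :=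
  Finset.prod_ne_zero_iff.2 fun i _ => zpow_ne_zero _ (ht i)

theorem core (O : ValuationSubring L) {t : Fin n → L} (ht : ∀ i, t i ≠ 0)
    (hinj : ∀ α, O.valuation (mon t α) = 1 → α = 0) {y : L} {e r : ℕ} {α β β' : Fin n → ℤ}
    (h1 : O.valuation (y ^ e) = O.valuation (mon t α))
    (h2 : O.valuation (y ^ (1 + e * r) * mon t β) = O.valuation (mon t β'))
    (h3 : ∀ a, |β' a - β a| < ((1 + e * r : ℕ) : ℤ)) : O.valuation y = 1 ∧ β = β' := by
  have hv : ∀ δ, O.valuation (mon t δ) ≠ 0 := fun δ => (map_ne_zero _).2 (mon_ne ht δ)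
  obtain ⟨lam, hl⟩ : ∃ lam, β' = lam + r • α + β := ⟨β' - β - r • α, by abel⟩
  have e1 : O.valuation y = O.valuation (mon t lam) := by
    have h4 := h2
    rw [hl, mon_add ht, mon_add ht, mon_nsmul ht, pow_add, pow_one, pow_mul, map_mul, map_mul,
      map_mul, map_mul, map_pow, h1, map_pow] at h4
    exact mul_right_cancel₀ (pow_ne_zero _ (hv α)) (mul_right_cancel₀ (hv β) h4)
  have e2 : (1 + e * r) • lam + β - β' = 0 := by
    refine hinj _ (mul_right_cancel₀ (hv β') ?_)
    rw [← map_mul, ← mon_add ht, sub_add_cancel, one_mul, mon_add ht, mon_nsmul ht, map_mul,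
      map_pow, ← e1, ← map_pow, ← map_mul, h2]
  have e3 : ∀ a, β' a - β a = ((1 + e * r : ℕ) : ℤ) * lam a := fun a => by
    have := congrFun e2 a
    rw [Pi.sub_apply, Pi.add_apply, Pi.smul_apply, nsmul_eq_mul, Pi.zero_apply] at this
    linarith
  have e4 : ∀ a, β' a - β a = 0 := fun a => Int.eq_zero_of_abs_lt_dvd ⟨_, e3 a⟩ (h3 a)
  have e5 : lam = 0 := funext fun a => by
    have := e3 a
    rw [e4 a] at this
    exact (mul_eq_zero.1 this.symm).resolve_left (by positivity)
  exact ⟨by rw [e1, e5, mon_zero, map_one], funext fun a => (sub_eq_zero.1 (e4 a)).symm⟩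

theorem prod_mem {ι : Type} (U : Submodule k L) (s : Finset ι) (u : ι → L) (h : ∀ a, u a ∈ U) :
    ∏ a ∈ s, u a ∈ U ^ s.card := by
  classical
  induction s using Finset.induction_on with
  | empty => simp [Submodule.one_eq_span]
  | insert a s ha ih =>
    rw [Finset.prod_insert ha, Finset.card_insert_of_notMem ha, pow_succ']
    exact Submodule.mul_mem_mul (h a) ih

theorem prod_ite (t : L) {b j : ℕ} (h : b ≤ j) :
    ∏ l ∈ Finset.range j, (if l < b then t else 1) = t ^ b := by
  rw [← Finset.prod_filter, Finset.prod_const]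
  congr 1
  rw [← Finset.card_range b]
  congr 1
  ext l
  simp only [Finset.mem_filter, Finset.mem_range, Finset.card_range]
  omega

theorem mem_pow {H V Γ : Submodule k L} {γ x : L} (hγ : γ ≠ 0) (h1 : (1 : L) ∈ H)
    (h : Γ * H ^ n ≤ Submodule.span k {γ} * V) (hx : x ∈ Γ) {t : Fin n → L} (ht : ∀ a, t a ∈ H)
    {j : ℕ} (β : Fin n → Fin j) : (x / γ) ^ j * mon t (fun a => ((β a : ℕ) : ℤ)) ∈ V ^ j := by
  have h2 : ∀ l : ℕ, x / γ * ∏ a, (if l < β a then t a else 1) ∈ V := fun l => by
    have h3 := prod_mem H Finset.univ (fun a => if l < β a then t a else 1) fun a => by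
      split_ifs
      exacts [ht a, h1]
    rw [Finset.card_univ, Fintype.card_fin] at h3
    obtain ⟨z, hz, h4⟩ := Submodule.mem_span_singleton_mul.1 (h (Submodule.mul_mem_mul hx h3))
    rw [div_mul_eq_mul_div, ← h4, mul_div_cancel_left₀ _ hγ]
    exact hz
  have h5 := prod_mem V (Finset.range j) _ h2
  rw [Finset.card_range, Finset.prod_mul_distrib, Finset.prod_const, Finset.card_range,
    Finset.prod_comm] at h5
  simp only [prod_ite _ (le_of_lt (β _).2)] at h5
  simpa only [mon, zpow_natCast] using h5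

theorem exists_t {τ : Type} [Fintype τ] {h : τ → L} (hh : Gen k h) (hd : Dim k L n) :
    ∃ t : Fin n → L, (∀ a, t a ∈ range h) ∧ AlgebraicIndependent k t ∧
      FiniteDimensional (IntermediateField.adjoin k (range t)) L := by
  obtain ⟨x, hx⟩ := hd
  have h1 : rk k (range x) = (n : ℕ∞) := by rw [rk_range_indep hx.1, Fintype.card_fin]
  have h2 : rk k (Set.univ : Set L) ≤ n := by
    rw [← h1]
    exact rk_le_of_alg fun s _ => hx.isAlgebraic_field.isAlgebraic s
  have h3 : rk k (Set.univ : Set L) ≤ rk k (range h) := rk_le_of_mem fun s _ => by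
    rw [show IntermediateField.adjoin k (range h) = ⊤ from hh]
    trivial
  obtain ⟨t, ht, hi⟩ := exists_indep (k := k) (S := range h) (j := n)
    (h1.ge.trans ((rk_mono (subset_univ _)).trans h3))
  refine ⟨t, ht, hi, finite_of_rk (S := range h) (finite_range h) (eq_top_iff.2 ?_)
    (ne_top_of_le_ne_top (ENat.natCast_ne_top n) ((rk_mono (subset_univ _)).trans h2)) ?_⟩
  · rw [← show IntermediateField.adjoin k (range h) = ⊤ from hh]
    exact IntermediateField.adjoin.mono _ _ _ subset_union_left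
  · refine h2.trans (le_trans ?_ (rk_mono (IntermediateField.subset_adjoin k (range t))))
    rw [rk_range_indep hi, Fintype.card_fin]

end S3

open S3 in
theorem st_S3 (hASY : St_ASY) (hHSU : St_HSU) (hLEX : St_LEX) (hVAL : St_VAL) : St_S3 := by
  intro k L _ _ _ _ _ τ τ' _ _ v h n hv hh hd C Γ γ hΓ hγ hle
  obtain ⟨t, ht, hi, hf⟩ := exists_t hh hd
  obtain ⟨O, e, he, hk, hres, hinj, hpow⟩ := hLEX k L n t hi hf
  obtain ⟨x, hx, hxi⟩ := (hVAL k L O hk).2 hres Γ hΓ
  obtain ⟨e', hb⟩ := hHSU k L τ v n hv hd C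
  have t0 : ∀ a, t a ≠ 0 := fun a h0 => hi.transcendental a (h0 ▸ isAlgebraic_zero)
  have tH : ∀ a, t a ∈ sys k h := fun a => by
    obtain ⟨b, hb⟩ := ht a
    exact hb ▸ mem_sys h b
  have key : ∀ r : ℕ, finrank k Γ * (1 + e * r) ^ n ≤ C.deg * (1 + e * r + e' + n).choose n := by
    intro r
    let z : Fin (finrank k Γ) × (Fin n → Fin (1 + e * r)) → L := fun p =>
      (x p.1 / γ) ^ (1 + e * r) * mon t (fun a => ((p.2 a : ℕ) : ℤ))
    have z0 : ∀ p, z p ≠ 0 := fun p =>
      mul_ne_zero (pow_ne_zero _ (div_ne_zero (hx _).2 hγ)) (mon_ne t0 _)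
    have zi : Function.Injective fun p => O.valuation (z p) := by
      rintro ⟨i, β⟩ ⟨i', β'⟩ hp
      obtain ⟨α, hα⟩ := hpow (x i / x i') (div_ne_zero (hx i).2 (hx i').2)
      have h0 : O.valuation ((x i' / γ) ^ (1 + e * r)) ≠ 0 :=
        (map_ne_zero _).2 (pow_ne_zero _ (div_ne_zero (hx _).2 hγ))
      have h1 : x i / γ = x i' / γ * (x i / x i') := by
        have := (hx i').2
        field_simp
      obtain ⟨h2, h3⟩ := core O t0 hinj (r := r) (β := fun a => ((β a : ℕ) : ℤ))
        (β' := fun a => ((β' a : ℕ) : ℤ)) hα (mul_left_cancel₀ h0 (by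
          rw [← map_mul, ← map_mul, ← mul_assoc, ← mul_pow, ← h1]
          exact hp)) fun a => by
        have h4 := (β a).2
        have h5 := (β' a).2
        rw [abs_lt]
        constructor <;> omega
      rw [map_div₀, div_eq_one_iff_eq ((map_ne_zero _).2 (hx i').2)] at h2
      refine Prod.ext (hxi h2) (funext fun a => Fin.ext ?_)
      exact_mod_cast congrFun h3 a
    have hli := (hVAL k L O hk).1 _ z z0 zi
    have := (hb (1 + e * r)).1
    have h6 : LinearIndependent k fun p => (⟨z p, le_cl _ (mem_pow hγ (one_mem_sys h) hle (hx _).1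
        tH _)⟩ : cl (sys k v ^ (1 + e * r))) := LinearIndependent.of_comp (Submodule.subtype _) hli
    have h7 := h6.fintype_card_le_finrank.trans (hb _).2
    simpa using h7
  have hT : Tendsto (fun r : ℕ => 1 + e * r) atTop atTop :=
    tendsto_atTop_mono (fun r => (Nat.le_mul_of_pos_left r he).trans (Nat.le_add_left _ _))
      tendsto_id
  have hL := (((hASY n 1 (e' + n)).1.comp hT).const_mul (C.deg : ℝ))
  have h8 : (finrank k Γ : ℝ) ≤ C.deg * (((1 : ℕ) : ℝ) ^ n / n.factorial) :=
    ge_of_tendsto' hL fun r => by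
      have h9 : (0 : ℝ) < ((1 + e * r : ℕ) : ℝ) ^ n := by positivity
      rw [Function.comp_apply, ← mul_div_assoc, le_div_iff₀ h9, mul_one, ← add_assoc]
      exact_mod_cast key r
  have h10 : (0 : ℝ) < n.factorial := by exact_mod_cast n.factorial_pos
  rw [Nat.cast_one, one_pow, ← mul_div_assoc, mul_one, le_div_iff₀ h10, mul_comm] at h8
  exact_mod_cast h8

end Pool.Agent.Lib.UR
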