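import Pool.Agent.Lib.UR.BlueB

/-! The effective threshold. -/

open Module Submodule Set Filter

noncomputable section

namespace Pool.Agent.Lib.UR

namespace THR

variable {k L τ τ' : Type} [Field k] [Field L] [Algebra k L]

theorem adj (h : τ → L) {x : L} (hx : x ∈ Algebra.adjoin k (range h)) :
    ∃ e : ℕ, x ∈ sys k h ^ e := by
  induction hx using Algebra.adjoin_induction with
  | mem x hx =>
    obtain ⟨j, rfl⟩ := hx
    exact ⟨1, by rw [pow_one]; exact mem_sys h j⟩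
  | algebraMap c =>
    exact ⟨1, by rw [pow_one, Algebra.algebraMap_eq_smul_one]; exact smul_mem _ _ (one_mem_sys h)⟩
  | add a b _ _ h1 h2 =>
    obtain ⟨e, h1⟩ := h1
    obtain ⟨e', h2⟩ := h2
    exact ⟨e + e', add_mem (pow_mono' (one_mem_sys h) (Nat.le_add_right _ _) h1)
      (pow_mono' (one_mem_sys h) (Nat.le_add_left _ _) h2)⟩
  | mul a b _ _ h1 h2 =>
    obtain ⟨e, h1⟩ := h1
    obtain ⟨e', h2⟩ := h2
    exact ⟨e + e', by rw [pow_add]; exact mul_mem_mul h1 h2⟩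

theorem den {h : τ → L} (hh : Gen k h) (s : Finset L) :
    ∃ e : ℕ, ∃ B ∈ sys k h ^ e, B ≠ 0 ∧ ∀ z ∈ s, B * z ∈ sys k h ^ e := by
  classical
  induction s using Finset.induction_on with
  | empty => exact ⟨0, 1, one_mem_pow (one_mem_sys h) 0, one_ne_zero, by simp⟩
  | insert z s _ ih =>
    obtain ⟨e, B, h1, h2, h3⟩ := ih
    obtain ⟨e', B', h4, h5, h6⟩ : ∃ e : ℕ, ∃ B ∈ sys k h ^ e, B ≠ 0 ∧ B * z ∈ sys k h ^ e := by
      have hz : z ∈ IntermediateField.adjoin k (range h) := by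
        rw [show IntermediateField.adjoin k (range h) = ⊤ from hh]
        trivial
      obtain ⟨r, hr, t, ht, rfl⟩ := IntermediateField.mem_adjoin_iff_div.1 hz
      by_cases t0 : t = 0
      · exact ⟨0, 1, one_mem_pow (one_mem_sys h) 0, one_ne_zero, by simp [t0]⟩
      obtain ⟨e, h1⟩ := adj h hr
      obtain ⟨e', h2⟩ := adj h ht
      refine ⟨e + e', t, pow_mono' (one_mem_sys h) (Nat.le_add_left _ _) h2, t0, ?_⟩
      rw [mul_div_cancel₀ _ t0]
      exact pow_mono' (one_mem_sys h) (Nat.le_add_right _ _) h1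
    refine ⟨e + e', B * B', by rw [pow_add]; exact mul_mem_mul h1 h4, mul_ne_zero h2 h5,
      fun y hy => ?_⟩
    rw [pow_add]
    rcases Finset.mem_insert.1 hy with rfl | hy
    · rw [mul_assoc]
      exact mul_mem_mul h1 h6
    · rw [mul_right_comm]
      exact mul_mem_mul (h3 y hy) h4

theorem nonempty [Fintype τ'] {h : τ → L} (hh : Gen k h) (q : τ' → L) :
    ∃ b : ℕ, cl (sys k h ^ b) / sys k q ^ 1 ≠ ⊥ := by
  classical
  obtain ⟨e, B, h1, h2, h3⟩ := den hh (Finset.univ.image q)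
  refine ⟨e, (Submodule.ne_bot_iff _).2 ⟨B, mem_div_iff_forall_mul_mem.2 fun y hy => le_cl _ ?_,
    h2⟩⟩
  rw [pow_one] at hy
  have : sys k q ≤ (sys k h ^ e).comap (LinearMap.mulLeft k B) :=
    sys_le (by simpa using h1) fun j => h3 _ (Finset.mem_image_of_mem q (Finset.mem_univ j))
  exact this hy

theorem pw {h : τ → L} {q : τ' → L} {m b : ℕ} {x : L} (hx : x ∈ cl (sys k h ^ b) / sys k q ^ m)
    (i : ℕ) : x ^ i ∈ cl (sys k h ^ (b * i)) / sys k q ^ (m * i) := by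
  rw [pow_mul, pow_mul]
  exact pow_mem_div hx i

end THR

open THR in
theorem st_THR (hEXC : St_EXC) (hFD : St_FD) (hHSU : St_HSU) (hHSL : St_HSL) : St_THR := by
  intro k L _ _ _ _ τ τ' _ _ h q n a N hh hn hyp
  have h1 := one_mem_sys (k := k) h
  have fd0 : ∀ b : ℕ, FiniteDimensional k ↥(cl (sys k h ^ b)) := fun b =>
    hFD k L τ h n hh hn _ (fd_pow _ b)
  have le0 : ∀ m b : ℕ, cl (sys k h ^ b) / sys k q ^ m ≤ cl (sys k h ^ b) := fun m b =>
    div_le_self' _ (one_mem_pow (one_mem_sys q) m)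
  have fd : ∀ m b : ℕ, FiniteDimensional k ↥(cl (sys k h ^ b) / sys k q ^ m) := fun m b =>
    haveI := fd0 b
    Submodule.finiteDimensional_of_le (le0 m b)
  have mono : ∀ (m : ℕ) {b b' : ℕ}, b ≤ b' →
      cl (sys k h ^ b) / sys k q ^ m ≤ cl (sys k h ^ b') / sys k q ^ m := fun m b b' hb =>
    div_le_div' (cl_mono (pow_mono' h1 hb)) le_rfl
  obtain ⟨C⟩ := hEXC k L _ _ (rep n h)
  refine ⟨fun m b b' hb => ?_, ?_, ?_⟩
  · have := fd m b'
    exact Submodule.finrank_mono (mono m hb)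
  · obtain ⟨e, he⟩ := hHSU k L τ h n hh hn C
    refine ⟨C.deg * (e + n + 1) ^ n, fun m b => ?_⟩
    have := fd0 b
    refine (Submodule.finrank_mono (le0 m b)).trans ((he b).2.trans ?_)
    rw [mul_assoc, ← mul_pow]
    refine Nat.mul_le_mul_left _ ((Nat.choose_le_pow _ _).trans (Nat.pow_le_pow_left ?_ n))
    nlinarith [Nat.zero_le ((e + n) * b)]
  have N0 : 0 < N := Nat.pos_of_ne_zero fun h0 => by
    have h2 := hyp 1 one_pos
    rw [h0, mul_zero, zero_mul, zero_add] at h2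
    refine ne_bot_of_one (mem_div_iff_forall_mul_mem.2 fun y hy => le_cl _ ?_) h2
    rw [one_mul]
    rw [pow_zero, ← pow_zero (sys k h)] at hy
    exact pow_mono' h1 zero_le_one hy
  let S : Set ℝ := {r | ∃ m b : ℕ, 0 < m ∧ cl (sys k h ^ b) / sys k q ^ m ≠ ⊥ ∧ r = (b : ℝ) / m}
  have S1 : S.Nonempty := by
    obtain ⟨b, hb⟩ := nonempty hh q
    exact ⟨_, 1, b, one_pos, hb, rfl⟩
  have S2 : ∀ r ∈ S, (a : ℝ) + 1 / N ≤ r := by
    rintro _ ⟨m, b, hm, hb, rfl⟩
    obtain ⟨x, hx, x0⟩ := (Submodule.ne_bot_iff _).1 hb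
    have h2 : m * N * a + m ≤ b * N := by
      by_contra h2
      have h3 := mono (m * N) (not_le.1 h2).le (pw hx N)
      rw [hyp m hm, Submodule.mem_bot] at h3
      exact pow_ne_zero N x0 h3
    have h3 : (m : ℝ) * N * a + m ≤ b * N := by exact_mod_cast h2
    have p1 : (0 : ℝ) < m := by exact_mod_cast hm
    have p2 : (0 : ℝ) < N := by exact_mod_cast N0
    rw [le_div_iff₀ p1, ← mul_le_mul_iff_left₀ p2]
    refine le_trans (le_of_eq ?_) h3
    field_simp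
  refine ⟨sInf S, ?_, fun m b hb => ?_, fun x hx => ?_⟩
  · have : (0 : ℝ) < 1 / N := by positivity
    linarith [le_csInf S1 S2]
  · by_contra h2
    rcases m.eq_zero_or_pos with rfl | hm
    · rw [Nat.cast_zero, mul_zero] at hb
      exact hb.not_ge (Nat.cast_nonneg b)
    have h3 : sInf S ≤ (b : ℝ) / m := csInf_le ⟨_, S2⟩ ⟨m, b, hm, h2, rfl⟩
    rw [le_div_iff₀ (by exact_mod_cast hm)] at h3
    exact hb.not_ge h3
  obtain ⟨_, ⟨m, b, hm, hb, rfl⟩, h2⟩ := exists_lt_of_csInf_lt S1 hx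
  obtain ⟨γ, hγ, γ0⟩ := (Submodule.ne_bot_iff _).1 hb
  have p1 : (0 : ℝ) < m := by exact_mod_cast hm
  rw [div_lt_iff₀ p1] at h2
  obtain ⟨δ, hδ⟩ : ∃ δ, δ = x * m - b := ⟨_, rfl⟩
  have δ0 : 0 < δ := by linarith
  obtain ⟨d0, e, he⟩ := hHSL k L τ h n hh hn C
  refine ⟨(δ / (2 * m)) ^ n / n.factorial, by positivity, frequently_atTop.2 fun A => ?_⟩
  obtain ⟨i, i1, i2⟩ : ∃ i : ℕ, A ≤ i ∧ 2 * (e : ℝ) ≤ i * δ := by
    obtain ⟨i, hi⟩ := exists_nat_ge (2 * (e : ℝ) / δ)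
    rw [div_le_iff₀ δ0] at hi
    refine ⟨A + i, Nat.le_add_right _ _, hi.trans ?_⟩
    push_cast
    nlinarith [mul_nonneg (Nat.cast_nonneg (α := ℝ) A) δ0.le]
  refine ⟨m * i, i1.trans (Nat.le_mul_of_pos_left i hm), ?_⟩
  have p2 : (0 : ℝ) ≤ i * δ := by positivity
  have p3 : (0 : ℝ) ≤ e := Nat.cast_nonneg e
  have e1 : ⌊x * ((m * i : ℕ) : ℝ)⌋₊ = ⌊i * δ⌋₊ + b * i := by
    rw [← Nat.floor_add_natCast p2, hδ]
    push_cast
    ring_nf
  obtain ⟨j, hj⟩ : ∃ j, ⌊i * δ⌋₊ = j + e :=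
    ⟨⌊i * δ⌋₊ - e, (Nat.sub_add_cancel (Nat.le_floor (by linarith))).symm⟩
  have j1 : i * δ / 2 ≤ (j : ℝ) + 1 := by
    have := Nat.lt_floor_add_one (i * δ)
    rw [hj] at this
    push_cast at this
    linarith
  have inj : Function.Injective (LinearMap.mulLeft k (γ ^ i)) :=
    mul_right_injective₀ (pow_ne_zero i γ0)
  have le1 : (sys k h ^ (j + e)).map (LinearMap.mulLeft k (γ ^ i)) ≤
      cl (sys k h ^ (j + e + b * i)) / sys k q ^ (m * i) := by
    rintro _ ⟨y, hy, rfl⟩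
    refine mem_div_iff_forall_mul_mem.2 fun z hz => ?_
    rw [LinearMap.mulLeft_apply, mul_comm _ y, mul_assoc, pow_add _ (j + e)]
    exact mul_mem_cl (le_cl _ hy) (mem_div_iff_forall_mul_mem.1 (pw hγ i) z hz)
  have le2 : (j + n).choose n ≤ gd k h q (m * i) (j + e + b * i) := by
    have := fd (m * i) (j + e + b * i)
    refine ((Nat.le_mul_of_pos_left _ d0).trans (he j)).trans ?_
    rw [(Submodule.equivMapOfInjective _ inj _).finrank_eq]
    exact Submodule.finrank_mono le1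
  have le3 := Nat.pow_le_choose (α := ℝ) n (j + n)
  rw [show j + n + 1 - n = j + 1 by omega] at le3
  rw [e1, hj]
  refine le_trans ?_ (le3.trans (by exact_mod_cast le2))
  rw [div_mul_eq_mul_div, ← mul_pow]
  refine div_le_div_of_nonneg_right (pow_le_pow_left₀ (by positivity) ?_ n) (by positivity)
  push_cast
  refine le_trans (le_of_eq ?_) j1
  field_simp

end Pool.Agent.Lib.UR
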