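import Pool.Agent.Lib.UR.BlueB

open Module Set

set_option linter.unusedVariables false

noncomputable section

namespace Pool.Agent.Lib.UR

namespace VAL

variable {k L : Type} [Field k] [Field L] [Algebra k L] {O : ValuationSubring L}

theorem val_smul (hO : ∀ c : k, algebraMap k L c ∈ O) {c : k} (hc : c ≠ 0) (x : L) :
    O.valuation (c • x) = O.valuation x := by
  have h1 := (O.valuation_le_one_iff _).2 (hO c)
  have h2 := (O.valuation_le_one_iff _).2 (hO c⁻¹)
  have h3 : O.valuation (algebraMap k L c) ≠ 0 :=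
    (Valuation.ne_zero_iff _).2 ((map_ne_zero _).2 hc)
  rw [map_inv₀, map_inv₀, inv_le_one₀ (zero_lt_iff.2 h3)] at h2
  rw [Algebra.smul_def, map_mul, le_antisymm h1 h2, one_mul]

theorem ind (hO : ∀ c : k, algebraMap k L c ∈ O) {ι : Type} (x : ι → L) (h0 : ∀ i, x i ≠ 0)
    (h : Function.Injective fun i => O.valuation (x i)) : LinearIndependent k x := by
  classical
  rw [linearIndependent_iff']
  intro s g hg i hi
  by_contra h1
  obtain ⟨j, hj, hmax⟩ := Finset.exists_max_image (s.filter fun i => g i ≠ 0)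
    (fun i => O.valuation (x i)) ⟨i, Finset.mem_filter.2 ⟨hi, h1⟩⟩
  obtain ⟨hj1, hj2⟩ := Finset.mem_filter.1 hj
  have h2 : O.valuation (x j) ≠ 0 := (Valuation.ne_zero_iff _).2 (h0 j)
  have h3 : O.valuation (∑ i ∈ s.erase j, g i • x i) < O.valuation (x j) := by
    refine O.valuation.map_sum_lt h2 fun i hi => ?_
    by_cases h4 : g i = 0
    · rw [h4, zero_smul, map_zero]
      exact zero_lt_iff.2 h2
    · rw [val_smul hO h4]
      exact lt_of_le_of_ne (hmax i (Finset.mem_filter.2 ⟨Finset.mem_of_mem_erase hi, h4⟩))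
        fun e => Finset.ne_of_mem_erase hi (h e)
  rw [← Finset.add_sum_erase _ _ hj1] at hg
  rw [eq_neg_of_add_eq_zero_right hg, Valuation.map_neg, val_smul hO hj2] at h3
  exact lt_irrefl _ h3

/-- The elements of value less than that of `u`. -/
def low (hO : ∀ c : k, algebraMap k L c ∈ O) {u : L} (hu : u ≠ 0) : Submodule k L where
  carrier := {x | O.valuation x < O.valuation u}
  zero_mem' := by
    change O.valuation 0 < _
    rw [map_zero]
    exact zero_lt_iff.2 ((Valuation.ne_zero_iff _).2 hu)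
  add_mem' := fun ha hb => O.valuation.map_add_lt ha hb
  smul_mem' := fun c a ha => by
    change O.valuation _ < _
    rw [Algebra.smul_def, map_mul]
    exact (mul_le_of_le_one_left' ((O.valuation_le_one_iff _).2 (hO c))).trans_lt ha

theorem flag (hO : ∀ c : k, algebraMap k L c ∈ O)
    (hr : ∀ x ∈ O, ∃ c : k, O.valuation (x - algebraMap k L c) < 1) (n : ℕ) :
    ∀ Γ : Submodule k L, FiniteDimensional k Γ → finrank k Γ = n → ∃ x : Fin n → L,
      (∀ i, x i ∈ Γ ∧ x i ≠ 0) ∧ Function.Injective fun i => O.valuation (x i) := by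
  induction n with
  | zero => exact fun Γ _ _ => ⟨Fin.elim0, fun i => i.elim0, fun i => i.elim0⟩
  | succ n ih =>
    intro Γ hΓ hn
    obtain ⟨u, hu, hmax⟩ := exists_max Γ O hO
    have h0 : u ≠ 0 := by
      rintro rfl
      have h1 : Γ = ⊥ := eq_bot_iff.2 fun y hy => by
        have := hmax hy
        rw [mem_ball, map_zero, le_zero_iff, map_eq_zero] at this
        exact this
      rw [h1, finrank_bot] at hn
      omega
    have hv : 0 < O.valuation u := zero_lt_iff.2 ((Valuation.ne_zero_iff _).2 h0)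
    have : FiniteDimensional k ↥(Γ ⊓ low hO h0) := Submodule.finiteDimensional_inf_left _ _
    have h1 : finrank k ↥(Γ ⊓ low hO h0) < finrank k Γ :=
      Submodule.finrank_lt_finrank_of_lt (lt_of_le_of_ne inf_le_left fun e =>
        lt_irrefl (O.valuation u) (e.ge hu).2)
    have h2 : Γ ≤ (Γ ⊓ low hO h0) ⊔ Submodule.span k {u} := fun y hy => by
      obtain ⟨c, hc⟩ := hr (y / u) ((O.valuation_le_one_iff _).1 (by
        rw [map_div₀, div_le_one₀ hv]
        exact hmax hy))
      refine Submodule.mem_sup.2 ⟨y - c • u, ⟨sub_mem hy (Γ.smul_mem c hu), ?_⟩, c • u,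
        Submodule.smul_mem _ c (Submodule.mem_span_singleton_self u), sub_add_cancel _ _⟩
      change O.valuation _ < _
      rw [← div_lt_one₀ hv, ← map_div₀, sub_div, Algebra.smul_def, mul_div_cancel_right₀ _ h0]
      exact hc
    have h3 := (Submodule.finrank_mono h2).trans
      (Submodule.finrank_add_le_finrank_add_finrank _ _)
    rw [finrank_span_singleton h0] at h3
    obtain ⟨x, hx, hi⟩ := ih (Γ ⊓ low hO h0) this (by omega)
    refine ⟨Fin.cons u x, Fin.cases ⟨hu, h0⟩ fun i => ⟨(hx i).1.1, (hx i).2⟩, ?_⟩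
    have e : (fun i => O.valuation ((Fin.cons u x : Fin (n + 1) → L) i)) =
        Fin.cons (O.valuation u) fun i => O.valuation (x i) := funext (Fin.cases rfl fun _ => rfl)
    rw [e, Fin.cons_injective_iff]
    exact ⟨fun ⟨i, h⟩ => (ne_of_lt (hx i).1.2) h, hi⟩

end VAL

theorem st_VAL : St_VAL := fun k L _ _ _ O hO =>
  ⟨fun ι x => VAL.ind hO x, fun hr Γ hΓ => VAL.flag hO hr _ Γ hΓ rfl⟩

end Pool.Agent.Lib.UR
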