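import Pool.Agent.Lib.UR.B_EXC
import Pool.Agent.Lib.UR.B_UNQ
import Pool.Agent.Lib.UR.B_SYM
import Pool.Agent.Lib.UR.B_DIM
import Pool.Agent.Lib.UR.B_GPO
import Pool.Agent.Lib.UR.B_SET
import Pool.Agent.Lib.UR.B_ASY
import Pool.Agent.Lib.UR.B_MON
import Pool.Agent.Lib.UR.B_POL
import Pool.Agent.Lib.UR.B_TRC
import Pool.Agent.Lib.UR.B_ALG
import Pool.Agent.Lib.UR.B_NOE
import Pool.Agent.Lib.UR.B_HSU
import Pool.Agent.Lib.UR.B_HSL
import Pool.Agent.Lib.UR.B_FD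
import Pool.Agent.Lib.UR.B_GAU
import Pool.Agent.Lib.UR.B_RES
import Pool.Agent.Lib.UR.B_UPP
import Pool.Agent.Lib.UR.B_S1
import Pool.Agent.Lib.UR.B_S2A
import Pool.Agent.Lib.UR.B_S2B
import Pool.Agent.Lib.UR.B_S2
import Pool.Agent.Lib.UR.B_LEX
import Pool.Agent.Lib.UR.B_VAL
import Pool.Agent.Lib.UR.B_S3
import Pool.Agent.Lib.UR.B_THR
import Pool.Agent.Lib.UR.B_ANA
import Pool.Agent.Lib.UR.B_LSC
import Pool.Agent.Lib.UR.B_CRV
import Pool.Agent.Lib.UR.B_B1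
import Pool.Agent.Lib.UR.B_BM
import Pool.Agent.Lib.UR.B_JSE
import Pool.Agent.Lib.UR.B_JPS
import Pool.Agent.Lib.UR.B_JDG
import Pool.Agent.Lib.UR.B_JB

/-! A canonical class which is not pseudo-effective is negative on a curve through the generic
point. -/

namespace Pool.Agent.Lib.UR

theorem negCurve : St_B := by
  have hEXC : St_EXC := st_EXC
  have hUNQ : St_UNQ := st_UNQ
  have hSYM : St_SYM := st_SYM hUNQ
  have hDIM : St_DIM := st_DIM
  have hGPO : St_GPO := st_GPO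
  have hSET : St_SET := st_SET hDIM
  have hASY : St_ASY := st_ASY
  have hMON : St_MON := st_MON
  have hPOL : St_POL := st_POL
  have hTRC : St_TRC := st_TRC
  have hALG : St_ALG := st_ALG
  have hNOE : St_NOE := st_NOE hMON hPOL hTRC hALG
  have hHSU : St_HSU := st_HSU hGPO hSET hNOE
  have hHSL : St_HSL := st_HSL hSET hMON
  have hFD : St_FD := st_FD hEXC hHSU
  have hGAU : St_GAU := st_GAU
  have hRES : St_RES := st_RES hGAU
  have hUPP : St_UPP := st_UPP hDIM hFD hRES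
  have hS1 : St_S1 := st_S1 hASY hDIM hHSU hHSL hUPP
  have hS2A : St_S2A := st_S2A hDIM hFD hHSL hRES
  have hS2B : St_S2B := st_S2B hDIM hFD hHSU hUPP
  have hS2 : St_S2 := st_S2 hASY hFD hS2A hS2B
  have hLEX : St_LEX := st_LEX
  have hVAL : St_VAL := st_VAL
  have hS3 : St_S3 := st_S3 hASY hHSU hLEX hVAL
  have hTHR : St_THR := st_THR hEXC hFD hHSU hHSL
  have hANA : St_ANA := st_ANA
  have hLSC : St_LSC := st_LSC
  have hCRV : St_CRV := st_CRV hHSU hHSL hLSC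
  have hB1 : St_B1 := st_B1 hLSC
  have hBM : St_BM := st_BM hEXC hSYM hDIM hTHR hS1 hS2 hS3 hCRV hANA hB1
  have hJSE : St_JSE := st_JSE
  have hJPS : St_JPS := st_JPS hJSE
  have hJDG : St_JDG := st_JDG
  exact st_JB hBM hJPS hJDG

end Pool.Agent.Lib.UR
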