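import Pool.Agent.Lib.UR.BlueB
import Pool.Agent.Lib.MP_7fcda1_ag.CT2

open scoped IntermediateField
open Module Set

set_option linter.unusedVariables false

noncomputable section

namespace Pool.Agent.Lib.UR

open Pool.Agent.Lib.MP_7fcda1_ag

namespace B1

variable {k L : Type} [Field k] [Field L] [Algebra k L] {τ : Type} [Fintype τ]

/-- A generating family of a function field has a transcendental member. -/
theorem exists_trans [IsFF k L] {h : τ → L} (hh : Gen k h) : ∃ j, Transcendental k (h j) := by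
  by_contra hc
  have h1 : ∀ x ∈ range h, IsIntegral k x := by
    rintro _ ⟨j, rfl⟩
    exact (not_not.1 fun hj => hc ⟨j, hj⟩ : IsAlgebraic k (h j)).isIntegral
  have h2 := IntermediateField.finiteDimensional_adjoin (K := k) (S := range h) h1
  rw [hh] at h2
  have h3 : FiniteDimensional k L := Module.Finite.equiv IntermediateField.topEquiv.toLinearEquiv
  obtain ⟨f, hf, -⟩ := IsFF.ex (κ := k) (L := L)
  exact hf (Algebra.IsAlgebraic.isAlgebraic f)

/-- A generating linear system has positive degree. -/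
theorem dg_pos [IsFF k L] {h : τ → L} (hh : Gen k h) : 0 < dg k (opt h) := by
  obtain ⟨j, hj⟩ := exists_trans hh
  obtain ⟨v, hv⟩ := exists_pole hj
  have h0 : opt h ≠ 0 := fun e => one_ne_zero (congrFun e none)
  have h1 : ∀ (V : ValuationSubring L) (i : Option τ), opt h i ≠ 0 →
      vord V (opt h) ≤ ord V (opt h i) := fun V i hi =>
    ((vge_iff h0).2 le_rfl i).resolve_left hi
  have h2 : vdiv k (opt h) ≤ Finsupp.single v (-1) := fun v' => by
    rw [vdiv_apply]
    by_cases e : v = v'
    · subst e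
      rw [Finsupp.single_eq_same]
      have hj0 : h j ≠ 0 := fun e => hj (by rw [e]; exact isAlgebraic_zero)
      have h3 : vord v.O (opt h) ≤ ord v.O (h j) := h1 v.O (some j) hj0
      omega
    · rw [Finsupp.single_eq_of_ne (Ne.symm e)]
      have h3 : vord v'.O (opt h) ≤ ord v'.O 1 := h1 v'.O none one_ne_zero
      rwa [ord_one] at h3
  have h3 := degD_mono h2
  rw [degD_single] at h3
  have h4 : (0 : ℤ) < v.deg := by exact_mod_cast v.deg_pos
  unfold dg
  omega

end B1

theorem st_B1 (hLSC : St_LSC) : St_B1 := by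
  intro k L _ _ _ τ τ' _ _ h q a N hh hd H
  have := Dim.isFF hh hd
  have hx := B1.dg_pos hh
  obtain ⟨c, hc⟩ := exists_RR k L
  by_contra hlt
  have h1 := (hc (((c + 1) * N) • vdiv k (opt q) -
    ((c + 1) * N * a + (c + 1)) • vdiv k (opt h))).1
  rw [← hLSC k L τ τ' h q, H (c + 1) c.succ_pos, finrank_bot, map_sub, map_nsmul, map_nsmul,
    nsmul_eq_mul, nsmul_eq_mul] at h1
  unfold dg at hx hlt
  push_cast at h1
  have h2 : (0 : ℤ) ≤ ((c : ℤ) + 1) * N * (a * -degD (vdiv k (opt h)) - -degD (vdiv k (opt q))) :=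
    mul_nonneg (by positivity) (sub_nonneg.2 (not_lt.1 hlt))
  have h3 : ((c : ℤ) + 1) * 1 ≤ ((c : ℤ) + 1) * -degD (vdiv k (opt h)) :=
    mul_le_mul_of_nonneg_left hx (by positivity)
  nlinarith

end Pool.Agent.Lib.UR
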