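import Pool.Agent.Lib.UR.AllB
import Pool.Agent.Lib.UR.MAll

/-! A smooth projective variety whose canonical class is not pseudo-effective is uniruled. -/

namespace Pool.Agent.Lib.UR

theorem uniruled_of_not_psef {L ι : Type} [Field L] [Algebra ℂ L] [Fintype ι] [Nonempty ι]
    {y : ι → L} {n : ℕ} (hn : 0 < n) (hL : Algebra.trdeg ℂ L = n) (hy : GD.SmoothModel y)
    (h : ¬ NV.Psef y n) : MP_e06174_ag.Uniruled ℂ L :=
  M.st_tm L ι y n hL hy (negCurve L ι y n hn hL hy h)

end Pool.Agent.Lib.UR
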