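import Pool.Agent.Lib.UR.MDefs

/-! Statements of the blocks of the bend-and-break half. -/

open MvPolynomial Module
open scoped IntermediateField

noncomputable section

namespace Pool.Agent.Lib.UR.M

open Pool.Agent.Lib.MP_7fcda1_ag

/-! ### Deformation -/

/-- The conormal sequence at `Y`. -/
def St_CON : Prop := ∀ (B Λ E : Type) [CommRing B] [Field E] (N ρ e : ℕ) (Q : Pres B N ρ e Λ)
  (φ : B →+* E) (Y : Fin (N + 1) → E), Q.At φ Y → ∀ γ : MvPolynomial (Fin (N + 1)) B →+ E,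
    (∀ a, ∀ g ∈ Ideal.span (Set.range Q.G), γ (a * g) = eval₂ φ Y a * γ g) →
      (fun l => γ (Q.G l)) ∈ Submodule.span E (Set.range (cols Q.G Q.S φ Y))

/-- Few equations: the deformation space has positive dimension. -/
def St_DEF : Prop := ∀ (B Λ k E : Type) [CommRing B] [Fintype Λ] [Field k] [Field E] [Algebra k E]
  [IsFF k E] (N ρ e m : ℕ) (Q : Pres B N ρ e Λ) (φ : B →+* k) (Y : Fin (N + 1) → E)
  (D A : Div k E) (s : Fin m → E), Q.At ((algebraMap k E).comp φ) Y → (∀ j, Y j ∈ Ls D) →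
    (∀ μ, s μ ∈ Ls (D - A)) → 0 ≤ A →
    finrank k (Gam (Submodule.span E (Set.range (cols Q.G Q.S ((algebraMap k E).comp φ) Y)))
      (e • D - A)) < (N + 1) * m →
    ∃ 𝔭 : Ideal (MvPolynomial (Fin (N + 1) × Fin m) k), 𝔭.IsPrime ∧
      𝔭 < RingHom.ker constantCoeff ∧ ∀ (l : Λ) (θ : E →ₗ[k] k)
        (g : MvPolynomial (Fin (N + 1) × Fin m) k), (∀ α, coeff α g =
          θ (coeff α (eval₂ (C.comp ((algebraMap k E).comp φ)) (univ Y s) (Q.G l)))) → g ∈ 𝔭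

/-- From coefficient functionals to points with values in any algebra. -/
def St_SEM : Prop := ∀ (k O E σ T : Type) [Field k] [CommRing O] [CommRing E] [CommRing T]
  [Algebra k O] [Algebra k E] [Algebra k T] (i : O →ₐ[k] E) (W : MvPolynomial σ O)
  (𝔭 : Ideal (MvPolynomial σ k)) (α : O →ₐ[k] T) (β : MvPolynomial σ k →ₐ[k] T),
    Function.Injective i → (∀ (θ : E →ₗ[k] k) (g : MvPolynomial σ k),
      (∀ a, coeff a g = θ (i (coeff a W))) → g ∈ 𝔭) → (∀ g ∈ 𝔭, β g = 0) →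
    eval₂ (α : O →+* T) (fun t => β (X t)) W = 0

/-- The dimension count. -/
def St_CNT : Prop := ∀ (B Λ k E : Type) [CommRing B] [Fintype Λ] [Field k] [Field E] [Algebra k E]
  [IsFF k E] (N ρ e c : ℕ) (Q : Pres B N ρ e Λ) (φ : B →+* k) (Y : Fin (N + 1) → E)
  (D A : Div k E), RR k E c → Q.At ((algebraMap k E).comp φ) Y → (∀ j, Y j ∈ Ls D) →
    (c : ℤ) < degD D - degD A →
    (finrank k (Gam (Submodule.span E (Set.range (cols Q.G Q.S ((algebraMap k E).comp φ) Y)))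
      (e • D - A)) : ℤ) ≤
      ρ * (e * degD D - degD A + c) - ht k (atup Q.G Q.S ((algebraMap k E).comp φ) Y)

/-! ### Bubbling -/

/-- Expansion in power series. -/
def St_EXP : Prop := ∀ (k E : Type) [Field k] [IsAlgClosed k] [Field E] [Algebra k E] [IsFF k E]
  (v : Place k E), ∃ ex : v.O →ₐ[k] PowerSeries k,
    ∀ (a : v.O) (M : ℕ), PowerSeries.X ^ M ∣ ex a ↔ Ge v.O M (a : E)

/-- A rank one valuation with a pole at a given transcendental element. -/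
def St_ARC : Prop := ∀ (k R : Type) [Field k] [CommRing R] [IsDomain R] [Algebra k R] (z : R),
  Transcendental k z → ∃ (Ω κ : Type) (_ : Field Ω) (_ : IsAlgClosed Ω) (_ : Field κ)
    (_ : Algebra k Ω) (_ : Algebra k κ) (i : R →ₐ[k] Ω) (P : Plc Ω κ), Function.Injective i ∧
      P.Over k ∧ i z ∉ P.V ∧ Arch P

/-- The general deformation of a base point free tuple is base point free. -/
def St_BPF : Prop := ∀ (k E R Ω ι : Type) [Field k] [Field E] [Algebra k E] [IsFF k E] [CommRing R]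
  [Algebra k R] [Field Ω] [Algebra k Ω] [Finite ι] (m : ℕ) (v : Place k E) (y : ι → v.O)
  (t : Fin m → v.O) (ε : R →ₐ[k] k) (z : ι × Fin m → R) (i₁ : R →ₐ[k] Ω) (i₂ : v.O →ₐ[k] Ω)
  (j₀ : ι), y j₀ = 1 → (∀ μ, Ge v.O 1 (t μ : E)) →
    (∀ μ, (t μ : E) ∈ Ls (-vdiv k fun j => (y j : E))) → (∀ a, ε (z a) = 0) →
    Function.Injective i₁ → ∃ j, i₂ (y j) + ∑ μ, i₂ (t μ) * i₁ (z (j, μ)) ≠ 0

/-- The walk through the tree of discs. -/
def St_WALK : Prop := ∀ (Ω κ ι : Type) [Field Ω] [IsAlgClosed Ω] [Field κ] [Finite ι] (P : Plc Ω κ)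
  (W : ι → Polynomial Ω) (π₀ : ι → Polynomial κ) (e : ℕ) (j₀ : ι)
  (Good : (ι → Polynomial κ) → Prop), (∀ j l, P.To ((W j).coeff l) ((π₀ j).coeff l)) →
    (π₀ j₀).coeff 0 ≠ 0 → (∀ j, (π₀ j).natDegree ≤ e) → (∃ j, 0 < (π₀ j).natDegree) →
    (∀ s ∈ P.V, ∃ j, (W j).eval s ≠ 0) →
    (∀ s ∈ P.V, ∀ r ∈ P.V, r ≠ 0 → ∀ π,
      P.In (fun j => (W j).comp (Polynomial.X + Polynomial.C s)) r π → Good π) →
    ∃ (π : ι → Polynomial κ) (d d' : ℕ) (c : κ), Good π ∧ d ≤ e ∧ (∀ j, (π j).natDegree ≤ d) ∧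
      (d' = 0 ∨ d' = d) ∧ c ≠ 0 ∧ (∀ j, (π j).coeff d' = c * (π₀ j).coeff 0) ∧
      ∃ j j', Polynomial.C ((π₀ j).coeff 0) * π j' ≠ Polynomial.C ((π₀ j').coeff 0) * π j

/-- A family of germs through a fixed point with a pole bubbles off a rational curve. -/
def St_BUB : Prop := ∀ (B Λ Ω κ ι : Type) [CommRing B] [Finite Λ] [Field Ω] [IsAlgClosed Ω]
  [Field κ] [Fintype ι] (P : Plc Ω κ) (φ : B →+* Ω) (φ' : B →+* κ) (G : Λ → MvPolynomial ι B)
  (δ e : ℕ) (Z a : ι → PowerSeries Ω) (x : ι → κ) (α β : Ω) (j₀ j₁ : ι), Arch P →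
    (∀ b, P.To (φ b) (φ' b)) → (∀ l, (G l).IsHomogeneous δ) →
    (∀ l, eval₂ (PowerSeries.C.comp φ) Z (G l) = 0) →
    (∀ j, P.To (PowerSeries.constantCoeff (Z j)) (x j)) → x j₀ ≠ 0 →
    (∀ j l, P.V.valuation (PowerSeries.coeff l (Z j)) ≤ P.V.valuation α) → α ∉ P.V →
    P.V.valuation (PowerSeries.coeff e (Z j₁)) = P.V.valuation α →
    (∀ j l, P.V.valuation (PowerSeries.coeff l (a j)) ≤ P.V.valuation β) →
    ∑ j, a j * Z j = 1 → RatCurve (fun l => map φ' (G l)) x e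

/-- Bend and break, for a curve with enough deformations. -/
def St_MM0 : Prop := ∀ (B Λ k E : Type) [CommRing B] [Fintype Λ] [Field k] [IsAlgClosed k]
  [Field E] [Algebra k E] [IsFF k E] (N ρ e c : ℕ) (Q : Pres B N ρ e Λ) (φ : B →+* k)
  (Y : Fin (N + 1) → E) (T : Finset (Place k E)), RR k E c →
    Q.At ((algebraMap k E).comp φ) Y → (∀ v ∈ T, ∀ j, Y j ∈ v.O) → T.Nonempty →
    (c : ℤ) < ht k Y - T.card →
    ρ * (e * ht k Y - T.card + c) - ht k (atup Q.G Q.S ((algebraMap k E).comp φ) Y) <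
      (N + 1) * (ht k Y - T.card - c) →
    ∃ v ∈ T, ∃ (x : Fin (N + 1) → k) (κ : Type) (_ : Field κ) (ψ : k →+* κ) (d : ℕ),
      (∀ j, Ge v.O 1 (Y j - algebraMap k E (x j))) ∧ (T.card : ℤ) * d ≤ ht k Y ∧
      RatCurve (fun l => map (ψ.comp φ) (Q.G l)) (fun j => ψ (x j)) d

/-- Bend and break in positive characteristic. -/
def St_MM : Prop := ∀ (B Λ k E : Type) [CommRing B] [Fintype Λ] [Field k] [IsAlgClosed k]
  [Field E] [Algebra k E] [IsFF k E] (p : ℕ) [Fact p.Prime] [CharP k p] (N ρ e : ℕ)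
  (Q : Pres B N ρ e Λ) (φ : B →+* k) (Y : Fin (N + 1) → E) (g₀ : MvPolynomial (Fin (N + 1)) B)
  (D : ℕ), Q.At ((algebraMap k E).comp φ) Y → 0 < ht k Y → ht k Y ≤ D →
    ((ρ : ℤ) * e - (N + 1)) * ht k Y < ht k (atup Q.G Q.S ((algebraMap k E).comp φ) Y) →
    eval₂ ((algebraMap k E).comp φ) Y g₀ ≠ 0 →
    ∃ (κ : Type) (_ : Field κ) (χ : B →+* κ) (x : Fin (N + 1) → κ), eval₂ χ x g₀ ≠ 0 ∧
      (∀ g, eval₂ ((algebraMap k E).comp φ) Y g = 0 → eval₂ χ x g = 0) ∧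
      RatCurve (fun l => map χ (Q.G l)) x (2 * (N + 2) * D)

/-! ### Reduction modulo a prime -/

/-- Comparison of heights through a pointwise inequality. -/
def St_DOM : Prop := ∀ (k E ι I : Type) [Field k] [Field E] [Algebra k E] [IsFF k E] [Finite ι]
  [Finite I] (Y : ι → E) (b : I → E) (M s : ℕ), Y ≠ 0 → 0 < M →
    (∀ c : ℕ, RR k E c → M * ht k Y + c < s * ht k b → ∃ z : E, z ≠ 0 ∧
      ∀ (v : Place k E) j, Ge v.O (s * vord v.O b) (z * Y j ^ M)) ∧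
    ∀ z : E, z ≠ 0 → (∀ (v : Place k E) j, Ge v.O (s * vord v.O b) (z * Y j ^ M)) →
      M * ht k Y ≤ s * ht k b

/-- Elementary facts on heights. -/
def St_HTS : Prop := ∀ (k E : Type) [Field k] [Field E] [Algebra k E] [IsFF k E],
  (∀ τ : E, Transcendental k τ → ht k ![1, τ] = finrank k⟮τ⟯ E ∧ 0 < finrank k⟮τ⟯ E) ∧
  ∀ (N : ℕ) (Y : Fin (N + 1) → E), Y 0 = 1 → (0 < ht k Y ↔ ∃ j, Transcendental k (Y j))

/-- The pointwise inequality survives reduction. -/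
def St_INT : Prop := ∀ (Ω F I : Type) [Field Ω] [Field F] [Algebra Ω F] [IsFF Ω F] [Finite I]
  (b : I → F) (u : F) (s : ℕ), (∀ v : Place Ω F, Ge v.O (s * vord v.O b) u) →
    ∃ s₀ : Set Ω, s₀.Finite ∧ ∀ (R : Subring Ω) (k E D : Type) [Field k] [Field E] [Field D]
      [Algebra k E] [IsFF k E] (π : R →+* k) (j : E →+* D) (P : Plc F D) (b' : I → E) (u' : E),
      s₀ ⊆ R → (∀ r : R, P.To (algebraMap Ω F r) (j (algebraMap k E (π r)))) →
      (∀ i, P.To (b i) (j (b' i))) → P.To u (j u') → b' ≠ 0 →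
      ∀ w : Place k E, Ge w.O (s * vord w.O b') u'

/-- Reduction of a function field. -/
def St_RED : Prop := ∀ (Ω F J : Type) [Field Ω] [Field F] [Algebra Ω F] [IsFF Ω F] [Finite J]
  (τ : F) (u : J → F) (s : Set Ω) (T : Set F), Transcendental Ω τ → s.Finite → T.Finite →
    (0 : F) ∉ T → ∃ (R : Subring Ω) (k E D : Type) (_ : Field k) (_ : IsAlgClosed k) (p : ℕ)
      (_ : Fact p.Prime) (_ : CharP k p) (_ : Field E) (_ : Field D) (_ : Algebra k E)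
      (_ : IsFF k E) (π : R →+* k) (j : E →+* D) (P : Plc F D) (τ' : E) (u' : J → E),
      s ⊆ R ∧ (∀ r : R, P.To (algebraMap Ω F r) (j (algebraMap k E (π r)))) ∧ P.To τ (j τ') ∧
      Transcendental k τ' ∧ (∀ i, P.To (u i) (j (u' i))) ∧ (∀ t ∈ T, P.V.valuation t = 1) ∧
      finrank k⟮τ'⟯ E ≤ finrank Ω⟮τ⟯ F ^ Nat.card J

/-- Unsolvable systems stay unsolvable under general specialisations. -/
def St_NUL : Prop := ∀ (B V Ω : Type) [CommRing B] [Finite V] [Field Ω] [IsAlgClosed Ω]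
  (A : Set (MvPolynomial V B)) (ψ : B →+* Ω), (¬ ∃ v : V → Ω, ∀ g ∈ A, eval₂ ψ v g = 0) →
    ∃ δ : B, ψ δ ≠ 0 ∧ ∀ (E : Type) [Field E] (φ : B →+* E), (∀ b, ψ b = 0 → φ b = 0) →
      φ δ ≠ 0 → ¬ ∃ v : V → E, ∀ g ∈ A, eval₂ φ v g = 0

/-- The same for rational curves of bounded degree. -/
def St_RCN : Prop := ∀ (B ι Λ Ω : Type) [CommRing B] [Finite ι] [Field Ω] [IsAlgClosed Ω]
  (G : Λ → MvPolynomial ι B) (x : ι → B) (D : ℕ) (ψ : B →+* Ω),
    ¬ RatCurve (fun l => map ψ (G l)) (fun j => ψ (x j)) D →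
    ∃ δ : B, ψ δ ≠ 0 ∧ ∀ (E : Type) [Field E] (φ : B →+* E), (∀ b, ψ b = 0 → φ b = 0) →
      φ δ ≠ 0 → ¬ RatCurve (fun l => map φ (G l)) (fun j => φ (x j)) D

/-! ### Uniruledness -/

/-- Ruled residue theorem. -/
def St_GAU : Prop := ∀ (Ω D : Type) [Field Ω] [IsAlgClosed Ω] [Field D] (P : Plc (RatFunc Ω) D)
  (K : Set D), (∀ b, b ∈ K ↔ ∃ a : Ω, P.To (algebraMap Ω (RatFunc Ω) a) b) →
    (∃ r b, P.To r b ∧ b ∉ K) → ∃ u : D, ∀ r b, P.To r b → b ∈ Subfield.closure (K ∪ {u})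

/-- One parameter too many can be specialised. -/
def St_RUL : Prop := ∀ (L Ω : Type) [Field L] [Field Ω] [IsAlgClosed Ω] [Algebra ℂ L] [Algebra ℂ Ω]
  (n : ℕ) (S : Set L) (σ : L →ₐ[ℂ] RatFunc Ω) (η : L), S.Finite →
    IntermediateField.adjoin ℂ S = ⊤ → Algebra.trdeg ℂ L = n → Algebra.trdeg ℂ Ω = n →
    σ η ∉ (algebraMap Ω (RatFunc Ω)).range → MP_e06174_ag.Uniruled ℂ L

/-- A rational curve through the generic point. -/
def St_UNI : Prop := ∀ (L Λ : Type) [Field L] [Algebra ℂ L] (N n e D : ℕ) (y : Fin (N + 1) → L)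
  (G : Λ → MvPolynomial (Fin (N + 1)) ℂ), y 0 = 1 → IsFractionRing (GD.chart y 0) L →
    Algebra.trdeg ℂ L = n → Eqs y e G →
    RatCurve (fun l => map (algebraMap ℂ (AlgebraicClosure L)) (G l))
      (fun j => algebraMap L (AlgebraicClosure L) (y j)) D → MP_e06174_ag.Uniruled ℂ L

/-! ### The smooth model -/

/-- Jacobian criterion. -/
def St_JAC : Prop := ∀ (L Λ : Type) [Field L] [Algebra ℂ L] [Finite Λ] (N n ρ e : ℕ)
  (y : Fin (N + 1) → L) (G : Λ → MvPolynomial (Fin (N + 1)) ℂ), GD.SmoothModel y →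
    Algebra.trdeg ℂ L = n → ρ + n = N → Eqs y e G → ∀ (i : Fin (N + 1)) (κ : Type) [Field κ]
      [Algebra ℂ κ] (ξ : Fin (N + 1) → κ), (∀ g : MvPolynomial (Fin (N + 1)) ℂ,
        aeval (fun j => y j / y i) g = 0 → aeval ξ g = 0) →
      ∃ S : Fin ρ → Fin (N + 1), atup G S (algebraMap ℂ κ) ξ ≠ 0

/-- The tangent space of the cone. -/
def St_TAN : Prop := ∀ (L : Type) [Field L] [Algebra ℂ L] (N n : ℕ) (y : Fin (N + 1) → L)
  (x : Fin n → L) (d : Fin n → Derivation ℂ L L), y 0 = 1 → IsFractionRing (GD.chart y 0) L →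
    (∀ a b, d a (x b) = if a = b then 1 else 0) → gaussT d y ≠ 0 ∧ n ≤ N ∧
    ∀ (e : ℕ) (g : MvPolynomial (Fin (N + 1)) ℂ), g.IsHomogeneous e → aeval y g = 0 →
      ∀ a, ∑ j, aeval y (pderiv j g) *
        (Fin.cons y fun a j => d a (y j) : Fin (n + 1) → Fin (N + 1) → L) a j = 0

/-- The certificate over the complex numbers. -/
def St_PRE : Prop := ∀ (L Λ : Type) [Field L] [Algebra ℂ L] [Finite Λ] (N m ρ e : ℕ)
  (y : Fin (N + 1) → L) (G : Λ → MvPolynomial (Fin (N + 1)) ℂ) (S : Fin ρ → Fin (N + 1))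
  (Θ : Fin m → Fin (N + 1) → L), y 0 = 1 → IsFractionRing (GD.chart y 0) L → Eqs y e G →
    atup G S (algebraMap ℂ L) y ≠ 0 → pl Θ ≠ 0 → ρ + m = N + 1 →
    (∀ l a, ∑ j, aeval y (pderiv j (G l)) * Θ a j = 0) →
    ∃ Q : Pres ℂ N ρ e Λ, Q.G = G ∧ Q.S = S ∧ Q.At (algebraMap ℂ L) y

/-- Descent of the certificate to a finitely generated subring. -/
def St_DSC : Prop := ∀ (K Λ : Type) [Field K] [Finite Λ] (N ρ e : ℕ) (Q : Pres K N ρ e Λ),
  ∃ (s : Set K) (Q' : Pres (Subring.closure s) N ρ e Λ), s.Finite ∧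
    (∀ l, map (Subring.closure s).subtype (Q'.G l) = Q.G l) ∧ Q'.S = Q.S ∧ Q'.I = Q.I ∧
    map (Subring.closure s).subtype Q'.δ = Q.δ

/-- Degree of the normal bundle. -/
def St_HT0 : Prop := ∀ (k E Λ ι : Type) [Field k] [Field E] [Algebra k E] [IsFF k E] [Fintype Λ]
  [Fintype ι] (ρ m : ℕ) (J : ι → Λ → E) (Θ : Fin m → ι → E) (D : Div k E) (S₀ : Fin ρ → ι),
    pl Θ ≠ 0 → Fintype.card ι = ρ + m → (∀ l a, ∑ j, J j l * Θ a j = 0) →
    (∀ (v : Place k E) j l, Ge v.O (-D v) (J j l)) →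
    (∀ v : Place k E, ∃ (S : Fin ρ → ι) (I : Fin ρ → Λ), pl (fun r => J (S r)) I ≠ 0 ∧
      ord v.O (pl (fun r => J (S r)) I) ≤ -(ρ * D v)) →
    (pl fun r => J (S₀ r)) ≠ 0 → ρ * degD D - ht k (pl Θ) ≤ ht k (pl fun r => J (S₀ r))

/-- The canonical degree in terms of the Jacobian minors. -/
def St_HT1 : Prop := ∀ (L Λ Ω F : Type) [Field L] [Algebra ℂ L] [Fintype Λ] [Field Ω] [Field F]
  [Algebra ℂ Ω] [Algebra Ω F] [Algebra ℂ F] [IsScalarTower ℂ Ω F] [IsFF Ω F] (σ : L →ₐ[ℂ] F)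
  (N n ρ e : ℕ) (y : Fin (N + 1) → L) (G : Λ → MvPolynomial (Fin (N + 1)) ℂ)
  (S : Fin ρ → Fin (N + 1)) (x : Fin n → L) (d : Fin n → Derivation ℂ L L), y 0 = 1 →
    GD.SmoothModel y → Algebra.trdeg ℂ L = n → ρ + n = N → Eqs y e G →
    (∀ a b, d a (x b) = if a = b then 1 else 0) → atup G S (algebraMap ℂ L) y ≠ 0 →
    ht Ω (fun S => σ (gaussT d y S)) < (n + 1) * ht Ω (fun j => σ (y j)) →
    0 < ht Ω (fun j => σ (y j)) ∧ ((ρ : ℤ) * e - (N + 1)) * ht Ω (fun j => σ (y j)) <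
      ht Ω (atup G S (algebraMap ℂ F) fun j => σ (y j))

/-- Transfer of the curve to positive characteristic. -/
def St_TRF : Prop := ∀ (B Λ Ω F : Type) [CommRing B] [Fintype Λ] [Field Ω] [Field F] [Algebra Ω F]
  [IsFF Ω F] (N ρ e : ℕ) (Q : Pres B N ρ e Λ) (φ : B →+* Ω) (Y : Fin (N + 1) → F) (s : Set Ω),
    s.Finite → (∀ b, φ b ∈ Subring.closure s) → Q.At ((algebraMap Ω F).comp φ) Y → 0 < ht Ω Y →
    ((ρ : ℤ) * e - (N + 1)) * ht Ω Y < ht Ω (atup Q.G Q.S ((algebraMap Ω F).comp φ) Y) →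
    ∃ D : ℕ, ∀ g₀ : MvPolynomial (Fin (N + 1)) B, eval₂ ((algebraMap Ω F).comp φ) Y g₀ ≠ 0 →
      ∃ (κ : Type) (_ : Field κ) (χ : B →+* κ) (x : Fin (N + 1) → κ), eval₂ χ x g₀ ≠ 0 ∧
        (∀ g, eval₂ ((algebraMap Ω F).comp φ) Y g = 0 → eval₂ χ x g = 0) ∧
        RatCurve (fun l => map χ (Q.G l)) x D

/-- The theorem for normalised coordinates. -/
def St_TM0 : Prop := ∀ (L : Type) [Field L] [Algebra ℂ L] (N n : ℕ) (y : Fin (N + 1) → L),
  y 0 = 1 → Algebra.trdeg ℂ L = n → GD.SmoothModel y → NegCurve y n → MP_e06174_ag.Uniruled ℂ L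

end Pool.Agent.Lib.UR.M
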