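import Pool.Agent.Lib.UR.Iface
import Pool.Agent.Lib.MP_7fcda1_ag.Bun2
import Pool.Agent.Lib.MP_7fcda1_ag.Plc1

/-! Definitions for the bend-and-break half. -/

open MvPolynomial

noncomputable section

namespace Pool.Agent.Lib.UR.M

open Pool.Agent.Lib.MP_7fcda1_ag

/-- A non-constant rational curve of degree at most `D` through `x` on the zero set of `G`. -/
def RatCurve {B ι Λ : Type} [CommRing B] (G : Λ → MvPolynomial ι B) (x : ι → B) (D : ℕ) : Prop :=
  ∃ P : ι → Polynomial B, (∀ j, (P j).natDegree ≤ D) ∧ (∀ l, aeval P (G l) = 0) ∧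
    (∀ j, (P j).coeff 0 = x j) ∧ ∃ j j', Polynomial.C (x j) * P j' ≠ Polynomial.C (x j') * P j

/-- Equations with a certificate that `ρ` of them generate the conormal module generically. -/
structure Pres (B : Type) [CommRing B] (N ρ e : ℕ) (Λ : Type) where
  G : Λ → MvPolynomial (Fin (N + 1)) B
  I : Fin ρ → Λ
  S : Fin ρ → Fin (N + 1)
  δ : MvPolynomial (Fin (N + 1)) B
  a : Λ → Fin ρ → MvPolynomial (Fin (N + 1)) B
  pos : 1 ≤ e
  hom : ∀ l, (G l).IsHomogeneous e
  rel : ∀ l, δ * G l - ∑ r, a l r * G (I r) ∈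
    (Ideal.span (Set.range G) ⊔ Ideal.span {X 0 - 1}) * Ideal.span (Set.range G)

section
variable {B ι Λ E : Type} [CommRing B] [CommRing E] {ρ : ℕ}

/-- Columns `S` of the Jacobian matrix at `Y`. -/
def cols (G : Λ → MvPolynomial ι B) (S : Fin ρ → ι) (φ : B →+* E) (Y : ι → E) :
    Fin ρ → Λ → E := fun r l => eval₂ φ Y (pderiv (S r) (G l))

/-- Minors of the Jacobian matrix with columns `S`. -/
def amin (G : Λ → MvPolynomial ι B) (S : Fin ρ → ι) : (Fin ρ → Λ) → MvPolynomial ι B :=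
  pl fun r l => pderiv (S r) (G l)

/-- Their values at `Y`. -/
def atup (G : Λ → MvPolynomial ι B) (S : Fin ρ → ι) (φ : B →+* E) (Y : ι → E) :
    (Fin ρ → Λ) → E := fun I => eval₂ φ Y (amin G S I)

theorem atup_eq (G : Λ → MvPolynomial ι B) (S : Fin ρ → ι) (φ : B →+* E) (Y : ι → E) :
    atup G S φ Y = pl (cols G S φ Y) :=
  (pl_map (eval₂Hom φ Y) fun r l => pderiv (S r) (G l)).symm

theorem hom_eval₂ {E' : Type} [CommRing E'] (χ : E →+* E') (φ : B →+* E) (Y : ι → E)
    (g : MvPolynomial ι B) : χ (eval₂ φ Y g) = eval₂ (χ.comp φ) (fun j => χ (Y j)) g :=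
  eval₂_comp_left χ φ Y g

theorem RatCurve.mono {G : Λ → MvPolynomial ι B} {x : ι → B} {D D' : ℕ} (h : RatCurve G x D)
    (hD : D ≤ D') : RatCurve G x D' :=
  h.imp fun _ h1 => ⟨fun j => (h1.1 j).trans hD, h1.2⟩

end

theorem to_eval₂ {B ι E D : Type} [CommRing B] [Field E] [Field D] {P : Plc E D} {φ : B →+* E}
    {φ' : B →+* D} (h : ∀ b, P.To (φ b) (φ' b)) {z : ι → E} {z' : ι → D}
    (hz : ∀ i, P.To (z i) (z' i)) (g : MvPolynomial ι B) :
    P.To (eval₂ φ z g) (eval₂ φ' z' g) := by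
  induction g using MvPolynomial.induction_on with
  | C b => simpa using h b
  | add f g hf hg => simpa only [eval₂_add] using hf.add hg
  | mul_X f i hf => simpa only [eval₂_mul, eval₂_X] using hf.mul (hz i)

/-- `Y` is a point of the zero set at which the certificate is non-degenerate. -/
structure Pres.At {B Λ E : Type} [CommRing B] [Field E] {N ρ e : ℕ} (Q : Pres B N ρ e Λ)
    (φ : B →+* E) (Y : Fin (N + 1) → E) : Prop where
  one : Y 0 = 1
  zero : ∀ l, eval₂ φ Y (Q.G l) = 0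
  del : eval₂ φ Y Q.δ ≠ 0
  min : atup Q.G Q.S φ Y Q.I ≠ 0

/-- The universal deformation of `Y` by the functions `s`. -/
def univ {E ι : Type} [CommRing E] {m : ℕ} (Y : ι → E) (s : Fin m → E) :
    ι → MvPolynomial (ι × Fin m) E := fun j => C (Y j) + ∑ μ, C (s μ) * X (j, μ)

/-- The valuation of `P` has rank one. -/
def Arch {E D : Type} [Field E] [Field D] (P : Plc E D) : Prop :=
  ∀ a b : E, P.V.valuation a < 1 → b ≠ 0 → ∃ N : ℕ, P.V.valuation a ^ N < P.V.valuation b

end Pool.Agent.Lib.UR.M
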