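import Pool.Agent.Lib.UR.MBlue
import Pool.Agent.Lib.MP_7fcda1_ag.BB1
import Pool.Agent.Lib.MP_7fcda1_ag.Gauss

/-! Block ARC: a rank one valuation with a pole at a given transcendental element. -/

open Polynomial

noncomputable section

namespace Pool.Agent.Lib.UR.M

open Pool.Agent.Lib.MP_7fcda1_ag

namespace ARC

/-- A transcendental element is a variable over a subfield, up to an algebraic extension. -/
theorem exists_base (k F : Type) [Field k] [Field F] [Algebra k F] (z : F)
    (hz : Transcendental k z) : ∃ K : IntermediateField k F, Transcendental K z ∧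
      Algebra.IsAlgebraic (Algebra.adjoin K ({z} : Set F)) F := by
  have h1 : AlgebraicIndepOn k id ({z} : Set F) := by
    unfold AlgebraicIndepOn
    rw [algebraicIndependent_singleton_iff (⟨z, rfl⟩ : ({z} : Set F))]
    exact hz
  obtain ⟨t, hzt, ht⟩ := exists_isTranscendenceBasis_superset h1
  have hzt' : z ∈ t := hzt rfl
  let s : Set t := {i | i ≠ ⟨z, hzt'⟩}
  refine ⟨IntermediateField.adjoin k (((↑) : t → F) '' s), ?_, ?_⟩
  · rw [IntermediateField.transcendental_adjoin_iff]
    exact ht.1.transcendental_adjoin (s := s) (i := ⟨z, hzt'⟩) (fun h => h rfl)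
  · have h2 := ht.isAlgebraic
    constructor
    intro a
    have h3 := h2.isAlgebraic a
    have hle : Algebra.adjoin k (Set.range ((↑) : t → F)) ≤
        (Algebra.adjoin (IntermediateField.adjoin k (((↑) : t → F) '' s))
          ({z} : Set F)).restrictScalars k := by
      rw [Algebra.adjoin_le_iff]
      rintro _ ⟨i, rfl⟩
      by_cases hi : i = ⟨z, hzt'⟩
      · subst hi
        exact Algebra.subset_adjoin rfl
      · exact Subalgebra.algebraMap_mem
          (Algebra.adjoin (IntermediateField.adjoin k (((↑) : t → F) '' s)) ({z} : Set F))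
          ⟨i, IntermediateField.subset_adjoin _ _ ⟨i, hi, rfl⟩⟩
    exact h3.tower_top_of_subalgebra_le hle

/-- The variable of the power series ring is transcendental. -/
theorem trans_X (K E : Type) [Field K] [Field E] [Algebra (PowerSeries K) E] [Algebra K E]
    [IsScalarTower K (PowerSeries K) E] [FaithfulSMul (PowerSeries K) E] :
    Transcendental K (algebraMap (PowerSeries K) E PowerSeries.X) := by
  rw [transcendental_algebraMap_iff (FaithfulSMul.algebraMap_injective _ _)]
  rw [transcendental_iff]
  intro p hp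
  apply Polynomial.coe_injective
  rw [Polynomial.aeval_def] at hp
  have : (p : PowerSeries K) = 0 := by
    rw [← Polynomial.eval₂_C_X_eq_coe]
    exact hp
  simpa using this

/-- An embedding with a prescribed transcendental value. -/
theorem exists_emb (K F Ω : Type) [Field K] [Field F] [Field Ω] [IsAlgClosed Ω] [Algebra K F]
    [Algebra K Ω] (z : F) (w : Ω) (hz : Transcendental K z) (hw : Transcendental K w)
    [Algebra.IsAlgebraic (Algebra.adjoin K ({z} : Set F)) F] :
    ∃ i : F →ₐ[K] Ω, i z = w := by
  let e := Polynomial.algEquivOfTranscendental K z hz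
  let f : Algebra.adjoin K ({z} : Set F) →ₐ[K] Ω := (aeval w).comp e.symm.toAlgHom
  have hf : Function.Injective f :=
    (transcendental_iff_injective.1 hw).comp e.symm.injective
  let _ : Algebra (Algebra.adjoin K ({z} : Set F)) Ω := f.toRingHom.toAlgebra
  have _ : FaithfulSMul (Algebra.adjoin K ({z} : Set F)) Ω :=
    (faithfulSMul_iff_algebraMap_injective _ _).2 hf
  have _ : IsScalarTower K (Algebra.adjoin K ({z} : Set F)) Ω :=
    IsScalarTower.of_algebraMap_eq fun c => (f.commutes c).symm
  let g : F →ₐ[Algebra.adjoin K ({z} : Set F)] Ω := IsAlgClosed.lift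
  refine ⟨g.restrictScalars K, ?_⟩
  have h1 := g.commutes ⟨z, Algebra.subset_adjoin rfl⟩
  refine h1.trans ?_
  change aeval w (e.symm ⟨z, _⟩) = w
  have : e.symm ⟨z, Algebra.subset_adjoin rfl⟩ = X := by
    rw [AlgEquiv.symm_apply_eq]
    ext
    simp [e]
  rw [this, aeval_X]

/-- An algebraically closed rank one valued field with a small transcendental element. -/
theorem exists_val (K : Type) [Field K] : ∃ (Ω : Type) (_ : Field Ω) (_ : IsAlgClosed Ω)
    (_ : Algebra K Ω) (t : Ω) (O : ValuationSubring Ω), Transcendental K t ∧ O.valuation t < 1 ∧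
      (∀ c, algebraMap K Ω c ∈ O) ∧
      ∀ a b : Ω, O.valuation a < 1 → b ≠ 0 → ∃ N : ℕ, O.valuation a ^ N < O.valuation b := by
  let Q := FractionRing (PowerSeries K)
  let Ω := AlgebraicClosure Q
  have _ : FaithfulSMul (PowerSeries K) Ω := by
    rw [faithfulSMul_iff_algebraMap_injective, IsScalarTower.algebraMap_eq (PowerSeries K) Q Ω]
    exact (algebraMap Q Ω).injective.comp (IsFractionRing.injective _ _)
  have _ : Algebra.IsAlgebraic (PowerSeries K) Ω :=
    (IsFractionRing.comap_isAlgebraic_iff (A := PowerSeries K) (K := Q) (C := Ω)).2 inferInstance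
  obtain ⟨O, hO, hX, harch⟩ := exists_valued (Ω := K) (E := Ω)
  refine ⟨Ω, inferInstance, inferInstance, inferInstance, _, O, trans_X K Ω, hX, fun c => ?_, harch⟩
  rw [IsScalarTower.algebraMap_apply K (PowerSeries K) Ω]
  exact hO _

end ARC

theorem st_arc : St_ARC := by
  intro k R _ _ _ _ z hz
  let F := FractionRing R
  have hzF : Transcendental k (algebraMap R F z) :=
    (transcendental_algebraMap_iff (IsFractionRing.injective R F)).2 hz
  obtain ⟨K, hK, halg⟩ := ARC.exists_base k F _ hzF
  obtain ⟨Ω, _, _, _, t, O, ht, hX, hO, harch⟩ := ARC.exists_val K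
  have ht' : Transcendental K t⁻¹ := fun h => ht (IsAlgebraic.inv_iff.1 h)
  obtain ⟨i, hi⟩ := ARC.exists_emb K F Ω _ _ hK ht'
  let _ : Algebra k Ω := ((algebraMap K Ω).comp (algebraMap k K)).toAlgebra
  have _ : IsScalarTower k K Ω := IsScalarTower.of_algebraMap_eq fun _ => rfl
  have hk : ∀ c : k, algebraMap k Ω c ∈ O := fun c => hO _
  obtain ⟨κ, _, _, P, hP, hov⟩ := Gauss_exists_res k O hk
  refine ⟨Ω, κ, inferInstance, inferInstance, inferInstance, inferInstance, inferInstance,
    (i.restrictScalars k).comp (IsScalarTower.toAlgHom k R F), P,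
    i.injective.comp (IsFractionRing.injective R F), hov, ?_, ?_⟩
  · change i (algebraMap R F z) ∉ P.V
    rw [hi, hP, ← O.valuation_le_one_iff, map_inv₀, not_le]
    refine (one_lt_inv₀ ?_).2 hX
    rw [zero_lt_iff, Valuation.ne_zero_iff]
    intro h
    exact ht (h ▸ isAlgebraic_zero)
  · intro a b
    rw [hP]
    exact harch a b

end Pool.Agent.Lib.UR.M
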